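import Pool.Agent.Work.MP_1ce82a_an.J.Rec
import Pool.Agent.Work.MP_1ce82a_an.J.JacT
import Pool.Agent.Work.MP_1ce82a_an.A.Lsc
import Pool.Agent.Work.MP_1ce82a_an.F.Cacc

-- merged part: Pool.Agent.Work.MP_1ce82a_an.U.Flow
section
/-! The flow of an invariant vector field is complete.

PLAN. `R0` from `Surf.exists_R0`; `χ` a bump equal to one on the ball of radius `R0 + 1`; `χ • X` is
`C¹` with compact support, so bounded by some `M` and globally Lipschitz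
(`ContDiff.lipschitzWith_of_hasCompactSupport`); `exists_flow` of `MP_05654f_an/Flow` gives its flow,
which stays in the ball of radius `R0 + 1` for `|t| ≤ t₁ = 1 / (M + 1)` when `‖x‖ ≤ R0`. By
invariance (`Surf.hasDerivAt_smul`) every point has an integral curve of `X` on `(-t₁, t₁)`.
Uniqueness of integral curves of the locally Lipschitz field `X` on intervals
(`ODE_solution_unique_of_mem_Ioo` or `_Icc` on a ball containing both curves). Global curves:
either `exists_isMIntegralCurve_of_isMIntegralCurveOn` (uniform time lemma, model `𝓘(ℝ, E)`) or by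
hand (induction on `n`: curves on `(-n t₁ / 2, n t₁ / 2)`, glued by uniqueness). `add`, `eqv` from
uniqueness. `gron`: first show that the points `φ x t`, `‖x‖ ≤ R`, `|t| ≤ T`, stay in a ball
(induction in steps `t₁ / 2`: if `‖y‖ ≤ R'` then `y = γ⁻¹ • y'` with `γ` in the finite set of
`Surf.finite_ball`, `Surf.lip_unif`), then Gronwall (`dist_le_of_trajectories_ODE_of_mem`, or
`gron_lip` of `A/Gron`). About 300 lines. -/

set_option linter.unusedVariables false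

open Set Filter Topology MeasureTheory
open scoped ContDiff

namespace Pool.Agent.Work.MP_1ce82a_an.U

variable {Γ : Grp}

open MP_05654f_an (IsFlow exists_flow)

/-- Truncation of the field outside a ball. -/
theorem Flow_trunc {X : E → E} (hX : ContDiff ℝ 1 X) (R : ℝ) : ∃ (F : E → E) (K : NNReal) (M : ℝ),
    LipschitzWith K F ∧ (∀ x, ‖x‖ ≤ R → F x = X x) ∧ 0 ≤ M ∧ ∀ x, ‖F x‖ ≤ M := by
  let χ : ContDiffBump (0 : E) := ⟨|R| + 1, |R| + 2, by positivity, by linarith only []⟩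
  have h1 : HasCompactSupport fun x => χ x • X x := χ.hasCompactSupport.smul_right
  have h2 : ContDiff ℝ 1 fun x => χ x • X x := χ.contDiff.smul hX
  obtain ⟨K, hK⟩ := ContDiff.lipschitzWith_of_hasCompactSupport h1 h2 one_ne_zero
  obtain ⟨M, hM⟩ := h2.continuous.bounded_above_of_compact_support h1
  refine ⟨_, K, M, hK, fun x hx => ?_, (norm_nonneg _).trans (hM 0), hM⟩
  rw [χ.one_of_mem_closedBall (mem_closedBall_zero_iff.2 ?_), one_smul]
  exact hx.trans ((le_abs_self R).trans (le_add_of_nonneg_right zero_le_one))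

/-- Uniqueness of integral curves. -/
theorem Flow_uniq {X : E → E} (hX : ContDiff ℝ 1 X) {α β : ℝ → E} {a b : ℝ}
    (hα : ∀ t ∈ Icc a b, HasDerivAt α (X (α t)) t) (hβ : ∀ t ∈ Icc a b, HasDerivAt β (X (β t)) t)
    {t₀ t : ℝ} (h0 : t₀ ∈ Icc a b) (e : α t₀ = β t₀) (ht : t ∈ Icc a b) : α t = β t := by
  obtain ⟨A, hA⟩ := isCompact_Icc.exists_bound_of_continuousOn
    fun s hs => (hα s hs).continuousAt.continuousWithinAt
  obtain ⟨B, hB⟩ := isCompact_Icc.exists_bound_of_continuousOn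
    fun s hs => (hβ s hs).continuousAt.continuousWithinAt
  obtain ⟨F, K, -, hF, eF, -⟩ := Flow_trunc hX (max A B)
  obtain ⟨ψ, hψ⟩ := exists_flow hF
  rw [hψ.unique_Icc hF (x := α)
      (fun s hs => (eF _ ((hA s hs).trans (le_max_left _ _))).symm ▸ hα s hs) h0 ht,
    hψ.unique_Icc hF (x := β)
      (fun s hs => (eF _ ((hB s hs).trans (le_max_right _ _))).symm ▸ hβ s hs) h0 ht, e]

/-- Integral curves for a uniform time, with bounds. -/
theorem Flow_loc (hS : Surf Γ) {X : E → E} (hX : ContDiff ℝ 1 X)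
    (hi : ∀ (γ : Γ) (x : E), X (γ • x) = dk γ x (X x)) : ∃ δ : ℝ, 0 < δ ∧ ∀ R : ℝ, ∃ C : ℝ,
      ∀ x : E, ‖x‖ ≤ R → ∃ α : ℝ → E, α 0 = x ∧
        ∀ t ∈ Icc (-δ) δ, HasDerivAt α (X (α t)) t ∧ ‖α t‖ ≤ C := by
  obtain ⟨R0, -, h0⟩ := hS.exists_R0
  obtain ⟨F, K, M, hF, eF, M0, hM⟩ := Flow_trunc hX (R0 + 1)
  obtain ⟨ψ, hψ⟩ := exists_flow hF
  have p : 0 < M + 1 := by linarith only [M0]
  refine ⟨1 / (M + 1), by positivity, fun R => ?_⟩
  obtain ⟨C, -, hC⟩ := hS.lip_unif (R0 + 1) R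
  refine ⟨C, fun x hx => ?_⟩
  obtain ⟨γ, hγ⟩ := h0 x
  have bd : ∀ t ∈ Icc (-(1 / (M + 1))) (1 / (M + 1)), ‖ψ t (γ • x)‖ ≤ R0 + 1 := fun t ht => by
    have h1 := (convex_univ (𝕜 := ℝ) (E := ℝ)).norm_image_sub_le_of_norm_hasDerivWithin_le
      (fun s _ => (hψ.deriv (γ • x) s).hasDerivWithinAt) (fun s _ => hM _) (mem_univ 0) (mem_univ t)
    rw [hψ.zero, sub_zero, Real.norm_eq_abs] at h1
    have h2 : M * |t| ≤ 1 := by
      have h3 := (le_div_iff₀ p).1 (abs_le.2 ht)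
      linarith only [h3, abs_nonneg t]
    linarith only [hγ, h1, h2, norm_sub_norm_le (ψ t (γ • x)) (γ • x)]
  refine ⟨fun t => γ⁻¹ • ψ t (γ • x), by simp only [hψ.zero, inv_smul_smul], fun t ht => ⟨?_, ?_⟩⟩
  · rw [hi, ← eF _ (bd t ht)]
    exact hS.hasDerivAt_smul γ⁻¹ (hψ.deriv (γ • x) t)
  · exact (hC γ⁻¹ (γ • x) (by linarith only [hγ]) (by rwa [inv_smul_smul]) _ _ (bd t ht) (bd t ht)).1

/-- A priori bound for the flows of the truncated fields. -/
theorem Flow_bd (hS : Surf Γ) {X : E → E} (hX : ContDiff ℝ 1 X)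
    (hi : ∀ (γ : Γ) (x : E), X (γ • x) = dk γ x (X x)) (R T : ℝ) : ∃ C : ℝ,
      ∀ (F : E → E) (K : NNReal) (ψ : ℝ → E → E), LipschitzWith K F → IsFlow F ψ →
        (∀ x, ‖x‖ ≤ C → F x = X x) → ∀ x, ‖x‖ ≤ R → ∀ t, |t| ≤ T → ‖ψ t x‖ ≤ C := by
  obtain ⟨δ, δ0, hδ⟩ := Flow_loc hS hX hi
  obtain ⟨n, hn⟩ := exists_nat_ge (T / δ)
  suffices h : ∀ n : ℕ, ∃ C : ℝ, ∀ (F : E → E) (K : NNReal) (ψ : ℝ → E → E), LipschitzWith K F →
      IsFlow F ψ → (∀ x, ‖x‖ ≤ C → F x = X x) → ∀ x, ‖x‖ ≤ R → ∀ t, |t| ≤ n * δ → ‖ψ t x‖ ≤ C by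
    obtain ⟨C, hC⟩ := h n
    exact ⟨C, fun F K ψ a b c x hx t ht => hC F K ψ a b c x hx t
      (ht.trans ((div_le_iff₀ δ0).1 hn))⟩
  intro n
  induction n with
  | zero =>
    refine ⟨R, fun F K ψ _ hψ _ x hx t ht => ?_⟩
    rw [Nat.cast_zero, zero_mul, abs_nonpos_iff] at ht
    rwa [ht, hψ.zero]
  | succ n ih =>
    obtain ⟨C, hC⟩ := ih
    obtain ⟨D, hD⟩ := hδ C
    refine ⟨max C D, fun F K ψ hF hψ eF x hx t ht => ?_⟩
    have p : (0 : ℝ) < n + 1 := by positivity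
    have h1 : |t / (n + 1)| ≤ δ := by
      rw [abs_div, abs_of_pos p, div_le_iff₀' p]
      exact_mod_cast ht
    have h2 : |n * (t / (n + 1))| ≤ n * δ := by
      rw [abs_mul, Nat.abs_cast]
      exact mul_le_mul_of_nonneg_left h1 n.cast_nonneg
    obtain ⟨α, a0, hα⟩ := hD _
      (hC F K ψ hF hψ (fun y hy => eF y (hy.trans (le_max_left _ _))) x hx _ h2)
    have h3 := hψ.unique_Icc hF (x := α)
      (fun s hs => (eF _ ((hα s hs).2.trans (le_max_right _ _))).symm ▸ (hα s hs).1)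
      (t₀ := 0) ⟨by linarith only [δ0], δ0.le⟩ (abs_le.1 h1)
    rw [sub_zero, a0, ← hψ.add hF,
      show t / (n + 1) + n * (t / (n + 1)) = t by field_simp; ring] at h3
    exact h3 ▸ (hα _ (abs_le.1 h1)).2.trans (le_max_right _ _)

/-- The flow on a bounded set of points and times. -/
theorem Flow_box (hS : Surf Γ) {X : E → E} (hX : ContDiff ℝ 1 X)
    (hi : ∀ (γ : Γ) (x : E), X (γ • x) = dk γ x (X x)) (R T : ℝ) :
    ∃ (ψ : ℝ → E → E) (K : NNReal), (∀ t a b, ‖ψ t a - ψ t b‖ ≤ Real.exp (K * |t|) * ‖a - b‖) ∧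
      ∀ x, ‖x‖ ≤ R → ψ 0 x = x ∧ ∀ t ∈ Icc (-T) T, HasDerivAt (fun s => ψ s x) (X (ψ t x)) t := by
  obtain ⟨C, hC⟩ := Flow_bd hS hX hi R T
  obtain ⟨F, K, -, hF, eF, -⟩ := Flow_trunc hX C
  obtain ⟨ψ, hψ⟩ := exists_flow hF
  exact ⟨ψ, K, hψ.norm_sub_le hF, fun x hx => ⟨hψ.zero x, fun t ht =>
    eF _ (hC F K ψ hF hψ eF x hx t (abs_le.2 ht)) ▸ hψ.deriv x t⟩⟩

theorem exists_fl (hS : Surf Γ) {X : E → E} (hX : ContDiff ℝ 1 X)
    (hi : ∀ (γ : Γ) (x : E), X (γ • x) = dk γ x (X x)) : ∃ φ, Fl Γ X φ := by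
  choose ψ K hK hψ using Flow_box hS hX hi
  have key : ∀ (x : E) (α : ℝ → E) (T : ℝ), α 0 = x →
      (∀ t ∈ Icc (-T) T, HasDerivAt α (X (α t)) t) → ∀ t, |t| ≤ T → ψ ‖x‖ |t| t x = α t :=
    fun x α T h0 hα t ht => Flow_uniq hX (a := -|t|) (b := |t|) (α := fun s => ψ ‖x‖ |t| s x)
      (hψ _ _ x le_rfl).2 (fun s hs => hα s ⟨by linarith only [ht, hs, hs.1], hs.2.trans ht⟩)
      (t₀ := 0) ⟨by simp, abs_nonneg t⟩ ((hψ _ _ x le_rfl).1.trans h0.symm) (abs_le.1 le_rfl)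
  have k2 : ∀ (R T : ℝ) (x : E), ‖x‖ ≤ R → ∀ t, |t| ≤ T → ψ ‖x‖ |t| t x = ψ R T t x :=
    fun R T x hx => key x (fun s => ψ R T s x) T (hψ R T x hx).1 (hψ R T x hx).2
  have der : ∀ (x : E) (t : ℝ),
      HasDerivAt (fun s => ψ ‖x‖ |s| s x) (X (ψ ‖x‖ |t| t x)) t := fun x t => by
    rw [k2 ‖x‖ (|t| + 1) x le_rfl t (by linarith only [])]
    refine ((hψ ‖x‖ (|t| + 1) x le_rfl).2 t (abs_le.1 (by linarith))).congr_of_eventuallyEq ?_
    filter_upwards [continuous_abs.continuousAt.eventually (gt_mem_nhds (lt_add_one |t|))] with s hs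
    exact k2 _ _ x le_rfl s hs.le
  have zero : ∀ x : E, ψ ‖x‖ |0| 0 x = x := fun x => (hψ _ _ x le_rfl).1
  refine ⟨fun x t => ψ ‖x‖ |t| t x, zero, fun x s t => ?_, fun γ x t => ?_, der, hX.continuous,
    fun R T => ⟨Real.exp (K R T * T), (Real.exp_pos _).le, fun x y hx hy t ht => ?_⟩⟩
  · exact key _ (fun u => ψ ‖x‖ |u + s| (u + s) x) |t| (by rw [zero_add])
      (fun u _ => (der x (u + s)).comp_add_const u s) t le_rfl
  · exact key _ (fun u => γ • ψ ‖x‖ |u| u x) |t| (by rw [zero])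
      (fun u _ => by rw [hi]; exact hS.hasDerivAt_smul γ (der x u)) t le_rfl
  · rw [k2 R T x hx t ht, k2 R T y hy t ht]
    exact (hK R T t x y).trans (mul_le_mul_of_nonneg_right
      (Real.exp_le_exp.2 (mul_le_mul_of_nonneg_left ht (K R T).2)) (norm_nonneg _))

end Pool.Agent.Work.MP_1ce82a_an.U
end

-- merged part: Pool.Agent.Work.MP_1ce82a_an.U.Glue
section
/-! Gluing of a local approximation to an equivariant function.

PLAN. `b` a smooth bump, positive on the ball of radius `R0` (`Surf.exists_R0`), zero outside the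
ball of radius `R`; `χ = b / per Γ b` is smooth with compact support and `per Γ χ = 1` (see the proof of
`exists_eqv_smooth`). `u x = per Γ (χ * g') x - ∑ᶠ γ, χ (γ • x) * c γ` is smooth (`per_contDiff`,
`Per_smooth`) and equivariant (`finsum_comp_equiv`). By `fderiv_eqv` and `hY` it suffices to treat
`‖x‖ ≤ R0`. With the finite set `S` of `Per_fin` for the radius `R0 + 1`, near `x`
`u y = ∑ γ ∈ S, χ (γ • y) * (g' (γ • y) - c γ)` and `1 = ∑ γ ∈ S, χ (γ • y)`. Differentiate in the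
direction `Y x`: with `A γ = fderiv ℝ χ (γ • x) (Y (γ • x))` one has `∑ A γ = 0`,
`g (γ • x) - c γ = g x`, so `fderiv ℝ u x (Y x) = ∑ A γ * (g' - g) (γ • x) + ∑ χ (γ • x) *
fderiv ℝ g' (γ • x) (Y (γ • x)) ≥ 1 / 2 - card S * M * ε`, where `M` bounds the continuous compactly
supported function `z ↦ fderiv ℝ χ z (Y z)`, which vanishes for `‖z‖ > R`. Choose `ε` after `S`, `M`.
About 220 lines. -/

set_option linter.unusedVariables false

open Set Filter Topology MeasureTheory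
open scoped ContDiff

namespace Pool.Agent.Work.MP_1ce82a_an.U

variable {Γ : Grp}

theorem Glue_der (hS : Surf Γ) {f : E → ℝ} (hf : Differentiable ℝ f) {S : Finset Γ} {R : ℝ}
    (h : ∀ x : E, ‖x‖ ≤ R + 1 → ∀ γ : Γ, γ ∉ S → f (γ • x) = 0) {x : E} (hx : ‖x‖ ≤ R) (v : E) :
    fderiv ℝ (per Γ f) x v = ∑ γ ∈ S, fderiv ℝ f (γ • x) (dk γ x v) := by
  have h1 : per Γ f =ᶠ[𝓝 x] fun y => ∑ γ ∈ S, f (γ • y) := by
    filter_upwards [continuous_norm.continuousAt.eventually_lt continuousAt_const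
      (hx.trans_lt (lt_add_one R))] with y hy
    exact Per_sum' (h y hy.le)
  have h2 : HasFDerivAt (fun y : E => ∑ γ ∈ S, f (γ • y))
      (∑ γ ∈ S, (fderiv ℝ f (γ • x)).comp (dk γ x)) x :=
    HasFDerivAt.fun_sum fun γ _ => (hf (γ • x)).hasFDerivAt.comp x (hS.hasFDerivAt γ x)
  rw [h1.fderiv_eq, h2.fderiv, ContinuousLinearMap.sum_apply]
  rfl

theorem Glue_chi (hS : Surf Γ) : ∃ χ : E → ℝ, ContDiff ℝ ∞ χ ∧ HasCompactSupport χ ∧
    (∀ x, 0 ≤ χ x) ∧ ∀ x, per Γ χ x = 1 := by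
  obtain ⟨R0, h0, hR⟩ := hS.exists_R0
  let b : ContDiffBump (0 : E) := ⟨R0, R0 + 1, h0, lt_add_one _⟩
  have hp : ∀ x, per Γ b x ≠ 0 := fun x => by
    obtain ⟨γ, hγ⟩ := hR x
    have h1 := le_per hS b.hasCompactSupport b.nonneg' γ x
    rw [b.one_of_mem_closedBall (mem_closedBall_zero_iff.2 hγ)] at h1
    exact (zero_lt_one.trans_le h1).ne'
  refine ⟨fun x => b x * (per Γ b x)⁻¹,
    b.contDiff.mul ((per_contDiff hS b.contDiff b.hasCompactSupport).inv hp),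
    b.hasCompactSupport.mul_right,
    fun x => mul_nonneg (b.nonneg' x) (inv_nonneg.2 (per_nonneg b.nonneg' x)), fun x => ?_⟩
  obtain ⟨S, h⟩ := Per_fin hS b.hasCompactSupport ‖x‖
  rw [Per_sum' (S := S) fun γ e => by simp only [h x le_rfl γ e, zero_mul]]
  simp only [per_inv b _ x]
  rw [← Finset.sum_mul, ← Per_sum' (h x le_rfl), mul_inv_cancel₀ (hp x)]

theorem glue_eqv (hS : Surf Γ) {Y : E → E} (cY : Continuous Y)
    (hY : ∀ (γ : Γ) (x : E), Y (γ • x) = dk γ x (Y x)) {c : H1 Γ} {g : E → ℝ} (he : Eqv c g)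
    (ha : Apx Y g) : ∃ u : E → ℝ, ContDiff ℝ ∞ u ∧ Eqv c u ∧ ∀ x, 0 < fderiv ℝ u x (Y x) := by
  obtain ⟨R0, h0, hR⟩ := hS.exists_R0
  obtain ⟨χ, c1, c2, c3, c4⟩ := Glue_chi hS
  obtain ⟨U, hU, hE⟩ := exists_eqv_smooth hS c
  obtain ⟨S, hs⟩ := Per_fin hS c2 (R0 + 1)
  obtain ⟨R, hr⟩ := c2.isBounded.subset_closedBall (0 : E)
  have dχ : Differentiable ℝ χ := c1.differentiable (by simp)
  have dU : Differentiable ℝ U := hU.differentiable (by simp)
  have cA : Continuous fun z => fderiv ℝ χ z (Y z) :=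
    (c1.continuous_fderiv (by simp)).clm_apply cY
  obtain ⟨M, hM⟩ := (isCompact_closedBall (0 : E) R).exists_bound_of_continuousOn cA.continuousOn
  have pM : 0 < |M| + 1 := by positivity
  have pS : (0 : ℝ) < S.card + 1 := by positivity
  obtain ⟨g', s1, s2⟩ := ha R (1 / (4 * (S.card + 1) * (|M| + 1))) (by positivity)
  have dg : Differentiable ℝ g' := s1.differentiable (by simp)
  have f1 : ContDiff ℝ ∞ fun z => χ z * (g' z - U z) := c1.mul (s1.sub hU)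
  have f2 : HasCompactSupport fun z => χ z * (g' z - U z) := c2.mul_right
  have f3 := per_contDiff hS f1 f2
  have u1 : ContDiff ℝ ∞ fun x => U x + per Γ (fun z => χ z * (g' z - U z)) x := hU.add f3
  have u2 : Eqv c fun x => U x + per Γ (fun z => χ z * (g' z - U z)) x := fun γ x => by
    beta_reduce
    rw [hE γ x, per_inv _ γ x]
    ring
  refine ⟨_, u1, u2, fun x0 => ?_⟩
  obtain ⟨δ, hx⟩ := hR x0
  rw [← fderiv_eqv hS (u1.differentiable (by simp)) u2 δ x0, ← hY]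
  generalize δ • x0 = x at hx ⊢
  have e1 : ∑ γ ∈ S, χ (γ • x) = 1 := by
    rw [← Per_sum' (hs x (by linarith only [hx])), c4]
  have e2 : ∑ γ ∈ S, fderiv ℝ χ (γ • x) (Y (γ • x)) = 0 := by
    have := Glue_der hS dχ hs hx (Y x)
    rw [show per Γ χ = fun _ => 1 from funext c4] at this
    simp only [hY]
    rw [← this]
    simp
  have e3 := Glue_der hS (f1.differentiable (by simp)) (S := S) (R := R0)
    (fun y hy γ e => by simp only [hs y hy γ e, zero_mul]) hx (Y x)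
  have e4 : ∀ γ : Γ, fderiv ℝ (fun z => χ z * (g' z - U z)) (γ • x) (dk γ x (Y x)) =
      χ (γ • x) * fderiv ℝ g' (γ • x) (Y (γ • x)) - χ (γ • x) * fderiv ℝ U x (Y x) +
        fderiv ℝ χ (γ • x) (Y (γ • x)) * (g' (γ • x) - g (γ • x)) +
        fderiv ℝ χ (γ • x) (Y (γ • x)) * (g x - U x) := fun γ => by
    rw [((dχ (γ • x)).hasFDerivAt.fun_mul
      ((dg (γ • x)).hasFDerivAt.fun_sub (dU (γ • x)).hasFDerivAt)).fderiv,
      ← fderiv_eqv hS dU hE γ x (Y x), ← hY, he γ x]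
    simp only [ContinuousLinearMap.add_apply, ContinuousLinearMap.smul_apply,
      ContinuousLinearMap.sub_apply, smul_eq_mul]
    rw [hE γ x]
    ring
  have e5 : ∀ γ ∈ S, χ (γ • x) * (1 / 2) - 1 / (4 * (S.card + 1)) ≤
      χ (γ • x) * fderiv ℝ g' (γ • x) (Y (γ • x)) +
        fderiv ℝ χ (γ • x) (Y (γ • x)) * (g' (γ • x) - g (γ • x)) := fun γ _ => by
    have p1 : (0 : ℝ) < 1 / (4 * (S.card + 1)) := by positivity
    by_cases q : γ • x ∈ tsupport χ
    · have q1 := hr q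
      obtain ⟨a1, a2⟩ := s2 _ (mem_closedBall_zero_iff.1 q1)
      have a3 := mul_le_mul_of_nonneg_left a2 (c3 (γ • x))
      have a4 : |fderiv ℝ χ (γ • x) (Y (γ • x))| ≤ |M| + 1 :=
        (hM _ q1).trans ((le_abs_self M).trans (lt_add_one _).le)
      have a5 := mul_le_mul a4 a1 (abs_nonneg _) pM.le
      rw [← abs_mul] at a5
      have a6 : (|M| + 1) * (1 / (4 * (S.card + 1) * (|M| + 1))) =
          1 / (4 * ((S.card : ℝ) + 1)) := by
        field_simp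
      have a7 := neg_abs_le (fderiv ℝ χ (γ • x) (Y (γ • x)) * (g' (γ • x) - g (γ • x)))
      linarith only [a3, a5, a6, a7]
    · rw [image_eq_zero_of_notMem_tsupport q, fderiv_of_notMem_tsupport ℝ q]
      simp only [zero_mul, ContinuousLinearMap.zero_apply, add_zero, zero_sub]
      linarith only [p1]
  have e6 := Finset.sum_le_sum e5
  rw [Finset.sum_sub_distrib, ← Finset.sum_mul, e1, Finset.sum_const, nsmul_eq_mul,
    Finset.sum_add_distrib] at e6
  have e7 : (S.card : ℝ) * (1 / (4 * (S.card + 1))) ≤ 1 / 4 := by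
    rw [mul_one_div, div_le_div_iff₀ (by positivity) (by positivity)]
    linarith only []
  rw [((dU x).hasFDerivAt.fun_add (f3.differentiable (by simp) x).hasFDerivAt).fderiv,
    ContinuousLinearMap.add_apply, e3]
  simp only [e4, Finset.sum_add_distrib, Finset.sum_sub_distrib, ← Finset.sum_mul, e1, e2]
  linarith only [e6, e7]

end Pool.Agent.Work.MP_1ce82a_an.U
end

-- merged part: Pool.Agent.Work.MP_1ce82a_an.U.Field
section
/-! The invariant vector field tangent to the levels.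

PLAN. `X₀ x = (-fderiv ℝ u x (0, 1), fderiv ℝ u x (1, 0))` satisfies `det2 w (X₀ x) = fderiv ℝ u x w`.
With `A = dk γ x`: `det2 (A w) (A (X₀ x)) = det A * fderiv ℝ u x w = det A * det2 (A w) (X₀ (γ • x))`
(`Surf.det2_dk`, `fderiv_eqv`), and `A` is onto (`Surf.dk_inv'`), so `A (X₀ x) = det A • X₀ (γ • x)`.
`μ x = ∑ᶠ γ, b (γ • x) * (dk γ x).det` (`b` a bump as in `exists_eqv_smooth`) is positive, smooth
(locally a finite sum, `Per_fin`, copy `Per_smooth`; the determinant is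
`det2 (dk γ x (1, 0)) (dk γ x (0, 1))`) and `μ (δ • x) * (dk δ x).det = μ x` (`Surf.det_mul`,
`finsum_comp_equiv`). `X x = (μ x)⁻¹ • X₀ x`. About 180 lines. -/

set_option linter.unusedVariables false

open Set Filter Topology MeasureTheory
open scoped ContDiff

namespace Pool.Agent.Work.MP_1ce82a_an.U

variable {Γ : Grp}

theorem Field_det (hS : Surf Γ) (γ : Γ) : ContDiff ℝ ∞ fun x : E => (dk γ x).det := by
  have h : (fun x : E => (dk γ x).det) = fun x => det2 (dk γ x (1, 0)) (dk γ x (0, 1)) :=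
    funext fun x => by rw [hS.det2_dk]; simp [det2]
  have h1 := (hS.contDiff_dk γ).clm_apply (contDiff_const (c := ((1, 0) : E)))
  have h2 := (hS.contDiff_dk γ).clm_apply (contDiff_const (c := ((0, 1) : E)))
  rw [h]
  exact (h1.fst.mul h2.snd).sub (h1.snd.mul h2.fst)

theorem area (hS : Surf Γ) (hO : Ori Γ) : ∃ μ : E → ℝ, ContDiff ℝ ∞ μ ∧ (∀ x, 0 < μ x) ∧
    ∀ (γ : Γ) (x : E), μ (γ • x) * (dk γ x).det = μ x := by
  obtain ⟨R0, h0, hR⟩ := hS.exists_R0
  let b : ContDiffBump (0 : E) := ⟨R0, R0 + 1, h0, lt_add_one _⟩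
  refine ⟨fun x => ∑ᶠ γ : Γ, b (γ • x) * (dk γ x).det, contDiff_iff_contDiffAt.2 fun x => ?_,
    fun x => ?_, fun δ x => ?_⟩
  · obtain ⟨S, h⟩ := Per_fin hS b.hasCompactSupport (‖x‖ + 1)
    have h1 : ContDiff ℝ ∞ fun y : E => ∑ γ ∈ S, b (γ • y) * (dk γ y).det :=
      ContDiff.sum fun γ _ => (b.contDiff.comp (hS.smooth γ)).mul (Field_det hS γ)
    refine h1.contDiffAt.congr_of_eventuallyEq ?_
    filter_upwards [continuous_norm.continuousAt.eventually_lt continuousAt_const (lt_add_one ‖x‖)]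
      with y hy
    exact Per_sum (h y hy.le) _
  · obtain ⟨S, h⟩ := Per_fin hS b.hasCompactSupport ‖x‖
    obtain ⟨γ, hγ⟩ := hR x
    have h1 : b (γ • x) = 1 := b.one_of_mem_closedBall (mem_closedBall_zero_iff.2 hγ)
    beta_reduce
    rw [Per_sum (h x le_rfl)]
    refine Finset.sum_pos' (fun γ _ => mul_nonneg (b.nonneg' _) (hO γ x).le)
      ⟨γ, by_contra fun k => one_ne_zero (h1.symm.trans (h x le_rfl γ k)), ?_⟩
    rw [h1, one_mul]
    exact hO γ x
  · obtain ⟨S, h⟩ := Per_fin hS b.hasCompactSupport ‖δ • x‖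
    beta_reduce
    rw [← finsum_comp_equiv (Equiv.mulRight δ) (f := fun γ : Γ => b (γ • x) * (dk γ x).det),
      Per_sum (h _ le_rfl), Finset.sum_mul]
    simp only [mul_assoc]
    rw [← Per_sum (h _ le_rfl)]
    refine finsum_congr fun γ => ?_
    rw [Equiv.coe_mulRight, hS.det_mul, mul_smul]

theorem Field_lin (l : E →L[ℝ] ℝ) (w : E) : det2 w (-l (0, 1), l (1, 0)) = l w := by
  have h : w = w.1 • ((1, 0) : E) + w.2 • ((0, 1) : E) := by simp
  conv_rhs => rw [h, map_add, map_smul, map_smul]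
  simp only [det2, smul_eq_mul]
  ring

theorem Field_ext {v v' : E} (h : ∀ w, det2 w v = det2 w v') : v = v' := by
  have h1 := h (1, 0)
  have h2 := h (0, 1)
  simp only [det2, one_mul, zero_mul, sub_zero, zero_sub, neg_inj] at h1 h2
  exact Prod.ext h2 h1

theorem Field_smul (a : ℝ) (w v : E) : det2 w (a • v) = a * det2 w v := by
  simp only [det2, Prod.smul_fst, Prod.smul_snd, smul_eq_mul]
  ring

theorem field (hS : Surf Γ) (hO : Ori Γ) {c : H1 Γ} {u : E → ℝ} (hu : ContDiff ℝ ∞ u)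
    (he : Eqv c u) (hn : ∀ x, fderiv ℝ u x ≠ 0) : ∃ X : E → E, ContDiff ℝ ∞ X ∧
      (∀ (γ : Γ) (x : E), X (γ • x) = dk γ x (X x)) ∧ (∀ x, X x ≠ 0) ∧
      ∀ x, fderiv ℝ u x (X x) = 0 := by
  obtain ⟨μ, m1, m2, m3⟩ := area hS hO
  have hd := (contDiff_infty_iff_fderiv.1 hu).2
  have h1 := hd.clm_apply (contDiff_const (c := ((1, 0) : E)))
  have h2 := hd.clm_apply (contDiff_const (c := ((0, 1) : E)))
  refine ⟨fun x => (μ x)⁻¹ • (-fderiv ℝ u x (0, 1), fderiv ℝ u x (1, 0)),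
    (m1.inv fun x => (m2 x).ne').smul (h2.neg.prodMk h1), fun γ x => Field_ext fun w => ?_,
    fun x k => hn x (ContinuousLinearMap.ext fun w => ?_), fun x => ?_⟩
  · have a := hS.dk_inv' γ (γ • x) w
    rw [inv_smul_smul] at a
    rw [← a, hS.det2_dk, Field_smul, Field_smul, Field_lin, Field_lin,
      fderiv_eqv hS (hu.differentiable (by simp)) he, ← m3 γ x]
    have := (hO γ x).ne'
    have := (m2 (γ • x)).ne'
    field_simp
  · have a := (smul_eq_zero.1 k).resolve_left (inv_ne_zero (m2 x).ne')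
    rw [← Field_lin, a]
    simp [det2]
  · rw [map_smul, ← Field_lin]
    simp only [det2, smul_eq_mul]
    ring

end Pool.Agent.Work.MP_1ce82a_an.U
end

-- merged part: Pool.Agent.Work.MP_1ce82a_an.L.Ord
section
/-! Preservation of the order of two nearby curves of one Lipschitz graph.
PLAN. ord_det: let h = |z2 0 - z1 0|, eta(t) = det2 (z1' t) (z2 t - z1 t), continuous. By gron_lip |z2 t - z1 t| <= C h. Write z2 t - z1 t = a V + b JV with V = z1' t, |a| <= C h, |b| <= C |eta t|.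
Since z1(t+a) = z1 t + a V + O(a^2), |z2 t - z1(t+a)| <= C(|eta t| + h^2); gron_lip for the pair z1(.+a), z2 gives the same bound at time 0, and det2 (z1' 0)(z1 a - z1 0) = O(a^2), so
c0 h <= |eta 0| <= C(|eta t| + h^2). Hence |eta t| >= c h for small h, and the sign is constant by the intermediate value theorem. A time mismatch of size K h changes eta by O(h^2).
ord_sec: on the section |z2 0 - z1 0| = |X2 difference| and det2 = X1(V) X2(difference) (det2_X); at the end use Surf.lip (Taylor) for rho inverse, Surf.det2_dk, positivity of the determinant with a lower bound on the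
compact ball. -/

open Set Filter Topology MeasureTheory
open scoped ContDiff

namespace Pool.Agent.Work.MP_1ce82a_an

variable {Γ : Grp}

/-- Two curves in one Lipschitz graph on a time interval. -/
structure Graph2 (z1 z2 : ℝ → E) (a b K v0 : ℝ) : Prop where
  d1 : ∀ t ∈ Icc a b, HasDerivAt z1 (deriv z1 t) t ∧ v0 ≤ ‖deriv z1 t‖ ∧ ‖deriv z1 t‖ ≤ K
  d2 : ∀ t ∈ Icc a b, HasDerivAt z2 (deriv z2 t) t ∧ ‖deriv z2 t‖ ≤ K
  l11 : ∀ s ∈ Icc a b, ∀ t ∈ Icc a b, ‖deriv z1 s - deriv z1 t‖ ≤ K * ‖z1 s - z1 t‖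
  l12 : ∀ s ∈ Icc a b, ∀ t ∈ Icc a b, ‖deriv z1 s - deriv z2 t‖ ≤ K * ‖z1 s - z2 t‖

theorem Ord_tay {z : ℝ → E} {a b s t M : ℝ} {V : E}
    (hz : ∀ u ∈ Icc a b, HasDerivAt z (deriv z u) u) (hs : s ∈ Icc a b) (ht : t ∈ Icc a b)
    (hM : ∀ u ∈ Icc a b, |u - s| ≤ |t - s| → ‖deriv z u - V‖ ≤ M) :
    ‖z t - z s - (t - s) • V‖ ≤ M * |t - s| := by
  have hsub : uIcc s t ⊆ Icc a b := uIcc_subset_Icc hs ht
  have h := (convex_uIcc s t).norm_image_sub_le_of_norm_hasDerivWithin_le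
    (f := fun u => z u - u • V) (f' := fun u => deriv z u - V) (C := M)
    (fun u hu => by
      have := (hz u (hsub hu)).sub ((hasDerivAt_id u).smul_const V)
      rw [one_smul] at this
      exact this.hasDerivWithinAt)
    (fun u hu => hM u (hsub hu) (abs_sub_left_of_mem_uIcc hu)) left_mem_uIcc right_mem_uIcc
  have e : z t - z s - (t - s) • V = z t - t • V - (z s - s • V) := by
    rw [sub_smul]
    abel
  rw [e]
  exact h

theorem Ord_lip {z : ℝ → E} {a b s t K : ℝ}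
    (hz : ∀ u ∈ Icc a b, HasDerivAt z (deriv z u) u) (hK : ∀ u ∈ Icc a b, ‖deriv z u‖ ≤ K)
    (hs : s ∈ Icc a b) (ht : t ∈ Icc a b) : ‖z t - z s‖ ≤ K * |t - s| := by
  simpa using Ord_tay (V := 0) (M := K) hz hs ht fun u hu _ => by simpa using hK u hu

theorem Ord_dec {V : E} (w : E) {v0 : ℝ} (hv0 : 0 < v0) (hV : v0 ≤ ‖V‖) :
    ∃ a : ℝ, |a| ≤ ‖w‖ / v0 ∧ ‖w - a • V‖ ≤ |det2 V w| / v0 := by
  obtain ⟨d, hd⟩ := exists_dir V
  have hp : 0 < ‖V‖ := hv0.trans_le hV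
  refine ⟨X1 d w / ‖V‖, ?_, ?_⟩
  · rw [abs_div, abs_of_pos hp]
    exact div_le_div₀ (norm_nonneg _) (abs_X1_le d w) hv0 hV
  · have h1 : X1 d (w - (X1 d w / ‖V‖) • V) = 0 := by
      rw [map_sub, map_smul, hd, smul_eq_mul, div_mul_cancel₀ _ hp.ne', sub_self]
    have h2 : X2 d (w - (X1 d w / ‖V‖) • V) = det2 V w / ‖V‖ := by
      rw [map_sub, map_smul, det2_X d, hd, smul_eq_mul]
      field_simp
    rw [norm_eq_X d, h1, h2, abs_zero, max_eq_right (abs_nonneg _), abs_div, abs_of_pos hp]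
    exact div_le_div_of_nonneg_left (abs_nonneg _) hv0 hV

theorem Ord_det_le {V w : E} {K r : ℝ} (hV : ‖V‖ ≤ K) (hw : ‖w‖ ≤ r) : |det2 V w| ≤ 2 * K * r :=
  (abs_det2_le V w).trans (mul_le_mul (by linarith only [hV]) hw (norm_nonneg _)
    (by linarith only [hV, norm_nonneg V]))

theorem Ord_gr {z1 z2 : ℝ → E} {K v0 T t : ℝ} (hK : 0 ≤ K)
    (H : Graph2 z1 z2 (-(1 / 2)) (T + 1 / 2) K v0) (ht : t ∈ Icc 0 T) {a : ℝ} (ha : |a| ≤ 1 / 2)
    {s : ℝ} (hs : s ∈ Icc 0 T) :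
    ‖z2 s - z1 (s + a)‖ ≤ Real.exp (K * T) * ‖z2 t - z1 (t + a)‖ := by
  obtain ⟨ha1, ha2⟩ := abs_le.1 ha
  have m1 : ∀ u ∈ Icc 0 T, u + a ∈ Icc (-(1 / 2)) (T + 1 / 2) := fun u hu =>
    ⟨by linarith only [ha1, hu, hu.1], by linarith only [ha2, hu, hu.2]⟩
  have m2 : ∀ u ∈ Icc 0 T, u ∈ Icc (-(1 / 2) : ℝ) (T + 1 / 2) := fun u hu =>
    ⟨by linarith only [hu, hu.1], by linarith only [hu, hu.2]⟩
  have h := gron_lip (z1 := fun u => z1 (u + a)) (z2 := z2) hK
    (fun u hu => by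
      rw [deriv_comp_add_const]
      exact (H.d1 _ (m1 u hu)).1.comp_add_const u a)
    (fun u hu => (H.d2 u (m2 u hu)).1)
    (fun u hu => by
      rw [deriv_comp_add_const]
      exact H.l12 _ (m1 u hu) u (m2 u hu)) t ht s hs
  rw [norm_sub_rev, norm_sub_rev (z2 t)]
  refine h.trans (mul_le_mul_of_nonneg_right (Real.exp_le_exp.2
    (mul_le_mul_of_nonneg_left ?_ hK)) (norm_nonneg _))
  exact abs_le.2 ⟨by linarith only [hs, ht, hs.1, ht.2], by linarith only [hs, ht, hs.2, ht.1]⟩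

theorem Ord_gr0 {z1 z2 : ℝ → E} {K v0 T t : ℝ} (hK : 0 ≤ K)
    (H : Graph2 z1 z2 (-(1 / 2)) (T + 1 / 2) K v0) (ht : t ∈ Icc 0 T) :
    ‖z2 t - z1 t‖ ≤ Real.exp (K * T) * ‖z2 0 - z1 0‖ := by
  simpa using Ord_gr hK H (t := 0) ⟨le_rfl, ht.1.trans ht.2⟩ (a := 0) (by norm_num) ht

theorem Ord_tay1 {z1 z2 : ℝ → E} {K v0 T s a : ℝ} (hK : 0 ≤ K)
    (H : Graph2 z1 z2 (-(1 / 2)) (T + 1 / 2) K v0) (hs : s ∈ Icc 0 T) (ha : |a| ≤ 1 / 2) :
    ‖z1 (s + a) - z1 s - a • deriv z1 s‖ ≤ K ^ 2 * a ^ 2 := by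
  obtain ⟨ha1, ha2⟩ := abs_le.1 ha
  have m1 : s + a ∈ Icc (-(1 / 2)) (T + 1 / 2) := ⟨by linarith only [ha1, hs, hs.1], by linarith only [ha2, hs, hs.2]⟩
  have m2 : s ∈ Icc (-(1 / 2) : ℝ) (T + 1 / 2) := ⟨by linarith only [hs, hs.1], by linarith only [hs, hs.2]⟩
  have h := Ord_tay (V := deriv z1 s) (M := K * (K * |a|)) (fun u hu => (H.d1 u hu).1) m2 m1
    fun u hu h1 => by
      rw [add_sub_cancel_left] at h1
      refine (H.l11 u hu s m2).trans (mul_le_mul_of_nonneg_left ?_ hK)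
      exact (Ord_lip (fun u hu => (H.d1 u hu).1) (fun u hu => (H.d1 u hu).2.2) m2 hu).trans
        (mul_le_mul_of_nonneg_left h1 hK)
  rw [add_sub_cancel_left] at h
  refine h.trans_eq ?_
  rw [← sq_abs a]
  ring

theorem Ord_low {z1 z2 : ℝ → E} {K v0 T t : ℝ} (hK : 0 ≤ K) (hv0 : 0 < v0)
    (H : Graph2 z1 z2 (-(1 / 2)) (T + 1 / 2) K v0) (ht : t ∈ Icc 0 T)
    (hh : Real.exp (K * T) / v0 * ‖z2 0 - z1 0‖ ≤ 1 / 2) :
    |det2 (deriv z1 0) (z2 0 - z1 0)| ≤
      2 * K * Real.exp (K * T) / v0 * |det2 (deriv z1 t) (z2 t - z1 t)| +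
        2 * K ^ 3 * (Real.exp (K * T) + 1) * (Real.exp (K * T) / v0) ^ 2 * ‖z2 0 - z1 0‖ ^ 2 := by
  have h0 : (0 : ℝ) ∈ Icc 0 T := ⟨le_rfl, ht.1.trans ht.2⟩
  have m2 : ∀ u ∈ Icc 0 T, u ∈ Icc (-(1 / 2) : ℝ) (T + 1 / 2) := fun u hu =>
    ⟨by linarith only [hu, hu.1], by linarith only [hu, hu.2]⟩
  obtain ⟨a, ha1, ha2⟩ := Ord_dec (z2 t - z1 t) hv0 (H.d1 t (m2 t ht)).2.1
  have hG := Real.exp_pos (K * T)
  have ha3 : |a| ≤ Real.exp (K * T) / v0 * ‖z2 0 - z1 0‖ := by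
    rw [div_mul_eq_mul_div]
    exact ha1.trans (div_le_div_of_nonneg_right (Ord_gr0 hK H ht) hv0.le)
  have ha := ha3.trans hh
  have ha4 : a ^ 2 ≤ (Real.exp (K * T) / v0) ^ 2 * ‖z2 0 - z1 0‖ ^ 2 := by
    rw [← sq_abs a, ← mul_pow]
    exact pow_le_pow_left₀ (abs_nonneg a) ha3 2
  have b1 : ‖z2 t - z1 (t + a)‖ ≤ |det2 (deriv z1 t) (z2 t - z1 t)| / v0 + K ^ 2 * a ^ 2 := by
    have e : z2 t - z1 (t + a) =
        (z2 t - z1 t - a • deriv z1 t) - (z1 (t + a) - z1 t - a • deriv z1 t) := by abel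
    rw [e]
    exact (norm_sub_le _ _).trans (add_le_add ha2 (Ord_tay1 hK H ht ha))
  have b2 := (Ord_gr hK H ht ha h0).trans (mul_le_mul_of_nonneg_left b1 hG.le)
  have b3 := Ord_det_le (H.d1 0 (m2 0 h0)).2.2 b2
  have b4 := Ord_det_le (H.d1 0 (m2 0 h0)).2.2 (Ord_tay1 hK H h0 ha)
  have e : det2 (deriv z1 0) (z2 0 - z1 0) = det2 (deriv z1 0) (z2 0 - z1 (0 + a)) +
      det2 (deriv z1 0) (z1 (0 + a) - z1 0 - a • deriv z1 0) := by
    simp only [det2, Prod.fst_sub, Prod.snd_sub, Prod.smul_fst, Prod.smul_snd, smul_eq_mul]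
    ring
  rw [e]
  refine (abs_add_le _ _).trans ((add_le_add b3 b4).trans ?_)
  have b5 := mul_le_mul_of_nonneg_left ha4
    (show 0 ≤ 2 * K ^ 3 * (Real.exp (K * T) + 1) by positivity)
  have e2 : 2 * K * (Real.exp (K * T) * (|det2 (deriv z1 t) (z2 t - z1 t)| / v0 + K ^ 2 * a ^ 2))
      + 2 * K * (K ^ 2 * a ^ 2) = 2 * K * Real.exp (K * T) / v0 * |det2 (deriv z1 t) (z2 t - z1 t)|
      + 2 * K ^ 3 * (Real.exp (K * T) + 1) * a ^ 2 := by ring
  rw [e2]
  linarith only [b5]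

theorem Ord_mis {z1 z2 : ℝ → E} {K v0 T t t' : ℝ} (hK : 0 ≤ K)
    (H : Graph2 z1 z2 (-(1 / 2)) (T + 1 / 2) K v0) (ht : t ∈ Icc 0 T)
    (hh : K * ‖z2 0 - z1 0‖ ≤ 1 / 2) (ht' : |t' - t| ≤ K * ‖z2 0 - z1 0‖) :
    |det2 (deriv z1 t) (z2 t' - z1 t) - det2 (deriv z1 t) (z2 t - z1 t)| ≤
      2 * K ^ 3 * (Real.exp (K * T) + K ^ 2) * ‖z2 0 - z1 0‖ ^ 2 := by
  obtain ⟨a1, a2⟩ := abs_le.1 (ht'.trans hh)
  have m1 : t' ∈ Icc (-(1 / 2)) (T + 1 / 2) := ⟨by linarith only [a1, ht, ht.1], by linarith only [a2, ht, ht.2]⟩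
  have m2 : t ∈ Icc (-(1 / 2) : ℝ) (T + 1 / 2) := ⟨by linarith only [ht, ht.1], by linarith only [ht, ht.2]⟩
  have hG := Real.exp_pos (K * T)
  have h := Ord_tay (V := deriv z1 t)
    (M := K * (Real.exp (K * T) * ‖z2 0 - z1 0‖ + K * (K * ‖z2 0 - z1 0‖)))
    (fun u hu => (H.d2 u hu).1) m2 m1 fun u hu h1 => by
      rw [norm_sub_rev]
      refine (H.l12 t m2 u hu).trans (mul_le_mul_of_nonneg_left ?_ hK)
      refine (norm_sub_le_norm_sub_add_norm_sub _ (z2 t) _).trans (add_le_add ?_ ?_)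
      · rw [norm_sub_rev]
        exact Ord_gr0 hK H ht
      · rw [norm_sub_rev]
        exact (Ord_lip (fun u hu => (H.d2 u hu).1) (fun u hu => (H.d2 u hu).2) m2 hu).trans
          (mul_le_mul_of_nonneg_left (h1.trans ht') hK)
  have h2 := Ord_det_le (H.d1 t m2).2.2
    (h.trans (mul_le_mul_of_nonneg_left ht' (by positivity)))
  have e : det2 (deriv z1 t) (z2 t' - z1 t) - det2 (deriv z1 t) (z2 t - z1 t) =
      det2 (deriv z1 t) (z2 t' - z2 t - (t' - t) • deriv z1 t) := by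
    simp only [det2, Prod.fst_sub, Prod.snd_sub, Prod.smul_fst, Prod.smul_snd, smul_eq_mul]
    ring
  rw [e]
  exact h2.trans_eq (by ring)

theorem Ord_cont {z1 z2 : ℝ → E} {K v0 a b : ℝ} (hK : 0 ≤ K) (H : Graph2 z1 z2 a b K v0) :
    ContinuousOn (fun t => det2 (deriv z1 t) (z2 t - z1 t)) (Icc a b) := by
  have c1 : ContinuousOn z1 (Icc a b) := fun t ht =>
    (H.d1 t ht).1.continuousAt.continuousWithinAt
  have c2 : ContinuousOn z2 (Icc a b) := fun t ht =>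
    (H.d2 t ht).1.continuousAt.continuousWithinAt
  have c3 : ContinuousOn (deriv z1) (Icc a b) := by
    refine (LipschitzOnWith.of_dist_le' (K := K * K) fun s hs t ht => ?_).continuousOn
    rw [dist_eq_norm, Real.dist_eq, mul_assoc]
    exact (H.l11 s hs t ht).trans (mul_le_mul_of_nonneg_left
      (Ord_lip (fun u hu => (H.d1 u hu).1) (fun u hu => (H.d1 u hu).2.2) ht hs) hK)
  exact (c3.fst.mul (c2.sub c1).snd).sub (c3.snd.mul (c2.sub c1).fst)

theorem Ord_small {M ε : ℝ} (hM : 0 ≤ M) (hε : 0 < ε) :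
    ∃ h0 : ℝ, 0 < h0 ∧ ∀ h N : ℝ, 0 ≤ h → h ≤ h0 → N ≤ M → N * h ≤ ε := by
  refine ⟨ε / (M + 1), by positivity, fun h N h1 h2 h3 => ?_⟩
  rw [le_div_iff₀ (by positivity)] at h2
  linarith only [h1, h2, h3, mul_nonneg_of_nonpos_of_nonpos (Mathlib.Tactic.Linarith.sub_nonpos_of_le h1) (Mathlib.Tactic.Linarith.sub_nonpos_of_le h3)]

theorem ord_det {K v0 T c0 : ℝ} (hK : 0 ≤ K) (hv0 : 0 < v0) (hc0 : 0 < c0) :
    ∃ h0 c : ℝ, 0 < h0 ∧ 0 < c ∧ ∀ (z1 z2 : ℝ → E) (sg : ℝ), (sg = 1 ∨ sg = -1) →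
      Graph2 z1 z2 (-(1 / 2)) (T + 1 / 2) K v0 → ‖z2 0 - z1 0‖ ≤ h0 →
      c0 * ‖z2 0 - z1 0‖ ≤ sg * det2 (deriv z1 0) (z2 0 - z1 0) →
      ∀ t ∈ Icc 0 T, ∀ t' : ℝ, |t' - t| ≤ K * ‖z2 0 - z1 0‖ →
        c * ‖z2 0 - z1 0‖ ≤ sg * det2 (deriv z1 t) (z2 t' - z1 t) := by
  have hG := Real.exp_pos (K * T)
  obtain ⟨A, hA⟩ : ∃ A, A = 2 * K * Real.exp (K * T) / v0 + 1 := ⟨_, rfl⟩
  obtain ⟨B, hB⟩ : ∃ B, B = 2 * K ^ 3 * (Real.exp (K * T) + 1) * (Real.exp (K * T) / v0) ^ 2 :=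
    ⟨_, rfl⟩
  obtain ⟨D, hD⟩ : ∃ D, D = 2 * K ^ 3 * (Real.exp (K * T) + K ^ 2) := ⟨_, rfl⟩
  have hA1 : 1 ≤ A := by
    have : 0 ≤ 2 * K * Real.exp (K * T) / v0 := by positivity
    linarith only [hA, this]
  have hB0 : 0 ≤ B := by rw [hB]; positivity
  have hD0 : 0 ≤ D := by rw [hD]; positivity
  have hE0 : 0 ≤ Real.exp (K * T) / v0 := by positivity
  obtain ⟨c, hc⟩ : ∃ c, c = c0 / (4 * A) := ⟨_, rfl⟩
  have hc1 : 0 < c := by rw [hc]; positivity
  have hc2 : c0 = 4 * A * c := by rw [hc]; field_simp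
  obtain ⟨h0, hh0, hsm⟩ := Ord_small (M := Real.exp (K * T) / v0 + K + B + D) (ε := min (1 / 2) c)
    (by positivity) (lt_min (by norm_num) hc1)
  refine ⟨h0, c, hh0, hc1, fun z1 z2 sg hsg H hh hd t ht t' ht' => ?_⟩
  have hn := norm_nonneg (z2 0 - z1 0)
  have s1 := (hsm _ (Real.exp (K * T) / v0) hn hh (by linarith only [hK, hB0, hD0])).trans (min_le_left _ _)
  have s2 := (hsm _ K hn hh (by linarith only [hB0, hD0, hE0])).trans (min_le_left _ _)
  have s3 := (hsm _ B hn hh (by linarith only [hK, hD0, hE0])).trans (min_le_right _ _)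
  have s4 := (hsm _ D hn hh (by linarith only [hK, hB0, hE0])).trans (min_le_right _ _)
  have hab : ∀ y : ℝ, |sg * y| = |y| := fun y => by
    rcases hsg with rfl | rfl <;> simp
  have low : ∀ u ∈ Icc 0 T, 2 * c * ‖z2 0 - z1 0‖ ≤ |sg * det2 (deriv z1 u) (z2 u - z1 u)| := by
    intro u hu
    have h1 := Ord_low hK hv0 H hu s1
    rw [← hB, ← hab] at h1
    have h2 := (hd.trans (le_abs_self _)).trans h1
    rw [hab]
    have h3 := abs_nonneg (det2 (deriv z1 u) (z2 u - z1 u))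
    have h4 : 2 * K * Real.exp (K * T) / v0 = A - 1 := by linarith only [hA]
    rw [h4, hc2] at h2
    have h5 := mul_le_mul_of_nonneg_right s3 hn
    have h6 := mul_nonneg hc1.le hn
    refine le_of_mul_le_mul_left ?_ (show 0 < A by linarith only [hA1])
    linarith only [h2, h3, h5, hA1, h6, mul_nonneg_of_nonpos_of_nonpos (Mathlib.Tactic.Linarith.sub_nonpos_of_le hA1) (Mathlib.Tactic.Linarith.sub_nonpos_of_le h3), mul_nonneg_of_nonpos_of_nonpos (Mathlib.Tactic.Linarith.sub_nonpos_of_le hA1) (Mathlib.Tactic.Linarith.sub_nonpos_of_le h6)]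
  have pos : 2 * c * ‖z2 0 - z1 0‖ ≤ sg * det2 (deriv z1 t) (z2 t - z1 t) := by
    rcases hn.eq_or_lt with h1 | h1
    · have h2 := Ord_gr0 hK H ht
      rw [← h1, mul_zero, norm_le_zero_iff] at h2
      rw [← h1, h2]
      simp [det2]
    · by_contra hlt
      have h2 := low t ht
      have h3 : sg * det2 (deriv z1 t) (z2 t - z1 t) ≤ 0 := by
        by_contra h4
        rw [abs_of_pos (not_le.1 h4)] at h2
        exact hlt h2
      have h4 : ContinuousOn (fun u => sg * det2 (deriv z1 u) (z2 u - z1 u)) (Icc 0 t) :=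
        continuousOn_const.mul ((Ord_cont hK H).mono
          (Icc_subset_Icc (by norm_num) (by linarith only [ht, ht.2])))
      obtain ⟨u, hu, h5⟩ := intermediate_value_Icc' ht.1 h4
        (show (0 : ℝ) ∈ Icc _ _ from ⟨h3, le_trans (by positivity) hd⟩)
      have h6 := low u ⟨hu.1, hu.2.trans ht.2⟩
      simp only at h5
      rw [h5, abs_zero] at h6
      exact absurd h6 (not_le.2 (by positivity))
  have h1 := Ord_mis hK H ht s2 ht'
  rw [← hD, ← hab, mul_sub] at h1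
  have h2 := (abs_le.1 h1).1
  have h3 := mul_le_mul_of_nonneg_right s4 hn
  linarith only [pos, h2, h3]

theorem ord_sec (hS : Surf Γ) (ρ : Γ) (d : Fin 4) {K v0 T R : ℝ} (hK : 0 ≤ K) (hv0 : 0 < v0) :
    ∃ h0 : ℝ, 0 < h0 ∧ ∀ (z1 z2 : ℝ → E) (T1 T2 : ℝ),
      Graph2 z1 z2 (-(1 / 2)) (T + 1 / 2) K v0 →
      (∀ t ∈ Icc (-(1 / 2)) (T + 1 / 2), ‖z1 t‖ ≤ R ∧ ‖z2 t‖ ≤ R) → T1 ∈ Icc 0 T →
      ‖z2 0 - z1 0‖ ≤ h0 → |T2 - T1| ≤ K * ‖z2 0 - z1 0‖ →
      v0 ≤ X1 d (deriv z1 0) → v0 ≤ X1 d (dk ρ⁻¹ (z1 T1) (deriv z1 T1)) →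
      X1 d (z1 0) = X1 d (z2 0) → X1 d (ρ⁻¹ • z1 T1) = X1 d (ρ⁻¹ • z2 T2) →
      ∀ sg : ℝ, (sg = 1 ∨ sg = -1) → 0 < sg * (X2 d (z2 0) - X2 d (z1 0)) →
        0 < chi ρ * sg * (X2 d (ρ⁻¹ • z2 T2) - X2 d (ρ⁻¹ • z1 T1)) := by
  have hG := Real.exp_pos (K * T)
  obtain ⟨h1, c, hh1, hc, hdet⟩ := ord_det (T := T) hK hv0 hv0
  obtain ⟨C, hC, hlip⟩ := hS.lip ρ⁻¹ R
  obtain ⟨m, hm, hm'⟩ := (isCompact_closedBall (0 : E) R).exists_forall_le'
    (f := fun x => chi ρ * (dk ρ⁻¹ x).det) (a := 0)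
    (continuous_const.mul (hS.cont_det ρ⁻¹)).continuousOn
    fun x _ => by rw [← hS.chi_inv]; exact hS.chi_det ρ⁻¹ x
  obtain ⟨M, hM⟩ : ∃ M, M = 2 * (C * K) * (C * (K * K + Real.exp (K * T)) ^ 2) := ⟨_, rfl⟩
  have hM0 : 0 ≤ M := by rw [hM]; positivity
  obtain ⟨h2, hh2, hsm⟩ := Ord_small (M := K + M) (ε := min (1 / 2) (m * c / 2))
    (by positivity) (lt_min (by norm_num) (by positivity))
  refine ⟨min h1 h2, lt_min hh1 hh2, fun z1 z2 T1 T2 H hR hT1 hh hT hv1 hv2 e1 e2 => ?_⟩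
  have hn := norm_nonneg (z2 0 - z1 0)
  have s1 := (hsm _ K hn (hh.trans (min_le_right _ _)) (by linarith only [hM0])).trans (min_le_left _ _)
  have s2 := (hsm _ M hn (hh.trans (min_le_right _ _)) (by linarith only [hK])).trans (min_le_right _ _)
  obtain ⟨a1, a2⟩ := abs_le.1 (hT.trans s1)
  have m1 : T2 ∈ Icc (-(1 / 2)) (T + 1 / 2) := ⟨by linarith only [a1, hT1, hT1.1], by linarith only [a2, hT1, hT1.2]⟩
  have m2 : T1 ∈ Icc (-(1 / 2) : ℝ) (T + 1 / 2) := ⟨by linarith only [hT1, hT1.1], by linarith only [hT1, hT1.2]⟩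
  have f1 : X1 d (z2 0 - z1 0) = 0 := by rw [map_sub, e1, sub_self]
  have f2 : ‖z2 0 - z1 0‖ = |X2 d (z2 0) - X2 d (z1 0)| := by
    rw [norm_eq_X d, f1, abs_zero, max_eq_right (abs_nonneg _), map_sub]
  have f3 : det2 (deriv z1 0) (z2 0 - z1 0) = X1 d (deriv z1 0) * (X2 d (z2 0) - X2 d (z1 0)) := by
    rw [det2_X d, f1, mul_zero, sub_zero, map_sub]
  obtain ⟨-, l2, -, l4⟩ := hlip (z1 T1) (z2 T2) (hR _ m2).1 (hR _ m1).2
  have g1 : ‖z2 T2 - z1 T1‖ ≤ (K * K + Real.exp (K * T)) * ‖z2 0 - z1 0‖ := by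
    refine (norm_sub_le_norm_sub_add_norm_sub _ (z2 T1) _).trans ?_
    rw [add_mul, mul_assoc]
    exact add_le_add ((Ord_lip (fun u hu => (H.d2 u hu).1) (fun u hu => (H.d2 u hu).2) m2 m1).trans
      (mul_le_mul_of_nonneg_left hT hK)) (Ord_gr0 hK H hT1)
  have g2 : ‖dk ρ⁻¹ (z1 T1) (deriv z1 T1)‖ ≤ C * K :=
    ((dk ρ⁻¹ (z1 T1)).le_opNorm _).trans (mul_le_mul l2 (H.d1 _ m2).2.2 (norm_nonneg _) hC)
  have g3 := Ord_det_le g2 (l4.trans (mul_le_mul_of_nonneg_left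
    (pow_le_pow_left₀ (norm_nonneg _) g1 2) hC))
  have g4 : det2 (dk ρ⁻¹ (z1 T1) (deriv z1 T1))
      (ρ⁻¹ • z2 T2 - ρ⁻¹ • z1 T1 - dk ρ⁻¹ (z1 T1) (z2 T2 - z1 T1)) =
      X1 d (dk ρ⁻¹ (z1 T1) (deriv z1 T1)) * (X2 d (ρ⁻¹ • z2 T2) - X2 d (ρ⁻¹ • z1 T1)) -
        (dk ρ⁻¹ (z1 T1)).det * det2 (deriv z1 T1) (z2 T2 - z1 T1) := by
    rw [← hS.det2_dk, det2_X d, det2_X d]
    simp only [map_sub (X1 d), map_sub (X2 d), e2]
    ring
  have g5 : 2 * (C * K) * (C * ((K * K + Real.exp (K * T)) * ‖z2 0 - z1 0‖) ^ 2) =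
      M * ‖z2 0 - z1 0‖ * ‖z2 0 - z1 0‖ := by rw [hM]; ring
  rw [g4, g5] at g3
  have g6 := abs_le.1 (g3.trans (mul_le_mul_of_nonneg_right s2 hn))
  have g7 := hm' (z1 T1) (mem_closedBall_zero_iff.2 (hR _ m2).1)
  intro sg hsg hp
  have k1 : ‖z2 0 - z1 0‖ = sg * (X2 d (z2 0) - X2 d (z1 0)) := by
    rw [f2, ← abs_of_pos hp]
    rcases hsg with rfl | rfl <;> simp [abs_sub_comm]
  have k2 := hdet z1 z2 sg hsg H (hh.trans (min_le_left _ _)) (by
    rw [f3, mul_left_comm, ← k1]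
    exact mul_le_mul_of_nonneg_right hv1 hn) T1 hT1 T2 hT
  have k3 : 0 < m * c * ‖z2 0 - z1 0‖ := by rw [k1]; positivity
  have k4 := mul_le_mul g7 k2 (by positivity) (hm.le.trans g7)
  refine (mul_pos_iff_of_pos_left (hv0.trans_le hv2)).1 ?_
  rcases chi_cases ρ with e | e <;> rw [e] at k4 ⊢ <;> rcases hsg with rfl | rfl <;>
    linarith only [g6, k3, k4, g6.1, g6.2]

end Pool.Agent.Work.MP_1ce82a_an
end

-- merged part: Pool.Agent.Work.MP_1ce82a_an.L.NSlope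
section
/-! Consequences of quadratic growth on chains: the slope is the asymptotic average.
PLAN. chqg_slope: use the chain with the same arc twice (z1 = z2, T1 = T2, a1 = a2) with t0 = 1; the jumps have norm at most 2r;
take s = plus or minus min s0 (eps/(2C+1)) and T large. slope_le: normalise one curve with Surf.exists_R0 (initial point by hm, end point by the choice of a),
compare the integrals with intervalIntegral.integral_mono_on, divide by T and let eps go to zero. chqg_comb: apply the first hypothesis with 2s and the second one with -2 beta s,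
add and halve; s0 = min (s1/2) (s2/(2|beta|+1)), C = (C1+C2)(2+2|beta|)^2 or so; pot is linear by continuity of the curves. -/

open Set Filter Topology MeasureTheory
open scoped ContDiff

namespace Pool.Agent.Work.MP_1ce82a_an

variable {Γ : Grp}

theorem chqg_slope {Cv : Set (ℝ → E)} {c1 : H1 Γ} {g : E → ℝ} {m : ℝ} (h : ChQG Cv c1 g m)
    (r ε : ℝ) (hε : 0 < ε) : ∃ T1 : ℝ, 0 < T1 ∧ ∀ z ∈ Cv, ∀ (T : ℝ) (a : Γ), T1 ≤ T → ‖z 0‖ ≤ r →
      ‖a⁻¹ • z T‖ ≤ r → |c1.1 a + pot g z 0 T - m * T| ≤ ε * T := by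
  obtain ⟨C, s0, hC, hs0, h⟩ := h r 1 one_pos
  obtain ⟨σ, hσ, hσ1, hσ2⟩ : ∃ σ : ℝ, 0 < σ ∧ σ ≤ s0 ∧ σ * (2 * C + 1) ≤ ε :=
    ⟨min s0 (ε / (2 * C + 1)), lt_min hs0 (by positivity), min_le_left _ _,
      (le_div_iff₀ (by positivity)).1 (min_le_right _ _)⟩
  refine ⟨max 1 (2 * (C * (4 * r ^ 2 + σ * (2 * r))) / (σ * ε)), lt_max_of_lt_left one_pos,
    fun z hz T a hT h0 h1 => ?_⟩
  have t1 : 1 ≤ T := (le_max_left _ _).trans hT
  have t2 : 2 * (C * (4 * r ^ 2 + σ * (2 * r))) ≤ T * (σ * ε) :=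
    (div_le_iff₀ (by positivity)).1 ((le_max_right _ _).trans hT)
  have j0 := norm_nonneg (a⁻¹ • z T - z 0)
  have j1 : ‖a⁻¹ • z T - z 0‖ ≤ 2 * r := (norm_sub_le _ _).trans (by linarith only [h0, h1])
  have k1 := h z hz z hz T T a a t1 t1 h0 h0 h1 h1 σ (by rwa [abs_of_pos hσ])
  have k2 := h z hz z hz T T a a t1 t1 h0 h0 h1 h1 (-σ) (by rwa [abs_neg, abs_of_pos hσ])
  rw [abs_of_pos hσ] at k1
  rw [abs_neg, abs_of_pos hσ] at k2
  generalize ‖a⁻¹ • z T - z 0‖ = J at j0 j1 k1 k2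
  have e1 : C * (J ^ 2 + σ * J) ≤ C * (4 * r ^ 2 + σ * (2 * r)) :=
    mul_le_mul_of_nonneg_left (by linarith only [hσ, j1, j0, mul_nonneg_of_nonpos_of_nonpos (le_of_lt (Mathlib.Tactic.Linarith.sub_neg_of_lt hσ)) (Mathlib.Tactic.Linarith.sub_nonpos_of_le j1), mul_nonneg_of_nonpos_of_nonpos (Mathlib.Tactic.Linarith.sub_nonpos_of_le j0) (Mathlib.Tactic.Linarith.sub_nonpos_of_le j1), mul_nonneg_of_nonpos_of_nonpos (Mathlib.Tactic.Linarith.sub_nonpos_of_le j1) (Mathlib.Tactic.Linarith.sub_nonpos_of_le j1)]) hC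
  have e2 : σ * T * (σ * (2 * C + 1)) ≤ σ * T * ε :=
    mul_le_mul_of_nonneg_left hσ2 (by positivity)
  have e3 : 0 ≤ σ * T * σ := by positivity
  rw [abs_le]
  constructor
  · refine le_of_mul_le_mul_left ?_ hσ
    linarith only [t2, k2, e1, e2, e3]
  · refine le_of_mul_le_mul_left ?_ hσ
    linarith only [t2, k1, e1, e2, e3]

theorem slope_le (hS : Surf Γ) {Cv : Set (ℝ → E)} (hne : Cv.Nonempty)
    (hm : ∀ z ∈ Cv, ∀ γ : Γ, (fun t => γ • z t) ∈ Cv) (hc : ∀ z ∈ Cv, Continuous z)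
    {g1 g2 : E → ℝ} {m1 m2 k1 k2 : ℝ} (h1 : ChQG Cv (0 : H1 Γ) g1 m1)
    (h2 : ChQG Cv (0 : H1 Γ) g2 m2) (hg1 : Continuous g1) (hg2 : Continuous g2)
    (hle : ∀ x, k1 * g1 x ≤ k2 * g2 x) : k1 * m1 ≤ k2 * m2 := by
  obtain ⟨R0, -, hR⟩ := hS.exists_R0
  obtain ⟨z0, hz0⟩ := hne
  obtain ⟨γ, hγ⟩ := hR (z0 0)
  have hz := hm z0 hz0 γ
  have hzc := hc _ hz
  refine le_of_forall_pos_le_add fun η hη => ?_
  have k0 : 0 < |k1| + |k2| + 1 := by positivity
  obtain ⟨T1, t1, a1⟩ := chqg_slope h1 R0 (η / (|k1| + |k2| + 1)) (by positivity)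
  obtain ⟨T2, -, a2⟩ := chqg_slope h2 R0 (η / (|k1| + |k2| + 1)) (by positivity)
  have t0 : 0 < max T1 T2 := lt_max_of_lt_left t1
  obtain ⟨ρ, hρ⟩ := hR (γ • z0 (max T1 T2))
  have b1 := a1 _ hz _ ρ⁻¹ (le_max_left T1 T2) hγ (by rwa [inv_inv])
  have b2 := a2 _ hz _ ρ⁻¹ (le_max_right T1 T2) hγ (by rwa [inv_inv])
  have b3 : k1 * pot g1 (fun t => γ • z0 t) 0 (max T1 T2) ≤
      k2 * pot g2 (fun t => γ • z0 t) 0 (max T1 T2) := by
    rw [pot, pot, ← intervalIntegral.integral_const_mul, ← intervalIntegral.integral_const_mul]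
    exact intervalIntegral.integral_mono_on t0.le
      ((continuous_const.mul (hg1.comp hzc)).intervalIntegrable _ _)
      ((continuous_const.mul (hg2.comp hzc)).intervalIntegrable _ _) fun t _ => hle _
  have z1 : (0 : H1 Γ).1 ρ⁻¹ = 0 := rfl
  rw [z1, zero_add] at b1 b2
  generalize pot g1 (fun t => γ • z0 t) 0 (max T1 T2) = p1 at b1 b3
  generalize pot g2 (fun t => γ • z0 t) 0 (max T1 T2) = p2 at b2 b3
  generalize max T1 T2 = T at t0 b1 b2
  have c1 : -(k1 * (p1 - m1 * T)) ≤ |k1| * (η / (|k1| + |k2| + 1) * T) :=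
    (neg_le_abs _).trans ((abs_mul _ _).trans_le (mul_le_mul_of_nonneg_left b1 (abs_nonneg _)))
  have c2 : k2 * (p2 - m2 * T) ≤ |k2| * (η / (|k1| + |k2| + 1) * T) :=
    (le_abs_self _).trans ((abs_mul _ _).trans_le (mul_le_mul_of_nonneg_left b2 (abs_nonneg _)))
  have c3 : (|k1| + |k2| + 1) * (η / (|k1| + |k2| + 1) * T) = η * T := by field_simp
  have c4 : 0 ≤ η / (|k1| + |k2| + 1) * T := by positivity
  refine le_of_mul_le_mul_right ?_ t0
  linarith only [b3, c1, c2, c3, c4]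

theorem chqg_comb {Cv : Set (ℝ → E)} (hc : ∀ z ∈ Cv, Continuous z) {g1 g0 : E → ℝ} {m0 β : ℝ}
    (h1 : ChQG Cv (0 : H1 Γ) g1 (β * m0)) (h0 : ChQG Cv (0 : H1 Γ) g0 m0) (hg1 : Continuous g1)
    (hg0 : Continuous g0) : ChQG Cv (0 : H1 Γ) (fun x => g1 x - β * g0 x) 0 := by
  intro r t0 ht0
  obtain ⟨C1, s1, hC1, hs1, h1⟩ := h1 r t0 ht0
  obtain ⟨C0, s0, hC0, hs0, h0⟩ := h0 r t0 ht0
  have β0 := abs_nonneg β
  refine ⟨C1 + C0 * (1 + |β|) ^ 2, min s1 (s0 / (|β| + 1)), by positivity,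
    lt_min hs1 (by positivity), fun z1 hz1 z2 hz2 T1 T2 a1 a2 b1 b2 b3 b4 b5 b6 s hs => ?_⟩
  have e : ∀ z ∈ Cv, ∀ T : ℝ, pot (fun x => g1 x - β * g0 x) z 0 T =
      pot g1 z 0 T - β * pot g0 z 0 T := fun z hz T => by
    rw [pot, pot, pot, ← intervalIntegral.integral_const_mul]
    exact intervalIntegral.integral_sub ((hg1.comp (hc z hz)).intervalIntegrable _ _)
      ((continuous_const.mul (hg0.comp (hc z hz))).intervalIntegrable _ _)
  have σ0 := abs_nonneg s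
  have σ1 : |s| * (|β| + 1) ≤ s0 := (le_div_iff₀ (by positivity)).1 (hs.trans (min_le_right _ _))
  have k1 := h1 z1 hz1 z2 hz2 T1 T2 a1 a2 b1 b2 b3 b4 b5 b6 s (hs.trans (min_le_left _ _))
  have k0 := h0 z1 hz1 z2 hz2 T1 T2 a1 a2 b1 b2 b3 b4 b5 b6 (-(β * s)) (by
    rw [abs_neg, abs_mul]
    linarith only [σ0, σ1])
  have y1 : (0 : H1 Γ).1 a1 = 0 := rfl
  have y2 : (0 : H1 Γ).1 a2 = 0 := rfl
  rw [abs_neg, abs_mul, neg_sq, mul_pow, ← sq_abs β] at k0
  rw [y1, y2] at k0 k1 ⊢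
  rw [e z1 hz1, e z2 hz2]
  have j1 := norm_nonneg (a1⁻¹ • z1 T1 - z2 0)
  have j2 := norm_nonneg (a2⁻¹ • z2 T2 - z1 0)
  generalize ‖a1⁻¹ • z1 T1 - z2 0‖ = J1 at j1 k0 k1 ⊢
  generalize ‖a2⁻¹ • z2 T2 - z1 0‖ = J2 at j2 k0 k1 ⊢
  have q1 : 0 ≤ J1 ^ 2 + J2 ^ 2 := by positivity
  have q2 : 0 ≤ |s| * (J1 + J2) := by positivity
  have q3 : 0 ≤ s ^ 2 * (T1 + T2) := mul_nonneg (sq_nonneg s) (by linarith only [ht0, b1, b2])
  have q4 : J1 ^ 2 + J2 ^ 2 + |β| * |s| * (J1 + J2) + |β| ^ 2 * s ^ 2 * (T1 + T2) ≤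
      (1 + |β|) ^ 2 * (J1 ^ 2 + J2 ^ 2 + |s| * (J1 + J2) + s ^ 2 * (T1 + T2)) := by
    linarith only [q2, q3, β0, q1, mul_nonneg β0 q1, mul_nonneg β0 q2, mul_nonneg β0 q3,
      mul_nonneg (sq_nonneg |β|) q1, mul_nonneg (sq_nonneg |β|) q2, sq_nonneg |β|]
  have q5 := mul_le_mul_of_nonneg_left q4 hC0
  linarith only [k0, k1, q5]

end Pool.Agent.Work.MP_1ce82a_an
end

-- merged part: Pool.Agent.Work.MP_1ce82a_an.L.NLam
section
/-! The uniformly recurrent part of the family of curves.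
PLAN. cv_gron: stay gives a ball containing both curves on [-T,T]; lip applied to the shifted curves (deriv of a shift: deriv_comp_add_const) gives the hypothesis of gron_lip.
synd_ne: otherwise every x has eps with curves avoiding the translates of the eps ball for arbitrarily long times; exists_bx gives a box B x with f0 x > 0 supported in the ball; per f0 vanishes along the
avoiding curve (exists_of_per_ne_zero), which is normalised by exists_R0 and smul, so chqg_slope gives slope 0. Cover the closed ball of radius R0 by finitely many open sets where f0 > 0 (IsCompact.elim_nhds_subcover);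
the sum of the per f0 is invariant, continuous and positive (le_per), hence at least k > 0 everywhere; for one normalised curve and T large each pot is at most eps T, while the sum is at least k T.
exists_lam: L is the set SyndSet; psi x is the curve of the family through x (choose, unique by cv_gron), V x its derivative at 0. L is closed, invariant under the group (continuity of the action), contained in the closed
set of initial points, and invariant under the flow (cv_gron; apply the definition to the curve shifted by |t|). -/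

open Set Filter Topology MeasureTheory
open scoped ContDiff

namespace Pool.Agent.Work.MP_1ce82a_an

variable {Γ : Grp}

/-- Points whose neighbourhoods are visited in bounded time by all curves of the family. -/
def SyndSet (Γ : Grp) (Cv : Set (ℝ → E)) : Set E :=
  {x | ∀ ε : ℝ, 0 < ε → ∃ T0 : ℝ, ∀ z ∈ Cv, ∃ s ∈ Icc 0 T0, ∃ γ : Γ, ‖γ • z s - x‖ < ε}

theorem CurveSys.cont {Cv : Set (ℝ → E)} (hC : CurveSys Γ Cv) : ∀ z ∈ Cv, Continuous z :=
  fun z hz => continuous_iff_continuousAt.2 fun t => (hC.diff z hz t).continuousAt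

theorem cv_gron {Cv : Set (ℝ → E)} (hC : CurveSys Γ Cv) (R T : ℝ) : ∃ C : ℝ, 0 ≤ C ∧
    ∀ z1 ∈ Cv, ∀ z2 ∈ Cv, ‖z1 0‖ ≤ R → ‖z2 0‖ ≤ R → ∀ t, |t| ≤ T →
      ‖z1 t - z2 t‖ ≤ C * ‖z1 0 - z2 0‖ := by
  obtain ⟨R', hR'⟩ := hC.stay R T
  obtain ⟨K, hK, hL⟩ := hC.lip R'
  refine ⟨Real.exp (K * T), (Real.exp_pos _).le, fun z1 h1 z2 h2 r1 r2 t ht => ?_⟩
  have hT : 0 ≤ T := (abs_nonneg t).trans ht
  have hl : ∀ s ∈ Icc (-T) T, ‖deriv z1 s - deriv z2 s‖ ≤ K * ‖z1 s - z2 s‖ := by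
    intro s hs
    have hs' : |s| ≤ T := abs_le.2 hs
    have h := (hL _ (hC.shift z1 h1 s) _ (hC.shift z2 h2 s)
      (by simpa only [zero_add] using hR' z1 h1 r1 s hs')
      (by simpa only [zero_add] using hR' z2 h2 r2 s hs')).2
    rw [deriv_comp_add_const, deriv_comp_add_const] at h
    simpa only [zero_add] using h
  have h := gron_lip hK (fun s _ => hC.diff z1 h1 s) (fun s _ => hC.diff z2 h2 s) hl 0
    ⟨by linarith only [hT], hT⟩ t (abs_le.1 ht)
  refine h.trans (mul_le_mul_of_nonneg_right (Real.exp_le_exp.2 ?_) (norm_nonneg _))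
  rw [sub_zero]
  exact mul_le_mul_of_nonneg_left ht hK

theorem NLam_zero (hS : Surf Γ) {Cv : Set (ℝ → E)} (hC : CurveSys Γ Cv) {g : E → ℝ} {m : ℝ}
    (hg : Inv Γ g) (hQ : ChQG Cv (0 : H1 Γ) g m)
    (hz : ∀ T0 : ℝ, ∃ z ∈ Cv, ∀ s ∈ Icc 0 T0, g (z s) = 0) : m = 0 := by
  obtain ⟨R0, -, hR⟩ := hS.exists_R0
  have key : ∀ ε : ℝ, 0 < ε → |m| ≤ ε := by
    intro ε hε
    obtain ⟨T1, hT1, h⟩ := chqg_slope hQ R0 ε hε
    obtain ⟨z, hzC, hz0⟩ := hz T1
    obtain ⟨γ, hγ⟩ := hR (z 0)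
    obtain ⟨a, ha⟩ := hR (γ • z T1)
    have h1 := h _ (hC.smul z hzC γ) T1 a⁻¹ le_rfl hγ (by rw [inv_inv]; exact ha)
    have hp : pot g (fun t => γ • z t) 0 T1 = 0 := by
      unfold pot
      rw [intervalIntegral.integral_congr (g := fun _ => (0 : ℝ))]
      · exact intervalIntegral.integral_zero
      · intro s hs
        rw [uIcc_of_le hT1.le] at hs
        show g (γ • z s) = 0
        rw [hg, hz0 s hs]
    have h0 : (0 : H1 Γ).1 a⁻¹ = 0 := rfl
    rw [hp, h0, add_zero, zero_sub, abs_neg, abs_mul, abs_of_pos hT1] at h1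
    exact le_of_mul_le_mul_right h1 hT1
  by_contra hm
  have h1 : 0 < |m| := abs_pos.2 hm
  have h2 := key (|m| / 2) (half_pos h1)
  linarith only [h1, h2]

theorem synd_ne (hS : Surf Γ) {Cv : Set (ℝ → E)} (hC : CurveSys Γ Cv)
    (h2 : ∀ B : Bx, ∃ m, ChQG Cv (0 : H1 Γ) (per Γ B.f0) m) : (SyndSet Γ Cv).Nonempty := by
  by_contra hn
  have hx : ∀ x : E, ∃ B : Bx, 0 < B.f0 x ∧ ChQG Cv (0 : H1 Γ) (per Γ B.f0) 0 := by
    intro x
    have h : x ∉ SyndSet Γ Cv := fun h => hn ⟨x, h⟩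
    simp only [SyndSet, mem_setOf_eq, not_forall, not_exists, not_and, not_lt] at h
    obtain ⟨ε, hε, h⟩ := h
    obtain ⟨B, hB, hsupp⟩ := exists_bx x hε
    obtain ⟨m, hm⟩ := h2 B
    have h0 : m = 0 := by
      refine NLam_zero hS hC (per_inv _) hm fun T0 => ?_
      obtain ⟨z, hz, hav⟩ := h T0
      refine ⟨z, hz, fun s hs => ?_⟩
      by_contra hne
      obtain ⟨γ, hγ⟩ := exists_of_per_ne_zero hne
      exact absurd (hsupp _ hγ) (not_lt.2 (hav s hs γ))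
    exact ⟨B, hB, h0 ▸ hm⟩
  choose B hB hQ using hx
  obtain ⟨R0, hR0, hR⟩ := hS.exists_R0
  have hK : IsCompact (Metric.closedBall (0 : E) R0) := isCompact_closedBall _ _
  obtain ⟨t, -, ht⟩ := hK.elim_nhds_subcover (fun x => {y | 0 < (B x).f0 y}) fun x _ =>
    (isOpen_lt continuous_const (B x).f0_contDiff.continuous).mem_nhds (hB x)
  have hc : ∀ x, Continuous (per Γ (B x).f0) := fun x =>
    (per_contDiff hS (B x).f0_contDiff (B x).f0_cpt).continuous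
  have hgc : Continuous fun y => ∑ x ∈ t, per Γ (B x).f0 y :=
    continuous_finsetSum _ fun x _ => hc x
  obtain ⟨y0, hy0, hmin⟩ := hK.exists_isMinOn ⟨0, Metric.mem_closedBall_self hR0.le⟩
    hgc.continuousOn
  have hk : 0 < ∑ x ∈ t, per Γ (B x).f0 y0 := by
    obtain ⟨x, hxt, hx⟩ := mem_iUnion₂.1 (ht hy0)
    refine Finset.sum_pos' (fun i _ => per_nonneg (B i).f0_nonneg _) ⟨x, hxt, ?_⟩
    have h1 := le_per hS (B x).f0_cpt (B x).f0_nonneg 1 y0
    rw [one_smul] at h1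
    exact lt_of_lt_of_le hx h1
  have hlow : ∀ y, ∑ x ∈ t, per Γ (B x).f0 y0 ≤ ∑ x ∈ t, per Γ (B x).f0 y := by
    intro y
    obtain ⟨γ, hγ⟩ := hR y
    have h1 : ∑ x ∈ t, per Γ (B x).f0 y0 ≤ ∑ x ∈ t, per Γ (B x).f0 (γ • y) :=
      hmin (mem_closedBall_zero_iff.2 hγ)
    rwa [Finset.sum_congr rfl fun x _ => per_inv (B x).f0 γ y] at h1
  generalize ∑ x ∈ t, per Γ (B x).f0 y0 = k at hk hlow
  have hn1 : (0 : ℝ) < t.card + 1 := by positivity
  choose T1 hT1 hsl using fun x => chqg_slope (hQ x) R0 (k / (t.card + 1)) (div_pos hk hn1)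
  obtain ⟨z, hz⟩ := hC.ne
  obtain ⟨γ, hγ⟩ := hR (z 0)
  have hw := hC.smul z hz γ
  have hwc := hC.cont _ hw
  have hw0 : ‖(fun t => γ • z t) 0‖ ≤ R0 := hγ
  generalize (fun t => γ • z t) = w at hw hwc hw0
  obtain ⟨T, hT, hTT⟩ : ∃ T : ℝ, 0 < T ∧ ∀ x ∈ t, T1 x ≤ T := by
    have h0 : 0 ≤ ∑ x ∈ t, T1 x := Finset.sum_nonneg fun x _ => (hT1 x).le
    refine ⟨∑ x ∈ t, T1 x + 1, by linarith only [h0], fun x hx => ?_⟩
    have := Finset.single_le_sum (f := T1) (fun x _ => (hT1 x).le) hx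
    linarith
  obtain ⟨a, ha⟩ := hR (w T)
  have hup : ∀ x ∈ t, pot (per Γ (B x).f0) w 0 T ≤ k / (t.card + 1) * T := by
    intro x hx
    have h1 := hsl x w hw T a⁻¹ (hTT x hx) hw0 (by rw [inv_inv]; exact ha)
    have h0 : (0 : H1 Γ).1 a⁻¹ = 0 := rfl
    rw [h0, zero_add, zero_mul, sub_zero] at h1
    exact (le_abs_self _).trans h1
  have hsum : ∑ x ∈ t, pot (per Γ (B x).f0) w 0 T = ∫ s in (0 : ℝ)..T,
      ∑ x ∈ t, per Γ (B x).f0 (w s) :=
    (intervalIntegral.integral_finsetSum fun x _ =>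
      ((hc x).comp hwc).intervalIntegrable _ _).symm
  have hge : ∫ _ in (0 : ℝ)..T, k ≤ ∫ s in (0 : ℝ)..T, ∑ x ∈ t, per Γ (B x).f0 (w s) :=
    intervalIntegral.integral_mono_on hT.le (continuous_const.intervalIntegrable _ _)
      ((hgc.comp hwc).intervalIntegrable _ _) fun s _ => hlow _
  have hle := Finset.sum_le_card_nsmul t _ _ hup
  rw [intervalIntegral.integral_const, sub_zero, smul_eq_mul, ← hsum] at hge
  rw [nsmul_eq_mul] at hle
  have h3 : k / (t.card + 1) * (t.card + 1) = k := div_mul_cancel₀ _ hn1.ne'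
  have h4 : 0 < k / (t.card + 1) * T := mul_pos (div_pos hk hn1) hT
  generalize k / (t.card + 1) = e at h3 h4 hle
  rw [← h3] at hge
  linarith only [hge, h4, hle]

theorem NLam_uniq {Cv : Set (ℝ → E)} (hC : CurveSys Γ Cv) {z1 z2 : ℝ → E} (h1 : z1 ∈ Cv)
    (h2 : z2 ∈ Cv) (h : z1 0 = z2 0) : z1 = z2 := by
  funext t
  obtain ⟨C, -, hg⟩ := cv_gron hC ‖z1 0‖ |t|
  have h3 := hg z1 h1 z2 h2 le_rfl (by rw [h]) t le_rfl
  rw [h, sub_self, norm_zero, mul_zero] at h3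
  exact sub_eq_zero.1 (norm_le_zero_iff.1 h3)

theorem NLam_sub {Cv : Set (ℝ → E)} (hC : CurveSys Γ Cv) {x : E} (hx : x ∈ SyndSet Γ Cv) :
    ∃ z ∈ Cv, z 0 = x := by
  have h : x ∈ closure {x : E | ∃ z ∈ Cv, z 0 = x} := by
    refine Metric.mem_closure_iff.2 fun ε hε => ?_
    obtain ⟨T0, h⟩ := hx ε hε
    obtain ⟨z, hz⟩ := hC.ne
    obtain ⟨s, -, γ, hγ⟩ := h z hz
    refine ⟨γ • z s, ⟨_, hC.smul _ (hC.shift z hz s) γ, by simp only [zero_add]⟩, ?_⟩
    rwa [dist_comm, dist_eq_norm]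
  rwa [hC.closed.closure_eq] at h

theorem NLam_closed (Cv : Set (ℝ → E)) : IsClosed (SyndSet Γ Cv) := by
  refine isClosed_of_closure_subset fun x hx ε hε => ?_
  obtain ⟨y, hy, hxy⟩ := Metric.mem_closure_iff.1 hx (ε / 2) (half_pos hε)
  obtain ⟨T0, h⟩ := hy (ε / 2) (half_pos hε)
  refine ⟨T0, fun z hz => ?_⟩
  obtain ⟨s, hs, γ, hγ⟩ := h z hz
  refine ⟨s, hs, γ, ?_⟩
  rw [← dist_eq_norm] at hγ ⊢
  have := dist_triangle_right (γ • z s) x y
  linarith only [hxy, hγ, this]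

theorem NLam_smul (hS : Surf Γ) {Cv : Set (ℝ → E)} (γ0 : Γ) {x : E} (hx : x ∈ SyndSet Γ Cv) :
    γ0 • x ∈ SyndSet Γ Cv := by
  intro ε hε
  obtain ⟨δ, hδ, h⟩ := Metric.continuous_iff.1 (hS.cont γ0) x ε hε
  obtain ⟨T0, hT⟩ := hx δ hδ
  refine ⟨T0, fun z hz => ?_⟩
  obtain ⟨s, hs, γ, hγ⟩ := hT z hz
  refine ⟨s, hs, γ0 * γ, ?_⟩
  rw [← dist_eq_norm] at hγ ⊢
  rw [mul_smul]
  exact h _ hγ

theorem NLam_mem {Cv : Set (ℝ → E)} (hC : CurveSys Γ Cv) {y : ℝ → E} (hy : y ∈ Cv)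
    (hx : y 0 ∈ SyndSet Γ Cv) (t : ℝ) : y t ∈ SyndSet Γ Cv := by
  intro ε hε
  obtain ⟨C, hC0, hg⟩ := cv_gron hC (‖y 0‖ + 1) |t|
  have hC1 : 0 < C + 1 := by linarith only [hC0]
  obtain ⟨T0, hT⟩ := hx (min 1 (ε / (C + 1))) (lt_min one_pos (div_pos hε hC1))
  refine ⟨T0 + 2 * |t|, fun z hz => ?_⟩
  obtain ⟨s, hs, γ, hγ⟩ := hT _ (hC.shift z hz |t|)
  have hγ' : ‖γ • z (0 + (s + |t|)) - y 0‖ < min 1 (ε / (C + 1)) := by rwa [zero_add]
  have h1 := hγ'.trans_le (min_le_left _ _)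
  have h2 := (lt_div_iff₀ hC1).1 (hγ'.trans_le (min_le_right _ _))
  have h3 := hg _ (hC.smul _ (hC.shift z hz (s + |t|)) γ) y hy
    ((norm_le_norm_add_norm_sub' _ (y 0)).trans (by linarith only [h1])) (by linarith only []) t le_rfl
  have h4 := neg_abs_le t
  have h5 := le_abs_self t
  refine ⟨t + (s + |t|), ⟨by linarith only [h4, hs, hs.1], by linarith only [h5, hs, hs.2]⟩, γ, lt_of_le_of_lt h3 ?_⟩
  have h6 := norm_nonneg (γ • z (0 + (s + |t|)) - y 0)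
  linarith only [h2, h6]

theorem exists_lam (hS : Surf Γ) {Cv : Set (ℝ → E)} (hC : CurveSys Γ Cv)
    (hne : (SyndSet Γ Cv).Nonempty) :
    ∃ (L : Set E) (V : E → E) (ψ : E → ℝ → E), Lam Γ L V ψ ∧ ∀ x ∈ L, ψ x ∈ Cv := by
  have hex : ∀ x : E, ∃ z : ℝ → E, (∃ y ∈ Cv, y 0 = x) → z ∈ Cv ∧ z 0 = x := by
    intro x
    by_cases h : ∃ y ∈ Cv, y 0 = x
    · obtain ⟨y, hy⟩ := h
      exact ⟨y, fun _ => hy⟩
    · exact ⟨fun _ => x, fun h' => absurd h' h⟩
  choose ψ hψ using hex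
  have hm : ∀ x ∈ SyndSet Γ Cv, ψ x ∈ Cv := fun x hx => (hψ x (NLam_sub hC hx)).1
  have h0 : ∀ x ∈ SyndSet Γ Cv, ψ x 0 = x := fun x hx => (hψ x (NLam_sub hC hx)).2
  have hu : ∀ z ∈ Cv, ∀ x, z 0 = x → ψ x = z := fun z hz x hx =>
    NLam_uniq hC (hψ x ⟨z, hz, hx⟩).1 hz ((hψ x ⟨z, hz, hx⟩).2.trans hx.symm)
  have hadd : ∀ x ∈ SyndSet Γ Cv, ∀ s, ψ (ψ x s) = fun t => ψ x (t + s) := fun x hx s =>
    hu _ (hC.shift _ (hm x hx) s) _ (by simp only [zero_add])
  have heqv : ∀ γ : Γ, ∀ x ∈ SyndSet Γ Cv, ψ (γ • x) = fun t => γ • ψ x t := fun γ x hx =>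
    hu _ (hC.smul _ (hm x hx) γ) _ (by simp only [h0 x hx])
  refine ⟨SyndSet Γ Cv, fun x => deriv (ψ x) 0, ψ, ⟨hne, NLam_closed Cv,
    fun γ x hx => NLam_smul hS γ hx,
    fun x hx t => NLam_mem hC (hm x hx) (by rwa [h0 x hx]) t, h0,
    fun x hx s t => congrFun (hadd x hx s) t, fun γ x hx t => congrFun (heqv γ x hx) t,
    fun x hx t => ?_, fun R => ?_, fun R T => ?_, fun x hx P σ hP he => ?_,
    fun x hx ε hε => ?_⟩, hm⟩
  · rw [hadd x hx t, deriv_comp_add_const, zero_add]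
    exact hC.diff _ (hm x hx) t
  · obtain ⟨K, hK, h⟩ := hC.lip R
    refine ⟨K, hK, fun x hx y hy rx ry => ?_⟩
    have h1 := h _ (hm x hx) _ (hm y hy) (by rwa [h0 x hx]) (by rwa [h0 y hy])
    rwa [h0 x hx, h0 y hy] at h1
  · obtain ⟨R', h⟩ := hC.stay R T
    exact ⟨R', fun x hx rx => h _ (hm x hx) (by rwa [h0 x hx])⟩
  · refine hC.aper _ (hm x hx) P σ ⟨hP, fun t => ?_⟩
    have h1 := congrFun (hadd x hx P) t
    rw [he, heqv σ x hx] at h1
    exact h1.symm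
  · obtain ⟨T0, h⟩ := hx ε hε
    exact ⟨T0, fun y hy => h _ (hm y hy)⟩

end Pool.Agent.Work.MP_1ce82a_an
end

-- merged part: Pool.Agent.Work.MP_1ce82a_an.U.Slope
section
/-! Some class has a nonzero slope.

PLAN. `fg`: copy the connectedness argument of `finDim` (`B/Per`) with the subgroup generated by the
finite set of `Surf.finite_ball`. `int_coord`: the `ℤ` span `M` of the values of `η` on the
generators is a finitely generated torsion free `ℤ` submodule of `ℝ` containing all values of `η`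
(`Subgroup.closure_induction`); take `Module.finBasis ℤ M` (or `Module.Free.chooseBasis`) and
`c i a = (B.repr ⟨η a, _⟩ i : ℝ)`; a nonzero integer has absolute value at least one
(`Int.one_le_abs`). `slope_ne`: otherwise all slopes of the `c i` vanish. Apply `ChQG` with the same arc twice
(as in `chqg_slope`, `pot (fun _ => 0) = 0`): `s * c a ≤ C * (d ^ 2 + |s| * d + s ^ 2 * T)`, with
`C`, `s0` uniform for the finitely many `i`; for the return of `Rets` of order `N` and `i` with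
`1 ≤ |c i a|` take `s = ± 1 / (4 * (C + 1) * T0 * N)`, `N` large: contradiction. `drift_of_slope`:
`w` from `exists_eqv_smooth` for `c` or `-c` according to the sign of `m`, bounded by `M` on the ball
of radius `R0`; move `x` and `ψ x T` into the ball; `chqg_slope` with `ε = |m| / 2`.
About 250 lines. -/

set_option linter.unusedVariables false

open Set Filter Topology MeasureTheory
open scoped ContDiff

namespace Pool.Agent.Work.MP_1ce82a_an.U

variable {Γ : Grp}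

theorem fg (hS : Surf Γ) : ∃ S : Finset Γ, Subgroup.closure (S : Set Γ) = ⊤ := by
  obtain ⟨R0, h0, hR⟩ := hS.exists_R0
  have hF := hS.finite_ball (R0 + 1) (R0 + 1)
  refine ⟨hF.toFinset, eq_top_iff.2 fun δ _ => ?_⟩
  rw [hF.coe_toFinset]
  set K := Subgroup.closure {γ : Γ | ∃ x : E, ‖x‖ ≤ R0 + 1 ∧ ‖γ • x‖ ≤ R0 + 1}
  have ho : ∀ p : Γ → Prop, IsOpen {x : E | ∃ γ : Γ, p γ ∧ ‖γ • x‖ < R0 + 1} := fun p => by
    rw [Set.ofPred_exists]
    refine isOpen_iUnion fun γ => ?_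
    by_cases e : p γ
    · simpa only [e, true_and] using isOpen_lt (hS.cont γ).norm continuous_const
    · simp [e]
  by_contra hδ
  obtain ⟨x, -, ⟨γ, h1, h2⟩, γ', h3, h4⟩ := isPreconnected_univ _ _ (ho fun γ => γ ∈ K)
    (ho fun γ => γ ∉ K) (fun x _ => by
      obtain ⟨γ, hγ⟩ := hR x
      by_cases e : γ ∈ K
      · exact .inl ⟨γ, e, by linarith only [hγ]⟩
      · exact .inr ⟨γ, e, by linarith⟩)
    ⟨0, trivial, 1, K.one_mem, by rw [one_smul, norm_zero]; linarith⟩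
    ⟨δ⁻¹ • 0, trivial, δ, hδ, by rw [smul_inv_smul, norm_zero]; linarith⟩
  have h5 : γ' * γ⁻¹ ∈ K := Subgroup.subset_closure
    ⟨γ • x, h2.le, by rw [mul_smul, inv_smul_smul]; exact h4.le⟩
  have h6 := K.mul_mem h5 h1
  rw [inv_mul_cancel_right] at h6
  exact h3 h6

theorem int_coord (hS : Surf Γ) (η : H1 Γ) :
    ∃ (n : ℕ) (c : Fin n → H1 Γ), ∀ a : Γ, η.1 a ≠ 0 → ∃ i, 1 ≤ |(c i).1 a| := by
  obtain ⟨S, hg⟩ := fg hS
  set M := Submodule.span ℤ (η.1 '' (S : Set Γ))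
  have hM : ∀ a : Γ, η.1 a ∈ M := fun a => by
    have ha : a ∈ Subgroup.closure (S : Set Γ) := hg ▸ Subgroup.mem_top a
    induction ha using Subgroup.closure_induction with
    | mem x hx => exact Submodule.subset_span ⟨x, hx, rfl⟩
    | one => rw [H1.map_one]; exact M.zero_mem
    | mul x y _ _ hx hy => rw [H1.map_mul]; exact M.add_mem hx hy
    | inv x _ hx => rw [H1.map_inv]; exact M.neg_mem hx
  have : Module.Finite ℤ M := Module.Finite.span_of_finite ℤ (S.finite_toSet.image _)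
  let B := Module.finBasis ℤ M
  refine ⟨_, fun i => ⟨fun a => (B.repr ⟨η.1 a, hM a⟩ i : ℝ), fun a b => ?_⟩, fun a ha => ?_⟩
  · have e : (⟨η.1 (a * b), hM _⟩ : M) = ⟨η.1 a, hM a⟩ + ⟨η.1 b, hM b⟩ :=
      Subtype.ext (H1.map_mul η a b)
    simp only [e, map_add, Finsupp.add_apply, Int.cast_add]
  · by_contra e
    refine ha (congrArg Subtype.val (B.repr.map_eq_zero_iff.1 (Finsupp.ext fun i => ?_) :
      (⟨η.1 a, hM a⟩ : M) = 0))
    by_contra e'
    refine e ⟨i, ?_⟩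
    have := Int.one_le_abs e'
    show (1 : ℝ) ≤ |((B.repr ⟨η.1 a, hM a⟩ i : ℤ) : ℝ)|
    exact_mod_cast this

theorem Slope_pot (z : ℝ → E) (a b : ℝ) : pot (fun _ => 0) z a b = 0 := by
  simp [pot]

theorem Slope_small {ψ : E → ℝ → E} (h0 : ∀ x, ψ x 0 = x) {c : H1 Γ}
    (h : ChQG (ψ '' univ) c (fun _ => 0) 0) (r : ℝ) {t0 T0 W : ℝ} (ht0 : 0 < t0) (hT0 : 0 < T0)
    (hW : 0 ≤ W) : ∀ᶠ N : ℕ in atTop, ∀ (x : E) (T : ℝ) (a : Γ), ‖x‖ ≤ r → ‖a⁻¹ • ψ x T‖ ≤ r →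
      t0 ≤ T → T ≤ N * T0 → ‖a⁻¹ • ψ x T - x‖ ≤ W / N → |c.1 a| < 1 := by
  obtain ⟨C, s0, hC, hs0, h⟩ := h r t0 ht0
  obtain ⟨K, K0, hK⟩ : ∃ K : ℝ, 0 < K ∧ 4 * (C * T0) ≤ K :=
    ⟨4 * (C * T0) + 1, by positivity, by linarith only []⟩
  have ev : ∀ b : ℝ, ∀ᶠ N : ℕ in atTop, b ≤ (N : ℝ) := fun b =>
    tendsto_natCast_atTop_atTop.eventually_ge_atTop b
  filter_upwards [ev 1, ev (1 / (s0 * K)), ev (4 * (C * W)), ev (4 * (C * W ^ 2 * K))]
    with N n1 n2 n3 n4 x T a b1 b2 b3 b4 b5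
  generalize (N : ℝ) = n at n1 n2 n3 n4 b4 b5
  have n0 : 0 < n := by linarith only [n1]
  have σ0 : 0 < 1 / (K * n) := by positivity
  have σ1 : 1 / (K * n) ≤ s0 := by
    rw [div_le_iff₀ (by positivity)] at n2 ⊢
    linarith only [n2]
  have hz : ψ x ∈ ψ '' univ := ⟨x, trivial, rfl⟩
  have k1 := h _ hz _ hz T T a a b3 b3 (by rwa [h0]) (by rwa [h0]) b2 b2 (1 / (K * n))
    (by rwa [abs_of_pos σ0])
  have k2 := h _ hz _ hz T T a a b3 b3 (by rwa [h0]) (by rwa [h0]) b2 b2 (-(1 / (K * n)))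
    (by rwa [abs_neg, abs_of_pos σ0])
  rw [abs_of_pos σ0, Slope_pot, h0] at k1
  rw [abs_neg, abs_of_pos σ0, Slope_pot, h0, neg_sq] at k2
  have j0 := norm_nonneg (a⁻¹ • ψ x T - x)
  generalize ‖a⁻¹ • ψ x T - x‖ = d at j0 k1 k2 b5
  have a1 : C * d ^ 2 ≤ 1 / 4 * (1 / (K * n)) :=
    calc C * d ^ 2 ≤ C * (W / n) ^ 2 := by gcongr
      _ = C * W ^ 2 * K / n * (1 / (K * n)) := by field_simp
      _ ≤ _ := mul_le_mul_of_nonneg_right ((div_le_iff₀ n0).2 (by linarith only [n4])) σ0.le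
  have a2 : C * d ≤ 1 / 4 :=
    calc C * d ≤ C * (W / n) := by gcongr
      _ = C * W / n := by ring
      _ ≤ _ := (div_le_iff₀ n0).2 (by linarith only [n3])
  have a3 : C * (1 / (K * n) * T) ≤ 1 / 4 :=
    calc C * (1 / (K * n) * T) ≤ C * (1 / (K * n) * (n * T0)) := by gcongr
      _ = C * T0 / K := by field_simp
      _ ≤ _ := (div_le_iff₀ K0).2 (by linarith only [hK])
  generalize 1 / (K * n) = σ at σ0 k1 k2 a1 a3
  have a4 := mul_le_mul_of_nonneg_left a2 σ0.le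
  have a5 := mul_le_mul_of_nonneg_left a3 σ0.le
  rw [abs_lt]
  constructor
  · refine lt_of_mul_lt_mul_left ?_ σ0.le
    linarith only [σ0, k2, a1, a4, a5]
  · refine lt_of_mul_lt_mul_left ?_ σ0.le
    linarith only [σ0, k1, a1, a4, a5]

theorem slope_ne (hS : Surf Γ) {ψ : E → ℝ → E} (h0 : ∀ x, ψ x 0 = x) {η : H1 Γ} (hr : Rets ψ η)
    (h1 : ∀ c : H1 Γ, ∃ m, ChQG (ψ '' univ) c (fun _ => 0) m) :
    ∃ (c : H1 Γ) (m : ℝ), m ≠ 0 ∧ ChQG (ψ '' univ) c (fun _ => 0) m := by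
  by_contra hne
  obtain ⟨n, c, hc⟩ := int_coord hS η
  obtain ⟨r, t0, T0, W, ht0, hT0, hW, hN⟩ := hr
  have h2 : ∀ i, ChQG (ψ '' univ) (c i) (fun _ => 0) 0 := fun i => by
    obtain ⟨m, hm⟩ := h1 (c i)
    by_cases e : m = 0
    · exact e ▸ hm
    · exact absurd ⟨c i, m, e, hm⟩ hne
  obtain ⟨N, k1, k2⟩ := ((eventually_ge_atTop 1).and (eventually_all.2 fun i =>
    Slope_small h0 (h2 i) r ht0 hT0 hW)).exists
  obtain ⟨x, T, a, b1, b2, b3, b4, b5, b6⟩ := hN N k1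
  obtain ⟨i, hi⟩ := hc a b6
  exact (k2 i x T a b1 b2 b3 b4 b5).not_ge hi

theorem drift_of_slope (hS : Surf Γ) {V : E → E} {ψ : E → ℝ → E} (h : Fl Γ V ψ) {c : H1 Γ} {m : ℝ}
    (hm : m ≠ 0) (hq : ChQG (ψ '' univ) c (fun _ => 0) m) : Drift Γ ψ := by
  obtain ⟨c', hc'⟩ : ∃ c' : H1 Γ, ∀ (a : Γ) (T : ℝ), |c.1 a - m * T| ≤ |m| / 2 * T →
      |m| / 2 * T ≤ c'.1 a := by
    rcases hm.lt_or_gt with e | e
    · refine ⟨-c, fun a T k => ?_⟩
      show _ ≤ -c.1 a
      rw [abs_of_neg e] at k ⊢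
      linarith only [k, (abs_le.1 k).2]
    · refine ⟨c, fun a T k => ?_⟩
      rw [abs_of_pos e] at k ⊢
      linarith only [k, (abs_le.1 k).1]
  obtain ⟨w, hw, he⟩ := exists_eqv_smooth hS c'
  obtain ⟨R0, -, hR⟩ := hS.exists_R0
  obtain ⟨M, hM⟩ := (isCompact_closedBall (0 : E) R0).exists_bound_of_continuousOn
    hw.continuous.continuousOn
  have μ0 : 0 < |m| / 2 := half_pos (abs_pos.2 hm)
  obtain ⟨T1, t1, hT⟩ := chqg_slope hq R0 _ μ0
  refine ⟨c', w, max T1 ((2 * M + 1) / (|m| / 2)), hw, he, lt_max_of_lt_left t1, fun x => ?_⟩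
  have t2 : 2 * M + 1 ≤ max T1 ((2 * M + 1) / (|m| / 2)) * (|m| / 2) :=
    (div_le_iff₀ μ0).1 (le_max_right _ _)
  have t3 := le_max_left T1 ((2 * M + 1) / (|m| / 2))
  generalize max T1 ((2 * M + 1) / (|m| / 2)) = T at t2 t3 ⊢
  obtain ⟨γ, hγ⟩ := hR x
  obtain ⟨ρ, hρ⟩ := hR (ψ (γ • x) T)
  have k1 := hT _ ⟨γ • x, trivial, rfl⟩ T ρ⁻¹ t3 (by rwa [h.zero]) (by rwa [inv_inv])
  rw [Slope_pot, add_zero] at k1
  have k2 := hc' _ _ k1
  have k3 := (abs_le.1 (hM _ (mem_closedBall_zero_iff.2 hγ))).2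
  have k4 := (abs_le.1 (hM _ (mem_closedBall_zero_iff.2 hρ))).1
  rw [he, h.eqv, he] at k4
  rw [he] at k3
  rw [H1.map_inv] at k2
  linarith only [t2, k2, k3, k4]

end Pool.Agent.Work.MP_1ce82a_an.U
end

-- merged part: Pool.Agent.Work.MP_1ce82a_an.U.Mono
section
/-! The first integral drifts along the levels.

PLAN. `inj_of_loc`: if `f a = f b` with `a < b` then `f` has a local extremum at some interior
point `c` (`exists_isLocalExtr_Ioo`); if it is injective on `[c - r, c + r]` it is strictly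
monotone there (`ContinuousOn.strictMonoOn_of_injOn_Icc'`), a contradiction. `curve_inj`: some
linear functional `X1 d` (`exists_dir`) has a positive derivative along the curve near `t`, so it is
strictly increasing there. `drift_of_integ`: `t ↦ Θ (φ x t)` is locally injective: for close times
`Integ.loc` gives `ψ (φ x s) t' = φ x t`; `u` has the same value at both points (`h0`), so `t' = 0`
(`Rate.inj`) and `s = t`. Hence `D x = Θ (φ x 1) - Θ x` is continuous, invariant and nowhere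
zero; it has a constant sign (`intermediate_value_univ`) and `|D| ≥ κ > 0` (minimum on the ball of
`Surf.exists_R0`). By induction `σ * (Θ (φ x n) - Θ x) ≥ n κ`. `w₀` from `exists_eqv_smooth` for `η`,
`w₀ - Θ` is bounded (`Surf.bdd_inv`); `w = σ • w₀`. About 200 lines. -/

set_option linter.unusedVariables false

open Set Filter Topology MeasureTheory
open scoped ContDiff

namespace Pool.Agent.Work.MP_1ce82a_an.U

variable {Γ : Grp}

theorem inj_of_loc {f : ℝ → ℝ} (hf : Continuous f) (h : ∀ t, ∃ U ∈ 𝓝 t, InjOn f U) :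
    Function.Injective f := by
  have key : ∀ a b, a < b → f a ≠ f b := fun a b hab e => by
    obtain ⟨c, -, hc⟩ := exists_isLocalExtr_Ioo hab hf.continuousOn e
    obtain ⟨U, hU, hi⟩ := h c
    have two : ∀ W ∈ 𝓝 c, ∃ l ∈ W, ∃ u ∈ W, f l < f c ∧ f c < f u := fun W hW => by
      obtain ⟨l, u, m, k1, k2⟩ := exists_Icc_mem_subset_of_mem_nhds (inter_mem hU hW)
      obtain ⟨k3, k4⟩ := Icc_mem_nhds_iff.1 k1
      have m1 : l ∈ Icc l u := left_mem_Icc.2 (k3.trans k4).le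
      have m2 : u ∈ Icc l u := right_mem_Icc.2 (k3.trans k4).le
      rcases hf.continuousOn.strictMonoOn_of_injOn_Icc' (k3.trans k4).le
        (hi.mono fun x hx => (k2 hx).1) with k | k
      · exact ⟨l, (k2 m1).2, u, (k2 m2).2, k m1 m k3, k m m2 k4⟩
      · exact ⟨u, (k2 m2).2, l, (k2 m1).2, k m m2 k4, k m1 m k3⟩
    rcases hc with hc | hc
    · obtain ⟨l, k1, u, -, k2, -⟩ := two _ hc
      exact absurd k1 (not_le.2 k2)
    · obtain ⟨l, -, u, k1, -, k2⟩ := two _ hc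
      exact absurd k1 (not_le.2 k2)
  intro a b e
  rcases lt_trichotomy a b with k | k | k
  exacts [absurd e (key a b k), k, absurd e.symm (key b a k)]

theorem curve_inj {X : E → E} {φ : E → ℝ → E} (h : Fl Γ X φ) (hX : ∀ x, X x ≠ 0) (x : E)
    (t : ℝ) : ∃ U ∈ 𝓝 t, InjOn (φ x) U := by
  obtain ⟨l, hl⟩ := SeparatingDual.exists_ne_zero (R := ℝ) (hX (φ x t))
  have c : Continuous (φ x) := continuous_iff_continuousAt.2 fun s => (h.der x s).continuousAt
  have c' : Continuous fun s => l (X (φ x s)) := l.continuous.comp (h.cY.comp c)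
  obtain ⟨a, b, -, k1, k2⟩ := exists_Icc_mem_subset_of_mem_nhds (c'.continuousAt.eventually_ne hl)
  have key : ∀ r ∈ Icc a b, ∀ s ∈ Icc a b, r < s → φ x r ≠ φ x s := fun r hr s hs k e => by
    obtain ⟨z, z1, z2⟩ := exists_hasDerivAt_eq_zero (f := fun s => l (φ x s))
      (f' := fun s => l (X (φ x s))) k (l.continuous.comp c).continuousOn (congrArg l e)
      fun z _ => l.hasFDerivAt.comp_hasDerivAt z (h.der x z)
    exact k2 ⟨hr.1.trans z1.1.le, z1.2.le.trans hs.2⟩ z2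
  refine ⟨_, k1, fun r hr s hs e => ?_⟩
  rcases lt_trichotomy r s with k | k | k
  exacts [absurd e (key r hr s hs k), k, absurd e.symm (key s hs r hr k)]

theorem drift_of_integ (hS : Surf Γ) {X V : E → E} {φ ψ : E → ℝ → E} (h : Fl Γ X φ)
    (h' : Fl Γ V ψ) (hX : ∀ x, X x ≠ 0) {η : H1 Γ} {Θ u : E → ℝ} (hI : Integ ψ η Θ)
    (hr : Rate ψ u) (h0 : ∀ x t, u (φ x t) = u x) : Drift Γ φ := by
  have c : ∀ x, Continuous (φ x) := fun x =>
    continuous_iff_continuousAt.2 fun s => (h.der x s).continuousAt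
  have inj : ∀ x, Function.Injective fun t => Θ (φ x t) := fun x =>
    inj_of_loc (hI.cont.comp (c x)) fun t => by
      obtain ⟨U, hU, hi⟩ := curve_inj h hX x t
      have k : Tendsto (fun q : ℝ × ℝ => (φ x q.1, φ x q.2)) (𝓝 (t, t)) (𝓝 (φ x t, φ x t)) :=
        (((c x).comp continuous_fst).prodMk ((c x).comp continuous_snd)).tendsto (t, t)
      obtain ⟨A, hA, B, hB, k'⟩ := mem_nhds_prod_iff.1 (k.eventually (hI.loc (φ x t)))
      refine ⟨U ∩ (A ∩ B), inter_mem hU (inter_mem hA hB), fun r hr' s hs e => ?_⟩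
      obtain ⟨z, hz⟩ := k' (mk_mem_prod hr'.2.1 hs.2.2) e
      have : z = 0 := hr.inj (φ x r) (by rw [hz, h'.zero, h0, h0])
      rw [this, h'.zero] at hz
      exact hi hr'.1 hs.1 hz
  obtain ⟨D, hD⟩ : ∃ D : E → ℝ, D = fun x => Θ (φ x 1) - Θ x := ⟨_, rfl⟩
  have dc : Continuous D :=
    hD ▸ (hI.cont.comp (h.cont.comp (continuous_id.prodMk continuous_const))).sub hI.cont
  have di : Inv Γ D := fun γ x => by
    simp only [hD, h.eqv, hI.eqv γ]
    ring
  have d0 : ∀ x, D x ≠ 0 := fun x e => by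
    have : (1 : ℝ) = 0 := inj x (by simpa only [hD, h.zero, sub_eq_zero] using e)
    exact one_ne_zero this
  obtain ⟨σ, s1, s2⟩ : ∃ σ : ℝ, |σ| = 1 ∧ ∀ x, 0 < σ * D x := by
    rcases (d0 0).lt_or_gt with k | k
    · refine ⟨-1, by simp, fun x => ?_⟩
      by_contra n
      obtain ⟨y, hy⟩ := intermediate_value_univ 0 x dc (⟨k.le, by linarith only [n]⟩ : (0 : ℝ) ∈ Icc _ _)
      exact d0 y hy
    · refine ⟨1, by simp, fun x => ?_⟩
      by_contra n
      obtain ⟨y, hy⟩ := intermediate_value_univ x 0 dc (⟨by linarith, k.le⟩ : (0 : ℝ) ∈ Icc _ _)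
      exact d0 y hy
  obtain ⟨R0, r0, hR⟩ := hS.exists_R0
  obtain ⟨x0, -, hx0⟩ := (isCompact_closedBall (0 : E) R0).exists_isMinOn
    ⟨0, Metric.mem_closedBall_self r0.le⟩
    (continuous_const.mul dc : Continuous fun x => σ * D x).continuousOn
  have lo : ∀ x, σ * D x0 ≤ σ * D x := fun x => by
    obtain ⟨γ, hγ⟩ := hR x
    rw [← di γ x]
    exact hx0 (mem_closedBall_zero_iff.2 hγ)
  have it : ∀ (n : ℕ) x, n * (σ * D x0) ≤ σ * (Θ (φ x n) - Θ x) := fun n x => by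
    induction n with
    | zero => simp [h.zero]
    | succ n ih =>
      have := lo (φ x n)
      rw [hD] at this
      simp only [h.add] at this
      rw [hD] at ih ⊢
      push_cast
      rw [add_comm (n : ℝ) 1]
      linarith only [ih, this]
  obtain ⟨w, w1, w2⟩ := exists_eqv_smooth hS η
  obtain ⟨M, m0, hM⟩ := hS.bdd_inv (g := fun x => σ * (w x - Θ x))
    (continuous_const.mul (w1.continuous.sub hI.cont)) fun γ x => by
      simp only [w2 γ, hI.eqv γ]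
      ring
  obtain ⟨n, hn⟩ := exists_nat_ge ((1 + 2 * M) / (σ * D x0))
  have n1 := (div_le_iff₀ (s2 x0)).1 hn
  refine ⟨σ • η, fun x => σ * w x, n, contDiff_const.mul w1, fun γ x => ?_, ?_, fun x => ?_⟩
  · simp only [w2 γ, Submodule.coe_smul, Pi.smul_apply, smul_eq_mul]
    ring
  · exact lt_of_lt_of_le (div_pos (by linarith only [m0]) (s2 x0)) hn
  · have a := abs_le.1 (hM x)
    have b := abs_le.1 (hM (φ x n))
    have := it n x
    simp only at a b ⊢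
    linarith only [n1, a, b, this, a.2, b.1]

end Pool.Agent.Work.MP_1ce82a_an.U
end

-- merged part: Pool.Agent.Work.MP_1ce82a_an.U.Lat
section
/-! The image of the deck group is a lattice.

PLAN. `t γ = (c1 γ, c2 γ)` is additive and injective (the action is free). Its range `Λ` is a `ℤ`
submodule of the plane (`AddSubgroup.toIntSubmodule`). It is discrete: the elements of norm at most
one come from `γ` moving `Φ.symm 0` into the compact set `Φ.symm '' closedBall 0 1`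
(`Surf.finite2`), a finite set; `DiscreteTopology` from `discreteTopology_iff_isOpen_singleton_zero`
or `isDiscrete_iff...`. It spans the plane: a linear functional vanishing on `Λ`
(`Submodule.exists_le_ker_of_lt_top`) is bounded on `Φ '' K + Λ`, which is everything. So
`IsZLattice ℝ Λ`, `ZLattice.module_free`, `ZLattice.module_finite`, `ZLattice.rank`,
`B = Module.finBasisOfFinrankEq ℤ Λ`, `B.ofZLatticeBasis ℝ Λ`, `Module.Basis.ofZLatticeBasis_repr_apply`;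
`A x` is the pair of coordinates of `x` (`equivFun`, `LinearEquiv.finTwoArrow`),
`τ γ = (B.repr ⟨t γ, _⟩ 0, B.repr ⟨t γ, _⟩ 1)`. About 150 lines. -/

set_option linter.unusedVariables false

open Set Filter Topology MeasureTheory
open scoped ContDiff

namespace Pool.Agent.Work.MP_1ce82a_an.U

variable {Γ : Grp}

theorem lattice (hS : Surf Γ) {Φ : E ≃ E} (h1 : Continuous Φ) (h2 : Continuous Φ.symm)
    {c1 c2 : H1 Γ} (h : ∀ (γ : Γ) (x : E), Φ (γ • x) = Φ x + (c1.1 γ, c2.1 γ)) :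
    ∃ (A : E ≃L[ℝ] E) (τ : Γ → ℤ × ℤ), Function.Bijective τ ∧
      ∀ γ : Γ, A (c1.1 γ, c2.1 γ) = (((τ γ).1 : ℝ), ((τ γ).2 : ℝ)) := by
  classical
  let t : Γ → E := fun γ => (c1.1 γ, c2.1 γ)
  have tm : ∀ a b, t (a * b) = t a + t b := fun a b => by
    simp only [t, H1.map_mul, Prod.mk_add_mk]
  have t1 : t 1 = 0 := by simp only [t, H1.map_one, Prod.mk_zero_zero]
  have ti : ∀ a, t a⁻¹ = -t a := fun a => by simp only [t, H1.map_inv, Prod.neg_mk]
  have tinj : Function.Injective t := by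
    intro a b e
    have e1 : (b⁻¹ * a) • (0 : E) = 0 := by
      apply Φ.injective
      rw [h]
      show Φ 0 + t (b⁻¹ * a) = Φ 0
      rw [tm, ti, e, neg_add_cancel, add_zero]
    exact (inv_mul_eq_one.1 (hS.free _ _ e1)).symm
  let Λ0 : AddSubgroup E :=
    { carrier := range t
      add_mem' := by
        rintro _ _ ⟨a, rfl⟩ ⟨b, rfl⟩
        exact ⟨a * b, tm a b⟩
      zero_mem' := ⟨1, t1⟩
      neg_mem' := by
        rintro _ ⟨a, rfl⟩
        exact ⟨a⁻¹, ti a⟩ }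
  let Λ : Submodule ℤ E := AddSubgroup.toIntSubmodule Λ0
  have mem : ∀ x, x ∈ Λ ↔ x ∈ range t := fun _ => Iff.rfl
  have fin : (Metric.closedBall (0 : E) 1 ∩ (Λ : Set E)).Finite := by
    have f1 := hS.finite2 (isCompact_singleton (x := Φ.symm 0))
      ((isCompact_closedBall (0 : E) 1).image h2)
    refine (f1.image t).subset ?_
    rintro _ ⟨hx, a, rfl⟩
    refine ⟨a, ⟨_, rfl, t a, hx, ?_⟩, rfl⟩
    rw [Equiv.symm_apply_eq, h, Equiv.apply_symm_apply, zero_add]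
  have disc : DiscreteTopology Λ := by
    rw [discreteTopology_iff_isOpen_singleton_zero]
    have f2 : ((Metric.closedBall (0 : E) 1 ∩ (Λ : Set E)) \ {0}).Finite := fin.subset diff_subset
    refine isOpen_induced_iff.2 ⟨Metric.ball 0 1 ∩ ((Metric.closedBall (0 : E) 1 ∩ (Λ : Set E)) \ {0})ᶜ,
      Metric.isOpen_ball.inter f2.isClosed.isOpen_compl, ?_⟩
    ext x
    simp only [mem_preimage, mem_inter_iff, mem_compl_iff, mem_diff, mem_singleton_iff, not_and,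
      not_not]
    constructor
    · rintro ⟨a1, a2⟩
      exact Subtype.ext (a2 ⟨Metric.ball_subset_closedBall a1, x.2⟩)
    · rintro rfl
      exact ⟨Metric.mem_ball_self one_pos, fun _ => rfl⟩
  have lat : IsZLattice ℝ Λ := by
    refine ⟨?_⟩
    by_contra hne
    obtain ⟨f, f0, f1⟩ := Submodule.exists_le_ker_of_lt_top _ (lt_top_iff_ne_top.2 hne)
    obtain ⟨K, hK, hc⟩ := hS.cocompact
    have fc : Continuous f := f.continuous_of_finiteDimensional
    obtain ⟨M, hM⟩ := (hK.image (fc.comp h1)).bddAbove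
    have hb : ∀ y, f y ≤ M := by
      intro y
      obtain ⟨γ, hγ⟩ := hc (Φ.symm y)
      have b1 := hM ⟨_, hγ, rfl⟩
      have b2 : f (t γ) = 0 := f1 (Submodule.subset_span ((mem _).2 ⟨γ, rfl⟩))
      simp only [Function.comp_apply] at b1
      rw [h, Equiv.apply_symm_apply, map_add] at b1
      have b3 : f (c1.1 γ, c2.1 γ) = 0 := b2
      linarith only [b1, b2]
    obtain ⟨y, hy⟩ : ∃ y, f y ≠ 0 := by
      by_contra hn
      push Not at hn
      exact f0 (LinearMap.ext hn)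
    have b4 := hb (((M + 1) / f y) • y)
    rw [map_smul, smul_eq_mul, div_mul_cancel₀ _ hy] at b4
    linarith only [b4]
  have := ZLattice.module_free ℝ Λ
  have := ZLattice.module_finite ℝ Λ
  have rk : Module.finrank ℤ Λ = 2 := by
    rw [ZLattice.rank ℝ Λ]
    simp
  let B := Module.finBasisOfFinrankEq ℤ Λ rk
  let C := B.ofZLatticeBasis ℝ Λ
  let A : E ≃L[ℝ] E := (C.equivFun.trans (LinearEquiv.finTwoArrow ℝ ℝ)).toContinuousLinearEquiv
  let e : Λ ≃ₗ[ℤ] ℤ × ℤ := B.equivFun.trans (LinearEquiv.finTwoArrow ℤ ℤ)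
  refine ⟨A, fun γ => e ⟨t γ, (mem _).2 ⟨γ, rfl⟩⟩, e.bijective.comp ⟨fun a b hab => ?_, ?_⟩,
    fun γ => ?_⟩
  · exact tinj (congrArg Subtype.val hab)
  · rintro ⟨_, a, rfl⟩
    exact ⟨a, rfl⟩
  · have k := fun i => B.ofZLatticeBasis_repr_apply ℝ Λ ⟨t γ, (mem _).2 ⟨γ, rfl⟩⟩ i
    refine Prod.ext ?_ ?_
    · exact k 0
    · exact k 1

end Pool.Agent.Work.MP_1ce82a_an.U
end

-- merged part: Pool.Agent.Work.MP_1ce82a_an.B.Av
section
/-! Existence of complete calibrated curves by averaging.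
PLAN. av_window: let M bound phi, take the loop for delta = eps/(4 W M) (M > 0), iterate it n times (IsLoop.iterate) to a path w on [0,nT], d(t) = dfc on
[0,t] is nondecreasing and continuous with d(nT) = nE. The integral over t in [W,nT-W] of d(t+W)-d(t-W) is at most 2W nE (shift the two integrals).
If d(t+W)-d(t-W) > eps whenever phi(w t) is nonzero then eps/M times (n pot - 2WM) <= 2W nE <= 2 W n delta pot = n eps pot/(2M), false for large n (pot > 0).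
At such a time translate by the deck element and shift. av: lim_fixR along an ultrafilter on the naturals (W = n+1, eps = 1/(n+1)), Dom.dfc_mono, Kc is closed.
mane_closed: lim_fixR again. aub: contrapositive of av with the periodised box function supported in a ball missing the closed set.
exists_fwd: mane_pot with q = x 0; an almost calibrated path to g q followed by g x on [0,T] (exists_join gives the action, so the defect), restricted to
[0,T]; then lim_fix. -/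

open Set Filter Topology MeasureTheory
open scoped ContDiff

namespace Pool.Agent.Work.MP_1ce82a_an

variable {Γ : Grp}

theorem Av_int {d g : ℝ → ℝ} {S W : ℝ} (hW : 0 < W) (hS : 2 * W ≤ S)
    (hd : MonotoneOn d (Icc 0 S)) (h0 : 0 ≤ d 0) (hg : IntervalIntegrable g volume W (S - W))
    (h : ∀ t ∈ Icc W (S - W), g t ≤ d (t + W) - d (t - W)) :
    ∫ t in W..S - W, g t ≤ 2 * W * d S := by
  have hi : ∀ a b, 0 ≤ a → a ≤ b → b ≤ S → IntervalIntegrable d volume a b := fun a b h1 h2 h3 =>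
    (hd.mono (by rw [uIcc_of_le h2]; exact Icc_subset_Icc h1 h3)).intervalIntegrable
  have i1 := (hi (W + W) (S - W + W) (by linarith only [hW]) (by linarith) (by linarith)).comp_add_right W
  have i2 := (hi (W - W) (S - W - W) (by linarith) (by linarith) (by linarith only [hW])).comp_sub_right W
  rw [add_sub_cancel_right, add_sub_cancel_right] at i1
  rw [sub_add_cancel, sub_add_cancel] at i2
  have e1 := intervalIntegral.integral_mono_on (by linarith only [hS]) hg (i1.sub i2) h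
  rw [intervalIntegral.integral_sub i1 i2, intervalIntegral.integral_comp_add_right,
    intervalIntegral.integral_comp_sub_right, sub_add_cancel, sub_self] at e1
  have e2 := intervalIntegral.integral_add_adjacent_intervals
    (hi 0 (W + W) le_rfl (by linarith only [hW]) (by linarith)) (hi (W + W) S (by linarith) (by linarith) le_rfl)
  have e3 := intervalIntegral.integral_add_adjacent_intervals
    (hi 0 (S - W - W) le_rfl (by linarith) (by linarith only [hW]))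
    (hi (S - W - W) S (by linarith) (by linarith only [hW]) le_rfl)
  have e4 : 0 ≤ ∫ t in (0 : ℝ)..W + W, d t :=
    intervalIntegral.integral_nonneg (by linarith only [hW]) fun t ht =>
      h0.trans (hd ⟨le_rfl, by linarith only [hW, hS]⟩ ⟨ht.1, by linarith [ht.2]⟩ ht.1)
  have e5 := intervalIntegral.integral_mono_on (g := fun _ => d S) (by linarith only [hW])
    (hi (S - W - W) S (by linarith) (by linarith only [hW]) le_rfl) intervalIntegrable_const fun t ht =>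
      hd ⟨by linarith [ht.1], ht.2⟩ ⟨by linarith only [hW, hS], le_rfl⟩ ht.2
  rw [intervalIntegral.integral_const, smul_eq_mul] at e5
  linarith only [e1, e2, e3, e4, e5]

theorem Av_pow (c : H1 Γ) (γ : Γ) (n : ℕ) : c.1 (γ ^ n) = n * c.1 γ := by
  induction n with
  | zero => simp [H1.map_one]
  | succ n ih =>
    rw [pow_succ, H1.map_mul, ih]
    push_cast
    ring

theorem Av_ev {W ε : ℝ} (hε : 0 < ε) :
    ∀ᶠ n : ℕ in (hyperfilter ℕ : Filter ℕ), W ≤ (n : ℝ) + 1 ∧ 1 / ((n : ℝ) + 1) ≤ ε := by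
  refine Nat.hyperfilter_le_atTop ?_
  filter_upwards [tendsto_natCast_atTop_atTop.eventually_ge_atTop W,
    tendsto_one_div_add_atTop_nhds_zero_nat.eventually_le_const hε] with n h1 h2
  exact ⟨by linarith only [h1], h2⟩

theorem av_window (hS : Surf Γ) {F : E × E → ℝ} (hF : Tonelli Γ F) {c : H1 Γ} {u : E → ℝ}
    (hu : InS F c u) {φ : E → ℝ} (hφ : Continuous φ) (hi : Inv Γ φ) (h0 : ∀ x, 0 ≤ φ x)
    {Kc : Set E} (hK : ∀ x, φ x ≠ 0 → ∃ γ : Γ, γ • x ∈ Kc)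
    (h : ∀ δ : ℝ, 0 < δ → ∃ (z : ℝ → E) (T : ℝ) (γ : Γ), IsLoop z T γ ∧
      act F z 0 T - c.1 γ < δ * pot φ z 0 T) {W ε : ℝ} (hW : 0 < W) (hε : 0 < ε) :
    ∃ z : ℝ → E, IsPath z (-W) W ∧ dfc F u z (-W) W ≤ ε ∧ z 0 ∈ Kc := by
  obtain ⟨M0, hM0, hM⟩ := hS.bdd_inv hφ hi
  obtain ⟨M, hM1, hM⟩ : ∃ M : ℝ, 0 < M ∧ ∀ x, |φ x| ≤ M :=
    ⟨M0 + 1, by linarith only [hM0], fun x => by linarith [hM x]⟩
  obtain ⟨z, T, γ, hz, hE⟩ := h (ε / (4 * W * M)) (by positivity)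
  have hE0 := hu.2.dfc_nonneg hz.2.1
  rw [hz.dfc_eq hu.1] at hE0
  have hp : 0 < pot φ z 0 T := (mul_pos_iff_of_pos_left (by positivity)).1 (hE0.trans_lt hE)
  obtain ⟨n, hn⟩ := exists_nat_gt (max (2 * W / T) (4 * W * M / pot φ z 0 T))
  have n1 : 2 * W ≤ n * T := ((div_lt_iff₀ hz.1).1 ((le_max_left _ _).trans_lt hn)).le
  have n2 : 4 * W * M < n * pot φ z 0 T := (div_lt_iff₀ hp).1 ((le_max_right _ _).trans_lt hn)
  obtain ⟨w, hw, w0, w1, wa, wp⟩ := hz.iterate hS n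
  have hD : dfc F u w 0 (n * T) = n * (act F z 0 T - c.1 γ) := by
    rw [dfc, wa F hF.cont hF.invL, w0, w1, hu.1, Av_pow]
    ring
  replace wp := wp φ hφ hi
  generalize n * T = S at *
  by_contra hc
  have had : ∀ s t, 0 ≤ s → s ≤ t → t ≤ S → dfc F u w 0 s + dfc F u w s t = dfc F u w 0 t :=
    fun s t h1 h2 h3 => dfc_add hF.cont u (hw.mono le_rfl (h1.trans h2) h3) h1 h2
  have key := Av_int (d := fun t => dfc F u w 0 t) (g := fun t => ε / M * φ (w t)) hW n1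
    (fun s hs t ht hst => hu.2.dfc_mono hF.cont (hw.mono le_rfl ht.1 ht.2) le_rfl hs.1 hst)
    (hu.2.dfc_nonneg (hw.mono le_rfl le_rfl hw.1))
    (((hw.mono hW.le (by linarith only [n1]) (by linarith only [hW])).ii_pot hφ).const_mul _) fun t ht => by
      have h1 := had (t - W) (t + W) (by linarith only [ht, ht.1]) (by linarith only [hW]) (by linarith only [ht, ht.2])
      have h2 : IsPath w (-W + t) (W + t) :=
        hw.mono (by linarith only [ht, ht.1]) (by linarith only [hW]) (by linarith only [ht, ht.2])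
      have h3 : dfc F u w (t - W) (t + W) = dfc F u w (-W + t) (W + t) := by
        rw [neg_add_eq_sub, add_comm]
      by_cases e : φ (w t) = 0
      · have := hu.2.dfc_nonneg h2
        rw [e, mul_zero]
        linarith only [h1, h3, this]
      · obtain ⟨ρ, hρ⟩ := hK _ e
        have h4 : ε ≤ dfc F u w (-W + t) (W + t) := by
          refine (not_le.1 fun k => hc ⟨fun r => ρ • w (r + t), (h2.shift t).smul hS ρ, ?_, ?_⟩).le
          · rwa [dfc_smul hS hF.invL hu.1 ρ fun r => w (r + t), dfc_shift]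
          · simpa using hρ
        have h5 : ε / M * φ (w t) ≤ ε / M * M :=
          mul_le_mul_of_nonneg_left ((le_abs_self _).trans (hM _)) (by positivity)
        rw [div_mul_cancel₀ _ hM1.ne'] at h5
        linarith only [h1, h3, h4, h5]
  rw [intervalIntegral.integral_const_mul, hD] at key
  have p1 := pot_add hφ hw (b := W) hW.le (by linarith only [hW, n1])
  have p2 := pot_add hφ (hw.mono hW.le (by linarith only [hW, n1]) le_rfl) (b := S - W) (by linarith only [n1])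
    (by linarith only [hW])
  have p3 := (abs_le.1 (abs_pot_le (g := φ) (z := w) hW.le fun t _ => hM _)).2
  have p4 := (abs_le.1 (abs_pot_le (g := φ) (z := w) (a := S - W) (b := S) (by linarith only [hW])
    fun t _ => hM _)).2
  have k1 : 2 * W * (n * (act F z 0 T - c.1 γ)) ≤
      2 * W * (n * (ε / (4 * W * M) * pot φ z 0 T)) := by gcongr
  have k2 : 2 * W * (n * (ε / (4 * W * M) * pot φ z 0 T)) = ε / M * (n * pot φ z 0 T / 2) := by
    field_simp
    ring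
  have k3 : pot φ w W (S - W) ≤ n * pot φ z 0 T / 2 :=
    le_of_mul_le_mul_left (key.trans (k1.trans k2.le)) (by positivity)
  linarith only [n2, wp, p1, p2, p3, p4, k3]

theorem av (hS : Surf Γ) {F : E × E → ℝ} (hF : Tonelli Γ F) {c : H1 Γ} (hc : Crit F c)
    {u : E → ℝ} (hu : InS F c u) {φ : E → ℝ} (hφ : Continuous φ) (hi : Inv Γ φ)
    (h0 : ∀ x, 0 ≤ φ x) {Kc : Set E} (hKc : IsCompact Kc) (hK : ∀ x, φ x ≠ 0 → ∃ γ : Γ, γ • x ∈ Kc)
    (h : ∀ δ : ℝ, 0 < δ → ∃ (z : ℝ → E) (T : ℝ) (γ : Γ), IsLoop z T γ ∧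
      act F z 0 T - c.1 γ < δ * pot φ z 0 T) : ∃ z, CalR F u z ∧ z 0 ∈ Kc := by
  choose z h1 h2 h3 using fun n : ℕ => av_window hS hF hu hφ hi h0 hK h (W := (n : ℝ) + 1)
    (ε := 1 / ((n : ℝ) + 1)) (by positivity) (by positivity)
  obtain ⟨R, hR⟩ := hKc.isBounded.exists_norm_le
  obtain ⟨k1, k2⟩ := lim_fixR (hyperfilter ℕ) hS hF hc hu (z := z) (R := R)
    (fun W ε hW hε => (Av_ev (W := W) hε).mono fun n hn =>
      ⟨(h1 n).mono (by linarith only [hn]) (by linarith only [hW]) hn.1,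
        (hu.2.dfc_mono hF.cont (h1 n) (by linarith only [hn]) (by linarith only [hW]) hn.1).trans ((h2 n).trans hn.2)⟩)
    (.of_forall fun n => hR _ (h3 n))
  exact ⟨_, k1, hKc.isClosed.mem_of_tendsto k2 (.of_forall h3)⟩

theorem exists_calR (hS : Surf Γ) {F : E × E → ℝ} (hF : Tonelli Γ F) {c : H1 Γ} (hc : Crit F c)
    {u : E → ℝ} (hu : InS F c u) : ∃ z, CalR F u z := by
  obtain ⟨R, -, hR⟩ := hS.exists_R0
  obtain ⟨z, hz, -⟩ := av hS hF hc hu (φ := fun _ => 1) continuous_const (fun _ _ => rfl)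
    (fun _ => zero_le_one) (isCompact_closedBall (0 : E) R)
    (fun x _ => (hR x).imp fun γ => mem_closedBall_zero_iff.2) fun δ hδ => by
      obtain ⟨z, T, γ, h1, h2⟩ := hc.2 (δ / 2) (by positivity)
      refine ⟨z, T, γ, h1, h2.trans_lt ?_⟩
      rw [pot_const]
      linarith only [hδ, h1, mul_pos hδ h1.1]
  exact ⟨z, hz⟩

theorem mane_closed (hS : Surf Γ) {F : E × E → ℝ} (hF : Tonelli Γ F) {c : H1 Γ} (hc : Crit F c)
    {u : E → ℝ} (hu : InS F c u) : IsClosed {x : E | ∃ z, CalR F u z ∧ z 0 = x} := by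
  refine isClosed_iff_ultrafilter.2 fun x U hU hs => ?_
  have : ∀ y : E, ∃ z : ℝ → E, (∃ z, CalR F u z ∧ z 0 = y) → CalR F u z ∧ z 0 = y := fun y => by
    by_cases h : ∃ z, CalR F u z ∧ z 0 = y
    · exact h.imp fun z hz _ => hz
    · exact ⟨0, fun k => absurd k h⟩
  choose z hz using this
  have h1 : ∀ᶠ y in (U : Filter E), CalR F u (z y) ∧ z y 0 = y := mem_of_superset hs fun y => hz y
  have h2 : Tendsto (fun y => z y 0) (U : Filter E) (𝓝 x) :=
    Tendsto.congr' (h1.mono fun y hy => hy.2.symm) hU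
  obtain ⟨k1, k2⟩ := lim_fixR U hS hF hc hu (z := z) (R := ‖x‖ + 1)
    (fun W ε hW hε => h1.mono fun y hy =>
      ⟨(hy.1 _ _ (by linarith only [hW])).1, (hy.1 (-W) W (by linarith only [hW])).2.le.trans hε.le⟩)
    (h2.norm.eventually_le_const (lt_add_one _))
  exact ⟨_, k1, tendsto_nhds_unique k2 h2⟩

theorem aub (hS : Surf Γ) {F : E × E → ℝ} (hF : Tonelli Γ F) {c : H1 Γ} (hc : Crit F c)
    {u : E → ℝ} (hu : InS F c u) {x : E} (hx : ¬ ∃ z, CalR F u z ∧ z 0 = x) :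
    ∃ φ : E → ℝ, ContDiff ℝ 2 φ ∧ Inv Γ φ ∧ (∀ y, φ y ≤ 0) ∧ φ x < 0 ∧ Crit (addPot F φ) c := by
  obtain ⟨r, hr, hb⟩ := Metric.nhds_basis_closedBall.mem_iff.1
    ((mane_closed hS hF hc hu).isOpen_compl.mem_nhds hx)
  obtain ⟨B, b1, b2⟩ := exists_bx x hr
  have hsm := per_contDiff hS B.f0_contDiff B.f0_cpt
  have hn : ¬ ∀ δ : ℝ, 0 < δ → ∃ (z : ℝ → E) (T : ℝ) (γ : Γ), IsLoop z T γ ∧
      act F z 0 T - c.1 γ < δ * pot (per Γ B.f0) z 0 T := fun h => by
    obtain ⟨z, h1, h2⟩ := av hS hF hc hu hsm.continuous (per_inv _) (per_nonneg B.f0_nonneg)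
      (isCompact_closedBall x r) (fun y hy => (exists_of_per_ne_zero hy).imp fun γ k =>
        mem_closedBall_iff_norm.2 (b2 _ k).le) h
    exact hb h2 ⟨z, h1, rfl⟩
  push Not at hn
  obtain ⟨δ, hδ, hn⟩ := hn
  have e : ∀ (z : ℝ → E) (T : ℝ) (γ : Γ), IsLoop z T γ →
      act (addPot F fun y => -δ * per Γ B.f0 y) z 0 T =
        act F z 0 T - δ * pot (per Γ B.f0) z 0 T := fun z T γ h => by
    rw [act_addPot hF.cont (g := fun y => -δ * per Γ B.f0 y)
      (continuous_const.mul hsm.continuous) h.2.1, pot,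
      intervalIntegral.integral_const_mul, pot]
    ring
  refine ⟨fun y => -δ * per Γ B.f0 y, contDiff_const.mul (hsm.of_le ENat.LEInfty.out),
    fun γ y => by beta_reduce; rw [per_inv], fun y => ?_, ?_, fun z T γ h => ?_, fun η hη => ?_⟩
  · exact mul_nonpos_of_nonpos_of_nonneg (by linarith only [hδ]) (per_nonneg B.f0_nonneg y)
  · have := le_per hS B.f0_cpt B.f0_nonneg 1 x
    rw [one_smul] at this
    exact mul_neg_of_neg_of_pos (by linarith only [hδ]) (b1.trans_le this)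
  · have := hn z T γ h
    rw [e z T γ h]
    linarith only [this]
  · obtain ⟨z, T, γ, h1, h2⟩ := hc.2 η hη
    refine ⟨z, T, γ, h1, ?_⟩
    have : 0 ≤ δ * pot (per Γ B.f0) z 0 T := mul_nonneg hδ.le
      (intervalIntegral.integral_nonneg h1.1.le fun t _ => per_nonneg B.f0_nonneg _)
    rw [e z T γ h1]
    linarith only [h2, this]

theorem exists_fwd (hS : Surf Γ) {F : E × E → ℝ} (hF : Tonelli Γ F) {c : H1 Γ} (hc : Crit F c)
    {x : ℝ → E} (hx : AllCal F c x) : ∃ u, InS F c u ∧ ∀ (y : E) (a b : ℝ), a ≤ b →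
      ∃ z, Cal F u z a b ∧ z a = y := by
  obtain ⟨u, hu, h⟩ := mane_pot hS hF hc (x 0)
  refine ⟨u, hu, fun y a b hab => ?_⟩
  have key : ∀ ε : ℝ, 0 < ε → ∃ z : ℝ → E, IsPath z a b ∧ dfc F u z a b ≤ ε ∧ z a = y := by
    intro ε hε
    obtain ⟨z, T, γ, h1, h2, h3, h4⟩ := h y ε hε
    obtain ⟨k1, k2⟩ := hx u hu 0 (b - a) (by linarith only [hab])
    obtain ⟨w, w1, w2, w3, w4, -⟩ := exists_join hS h1 k1 γ h3
    have e : dfc F u w 0 (T - 0 + (b - a - 0)) ≤ ε := by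
      rw [dfc, h3, hu.1] at h4
      rw [dfc] at k2
      rw [dfc, w4 F hF.cont hF.invL, w2, w3, hu.1]
      linarith only [h4, k2]
    have hT := h1.1
    refine ⟨fun r => w (r + -a), IsPath.shift _ (w1.mono (by linarith only []) (by linarith only [hab]) (by linarith)),
      ?_, ?_⟩
    · rw [dfc_shift]
      exact (hu.2.dfc_mono hF.cont w1 (by linarith) (by linarith) (by linarith)).trans e
    · simp only [add_neg_cancel, w2, h2]
  choose z h1 h2 h3 using fun n : ℕ => key (1 / ((n : ℝ) + 1)) (by positivity)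
  obtain ⟨k1, k2⟩ := lim_fix (hyperfilter ℕ) hS hF hc hu (z := z) (R := ‖y‖) (left_mem_Icc.2 hab)
    (fun ε hε => (Av_ev (W := 0) hε).mono fun n hn => ⟨h1 n, (h2 n).trans hn.2⟩)
    (.of_forall fun n => (congrArg norm (h3 n)).le)
  refine ⟨_, k1, (eq_of_norm_sub_le_zero (le_of_forall_pos_le_add fun ε hε => ?_)).symm⟩
  obtain ⟨n, hn⟩ := (k2 ε hε).exists
  have := hn a (left_mem_Icc.2 hab)
  rwa [h3, ← zero_add ε] at this

end Pool.Agent.Work.MP_1ce82a_an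
end

-- merged part: Pool.Agent.Work.MP_1ce82a_an.B.CC
section
/-! Continuity of calibrated curves near a reference curve.
PLAN. By contradiction with exists_ultra; choose the data (u, z, s, t) on the ultrafilter; lim_R; the ultrafilter limit s0 of the base times; the limit curve and
x(s0 + .) are both calibrated by u0 and agree at time 0, so CalR.uniq; uniform continuity of ph x (IsOrbit.continuous_ph) on a compact interval absorbs s - s0.
cc_fwd: lim_fix on [-2,T+1]; the limit starts at x(-2); concatenate x on [-3,-2] with the limit (Cal.cat) and compare with x by uniq_cal at time -5/2; lim_v with the constant family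
(tendsto_nb_const, addPot_zero). all_near: translate and shift a bad point into the ball of radius R0, lim_R, AllIn, mem_nb_self, isOpen_nb. -/

open Set Filter Topology MeasureTheory
open scoped ContDiff

namespace Pool.Agent.Work.MP_1ce82a_an

variable {Γ : Grp}

theorem cc_R (hS : Surf Γ) {F : E × E → ℝ} (hF : Tonelli Γ F) {c : H1 Γ} {x : ℝ → E}
    (hx : AllCal F c x) (S T : ℝ) {ε : ℝ} (hε : 0 < ε) : ∃ δ : ℝ, 0 < δ ∧ ∀ᶠ p in nb F c,
      ∀ u, InS (addPot F p.1) p.2 u → ∀ z, CalR (addPot F p.1) u z → ∀ s : ℝ, |s| ≤ S →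
        ‖z 0 - x s‖ ≤ δ → ∀ t ∈ Icc (-T) T, ‖ph z t - ph x (s + t)‖ ≤ ε := by
  by_contra h
  obtain ⟨U, U1, U2, U3⟩ := exists_ultra (fun δ δ' p _ hδ hQ u hu z hz s hs h0 =>
    hQ u hu z hz s hs (h0.trans hδ)) h
  obtain ⟨f, hf⟩ := Filter.Eventually.choice (l := (U : Filter (ℝ × Par Γ)))
    (r := fun q (d : (E → ℝ) × (ℝ → E) × ℝ × ℝ) => InS (addPot F q.2.1) q.2.2 d.1 ∧
      CalR (addPot F q.2.1) d.1 d.2.1 ∧ |d.2.2.1| ≤ S ∧ ‖d.2.1 0 - x d.2.2.1‖ ≤ q.1 ∧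
      d.2.2.2 ∈ Icc (-T) T ∧ ε < ‖ph d.2.1 d.2.2.2 - ph x (d.2.2.1 + d.2.2.2)‖)
    (U3.mono fun q hq => by
      push Not at hq
      obtain ⟨u, hu, z, hz, s, hs, h0, t, ht, h1⟩ := hq
      exact ⟨⟨u, z, s, t⟩, hu, hz, hs, h0, ht, h1⟩)
  obtain ⟨u1, hu1, -⟩ := lim_u U hF U2 (u := fun q => (f q).1) (hf.mono fun q hq => hq.1)
  have hc := ((hx u1 hu1).isOrbit hF.ton0 hu1.2).continuous_ph
  have hc1 : Continuous x := hc.fst
  obtain ⟨s0, -, hs0⟩ := (isCompact_Icc (a := -S) (b := S)).ultrafilter_le_nhds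
    (U.map fun q => (f q).2.2.1) (le_principal_iff.2 (hf.mono fun q hq => abs_le.1 hq.2.2.1))
  obtain ⟨t0, -, ht0⟩ := (isCompact_Icc (a := -T) (b := T)).ultrafilter_le_nhds
    (U.map fun q => (f q).2.2.2) (le_principal_iff.2 (hf.mono fun q hq => hq.2.2.2.2.1))
  have hs : Tendsto (fun q => (f q).2.2.1) (U : Filter (ℝ × Par Γ)) (𝓝 s0) := hs0
  have ht : Tendsto (fun q => (f q).2.2.2) (U : Filter (ℝ × Par Γ)) (𝓝 t0) := ht0
  have l0 : Tendsto (fun q => (f q).2.1 0) (U : Filter (ℝ × Par Γ)) (𝓝 (x s0)) := by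
    have := (squeeze_zero_norm' (hf.mono fun q hq => hq.2.2.2.1)
      (U1.mono_right nhdsWithin_le_nhds)).add ((hc1.tendsto s0).comp hs)
    simpa using this
  have hb := l0.norm.eventually_le_const (lt_add_one ‖x s0‖)
  obtain ⟨u0, hu0, hy, hl⟩ := lim_R U hS hF U2 (u := fun q => (f q).1) (z := fun q => (f q).2.1)
    ((hf.and hb).mono fun q hq => ⟨hq.1.1, hq.1.2.1, hq.2⟩)
  have e0 := tendsto_nhds_unique (tendsto_ulim U (z := fun q => (f q).2.1) hb) l0
  have e1 : ulim U (fun q => (f q).2.1) = fun r => x (r + s0) := funext fun r => by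
    have := CalR.uniq hF.ton0 hu0.2 hy (hx u0 hu0) e0 r
    rwa [zero_add, add_comm] at this
  have l1 : Tendsto (fun q => ‖ph x ((f q).2.2.2 + s0) - ph x ((f q).2.2.1 + (f q).2.2.2)‖)
      (U : Filter (ℝ × Par Γ)) (𝓝 0) := by
    have := (((hc.tendsto _).comp (ht.add_const s0)).sub ((hc.tendsto _).comp (hs.add ht))).norm
    rwa [add_comm s0, sub_self, norm_zero] at this
  obtain ⟨q, h1, h2, h3⟩ := (hf.and ((hl T _ (half_pos hε)).and
    (l1.eventually_le_const (half_pos hε)))).exists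
  have h4 := h2 _ h1.2.2.2.2.1
  rw [e1, ph_shift] at h4
  have h5 := norm_sub_le_norm_sub_add_norm_sub (ph (f q).2.1 (f q).2.2.2)
    (ph x ((f q).2.2.2 + s0)) (ph x ((f q).2.2.1 + (f q).2.2.2))
  linarith only [h1, h3, h4, h5, h1.2.2.2.2.2]

theorem cc_fwd (hS : Surf Γ) {F : E × E → ℝ} (hF : Tonelli Γ F) {c : H1 Γ} (hc : Crit F c)
    {u : E → ℝ} (hu : InS F c u) {x : ℝ → E} (hx : CalR F u x) (T : ℝ) {ε : ℝ} (hε : 0 < ε) :
    ∃ δ : ℝ, 0 < δ ∧ ∀ z, Cal F u z (-2) (T + 1) → ‖z (-2) - x (-2)‖ ≤ δ →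
      ∀ t ∈ Icc (-1) T, ‖ph z t - ph x t‖ ≤ ε := by
  by_contra h
  obtain ⟨U, U1, -, U3⟩ := exists_ultra (l := (⊤ : Filter Unit))
    (Q := fun δ _ => ∀ z, Cal F u z (-2) (T + 1) → ‖z (-2) - x (-2)‖ ≤ δ →
      ∀ t ∈ Icc (-1) T, ‖ph z t - ph x t‖ ≤ ε)
    (fun δ δ' p _ hδ hQ z hz h0 => hQ z hz (h0.trans hδ))
    fun ⟨δ, h1, h2⟩ => h ⟨δ, h1, h2.exists.choose_spec⟩
  obtain ⟨f, hf⟩ := Filter.Eventually.choice (l := (U : Filter (ℝ × Unit)))
    (r := fun q (d : (ℝ → E) × ℝ) => Cal F u d.1 (-2) (T + 1) ∧ ‖d.1 (-2) - x (-2)‖ ≤ q.1 ∧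
      d.2 ∈ Icc (-1) T ∧ ε < ‖ph d.1 d.2 - ph x d.2‖)
    (U3.mono fun q hq => by
      push Not at hq
      obtain ⟨z, hz, h0, t, ht, h1⟩ := hq
      exact ⟨⟨z, t⟩, hz, h0, ht, h1⟩)
  have hT : -1 ≤ T := by
    obtain ⟨q, hq⟩ := hf.exists
    exact hq.2.2.1.1.trans hq.2.2.1.2
  have l0 : Tendsto (fun q => (f q).1 (-2)) (U : Filter (ℝ × Unit)) (𝓝 (x (-2))) :=
    tendsto_sub_nhds_zero_iff.1 (squeeze_zero_norm' (hf.mono fun q hq => hq.2.1)
      (U1.mono_right nhdsWithin_le_nhds))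
  have hb := l0.norm.eventually_le_const (lt_add_one ‖x (-2)‖)
  obtain ⟨hy, hl⟩ := lim_fix U hS hF hc hu (z := fun q => (f q).1) (a := -2) (b := T + 1)
    (left_mem_Icc.2 (by linarith only [hT])) (fun η hη => hf.mono fun q hq => ⟨hq.1.1, hq.1.2.trans_le hη.le⟩) hb
  have e0 := tendsto_nhds_unique l0 (tendsto_ulim U (z := fun q => (f q).1) hb)
  have e1 := uniq_cal hF.ton0 hu.2 (Cal.cat hF.cont (hx (-3) (-2) (by norm_num)) hy e0)
    (hx (-3) (T + 1) (by linarith)) (s := -5 / 2) ⟨by norm_num, by linarith only [hT]⟩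
    (cat_left _ _ (-3) _ ⟨by norm_num, by norm_num⟩)
  have e2 : ∀ t ∈ Icc (-2) (T + 1), ulim U (fun q => (f q).1) t = x t := fun t ht =>
    (cat_right e0 _ ht).symm.trans (e1 t ⟨by linarith [ht.1], ht.2⟩)
  have hv := lim_v U hF (tendsto_nb_const _ hc) (u := fun _ => u)
    (Eventually.of_forall fun _ => by rwa [addPot_zero]) hu.2 (z := fun q => (f q).1) one_pos
    (hf.mono fun q hq => by
      rw [addPot_zero]
      exact hq.1) (hx (-2) (T + 1) (by linarith only [hT]))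
    (fun η hη => (hl η hη).mono fun q hq t ht => by
      rw [← e2 t ht]
      exact hq t ht) ε hε
  obtain ⟨q, h1, h2⟩ := (hf.and hv).exists
  exact (h2 _ ⟨by linarith [h1.2.2.1.1], by linarith [h1.2.2.1.2]⟩).not_gt h1.2.2.2

theorem all_near (hS : Surf Γ) {F : E × E → ℝ} (hF : Tonelli Γ F) {c : H1 Γ} {x : ℝ → E} {P : ℝ}
    {σ : Γ} (hP : Perd x P σ) (hx : AllIn F c x) {δ : ℝ} (hδ : 0 < δ) :
    ∀ᶠ p in nb F c, ∀ u, InS (addPot F p.1) p.2 u → ∀ z, CalR (addPot F p.1) u z →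
      ∀ t, z t ∈ Nb Γ x P δ := by
  by_contra h
  obtain ⟨R0, -, hR⟩ := hS.exists_R0
  obtain ⟨U, -, U2, U3⟩ := exists_ultra (l := nb F c)
    (Q := fun _ p => ∀ u, InS (addPot F p.1) p.2 u → ∀ z, CalR (addPot F p.1) u z →
      ∀ t, z t ∈ Nb Γ x P δ) (fun _ _ _ _ _ hQ => hQ) fun ⟨_, _, h2⟩ => h h2
  obtain ⟨f, hf⟩ := Filter.Eventually.choice (l := (U : Filter (ℝ × Par Γ)))
    (r := fun q (d : (E → ℝ) × (ℝ → E)) => (InS (addPot F q.2.1) q.2.2 d.1 ∧
      CalR (addPot F q.2.1) d.1 d.2 ∧ ‖d.2 0‖ ≤ R0) ∧ d.2 0 ∉ Nb Γ x P δ)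
    ((U3.and (U2.eventually (nb_adm F c))).mono fun q ⟨hq, ha⟩ => by
      push Not at hq
      obtain ⟨u, hu, z, hz, t, ht⟩ := hq
      obtain ⟨γ, hγ⟩ := hR (z t)
      exact ⟨⟨u, fun r => γ • z (r + t)⟩, ⟨hu, (hz.shift t).smul hS (hF.addPot ha.1 ha.2.1).invL hu.1 γ,
        by simpa using hγ⟩, by simpa [nb_smul] using ht⟩)
  obtain ⟨u0, hu0, hy, -⟩ := lim_R U hS hF U2 (u := fun q => (f q).1) (z := fun q => (f q).2)
    (hf.mono fun q hq => hq.1)
  obtain ⟨ρ, s, e⟩ := hx u0 hu0 _ hy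
  have l0 := tendsto_ulim U (z := fun q => (f q).2) (hf.mono fun q hq => hq.1.2.2)
  rw [e] at l0
  obtain ⟨q, h1, h2⟩ := (hf.and (l0.eventually
    ((isOpen_nb hS x P δ).mem_nhds (mem_nb_self hP hδ ρ _)))).exists
  exact h1.2 h2

/-- A uniform Lipschitz graph property over a ball, for small perturbations. -/
theorem graph_unif {F : E × E → ℝ} (hF : Tonelli Γ F) (c : H1 Γ) (R : ℝ) : ∃ Λ : ℝ, 0 ≤ Λ ∧
    ∀ᶠ p in nb F c, ∀ u, Dom (addPot F p.1) u → ∀ (z1 z2 : ℝ → E) (t1 t2 : ℝ),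
      Cal (addPot F p.1) u z1 (t1 - 1 / 2) (t1 + 1 / 2) →
      Cal (addPot F p.1) u z2 (t2 - 1 / 2) (t2 + 1 / 2) → ‖z1 t1‖ ≤ R → ‖z2 t2‖ ≤ R →
        ‖deriv z1 t1‖ ≤ Λ ∧ energy (addPot F p.1) (ph z1 t1) = 0 ∧
          ‖deriv z1 t1 - deriv z2 t2‖ ≤ Λ * ‖z1 t1 - z2 t2‖ := by
  obtain ⟨m, -, hm⟩ := nb_cls hF c (R + 2)
  obtain ⟨K, C, hK, -, h⟩ := reg_est m (1 / 2) one_half_pos
  refine ⟨max K C, le_max_of_le_left hK, hm.mono fun p hp u hu z1 z2 t1 t2 h1 h2 b1 b2 => ?_⟩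
  obtain ⟨k1, k2⟩ := h R _ u hp hu
  obtain ⟨-, k3, k4, -⟩ := k1 z1 t1 h1 b1
  exact ⟨k3.trans (le_max_left _ _), k4, (k2 z1 z2 t1 t2 h1 h2 b1 b2).trans
    (mul_le_mul_of_nonneg_right (le_max_right _ _) (norm_nonneg _))⟩

end Pool.Agent.Work.MP_1ce82a_an
end

-- merged part: Pool.Agent.Work.MP_1ce82a_an.P.Fwd
section
/-! A forward calibrated curve shadowing many periods on one side of the periodic curve.
PLAN. u from exists_fwd. Lambda from graph_unif (nb_self, addPot_zero) on a ball containing x [-1,P+1] with margin 1, at least the speed bound and the constant C of ratio is used only for ord_sec (take K = max Lambda C there). Given n and delta, shrink delta below the thresholds of ratio and of ord_sec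
(rho = s, T = P, v0 = a lower bound of |deriv x| on [-1/2,P+1/2] and of X1 d (deriv x 0)). sec_cross for (s^k, kP), k = 0..n; continuity of tl (s^k)^-1 and of ph x give C^1 closeness of the k-th return on [-1/2,P+1]; cc_fwd with T = (n+1)P + 2. Start at a point y near x(-2) outside the range of x
(ContDiff.dense_compl_range_of_finrank_lt_finrank). If the first height vanished, uniq_cal on [-2,..] for z and x(. - t0) would put y on x. The signs propagate by ord_sec. Orbits: cal_orbOn, Cal.shift, Cal.smul. -/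

open Set Filter Topology MeasureTheory
open scoped ContDiff

namespace Pool.Agent.Work.MP_1ce82a_an

variable {Γ : Grp}

theorem Fwd_cal (hS : Surf Γ) {F : E × E → ℝ} (hF : InvL Γ F) {c : H1 Γ} {u : E → ℝ}
    (hu : Eqv c u) (ρ : Γ) {z : ℝ → E} {T a b : ℝ} (h : Cal F u z (a + T) (b + T)) :
    Cal F u (nxt ρ z T) a b := by
  rw [show nxt ρ z T = fun t => ρ⁻¹ • z (t + T) from funext fun t => by rw [nxt, add_comm]]
  exact (h.shift T).smul hS hF hu _

theorem Fwd_ret (hS : Surf Γ) {F : E × E → ℝ} {x : ℝ → E} (hx : IsOrbit F x) {d : Fin 4}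
    (hd : 0 < X1 d (deriv x 0)) (P : ℝ) (hP : 0 < P) (ρ : Γ) (s0 : ℝ) (h0 : nxt ρ x s0 = x) {ε : ℝ}
    (hε : 0 < ε) : ∃ η : ℝ, 0 < η ∧ ∀ z : ℝ → E,
      (∀ t ∈ Icc (s0 - 1) (s0 + P + 2), HasDerivAt z (deriv z t) t ∧ ‖ph z t - ph x t‖ ≤ η) →
      ∃ T : ℝ, |T - s0| ≤ ε ∧ Start d x ε (nxt ρ z T) ∧
        ∀ t ∈ Icc (-(1 / 2)) (P + 1), ‖ph (nxt ρ z T) t - ph x t‖ ≤ ε := by
  have c1 := (contDiff_tl hS ρ⁻¹).continuous
  have c2 := hx.continuous_ph
  obtain ⟨η, hη, h1⟩ := Metric.eventually_nhds_iff.1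
    ((isCompact_Icc (a := -(1 / 2)) (b := P + 1)).eventually_forall_of_forall_eventually
      (x₀ := (0 : ℝ × E × E)) (P := fun p t => ‖tl ρ⁻¹ (ph x (s0 + p.1 + t) + p.2) -
        tl ρ⁻¹ (ph x (s0 + t))‖ < ε) fun t _ =>
      ContinuousAt.eventually_lt (by fun_prop) continuousAt_const (by simpa using hε))
  obtain ⟨δ, hδ, h2⟩ := sec_cross hS hx.1 hd ρ s0 h0
    (lt_min hε (lt_min (half_pos hη) one_half_pos))
  refine ⟨_, lt_min hδ (half_pos hη), fun z hz => ?_⟩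
  obtain ⟨T, k1, k2, k3⟩ := h2 z fun t ht => (hz t ⟨by linarith only [ht, ht.1], by linarith only [hP, ht, ht.2]⟩).imp_right
    fun h => h.trans (min_le_left _ _)
  simp only [le_min_iff] at k1 k3
  refine ⟨T, k1.1, ⟨k2, k3.1⟩, fun t ht => ?_⟩
  obtain ⟨k4, k5⟩ := abs_le.1 k1.2.2
  have := h1 (y := (T - s0, ph z (T + t) - ph x (T + t))) (by
    rw [dist_zero_right, Prod.norm_def]
    exact (max_le k1.2.1 ((hz _ ⟨by linarith only [k4, ht, ht.1], by linarith only [k5, ht, ht.2]⟩).2.trans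
      (min_le_right _ _))).trans_lt (half_lt_self hη)) t ht
  rw [add_sub_cancel, add_sub_cancel, ← ph_nxt hS, ← ph_nxt hS, h0] at this
  exact this.le

theorem fwd_chainS (hS : Surf Γ) {F : E × E → ℝ} (hF : Tonelli Γ F) {c : H1 Γ} (hc : Crit F c)
    {x : ℝ → E} (hx : AllCal F c x) {P : ℝ} {σ : Γ} (hP : Perd x P σ) {d : Fin 4}
    (hd : 0 < X1 d (deriv x 0)) : ∃ (u : E → ℝ) (Λ : ℝ), InS F c u ∧ 0 ≤ Λ ∧
      ∀ (n : ℕ) (δ : ℝ), 0 < δ → ∃ (z : ℝ → E) (tk : ℕ → ℝ),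
        (∀ k < n, tk k ≤ tk (k + 1)) ∧ Cal F u z (tk 0) (tk n) ∧
        (∀ k ≤ n, Start d x δ (nxt (σ ^ (k : ℤ)) z (tk k))) ∧
        (∀ k < n, Pair F x P σ d Λ δ (fun _ => 0) x (nxt (σ ^ (k : ℤ)) z (tk k)) P
          (tk (k + 1) - tk k)) ∧
        ∃ sg : ℝ, (sg = 1 ∨ sg = -1) ∧
          ∀ k ≤ n, 0 < chi σ ^ k * sg * ht d x (nxt (σ ^ (k : ℤ)) z (tk k)) := by
  obtain ⟨u, hu, hfw⟩ := exists_fwd hS hF hc hx
  have hxu := hx u hu
  have hxo := hxu.isOrbit hF.ton0 hu.2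
  have P0 := hP.1
  obtain ⟨R, hR⟩ := (isCompact_Icc (a := -(1 / 2)) (b := P + 1)).exists_bound_of_continuousOn
    hxo.1.continuous.continuousOn
  obtain ⟨Λ, hΛ, G⟩ := graph_unif hF c (R + 1)
  replace G := nb_self hc G u
  simp only [addPot_zero] at G
  replace G := G hu.2
  obtain ⟨δr, C, r0, r1, -, hr⟩ := ratio (F := F) hS hxo.1 hP hd hΛ
  obtain ⟨r1, r2⟩ := le_min_iff.1 r1
  obtain ⟨t1, -, ht1⟩ := (isCompact_Icc (a := -(1 / 2)) (b := P + 1 / 2)).exists_isMinOn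
    (nonempty_Icc.2 (by linarith only [P0])) hxo.continuous_ph.snd.norm.continuousOn
  obtain ⟨h0, h0p, ho⟩ := ord_sec hS σ d (T := P) (R := R + 1) (hΛ.trans (le_max_left Λ C))
    (lt_min (norm_pos_iff.2 (hxu.deriv_ne_zero hF.ton0 hu.2 (fun e => by simp [e] at hd) t1)) hd)
  have xP : σ⁻¹ • x P = x 0 := by rw [← zero_add P, hP.2, inv_smul_smul]
  have xP' : dk σ⁻¹ (x P) (deriv x P) = deriv x 0 := by
    have := congrArg Prod.snd (ph_nxt hS σ x P 0)
    rw [show nxt σ x P = x by simpa using hP.nxt_self 1, add_zero] at this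
    exact this.symm
  refine ⟨u, Λ, hu, hΛ, fun n δ hδ => ?_⟩
  obtain ⟨ε, e0, e1, e2, e3⟩ : ∃ ε, 0 < ε ∧ 2 * ε ≤ δ ∧ 2 * ε ≤ δr ∧ ε ≤ h0 :=
    ⟨min (δ / 2) (min (δr / 2) h0), by positivity, by linarith only [min_le_left (δ / 2) (min (δr / 2) h0)],
      by linarith only [min_le_right (δ / 2) (min (δr / 2) h0), min_le_left (δr / 2) h0],
      (min_le_right _ _).trans (min_le_right _ _)⟩
  choose η η0 hη using fun k : ℕ => Fwd_ret hS hxo hd P P0 (σ ^ (k : ℤ)) (k * P)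
    (by simpa using hP.nxt_self k) e0
  obtain ⟨k0, -, hk0⟩ := (Finset.range (n + 1)).exists_min_image η ⟨0, by simp⟩
  obtain ⟨δc, c0, hcc⟩ := cc_fwd hS hF hc hu hxu (n * P + P + 2) (η0 k0)
  obtain ⟨y, y1, y2⟩ := (hxo.1.dense_compl_range_of_finrank_lt_finrank (by simp)).exists_dist_lt
    (x (-2)) c0
  have nP : ∀ k ≤ n, 0 ≤ (k : ℝ) * P ∧ (k : ℝ) * P ≤ n * P := fun k hk =>
    ⟨by positivity, mul_le_mul_of_nonneg_right (by exact_mod_cast hk) P0.le⟩
  obtain ⟨z, hz, rfl⟩ := hfw y (-2) (n * P + P + 2 + 1) (by linarith only [r1, r2, e0, e2, nP, (nP n le_rfl).1])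
  have hzo := cal_orbOn hF.ton0 hu.2 hz (a' := -1) (by norm_num) (lt_add_one _)
  have hzc := hcc z hz (by rw [← dist_eq_norm, dist_comm]; exact y2.le)
  choose! tk t1 t2 t3 using fun k (hk : k ≤ n) => hη k z fun t ht => by
    have m : t ∈ Icc (-1) (n * P + P + 2) :=
      ⟨by linarith only [ht, nP, hk, ht.1, (nP k hk).1], by linarith only [ht, nP, hk, ht.2, (nP k hk).2]⟩
    exact ⟨(hzo t m).1, (hzc t m).trans (hk0 k (Finset.mem_range_succ_iff.2 hk))⟩
  simp only [abs_le] at t1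
  obtain ⟨w, hw⟩ : ∃ w : ℕ → ℝ → E, ∀ k : ℕ, nxt (σ ^ (k : ℤ)) z (tk k) = w k := ⟨_, fun _ => rfl⟩
  have wc : ∀ k ≤ n, Cal F u (w k) (-1) (P + 2) := fun k hk => hw k ▸ Fwd_cal hS hF.invL hu.1 _
    (hz.mono hF.cont hu.2 (by linarith only [r2, e0, e2, t1, hk, nP, (t1 k hk).1, (nP k hk).1]) (by linarith only [r1, r2, e0, e2])
      (by linarith only [r2, e0, e2, t1, hk, nP, (t1 k hk).2, (nP k hk).2]))
  have wn : ∀ k, σ⁻¹ • w k (tk (k + 1) - tk k) = w (k + 1) 0 := fun k => by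
    have := congrFun (nxt_nxt σ k z (tk k) (tk (k + 1))) 0
    rwa [← Nat.cast_succ, hw, hw, nxt, add_zero] at this
  have w0 : z (tk 0) = w 0 0 := by simp [← hw, nxt]
  simp only [hw] at t2 t3 ⊢
  have wR : ∀ k ≤ n, ∀ t ∈ Icc (-(1 / 2)) (P + 1), ‖w k t‖ ≤ R + 1 := fun k hk t ht => by
    have := (norm_fst_le _).trans (t3 k hk t ht)
    linarith only [r2, e0, e2, hR, ht, this, norm_le_insert' (w k t) (x t), hR t ht, show ‖w k t - x t‖ ≤ ε from this]
  have wc' : ∀ k ≤ n, ∀ t ∈ Icc (-(1 / 2)) (P + 1), Cal F u (w k) (t - 1 / 2) (t + 1 / 2) :=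
    fun k hk t ht => (wc k hk).mono hF.cont hu.2 (by linarith only [ht, ht.1]) (by linarith only [r2, e0, e2])
      (by linarith only [r2, e0, e2, ht, ht.2])
  have xc : ∀ t, Cal F u x (t - 1 / 2) (t + 1 / 2) := fun t => hxu _ _ (by linarith only [r2, e0, e2])
  have xR : ∀ t ∈ Icc (-(1 / 2)) (P + 1), ‖x t‖ ≤ R + 1 := fun t ht => by linarith only [r2, e0, e2, hR, ht, hR t ht]
  have i1 : ∀ t ∈ Icc 0 (P + 1), t ∈ Icc (-(1 / 2)) (P + 1) := fun t ht =>
    ⟨by linarith only [r2, e0, e2, ht, ht.1], ht.2⟩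
  have i2 : ∀ t ∈ Icc (-(1 / 2)) (P + 1 / 2), t ∈ Icc (-(1 / 2)) (P + 1) := fun t ht =>
    ⟨ht.1, by linarith only [r2, e0, e2, ht, ht.2]⟩
  have tm : ∀ k < n, |tk (k + 1) - tk k - P| ≤ 2 * ε := fun k hk => by
    have a := t1 k hk.le
    have b := t1 (k + 1) hk
    push_cast at b
    exact abs_le.2 ⟨by linarith only [a, b], by linarith only [a, b]⟩
  have pr : ∀ k < n, Pair F x P σ d Λ (2 * ε) (fun _ => 0) x (w k) P (tk (k + 1) - tk k) := by
    intro k hk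
    have z0 := i1 0 ⟨le_rfl, by linarith only [r1, r2, e0, e2]⟩
    refine ⟨⟨?_, fun t _ => by simp [e0.le], by simp [e0.le], rfl, by rw [xP], ?_⟩,
      ⟨?_, fun t ht => by linarith only [e0, t3, hk, i1, ht, t3 k hk.le t (i1 t ht)], tm k hk, (t2 k hk.le).1,
        by rw [wn, (t2 (k + 1) hk).1], ?_⟩, fun s hs t ht =>
      (G _ _ _ _ (xc s) (wc' k hk.le t (i1 t ht)) (xR s (i1 s hs)) (wR k hk.le t (i1 t ht))).2.2⟩ <;>
      rw [addPot_zero]
    exacts [hxo.orbOn _ _, hxu.energy hF.ton0 hu.2 0,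
      cal_orbOn hF.ton0 hu.2 (wc k hk.le) (by norm_num) (by linarith only [r2, e0, e2]),
      (G _ _ _ _ (wc' k hk.le 0 z0) (xc 0) (wR k hk.le 0 z0) (xR 0 z0)).2.1]
  have mo : ∀ k < n, tk k ≤ tk (k + 1) := fun k hk => by linarith only [r1, e2, tm, hk, (abs_le.1 (tm k hk)).1]
  have key : ∀ k < n, ∀ sg : ℝ, (sg = 1 ∨ sg = -1) → 0 < sg * ht d x (w k) →
      0 < chi σ * sg * ht d x (w (k + 1)) := fun k hk => by
    have l := fun a => mul_le_mul_of_nonneg_right (le_max_left Λ C) (norm_nonneg (a : E))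
    have := ho x (w k) P (tk (k + 1) - tk k) ⟨fun t ht => ⟨hxo.hasDerivAt t,
      (min_le_left _ _).trans (ht1 ht), (G _ _ _ _ (xc t) (xc t) (xR t (i2 t ht))
        (xR t (i2 t ht))).1.trans (le_max_left _ _)⟩, fun t ht =>
      ⟨(cal_orbOn hF.ton0 hu.2 (wc k hk.le) (by norm_num) (by linarith only [r2, e0, e2]) t ht).1,
        (G _ _ _ _ (wc' k hk.le t (i2 t ht)) (xc t) (wR k hk.le t (i2 t ht))
          (xR t (i2 t ht))).1.trans (le_max_left _ _)⟩, fun s hs t ht =>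
      (G _ _ _ _ (xc s) (xc t) (xR s (i2 s hs)) (xR t (i2 t ht))).2.2.trans (l _), fun s hs t ht =>
      (G _ _ _ _ (xc s) (wc' k hk.le t (i2 t ht)) (xR s (i2 s hs))
        (wR k hk.le t (i2 t ht))).2.2.trans (l _)⟩
      (fun t ht => ⟨xR t (i2 t ht), wR k hk.le t (i2 t ht)⟩) ⟨P0.le, le_rfl⟩
      ((t2 k hk.le).2.trans e3) ((hr _ _ _ _ _ ((pr k hk).mono e2)).2.1.trans
        (mul_le_mul_of_nonneg_right (le_max_right _ _) (norm_nonneg _))) (min_le_right _ _)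
      (xP' ▸ min_le_right _ _) (t2 k hk.le).1.symm (by rw [xP, wn, (t2 (k + 1) hk).1])
    simpa only [ht, map_sub, xP, wn] using this
  have key2 : ∀ sg : ℝ, (sg = 1 ∨ sg = -1) → 0 < sg * ht d x (w 0) →
      ∀ k ≤ n, 0 < chi σ ^ k * sg * ht d x (w k) := fun sg hsg h k hk => by
    induction k with
    | zero => simpa using h
    | succ k ih =>
      have a : chi σ ^ k * sg = 1 ∨ chi σ ^ k * sg = -1 := by
        rcases chi_cases σ with e | e <;> rcases hsg with rfl | rfl <;> rw [e]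
        · simp
        · simp
        · rcases neg_one_pow_eq_or ℝ k with e' | e' <;> simp [e']
        · rcases neg_one_pow_eq_or ℝ k with e' | e' <;> simp [e']
      have := key k hk _ a (ih (by omega))
      rwa [← mul_assoc, ← pow_succ'] at this
  refine ⟨z, tk, mo, hz.mono hF.cont hu.2 (by linarith only [r2, e0, e2, t1, nP, (t1 0 n.zero_le).1, (nP 0 n.zero_le).1]) ?_
    (by linarith only [r1, r2, e0, e2, t1, (t1 n le_rfl).2]), fun k hk => ?_, fun k hk => ?_, ?_⟩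
  · exact Nat.le_induction (P := fun k _ => k ≤ n → tk 0 ≤ tk k) (fun _ => le_rfl)
      (fun k _ ih hk => (ih (by omega)).trans (mo k hk)) n n.zero_le le_rfl
  · exact hw k ▸ ⟨(t2 k hk).1, by linarith only [e0, e1, t2, hk, (t2 k hk).2]⟩
  · exact hw k ▸ (pr k hk).mono e1
  simp only [hw]
  rcases lt_trichotomy 0 (ht d x (w 0)) with h | h | h
  · exact ⟨1, Or.inl rfl, key2 1 (Or.inl rfl) (by linarith only [h])⟩
  · have e : w 0 0 - x 0 = 0 := by
      rw [← norm_eq_zero, norm_eq_ht (t2 0 n.zero_le).1.symm, ← h, abs_zero]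
    have a := t1 0 n.zero_le
    refine (y1 ⟨_, (uniq_cal hF.ton0 hu.2 hz (hxu.shift (-tk 0) _ _ hz.1.1) (s := tk 0) ⟨?_, ?_⟩ ?_ _
      (left_mem_Icc.2 hz.1.1)).symm⟩).elim
    · linarith only [r2, e0, e2, a, nP, a.1, (nP 0 n.zero_le).1]
    · linarith only [r1, r2, e0, e2, a, nP, a.2, (nP 0 n.zero_le).2]
    · rw [w0, add_neg_cancel, sub_eq_zero.1 e]
  · exact ⟨-1, Or.inr rfl, key2 (-1) (Or.inr rfl) (by linarith only [h])⟩

theorem fwd_chain (hS : Surf Γ) {F : E × E → ℝ} (hF : Tonelli Γ F) {c : H1 Γ} (hc : Crit F c)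
    {x : ℝ → E} (hx : AllCal F c x) {P : ℝ} {σ : Γ} (hσ : Pos σ) (hP : Perd x P σ) {d : Fin 4}
    (hd : 0 < X1 d (deriv x 0)) : ∃ (u : E → ℝ) (Λ : ℝ), InS F c u ∧ 0 ≤ Λ ∧
      ∀ (n : ℕ) (δ : ℝ), 0 < δ → ∃ (z : ℝ → E) (tk : ℕ → ℝ),
        (∀ k < n, tk k ≤ tk (k + 1)) ∧ Cal F u z (tk 0) (tk n) ∧
        (∀ k ≤ n, Start d x δ (nxt (σ ^ (k : ℤ)) z (tk k))) ∧
        (∀ k < n, Pair F x P σ d Λ δ (fun _ => 0) x (nxt (σ ^ (k : ℤ)) z (tk k)) P
          (tk (k + 1) - tk k)) ∧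
        ((∀ k ≤ n, 0 < ht d x (nxt (σ ^ (k : ℤ)) z (tk k))) ∨
          ∀ k ≤ n, ht d x (nxt (σ ^ (k : ℤ)) z (tk k)) < 0) := by
  obtain ⟨u, Λ, hu, hΛ, h⟩ := fwd_chainS hS hF hc hx hP hd
  refine ⟨u, Λ, hu, hΛ, fun n δ hδ => ?_⟩
  obtain ⟨z, tk, h1, h2, h3, h4, sg, hsg, h5⟩ := h n δ hδ
  refine ⟨z, tk, h1, h2, h3, h4, ?_⟩
  simp only [hσ.chi, one_pow, one_mul] at h5
  rcases hsg with rfl | rfl
  · exact Or.inl fun k hk => by linarith only [h5, hk, h5 k hk]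
  · exact Or.inr fun k hk => by linarith only [h5, hk, h5 k hk]

end Pool.Agent.Work.MP_1ce82a_an
end

-- merged part: Pool.Agent.Work.MP_1ce82a_an.P.TrGt
section
/-! Quadratic growth forces the trace to exceed two.
PLAN. Suppose tau <= 2. u, Lambda from fwd_chain; B, beta, kappa, delta0 from pass_per; G = per f1 - beta per f0 has QG with slope m1 - beta m0 = 0 (QG.sub_smul, slope_of_zero, CalR.act_eq). close_sum: the arc z on [tk 0, tk n] and the arc aff x 0 P h0 h1 with h0 = y_n 0 - x 0,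
h1 = s y_0 0 - s x 0 (y_k the k-th return); decks s^n and s * (s^0)^-1; jump, pot_aff_le, Surf.lip, qg_two, qg_opt. Then A = the constant over kappa, C from ratio, n and eps from seq_concave, delta from rec3, ratio, pass_per; eta k = |ht|; pot over [tk 0, tk n] is the sum of the passages (pot_add, pot_shift, pot_smul);
nxt s x P = x (Perd.nxt_self), nxt_nxt. -/

open Set Filter Topology MeasureTheory
open scoped ContDiff

namespace Pool.Agent.Work.MP_1ce82a_an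

variable {Γ : Grp}

theorem close_sum (hS : Surf Γ) {F : E × E → ℝ} (hF : Tonelli Γ F) {c : H1 Γ} {u : E → ℝ}
    (hu : InS F c u) {x : ℝ → E} (hx : CalR F u x) {P : ℝ} {σ : Γ} (hP : Perd x P σ)
    {g : E → ℝ} (hg : ContDiff ℝ 1 g) (hi : Inv Γ g) (hq : QG F c 0 g 0) (h0 : pot g x 0 P = 0) :
    ∃ A δ : ℝ, 0 < δ ∧ ∀ (z : ℝ → E) (a b : ℝ) (ρ0 ρ1 : Γ) (n : ℕ), 1 ≤ n → Cal F u z a b →
      b - a ≤ n * (P + 1) → ‖ρ0⁻¹ • z a - x 0‖ ≤ δ → ‖ρ1⁻¹ • z b - x 0‖ ≤ δ →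
        |pot g z a b| ≤ A * Real.sqrt n * (‖ρ0⁻¹ • z a - x 0‖ + ‖ρ1⁻¹ • z b - x 0‖) := by
  have hP0 := hP.1
  have hxp : IsPath x 0 P := (hx 0 P hP0.le).1
  obtain ⟨R, hR⟩ := isCompact_Icc.exists_bound_of_continuousOn hxp.continuousOn
  obtain ⟨m, hm⟩ := hF.ton0 (R + 2)
  obtain ⟨L, hL, hlip⟩ := hS.lip σ (‖x 0‖ + 1)
  obtain ⟨Cj, hCj, hj⟩ := jump m P P hP0
  obtain ⟨Cp, hCp, hp⟩ := pot_aff_le hg R P
  obtain ⟨C, s0, hC, hs0, h2⟩ := qg_two hS hF hg.continuous hi hq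
  obtain ⟨A, hA, ho⟩ := qg_opt (C1 := Cj * (1 + L ^ 2)) (d0 := 2) (T0 := 2 * P + 1) hC hs0
    (by positivity) two_pos (by positivity)
  refine ⟨A + Cp * (1 + L), 1 / (L + 1), by positivity, ?_⟩
  intro z a b ρ0 ρ1 n hn hz hab e0 e1
  have hδ : 1 / (L + 1) ≤ 1 := by
    rw [div_le_one (by positivity)]
    linarith only [hL]
  have hn' : (1 : ℝ) ≤ n := by exact_mod_cast hn
  have n0 : ‖ρ0⁻¹ • z a‖ ≤ ‖x 0‖ + 1 := by
    have := norm_sub_norm_le (ρ0⁻¹ • z a) (x 0)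
    linarith only [e0, hδ, this]
  have l1 : ‖σ • ρ0⁻¹ • z a - σ • x 0‖ ≤ L * ‖ρ0⁻¹ • z a - x 0‖ :=
    (hlip _ _ n0 (by linarith only [])).1
  have l2 : ‖σ • ρ0⁻¹ • z a - σ • x 0‖ ≤ 1 := by
    refine l1.trans ((mul_le_mul_of_nonneg_left e0 hL).trans ?_)
    rw [mul_one_div, div_le_one (by positivity)]
    linarith only []
  have l3 : ‖ρ1⁻¹ • z b - x 0‖ ≤ 1 := e1.trans hδ
  have j1 := hj R F u hm hu.2 x 0 P (hx _ _ (by linarith only [hP0])) (by linarith only []) (by linarith only []) hR _ _ l3 l2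
  have p1 := hp x 0 P hP0 (by linarith only []) hxp hR _ _ l3 l2
  have q1 := h2 u hu.1 z (aff x 0 P (ρ1⁻¹ • z b - x 0) (σ • ρ0⁻¹ • z a - σ • x 0)) a b 0 P ρ1
    (σ * ρ0⁻¹) hz.1 (hxp.aff _ _) (by linarith only [hP0, hz, hz.1.1])
    (by rw [aff_left x hP0, add_sub_cancel, smul_inv_smul])
    (by
      have := hP.2 0
      rw [zero_add] at this
      rw [aff_right x hP0, this, add_sub_cancel, mul_smul])
  generalize aff x 0 P (ρ1⁻¹ • z b - x 0) (σ • ρ0⁻¹ • z a - σ • x 0) = y at j1 p1 q1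
  have k0 := norm_nonneg (ρ0⁻¹ • z a - x 0)
  have k1 := norm_nonneg (ρ1⁻¹ • z b - x 0)
  have k2 := norm_nonneg (σ • ρ0⁻¹ • z a - σ • x 0)
  generalize ‖σ • ρ0⁻¹ • z a - σ • x 0‖ = r at *
  generalize ‖ρ0⁻¹ • z a - x 0‖ = d0 at *
  generalize ‖ρ1⁻¹ • z b - x 0‖ = d1 at *
  have a1 : r ≤ L * (d0 + d1) := l1.trans (mul_le_mul_of_nonneg_left (by linarith only [k1]) hL)
  have a2 : d1 ^ 2 + r ^ 2 ≤ (1 + L ^ 2) * (d0 + d1) ^ 2 := by
    have b1 := pow_le_pow_left₀ k2 a1 2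
    have b2 := pow_le_pow_left₀ k1 (show d1 ≤ d0 + d1 by linarith only [k0]) 2
    rw [mul_pow] at b1
    linarith only [b1, b2]
  have o1 := ho (pot g z a b + pot g y 0 P) (dfc F u y 0 P) (b - a + (P - 0)) (d0 + d1) n hn'
    (by linarith only [k0, k1]) (by linarith only [hδ, e0, e1])
    (j1.trans (by rw [mul_assoc]; exact mul_le_mul_of_nonneg_left a2 hCj))
    (by linarith only [hab, hP0, hn', mul_nonneg_of_nonpos_of_nonpos (le_of_lt (Mathlib.Tactic.Linarith.sub_neg_of_lt hP0)) (Mathlib.Tactic.Linarith.sub_nonpos_of_le hn')]) fun s hs => by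
      have := q1 s hs
      rw [hz.2] at this
      simpa using this
  have s1 : 1 ≤ Real.sqrt n := Real.one_le_sqrt.2 hn'
  rw [h0, sub_zero] at p1
  have a3 : Cp * (d1 + r) ≤ Cp * (1 + L) * Real.sqrt n * (d0 + d1) := by
    calc Cp * (d1 + r) ≤ Cp * ((1 + L) * (d0 + d1)) :=
          mul_le_mul_of_nonneg_left (by linarith only [k0, a1]) hCp
      _ = Cp * (1 + L) * 1 * (d0 + d1) := by ring
      _ ≤ _ := by gcongr
  have a4 := abs_sub (pot g z a b + pot g y 0 P) (pot g y 0 P)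
  rw [add_sub_cancel_right] at a4
  linarith only [p1, o1, a3, a4]

theorem TrGt_mono {tk : ℕ → ℝ} {n : ℕ} (h : ∀ k < n, tk k ≤ tk (k + 1)) {i j : ℕ} (hij : i ≤ j)
    (hj : j ≤ n) : tk i ≤ tk j := by
  induction j, hij using Nat.le_induction with
  | base => exact le_rfl
  | succ j _ ih => exact (ih (by omega)).trans (h j (by omega))

theorem TrGt_pot {g : E → ℝ} (hi : Inv Γ g) (ρ : Γ) (z : ℝ → E) (s t : ℝ) :
    pot g (nxt ρ z s) 0 (t - s) = pot g z s t := by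
  have h1 := pot_smul hi ρ⁻¹ (fun r => z (r + s)) 0 (t - s)
  rw [pot_shift, zero_add, sub_add_cancel] at h1
  rw [← h1]
  congr 1
  funext r
  rw [nxt, add_comm]

theorem TrGt_sum {g : E → ℝ} (hg : Continuous g) {z : ℝ → E} {tk : ℕ → ℝ} {n : ℕ}
    (h : ∀ k < n, tk k ≤ tk (k + 1)) (hz : IsPath z (tk 0) (tk n)) :
    ∑ k ∈ Finset.range n, pot g z (tk k) (tk (k + 1)) = pot g z (tk 0) (tk n) :=
  intervalIntegral.sum_integral_adjacent_intervals fun k hk =>
    (hz.mono (TrGt_mono h (Nat.zero_le k) hk.le) (h k hk) (TrGt_mono h hk le_rfl)).ii_pot hg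

theorem tr_gt_two (hS : Surf Γ) {F : E × E → ℝ} (hF : Tonelli Γ F) {c : H1 Γ} (hc : Crit F c)
    (hq : QGall F c) {x : ℝ → E} (hx : AllCal F c x) {P : ℝ} {σ : Γ} (hσ : Pos σ)
    (hP : Perd x P σ) (hm : MinP Γ x P) (hv : deriv x 0 ≠ 0) {τ : ℝ} (hτ : IsTr F x P σ τ) : 2 < τ := by
  by_contra hle
  rw [not_lt] at hle
  obtain ⟨d, hd0⟩ := exists_dir (deriv x 0)
  have hd : 0 < X1 d (deriv x 0) := by
    rw [hd0]
    exact norm_pos_iff.2 hv
  obtain ⟨u, Λ, hu, hΛ, hch⟩ := fwd_chain hS hF hc hx hσ hP hd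
  have hxc := hx u hu
  have hxo := hxc.isOrbit hF.ton0 hu.2
  obtain ⟨B, β, κ, δ0, hκ, hδ0, hG0, hpass⟩ := pass_per hS hF hu hxc hP hm hd hΛ
  have c1 := per_contDiff hS B.f1_contDiff B.f1_cpt
  have c0 := per_contDiff hS B.f0_contDiff B.f0_cpt
  have hGc : ContDiff ℝ 1 fun y => per Γ B.f1 y - β * per Γ B.f0 y :=
    (c1.sub (contDiff_const.mul c0)).of_le (by exact_mod_cast le_top)
  have hGi : Inv Γ fun y => per Γ B.f1 y - β * per Γ B.f0 y := fun γ y => by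
    simp only [per_inv B.f1 γ y, per_inv B.f0 γ y]
  obtain ⟨⟨m0, q0⟩, m1, q1⟩ := hq.2 B
  have hQ := QG.sub_smul c1.continuous c0.continuous q1 q0 β
  have hsl := hQ.slope_of_zero (hxc.act_eq hu hP).1 (hxc.act_eq hu hP).2
  rw [hG0] at hsl
  rw [(mul_eq_zero.1 hsl.symm).resolve_right hP.1.ne'] at hQ
  generalize (fun y => per Γ B.f1 y - β * per Γ B.f0 y) = G at hG0 hpass hGc hGi hQ
  obtain ⟨A, δ1, hδ1, hcl⟩ := close_sum hS hF hu hxc hP hGc hGi hQ hG0
  obtain ⟨δ2, C, hδ2, hδ2', -, hrat⟩ := ratio (F := F) hS hxo.1 hP hd hΛ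
  obtain ⟨n, ε, hn, hε, hseq⟩ := seq_concave hle (A / κ) C
  obtain ⟨δ3, R, hδ3, hrec⟩ := rec3 hS hF hxo hP hd hτ hΛ hε
  obtain ⟨δ, hδ, i0, i1, i2, i3⟩ : ∃ δ : ℝ, 0 < δ ∧ δ ≤ δ0 ∧ δ ≤ δ1 ∧ δ ≤ δ2 ∧ δ ≤ δ3 :=
    ⟨min (min δ0 δ1) (min δ2 δ3), lt_min (lt_min hδ0 hδ1) (lt_min hδ2 hδ3),
      (min_le_left _ _).trans (min_le_left _ _), (min_le_left _ _).trans (min_le_right _ _),
      (min_le_right _ _).trans (min_le_left _ _), (min_le_right _ _).trans (min_le_right _ _)⟩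
  obtain ⟨z, tk, hmono, hcal, hst, hpair, hsg⟩ := hch n δ hδ
  have ex : nxt σ x P = x := by
    have := hP.nxt_self 1
    rwa [zpow_one, Int.cast_one, one_mul] at this
  obtain ⟨y, hy⟩ : ∃ y : ℕ → ℝ → E, ∀ k : ℕ, nxt (σ ^ (k : ℤ)) z (tk k) = y k := ⟨_, fun _ => rfl⟩
  have ey : ∀ k : ℕ, nxt σ (y k) (tk (k + 1) - tk k) = y (k + 1) := fun k => by
    rw [← hy, ← hy, nxt_nxt, Nat.cast_succ]
  have ep : ∀ k : ℕ, pot G (y k) 0 (tk (k + 1) - tk k) = pot G z (tk k) (tk (k + 1)) :=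
    fun k => by rw [← hy, TrGt_pot hGi]
  have e0 : ∀ k : ℕ, (σ ^ (k : ℤ))⁻¹ • z (tk k) = y k 0 := fun k => by
    rw [← hy, nxt, add_zero]
  simp only [hy] at hst hpair hsg
  have en : ∀ k ≤ n, ‖y k 0 - x 0‖ = |ht d x (y k)| := fun k hk => norm_eq_ht (hst k hk).1.symm
  have hrec' : ∀ k, k + 2 ≤ n → |ht d x (y (k + 2)) - τ * ht d x (y (k + 1)) + ht d x (y k)| ≤
      ε * (|ht d x (y k)| + |ht d x (y (k + 1))|) := fun k hk => by
    have := hrec (fun _ => 0) contDiff_const (small_zero R hδ3.le) x (y k) P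
      (tk (k + 1) - tk k) P (tk (k + 1 + 1) - tk (k + 1)) ((hpair k (by omega)).mono i3)
      (by rw [ex, ey]; exact (hpair (k + 1) (by omega)).mono i3)
    rwa [ex, ex, ey, ey] at this
  have key := hseq (fun k => |ht d x (y k)|)
    (fun k hk => abs_pos.2 (hsg.elim (fun h => (h k hk).ne') fun h => (h k hk).ne))
    (fun k hk => by
      have := (hrat _ x (y k) P _ ((hpair k hk).mono i2)).2.2.2
      rw [ex, ey, en k hk.le] at this
      rw [← en (k + 1) hk]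
      exact (norm_fst_le (ph (y (k + 1)) 0 - ph x 0)).trans this)
    (fun k hk => by
      refine le_trans (le_of_eq ?_) (hrec' k hk)
      rcases hsg with h | h
      · rw [abs_of_pos (h k (by omega)), abs_of_pos (h (k + 1) (by omega)),
          abs_of_pos (h (k + 2) hk)]
      · rw [abs_of_neg (h k (by omega)), abs_of_neg (h (k + 1) (by omega)),
          abs_of_neg (h (k + 2) hk), ← abs_neg]
        congr 1
        ring)
  have hlen : ∀ k ≤ n, tk k - tk 0 ≤ k * (P + 1) := by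
    intro k
    induction k with
    | zero => intro _; simp
    | succ k ih =>
      intro hk
      have a1 := (abs_le.1 (hpair k hk).s2.time).2
      have a2 := ih (by omega)
      have a3 := hδ2'.trans (min_le_right P 1)
      push_cast
      linarith only [i2, a1, a2, a3]
  have hup := hcl z (tk 0) (tk n) (σ ^ ((0 : ℕ) : ℤ)) (σ ^ (n : ℤ)) n hn hcal (hlen n le_rfl)
    (by rw [e0]; exact (hst 0 (Nat.zero_le n)).2.trans i1)
    (by rw [e0]; exact (hst n le_rfl).2.trans i1)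
  rw [e0, e0, en 0 (Nat.zero_le n), en n le_rfl, ← TrGt_sum hGc.continuous hmono hcal.1] at hup
  have hlow : κ * ∑ k ∈ Finset.range n, |ht d x (y k)| ≤
      |∑ k ∈ Finset.range n, pot G z (tk k) (tk (k + 1))| := by
    rw [Finset.mul_sum]
    rcases hsg with h | h
    · refine le_trans (Finset.sum_le_sum fun k hk => ?_) (le_abs_self _)
      rw [Finset.mem_range] at hk
      rw [abs_of_pos (h k hk.le), ← ep]
      exact (hpass _ _ ((hpair k hk).mono i0)).1 (h k hk.le).le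
    · refine le_trans ?_ (neg_le_abs _)
      rw [← Finset.sum_neg_distrib]
      refine Finset.sum_le_sum fun k hk => ?_
      rw [Finset.mem_range] at hk
      rw [abs_of_neg (h k hk.le), ← ep, mul_neg, neg_le_neg_iff]
      exact (hpass _ _ ((hpair k hk).mono i0)).2 (h k hk.le).le
  have fin := mul_lt_mul_of_pos_left key hκ
  have e : κ * (A / κ * Real.sqrt n * (|ht d x (y 0)| + |ht d x (y n)|)) =
      A * Real.sqrt n * (|ht d x (y 0)| + |ht d x (y n)|) := by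
    field_simp
  linarith only [hup, hlow, fin, e]

end Pool.Agent.Work.MP_1ce82a_an
end

-- merged part: Pool.Agent.Work.MP_1ce82a_an.J.TrCont
section
/-! Continuity of the trace.
PLAN. jac_cont: in the variables (xi, momentum) both fields solve linear systems whose coefficients are uniformly close on [-T,0] (D2 F is uniformly continuous near the orbit segment, the vv block is uniformly positive there,
norm_D2_addPot_sub); the difference D satisfies |D'| <= K |D| + o(1); Gronwall backwards in time. To avoid inverses: the difference W of the phase vectors satisfies mu |W.2| <= |difference of momenta| + K |W.1| + o(1).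
tr_cont: phi_mom gives a with a det2 v (e 0) = 1. For the new orbit with velocity v' take phi' with data (0, a' det2 v'), a' = 1/det2 v' (e 0), and e' with data (e 0, mom e 0 + b inner v'), b chosen to make den e' 0 = 0 (b is small);
exists_jacobi with Cvx.addPot; om is expressed by pr_eq_Om and ph_Tp through D2 at ph z 0, fderiv (tl s) at ph z (-T) and ph e' (-T), ph phi' (-T), ph e' 0, ph phi' 0, all close to the unperturbed data. -/

open Set Filter Topology MeasureTheory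
open scoped ContDiff

namespace Pool.Agent.Work.MP_1ce82a_an

variable {Γ : Grp}

theorem TrCont_ph {x : ℝ → E} (hx : ContDiff ℝ 1 x) : Continuous (ph x) :=
  hx.continuous.prodMk (hx.continuous_deriv le_rfl)

theorem TrCont_lo {F : E × E → ℝ} (hF : ContDiff ℝ 2 F) (hc : Cvx F) (R : ℝ) :
    ∃ t : ℝ, 0 < t ∧ ∀ (z : E × E) (w : E), ‖z‖ ≤ R → t * ‖w‖ ^ 2 ≤ D2 F z (0, w) (0, w) := by
  have hD := continuous_D2 hF
  obtain ⟨t, t0, ht⟩ := ((isCompact_closedBall (0 : E × E) R).prod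
    (isCompact_sphere (0 : E) 1)).exists_forall_le'
    (f := fun q => D2 F q.1 (0, q.2) (0, q.2)) (a := 0) (by fun_prop)
    fun q hq => hc _ _ (ne_zero_of_mem_unit_sphere ⟨q.2, hq.2⟩)
  refine ⟨t, t0, fun z w hz => ?_⟩
  obtain ⟨s, u, hu, rfl⟩ : ∃ (s : ℝ) (u : E), ‖u‖ = 1 ∧ w = s • u := by
    by_cases h0 : w = 0
    · exact ⟨0, (1, 0), by simp, by simp [h0]⟩
    · exact ⟨‖w‖, ‖w‖⁻¹ • w, norm_smul_inv_norm h0, by rw [smul_inv_smul₀ (norm_ne_zero_iff.2 h0)]⟩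
  have h := ht (z, u) ⟨mem_closedBall_zero_iff.2 hz, mem_sphere_zero_iff_norm.2 hu⟩
  rw [show ((0 : E), s • u) = s • ((0 : E), u) by simp, map_smul, map_smul,
    _root_.smul_apply, norm_smul, hu, mul_one, Real.norm_eq_abs, sq_abs, smul_eq_mul,
    smul_eq_mul]
  linarith only [h, sq_nonneg s, mul_nonneg_of_nonpos_of_nonpos (Mathlib.Tactic.Linarith.sub_nonpos_of_le (sq_nonneg s)) (Mathlib.Tactic.Linarith.sub_nonpos_of_le h)]

/-- The velocity is controlled by the position and the momentum. -/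
theorem TrCont_W {B : E × E →L[ℝ] E × E →L[ℝ] ℝ} {K μ r d : ℝ} (hK : ‖B‖ ≤ K)
    (hlo : ∀ w : E, μ * ‖w‖ ^ 2 ≤ B (0, w) (0, w)) {W : E × E} {ρ : E × E →L[ℝ] ℝ}
    (hρ : ‖ρ‖ ≤ r) (h1 : ‖W.1‖ ≤ d) (h2 : ‖vpart (B W + ρ)‖ ≤ d) :
    μ * ‖W.2‖ ≤ (1 + K) * d + r := by
  obtain ⟨a, w⟩ := W
  have K0 : 0 ≤ K := B.opNorm_nonneg.trans hK
  have d0 : 0 ≤ d := (norm_nonneg _).trans h1
  have r0 : 0 ≤ r := (norm_nonneg _).trans hρ
  rcases (norm_nonneg w).eq_or_lt with h0 | h0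
  · rw [← h0, mul_zero]
    positivity
  have n1 : ‖((0 : E), w)‖ = ‖w‖ := by simp
  have n2 : ‖(a, (0 : E))‖ = ‖a‖ := by simp
  have e : vpart (B (a, w) + ρ) w = B (a, 0) (0, w) + B (0, w) (0, w) + ρ (0, w) := by
    rw [vpart_apply, show (a, w) = ((a, 0) : E × E) + (0, w) by simp, map_add]
    rfl
  have a1 := (le_abs_self _).trans ((vpart (B (a, w) + ρ)).le_of_opNorm_le h2 w)
  have a2 := (neg_le_abs _).trans (B.le_opNorm₂ (a, 0) (0, w))
  have a3 := (neg_le_abs _).trans (ρ.le_of_opNorm_le hρ (0, w))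
  rw [n1] at a2 a3
  rw [n2] at a2
  have a4 : ‖B‖ * ‖a‖ * ‖w‖ ≤ K * d * ‖w‖ :=
    mul_le_mul_of_nonneg_right (mul_le_mul hK h1 (norm_nonneg _) K0) h0.le
  have a5 := hlo w
  refine le_of_mul_le_mul_right ?_ h0
  linarith only [e, a1, a2, a3, a4, a5]

theorem TrCont_gron {K μ M : ℝ} (T : ℝ) (hK : 0 ≤ K) (hμ : 0 < μ) (hM : 0 ≤ M) :
    ∃ C : ℝ, 0 < C ∧ ∀ (B B' : ℝ → E × E →L[ℝ] E × E →L[ℝ] ℝ) (ξ ζ : ℝ → E) (η : ℝ), 0 ≤ η →
      ContDiff ℝ 1 ξ → ContDiff ℝ 1 ζ →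
      (∀ t, HasDerivAt (fun s => vpart (B s (ph ξ s))) (xpart (B t (ph ξ t))) t) →
      (∀ t, HasDerivAt (fun s => vpart (B' s (ph ζ s))) (xpart (B' t (ph ζ t))) t) →
      (∀ t ∈ Icc (-T) 0, ‖B' t‖ ≤ K ∧ (∀ w : E, μ * ‖w‖ ^ 2 ≤ B' t (0, w) (0, w)) ∧
        ‖B' t - B t‖ ≤ η ∧ ‖ph ξ t‖ ≤ M) →
      ‖ζ 0 - ξ 0‖ ≤ η → ‖vpart (B' 0 (ph ζ 0)) - vpart (B 0 (ph ξ 0))‖ ≤ η →
      ∀ t ∈ Icc (-T) 0, ‖ph ζ t - ph ξ t‖ ≤ C * η := by
  obtain ⟨c1, hc1⟩ : ∃ c1, c1 = 1 + (1 + K) / μ := ⟨_, rfl⟩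
  obtain ⟨c2, hc2⟩ : ∃ c2, c2 = M / μ := ⟨_, rfl⟩
  have p1 : 0 < c1 := by rw [hc1]; positivity
  have p2 : 0 ≤ c2 := by rw [hc2]; positivity
  refine ⟨c1 * ((1 + ((1 + K) * c2 + M) / ((1 + K) * c1)) * Real.exp ((1 + K) * c1 * T)) + c2,
    by positivity, fun B B' ξ ζ η hη hξ hζ h1 h2 hb i1 i2 => ?_⟩
  let D : ℝ → E × (E →L[ℝ] ℝ) := fun t =>
    (ζ t - ξ t, vpart (B' t (ph ζ t)) - vpart (B t (ph ξ t)))
  let D' : ℝ → E × (E →L[ℝ] ℝ) := fun t =>
    (deriv ζ t - deriv ξ t, xpart (B' t (ph ζ t)) - xpart (B t (ph ξ t)))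
  have hD : ∀ t, HasDerivAt D (D' t) t := fun t =>
    ((hζ.differentiable one_ne_zero t).hasDerivAt.sub
      (hξ.differentiable one_ne_zero t).hasDerivAt).prodMk ((h2 t).sub (h1 t))
  have e : ∀ t, B' t (ph ζ t) - B t (ph ξ t) =
      B' t (ph ζ t - ph ξ t) + (B' t - B t) (ph ξ t) := fun t => by
    rw [map_sub, sub_apply]
    abel
  have hρ : ∀ t ∈ Icc (-T) 0, ‖(B' t - B t) (ph ξ t)‖ ≤ η * M := fun t ht =>
    (B' t - B t).le_of_opNorm_le_of_le (hb t ht).2.2.1 (hb t ht).2.2.2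
  have hW : ∀ t ∈ Icc (-T) 0, ‖ph ζ t - ph ξ t‖ ≤ c1 * ‖D t‖ + c2 * η := fun t ht => by
    have a1 : ‖(ph ζ t - ph ξ t).1‖ ≤ ‖D t‖ := norm_fst_le (D t)
    have a2 := TrCont_W (hb t ht).1 (hb t ht).2.1 (hρ t ht) a1 (by
      rw [← e, vpart, ContinuousLinearMap.sub_comp]
      exact norm_snd_le (D t))
    have a3 : ‖(ph ζ t - ph ξ t).2‖ ≤ (1 + K) / μ * ‖D t‖ + c2 * η := by
      refine le_of_mul_le_mul_left (a2.trans_eq ?_) hμ
      rw [hc2]
      field_simp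
    have a4 : 0 ≤ (1 + K) / μ * ‖D t‖ := by positivity
    have a5 := mul_nonneg p2 hη
    have a6 := norm_nonneg (D t)
    rw [Prod.norm_def, hc1]
    exact max_le (by linarith only [a1, a4, a5]) (by linarith only [a3, a6])
  have hD' : ∀ t ∈ Icc (-T) 0,
      ‖D' t‖ ≤ (1 + K) * c1 * ‖D t‖ + ((1 + K) * c2 + M) * η := fun t ht => by
    have a1 : ‖(D' t).1‖ ≤ ‖ph ζ t - ph ξ t‖ := norm_snd_le (ph ζ t - ph ξ t)
    have a2 : ‖(D' t).2‖ ≤ K * ‖ph ζ t - ph ξ t‖ + η * M := by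
      have : (D' t).2 = xpart (B' t (ph ζ t - ph ξ t) + (B' t - B t) (ph ξ t)) := by
        rw [← e, xpart, ContinuousLinearMap.sub_comp]
        rfl
      rw [this]
      exact (norm_xpart_le _).trans ((norm_add_le _ _).trans
        (add_le_add ((B' t).le_of_opNorm_le (hb t ht).1 _) (hρ t ht)))
    have a3 := mul_le_mul_of_nonneg_left (hW t ht) (add_nonneg zero_le_one hK)
    have a4 := mul_nonneg hK (norm_nonneg (ph ζ t - ph ξ t))
    have a5 := mul_nonneg hη hM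
    have a6 := norm_nonneg (ph ζ t - ph ξ t)
    rw [Prod.norm_def]
    exact max_le (by linarith only [a1, a3, a4, a5]) (by linarith only [a2, a3, a6])
  intro t ht
  have key := norm_le_gronwallBound_of_norm_deriv_right_le (f := fun s => D (-s))
    (f' := fun s => (-1 : ℝ) • D' (-s)) (δ := η) (K := (1 + K) * c1)
    (ε := ((1 + K) * c2 + M) * η) (a := 0) (b := T)
    (fun s _ => ((hD (-s)).scomp s (hasDerivAt_neg s)).continuousAt.continuousWithinAt)
    (fun s _ => ((hD (-s)).scomp s (hasDerivAt_neg s)).hasDerivWithinAt)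
    (by rw [neg_zero]; exact max_le i1 i2)
    (fun s hs => by
      rw [norm_smul, norm_neg, norm_one, one_mul]
      exact hD' (-s) ⟨by linarith only [hs, hs.2], by linarith only [hs, hs.1]⟩)
    (-t) ⟨by linarith only [ht, ht.2], by linarith only [ht, ht.1]⟩
  have L0 : 0 < (1 + K) * c1 := by positivity
  rw [neg_neg, gronwallBound_of_K_ne_0 L0.ne', sub_zero] at key
  have a1 : Real.exp ((1 + K) * c1 * -t) ≤ Real.exp ((1 + K) * c1 * T) :=
    Real.exp_le_exp.2 (mul_le_mul_of_nonneg_left (by linarith only [ht, ht.1]) L0.le)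
  have a2 : 0 ≤ ((1 + K) * c2 + M) * η / ((1 + K) * c1) := by positivity
  have a3 := mul_le_mul_of_nonneg_left a1 hη
  have a4 := mul_le_mul_of_nonneg_left a1 a2
  have a5 : ‖D t‖ ≤
      (1 + ((1 + K) * c2 + M) / ((1 + K) * c1)) * Real.exp ((1 + K) * c1 * T) * η := by
    beta_reduce at key
    rw [mul_div_right_comm] at a2 a4 key
    linarith only [key, a2, a3, a4]
  have a6 := mul_le_mul_of_nonneg_left a5 p1.le
  linarith only [a6, hW, ht, hW t ht]

theorem TrCont_in {x z : ℝ → E} {t R δ : ℝ} (hR : ‖ph x t‖ + 1 ≤ R) (h : ‖ph z t - ph x t‖ ≤ δ)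
    (hδ : δ ≤ 1) : ‖ph z t‖ ≤ R := by
  have := norm_le_insert' (ph z t) (ph x t)
  linarith only [hR, h, hδ, this]

theorem TrCont_uc {V : Type} [NormedAddCommGroup V] {f : E × E → V} (hf : Continuous f) (R : ℝ)
    {ε : ℝ} (hε : 0 < ε) :
    ∃ δ > 0, ∀ a b : E × E, ‖a‖ ≤ R → ‖b‖ ≤ R → ‖a - b‖ ≤ δ → ‖f a - f b‖ ≤ ε := by
  obtain ⟨δ, hδ, hu⟩ := Metric.uniformContinuousOn_iff_le.1
    ((isCompact_closedBall (0 : E × E) R).uniformContinuousOn_of_continuous hf.continuousOn) _ hε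
  refine ⟨δ, hδ, fun a b ha hb h => ?_⟩
  rw [← dist_eq_norm] at h ⊢
  exact hu _ (mem_closedBall_zero_iff.2 ha) _ (mem_closedBall_zero_iff.2 hb) h

theorem TrCont_jac {F : E × E → ℝ} (hF : ContDiff ℝ 2 F) (hc : Cvx F) {x ξ : ℝ → E}
    (hξ : IsJacobi F x ξ) {T R : ℝ} (hR : ∀ t ∈ Icc (-T) 0, ‖ph x t‖ + 1 ≤ R) {ε : ℝ}
    (hε : 0 < ε) :
    ∃ δ : ℝ, 0 < δ ∧ ∀ h : E → ℝ, ContDiff ℝ 2 h → Small R δ h → ∀ z ζ : ℝ → E,
      (∀ t ∈ Icc (-T) 0, ‖ph z t - ph x t‖ ≤ δ) → IsJacobi (addPot F h) z ζ →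
      ‖ζ 0 - ξ 0‖ ≤ δ → ‖mom (addPot F h) z ζ 0 - mom F x ξ 0‖ ≤ δ →
      ∀ t ∈ Icc (-T) 0, ‖ph ζ t - ph ξ t‖ ≤ ε := by
  obtain ⟨μ, hμ, hlo⟩ := TrCont_lo hF hc R
  obtain ⟨K, hK, hbd⟩ := Ton_bd hF R R
  obtain ⟨M, hM⟩ := (isCompact_Icc (a := -T) (b := 0)).exists_bound_of_continuousOn
    (TrCont_ph hξ.1).continuousOn
  obtain ⟨C, hC, key⟩ := TrCont_gron T (add_nonneg hK zero_le_one) hμ (le_max_right M 0)
  have hη : 0 < ε / C := div_pos hε hC
  obtain ⟨δ, hδ, hu⟩ := TrCont_uc (V := E × E →L[ℝ] E × E →L[ℝ] ℝ) (continuous_D2 hF) R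
    (half_pos hη)
  refine ⟨min (min 1 δ) (ε / C / 2), lt_min (lt_min one_pos hδ) (half_pos hη),
    fun h hh hs z ζ hz hζ i1 i2 t ht => ?_⟩
  have m1 : min (min 1 δ) (ε / C / 2) ≤ 1 := (min_le_left _ _).trans (min_le_left _ _)
  have m2 : min (min 1 δ) (ε / C / 2) ≤ δ := (min_le_left _ _).trans (min_le_right _ _)
  have m3 : min (min 1 δ) (ε / C / 2) ≤ ε / C / 2 := min_le_right _ _
  generalize min (min 1 δ) (ε / C / 2) = d at *
  refine (key (fun s => D2 F (ph x s)) (fun s => D2 (addPot F h) (ph z s)) ξ ζ _ hη.le hξ.1 hζ.1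
    hξ.2 hζ.2 (fun s hs' => ?_) (by linarith only [hη, i1, m3]) (i2.trans (by linarith only [hη, m3])) t ht).trans_eq
    (mul_div_cancel₀ _ hC.ne')
  have a1 := TrCont_in (hR s hs') (hz s hs') m1
  have a2 : ‖ph x s‖ ≤ R := by linarith only [hR, hs', hR s hs']
  have a3 : ‖D2 (addPot F h) (ph z s) - D2 F (ph z s)‖ ≤ d :=
    (norm_D2_addPot_sub hF hh _).trans (hs _ ((norm_fst_le _).trans a1)).2.2
  have a4 : ‖D2 F (ph z s)‖ ≤ K :=
    (hbd _ _ ((norm_fst_le _).trans a1) ((norm_snd_le _).trans a1)).2.2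
  have a5 := hu _ _ a1 a2 ((hz s hs').trans m2)
  refine ⟨?_, fun w => ?_, ?_, (hM s hs').trans (le_max_left _ _)⟩
  · have := norm_le_insert' (D2 (addPot F h) (ph z s)) (D2 F (ph z s))
    linarith only [m1, a3, a4, this]
  · rw [Ton_vv hF hh]
    exact hlo _ w a1
  · have := norm_sub_le_norm_sub_add_norm_sub (D2 (addPot F h) (ph z s)) (D2 F (ph z s))
      (D2 F (ph x s))
    linarith only [m3, a3, a5, this]

theorem TrCont_R {x : ℝ → E} (hx : ContDiff ℝ 1 x) (T : ℝ) :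
    ∃ R, ∀ t ∈ Icc (-T) 0, ‖ph x t‖ + 1 ≤ R := by
  obtain ⟨M, hM⟩ := (isCompact_Icc (a := -T) (b := 0)).exists_bound_of_continuousOn
    (TrCont_ph hx).continuousOn
  exact ⟨M + 1, fun t ht => add_le_add_left (hM t ht) 1⟩

theorem jac_cont {F : E × E → ℝ} (hF : ContDiff ℝ 2 F) (hc : Cvx F) {x ξ : ℝ → E}
    (hx : ContDiff ℝ 1 x) (hξ : IsJacobi F x ξ) (T : ℝ) {ε : ℝ} (hε : 0 < ε) :
    ∃ δ R : ℝ, 0 < δ ∧ ∀ h : E → ℝ, ContDiff ℝ 2 h → Small R δ h → ∀ z ζ : ℝ → E,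
      (∀ t ∈ Icc (-T) 0, ‖ph z t - ph x t‖ ≤ δ) → IsJacobi (addPot F h) z ζ →
      ‖ζ 0 - ξ 0‖ ≤ δ → ‖mom (addPot F h) z ζ 0 - mom F x ξ 0‖ ≤ δ →
      ∀ t ∈ Icc (-T) 0, ‖ph ζ t - ph ξ t‖ ≤ ε := by
  obtain ⟨R, hR⟩ := TrCont_R hx T
  obtain ⟨δ, hδ, h⟩ := TrCont_jac hF hc hξ hR hε
  exact ⟨δ, R, hδ, h⟩

theorem TrCont_near {V : Type} [NormedAddCommGroup V] {f g : ℕ → V} {a : V} {d : ℕ → ℝ}
    (hd : Tendsto d atTop (𝓝 0)) (h : ∀ᶠ n in atTop, ‖f n - g n‖ ≤ d n)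
    (hg : Tendsto g atTop (𝓝 a)) : Tendsto f atTop (𝓝 a) := by
  simpa using (squeeze_zero_norm' h hd).add hg

theorem TrCont_unif {f : ℕ → ℝ → E × E} {g : ℝ → E × E} {I : Set ℝ} (hg : Continuous g)
    (h : ∀ ε > 0, ∀ᶠ n in atTop, ∀ t ∈ I, ‖f n t - g t‖ ≤ ε) {s : ℕ → ℝ} {a : ℝ}
    (hs : Tendsto s atTop (𝓝 a)) (hI : ∀ᶠ n in atTop, s n ∈ I) :
    Tendsto (fun n => f n (s n)) atTop (𝓝 (g a)) := by
  have h1 : Tendsto (fun n => f n (s n) - g (s n)) atTop (𝓝 0) :=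
    (Metric.nhds_basis_closedBall.tendsto_right_iff).2 fun ε hε => by
      filter_upwards [h ε hε, hI] with n h1 h2 using mem_closedBall_zero_iff.2 (h1 _ h2)
  simpa using h1.add ((hg.tendsto a).comp hs)

theorem TrCont_app {V W : Type} [NormedAddCommGroup V] [NormedSpace ℝ V] [NormedAddCommGroup W]
    [NormedSpace ℝ W] {A : ℕ → V →L[ℝ] W} {A0 : V →L[ℝ] W} {v : ℕ → V} {v0 : V}
    (hA : Tendsto A atTop (𝓝 A0)) (hv : Tendsto v atTop (𝓝 v0)) :
    Tendsto (fun n => A n (v n)) atTop (𝓝 (A0 v0)) :=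
  (isBoundedBilinearMap_apply.continuous.tendsto (A0, v0)).comp (hA.prodMk_nhds hv)

theorem TrCont_om {G : ℕ → E × E → ℝ} {F : E × E → ℝ} {z a b : ℕ → E × E} {z0 a0 b0 : E × E}
    (hB : Tendsto (fun n => D2 (G n) (z n)) atTop (𝓝 (D2 F z0))) (ha : Tendsto a atTop (𝓝 a0))
    (hb : Tendsto b atTop (𝓝 b0)) :
    Tendsto (fun n => Om (G n) (z n) (a n) (b n)) atTop (𝓝 (Om F z0 a0 b0)) :=
  (TrCont_app (TrCont_app hB hb) (tendsto_const_nhds.prodMk_nhds ha.fst_nhds)).sub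
    (TrCont_app (TrCont_app hB ha) (tendsto_const_nhds.prodMk_nhds hb.fst_nhds))

/-- Uniform convergence of Jacobi fields along a sequence of perturbations. -/
theorem TrCont_seq {F : E × E → ℝ} (hF : ContDiff ℝ 2 F) (hc : Cvx F) {x ξ : ℝ → E}
    (hξ : IsJacobi F x ξ) {T R : ℝ} (hR : ∀ t ∈ Icc (-T) 0, ‖ph x t‖ + 1 ≤ R) {d : ℕ → ℝ}
    (hd : Tendsto d atTop (𝓝 0)) {h : ℕ → E → ℝ} (hh : ∀ n, ContDiff ℝ 2 (h n))
    (hs : ∀ n, Small R (d n) (h n)) {z ζ : ℕ → ℝ → E}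
    (hz : ∀ n, ∀ t ∈ Icc (-T) 0, ‖ph (z n) t - ph x t‖ ≤ d n)
    (hζ : ∀ n, IsJacobi (addPot F (h n)) (z n) (ζ n)) (i1 : ∀ n, ζ n 0 = ξ 0)
    (i2 : Tendsto (fun n => mom (addPot F (h n)) (z n) (ζ n) 0) atTop (𝓝 (mom F x ξ 0))) :
    ∀ ε > 0, ∀ᶠ n in atTop, ∀ t ∈ Icc (-T) 0, ‖ph (ζ n) t - ph ξ t‖ ≤ ε := by
  intro ε hε
  obtain ⟨δ, hδ, key⟩ := TrCont_jac hF hc hξ hR hε
  filter_upwards [hd.eventually_le_const hδ, i2.eventually (Metric.closedBall_mem_nhds _ hδ)]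
    with n h1 h2
  exact key _ (hh n) ((hs n).mono le_rfl h1) _ _ (fun t ht => (hz n t ht).trans h1) (hζ n)
    (by rw [i1, sub_self, norm_zero]; exact hδ.le) (mem_closedBall_iff_norm.1 h2)

theorem tr_cont (hS : Surf Γ) {F : E × E → ℝ} (hF : Tonelli Γ F) {x : ℝ → E} {P : ℝ} {σ : Γ}
    (hx : IsOrbit F x) (hP : 0 < P) (hv : deriv x 0 ≠ 0) {τ : ℝ} (hτ : IsTr F x P σ τ) {ε : ℝ}
    (hε : 0 < ε) : ∃ δ R : ℝ, 0 < δ ∧ ∀ h : E → ℝ, ContDiff ℝ 2 h → Small R δ h →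
      ∀ (z : ℝ → E) (T : ℝ), ContDiff ℝ 1 z → |T - P| ≤ δ →
        (∀ t ∈ Icc (-(P + 1)) 0, ‖ph z t - ph x t‖ ≤ δ) →
        deriv z 0 ≠ 0 ∧ ∃ τ', IsTr (addPot F h) z T σ τ' ∧ |τ' - τ| ≤ ε := by
  obtain ⟨e, φ, he, hφ, φ0, de, dφ, oeφ, rfl⟩ := hτ
  obtain ⟨R, hR⟩ := TrCont_R hx.1 (P + 1)
  have hc : Cvx F := hF.conv
  by_contra hcon
  have hcon' := fun n : ℕ => not_and.1 (not_exists.1 (not_exists.1 hcon (1 / ((n : ℝ) + 1))) R)
    Nat.one_div_pos_of_nat
  simp only [not_forall] at hcon'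
  choose h hh hs z T hz hT hn hQ using hcon'
  have hd : Tendsto (fun n : ℕ => 1 / ((n : ℝ) + 1)) atTop (𝓝 0) :=
    tendsto_one_div_add_atTop_nhds_zero_nat
  have hd1 : ∀ n : ℕ, 1 / ((n : ℝ) + 1) ≤ 1 := fun n =>
    (div_le_one (Nat.cast_add_one_pos n)).2 (le_add_of_nonneg_left n.cast_nonneg)
  have I0 : (0 : ℝ) ∈ Icc (-(P + 1)) 0 := ⟨by linarith only [hP], le_rfl⟩
  have hsm := fun n => hs n _ ((norm_fst_le _).trans (TrCont_in (hR 0 I0) (hn n 0 I0) (hd1 n)))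
  have t1 : Tendsto (fun n => ph (z n) 0) atTop (𝓝 (ph x 0)) :=
    TrCont_near hd (.of_forall fun n => hn n 0 I0) tendsto_const_nhds
  have tv : Tendsto (fun n => deriv (z n) 0) atTop (𝓝 (deriv x 0)) := t1.snd_nhds
  have tT : Tendsto T atTop (𝓝 P) := TrCont_near hd (.of_forall hT) tendsto_const_nhds
  have tS : Tendsto (fun n => 0 - T n) atTop (𝓝 (0 - P)) := tT.const_sub 0
  have hI : ∀ᶠ n in atTop, 0 - T n ∈ Icc (-(P + 1)) 0 :=
    tS.eventually (Icc_mem_nhds (by linarith only []) (by linarith only [hP]))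
  have t2 : Tendsto (fun n => ph (z n) (0 - T n)) atTop (𝓝 (ph x (0 - P))) :=
    TrCont_near hd (hI.mono fun n hi => hn n _ hi) (((TrCont_ph hx.1).tendsto _).comp tS)
  have tB : Tendsto (fun n => D2 (addPot F (h n)) (ph (z n) 0)) atTop (𝓝 (D2 F (ph x 0))) :=
    TrCont_near (V := E × E →L[ℝ] E × E →L[ℝ] ℝ) hd
      (.of_forall fun n => (norm_D2_addPot_sub hF.c2 (hh n) _).trans (hsm n).2.2)
      (((continuous_D2 hF.c2).tendsto _).comp t1)
  have tX : Tendsto (fun n => fderiv ℝ (addPot F (h n)) (ph (z n) 0) (e 0, 0)) atTop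
      (𝓝 (fderiv ℝ F (ph x 0) (e 0, 0))) := by
    refine TrCont_app (TrCont_near hd (.of_forall fun n => ?_)
      (((hF.c2.continuous_fderiv two_ne_zero).tendsto _).comp t1)) tendsto_const_nhds
    rw [fderiv_addPot hF.c2 (hh n), Function.comp_apply, add_sub_cancel_left]
    refine (ContinuousLinearMap.opNorm_comp_le _ _).trans ?_
    exact (mul_le_of_le_one_right (norm_nonneg _) (ContinuousLinearMap.norm_fst_le ..)).trans
      (hsm n).2.1
  have tL : Tendsto (fun n => fderiv ℝ (tl σ) (ph (z n) (0 - T n))) atTop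
      (𝓝 (fderiv ℝ (tl σ) (ph x (0 - P)))) :=
    (((contDiff_tl hS σ).continuous_fderiv (by simp)).tendsto _).comp t2
  obtain ⟨l, hl⟩ := SeparatingDual.exists_ne_zero (R := ℝ) hv
  have tl0 : Tendsto (fun n => l (deriv (z n) 0)) atTop (𝓝 (l (deriv x 0))) :=
    (l.continuous.tendsto _).comp tv
  rw [den, xpart_apply] at de
  rw [den, φ0, map_zero, sub_zero] at dφ
  rw [om_eq, φ0, map_zero, sub_zero] at oeφ
  obtain ⟨s, hsd⟩ : ∃ s : ℕ → ℝ, ∀ n, s n = mom F x φ 0 (deriv (z n) 0) / l (deriv (z n) 0) :=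
    ⟨_, fun _ => rfl⟩
  obtain ⟨b, hbd⟩ : ∃ b : ℕ → ℝ, ∀ n, b n = -(mom F x e 0 (deriv (z n) 0) -
      fderiv ℝ (addPot F (h n)) (ph (z n) 0) (e 0, 0)) / l (deriv (z n) 0) := ⟨_, fun _ => rfl⟩
  have ts : Tendsto s atTop (𝓝 0) := by
    have := ((((mom F x φ 0).continuous.tendsto _).comp tv).div tl0 hl).congr
      fun n => (hsd n).symm
    rwa [dφ, zero_div] at this
  have tb : Tendsto b atTop (𝓝 0) := by
    have := (((((mom F x e 0).continuous.tendsto _).comp tv).sub tX).neg.div tl0 hl).congr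
      fun n => (hbd n).symm
    rwa [de, neg_zero, zero_div] at this
  have tc : Tendsto (fun n => 1 - s n * l (e 0)) atTop (𝓝 1) := by
    simpa using (ts.mul_const (l (e 0))).const_sub 1
  choose e' he' e0 me using fun n => exists_jacobi (hc.addPot hF.c2 (hh n)).1
    (hc.addPot hF.c2 (hh n)).2 (hz n) (e 0) (mom F x e 0 + b n • l)
  choose φ' hφ' f0 mf using fun n => exists_jacobi (hc.addPot hF.c2 (hh n)).1
    (hc.addPot hF.c2 (hh n)).2 (hz n) 0 ((1 - s n * l (e 0))⁻¹ • (mom F x φ 0 - s n • l))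
  have ue := TrCont_seq hF.c2 hc he hR hd hh hs hn he' e0 (by
    simpa only [me, zero_smul, add_zero] using (tb.smul_const l).const_add (mom F x e 0))
  have uφ := TrCont_seq hF.c2 hc hφ hR hd hh hs hn hφ' (fun n => (f0 n).trans φ0.symm) (by
    simpa only [mf, zero_smul, sub_zero, inv_one, one_smul] using
      (tc.inv₀ one_ne_zero).smul ((ts.smul_const l).const_sub (mom F x φ 0)))
  have e1 := TrCont_unif (TrCont_ph he.1) ue tendsto_const_nhds (.of_forall fun _ => I0)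
  have e2 := TrCont_app tL (TrCont_unif (TrCont_ph he.1) ue tS hI)
  have f1 := TrCont_unif (TrCont_ph hφ.1) uφ tendsto_const_nhds (.of_forall fun _ => I0)
  have f2 := TrCont_app tL (TrCont_unif (TrCont_ph hφ.1) uφ tS hI)
  have tτ := (TrCont_om tB e2 f1).add (TrCont_om tB e1 f2)
  obtain ⟨n, h1, h2, h3⟩ := ((tl0.eventually_ne hl).and ((tc.eventually_ne one_ne_zero).and
    (tτ.eventually (Metric.closedBall_mem_nhds _ hε)))).exists
  refine hQ n ⟨fun h0 => h1 (by rw [h0, map_zero]), _,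
    ⟨e' n, φ' n, he' n, hφ' n, f0 n, ?_, ?_, ?_, rfl⟩, ?_⟩
  · rw [den, xpart_apply, me, e0, add_apply, _root_.smul_apply, smul_eq_mul, hbd,
      div_mul_cancel₀ _ h1]
    ring
  · rw [den, f0, map_zero, sub_zero, mf, _root_.smul_apply, sub_apply, _root_.smul_apply,
      smul_eq_mul (s n), hsd n, div_mul_cancel₀ _ h1, sub_self, smul_zero]
  · rw [om_eq, f0, map_zero, sub_zero, mf, e0, _root_.smul_apply, sub_apply, _root_.smul_apply,
      oeφ, smul_eq_mul, smul_eq_mul, inv_mul_cancel₀ h2]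
  · simp only [om, pr_eq_Om]
    rw [ph_Tp hS σ _ (hz n) (he' n).1, ph_Tp hS σ _ (hz n) (hφ' n).1, ph_Tp hS σ _ hx.1 he.1,
      ph_Tp hS σ _ hx.1 hφ.1]
    exact h3

end Pool.Agent.Work.MP_1ce82a_an
end

-- merged part: Pool.Agent.Work.MP_1ce82a_an.Q.Cmp
section
/-! The smooth topology and series of smooth functions.
PLAN. The topology is induced by jets into a product of spaces of continuous maps with the compact open topology: nhds_induced, nhds_pi, and ContinuousMap.tendsto_iff_tendstoLocallyUniformly or hasBasis of compact convergence (ContinuousMap.hasBasis_compactConvergenceUniformity); every compact set lies in a ball.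
Small: norm_iteratedFDeriv_zero, norm_iteratedFDeriv_one, and norm_iteratedFDeriv_fderiv for order two. series: choose a i > 0 with a i times the bound of all derivatives of order <= max i n of g i on the ball of radius max i n + 1, and a i M i, below eps/2^(i+1) and 1/2^i.
Smoothness is local: multiply by a smooth cut off equal to 1 on a ball (norm_iteratedFDeriv_mul_le) and use contDiff_tsum_of_eventually and iteratedFDeriv_tsum, or argue by induction with hasFDerivAt_tsum_of_isPreconnected on balls applied to the maps iteratedFDeriv k (g i); any route is fine. -/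

open Set Filter Topology MeasureTheory
open scoped ContDiff

namespace Pool.Agent.Work.MP_1ce82a_an

variable {Γ : Grp}

theorem Cmp_le (k : ℕ) : (k : WithTop ℕ∞) ≤ ∞ := by exact_mod_cast le_top

theorem Cmp_tendsto {ι : Type} {l : Filter ι} {F : ι → Cinf Γ} {f0 : Cinf Γ} :
    Tendsto F l (𝓝 f0) ↔ ∀ (k : ℕ) (K : Set E), IsCompact K → ∀ ε > 0, ∀ᶠ i in l, ∀ x ∈ K,
      ‖iteratedFDeriv ℝ k (fun y => (F i).1 y - f0.1 y) x‖ < ε := by
  rw [nhds_induced, tendsto_comap_iff, tendsto_pi_nhds]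
  refine forall_congr' fun k => ?_
  rw [ContinuousMap.tendsto_iff_forall_isCompact_tendstoUniformlyOn]
  refine forall_congr' fun K => forall_congr' fun _ => ?_
  rw [Metric.tendstoUniformlyOn_iff]
  refine forall_congr' fun ε => forall_congr' fun _ => eventually_congr
    (Eventually.of_forall fun i => forall_congr' fun x => forall_congr' fun _ => ?_)
  rw [fun_iteratedFDeriv_sub_apply ((F i).2.1.of_le (Cmp_le k)).contDiffAt
    (f0.2.1.of_le (Cmp_le k)).contDiffAt, dist_comm, dist_eq_norm]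
  rfl

theorem Cmp_smul {q : E → ℝ} (hq : ContDiff ℝ ∞ q) (c : ℝ) (k : ℕ) (x : E) :
    ‖iteratedFDeriv ℝ k (fun y => c * q y) x‖ = |c| * ‖iteratedFDeriv ℝ k q x‖ := by
  have := iteratedFDeriv_const_smul_apply' (a := c) (hq.of_le (Cmp_le k)).contDiffAt (x := x)
  rw [show iteratedFDeriv ℝ k (fun y => c * q y) x = _ from this, norm_smul, Real.norm_eq_abs]

theorem cinf_basis (f0 : Cinf Γ) {N : Set (Cinf Γ)} (hN : N ∈ 𝓝 f0) : ∃ (n : ℕ) (ε : ℝ), 0 < ε ∧
    ∀ f : Cinf Γ, (∀ k ≤ n, ∀ x : E, ‖x‖ ≤ n →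
      ‖iteratedFDeriv ℝ k (fun y => f.1 y - f0.1 y) x‖ ≤ ε) → f ∈ N := by
  by_contra h
  push Not at h
  choose F h1 h2 using fun n : ℕ => h n (1 / ((n : ℝ) + 1)) Nat.one_div_pos_of_nat
  have h3 : Tendsto F atTop (𝓝 f0) := Cmp_tendsto.2 fun k K hK ε hε => by
    obtain ⟨R, hR⟩ := hK.isBounded.exists_norm_le
    filter_upwards [eventually_ge_atTop k, tendsto_natCast_atTop_atTop.eventually_ge_atTop R,
      (tendsto_one_div_add_atTop_nhds_zero_nat (𝕜 := ℝ)).eventually (gt_mem_nhds hε)]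
      with i a b c x hx
    exact (h1 i k a x ((hR x hx).trans b)).trans_lt c
  obtain ⟨i, hi⟩ := (h3.eventually hN).exists
  exact h2 i hi

theorem cinf_small (f0 : Cinf Γ) (R : ℝ) {ε : ℝ} (hε : 0 < ε) :
    ∀ᶠ f in 𝓝 f0, Small R ε (fun y => f.1 y - f0.1 y) := by
  have h := fun k => (Cmp_tendsto (F := id) (f0 := f0)).1 tendsto_id k _
    (isCompact_closedBall 0 R) ε hε
  filter_upwards [h 0, h 1, h 2] with f h0 h1 h2 x hx
  have hx' := mem_closedBall_zero_iff.2 hx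
  refine ⟨?_, ?_, ?_⟩
  · have := (h0 x hx').le
    rwa [norm_iteratedFDeriv_zero] at this
  · have := (h1 x hx').le
    rwa [← norm_iteratedFDeriv_fderiv (n := 0), norm_iteratedFDeriv_zero] at this
  · have := (h2 x hx').le
    rwa [← norm_iteratedFDeriv_fderiv (n := 1), ← norm_iteratedFDeriv_fderiv (n := 0),
      norm_iteratedFDeriv_zero] at this

theorem Cinf.c2 (f : Cinf Γ) : ContDiff ℝ 2 f.1 := f.2.1.of_le (Cmp_le 2)

theorem Cinf.inv (f : Cinf Γ) : Inv Γ f.1 := f.2.2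

theorem Cmp_cut (R : ℕ) : ∃ χ : E → ℝ, ContDiff ℝ ∞ χ ∧ HasCompactSupport χ ∧
    ∀ x : E, ‖x‖ < R + 1 → χ x = 1 := by
  let b : ContDiffBump (0 : E) := ⟨R + 1, R + 2, by positivity, by linarith only []⟩
  exact ⟨b, b.contDiff, b.hasCompactSupport,
    fun x hx => b.one_of_mem_closedBall (mem_closedBall_zero_iff.2 hx.le)⟩

theorem series {g : ℕ → E → ℝ} (hg : ∀ i, ContDiff ℝ ∞ (g i)) (hb : ∀ i, ∃ M, ∀ x, |g i x| ≤ M)
    (n : ℕ) {ε : ℝ} (hε : 0 < ε) : ∃ a : ℕ → ℝ, (∀ i, 0 < a i) ∧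
      (∀ i x, |a i * g i x| ≤ (1 / 2) ^ i) ∧ ∀ t : ℕ → ℝ, (∀ i, |t i| ≤ 1) →
        ContDiff ℝ ∞ (fun x => ∑' i, t i * (a i * g i x)) ∧ ∀ k ≤ n, ∀ x : E, ‖x‖ ≤ n →
          ‖iteratedFDeriv ℝ k (fun x => ∑' i, t i * (a i * g i x)) x‖ ≤ ε := by
  choose χ c1 c2 c3 using Cmp_cut
  choose M hM using hb
  have c4 : ∀ R i, ContDiff ℝ ∞ fun x => χ R x * g i x := fun R i => (c1 R).mul (hg i)
  choose B hB using fun R k i =>
    ((c4 R i).continuous_iteratedFDeriv (Cmp_le k)).bounded_above_of_compact_support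
      (HasCompactSupport.iteratedFDeriv (c2 R).mul_right k)
  have B0 : ∀ R k i, 0 ≤ B R k i := fun R k i => (norm_nonneg _).trans (hB R k i 0)
  have M0 : ∀ i, 0 ≤ M i := fun i => (abs_nonneg _).trans (hM i 0)
  have h1 : ∀ i, ∃ a : ℝ, 0 < a ∧ a * M i ≤ min ε 1 / 2 / 2 ^ i ∧
      ∀ R ≤ max i n, ∀ k ≤ max i n, a * B R k i ≤ min ε 1 / 2 / 2 ^ i := fun i => by
    set S := ∑ R ∈ Finset.range (max i n + 1), ∑ k ∈ Finset.range (max i n + 1), B R k i with hS
    have S0 : 0 ≤ S := Finset.sum_nonneg fun R _ => Finset.sum_nonneg fun k _ => B0 R k i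
    have := M0 i
    have d0 : 0 < min ε 1 / 2 / 2 ^ i := by positivity
    have key : ∀ y, y ≤ S + M i + 1 →
        min ε 1 / 2 / 2 ^ i / (S + M i + 1) * y ≤ min ε 1 / 2 / 2 ^ i := fun y hy => by
      rw [div_mul_eq_mul_div, div_le_iff₀ (by positivity)]
      exact mul_le_mul_of_nonneg_left hy d0.le
    refine ⟨min ε 1 / 2 / 2 ^ i / (S + M i + 1), by positivity, key _ (by linarith only [S0]),
      fun R hR k hk => key _ ?_⟩
    have : B R k i ≤ S :=
      (Finset.single_le_sum (f := fun k => B R k i) (fun k _ => B0 R k i)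
        (Finset.mem_range.2 (Nat.lt_succ_of_le hk))).trans
      (Finset.single_le_sum (f := fun R => ∑ k ∈ Finset.range (max i n + 1), B R k i)
        (fun R _ => Finset.sum_nonneg fun k _ => B0 R k i)
        (Finset.mem_range.2 (Nat.lt_succ_of_le hR)))
    linarith
  choose a a0 a1 a2 using h1
  refine ⟨a, a0, fun i x => ?_, fun t ht => ?_⟩
  · rw [abs_mul, abs_of_pos (a0 i), one_div, inv_pow, ← one_div]
    refine (mul_le_mul_of_nonneg_left (hM i x) (a0 i).le).trans ((a1 i).trans ?_)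
    have := min_le_right ε 1
    gcongr
    linarith only [this]
  have s1 : ∀ R i, ContDiff ℝ ∞ fun x => t i * a i * (χ R x * g i x) :=
    fun R i => contDiff_const.mul (c4 R i)
  have s2 : ∀ R k i x, ‖iteratedFDeriv ℝ k (fun x => t i * a i * (χ R x * g i x)) x‖ ≤
      a i * B R k i := fun R k i x => by
    rw [Cmp_smul (c4 R i), abs_mul, abs_of_pos (a0 i)]
    exact mul_le_mul (mul_le_of_le_one_left (a0 i).le (ht i)) (hB R k i x) (norm_nonneg _)
      (a0 i).le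
  have s3 : ∀ R k, Summable fun i => a i * B R k i := fun R k => by
    refine Summable.of_norm_bounded_eventually_nat (hasSum_geometric_two' (min ε 1)).summable ?_
    filter_upwards [eventually_ge_atTop R, eventually_ge_atTop k] with i b1 b2
    rw [Real.norm_of_nonneg (mul_nonneg (a0 i).le (B0 R k i))]
    exact a2 i R (le_max_of_le_left b1) k (le_max_of_le_left b2)
  have s4 : ∀ (R : ℕ) (x : E), ‖x‖ ≤ R → (fun x => ∑' i, t i * (a i * g i x)) =ᶠ[𝓝 x]
      fun x => ∑' i, t i * a i * (χ R x * g i x) := fun R x hx => by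
    filter_upwards [continuous_norm.continuousAt.eventually
      (gt_mem_nhds (show ‖x‖ < R + 1 by linarith only [hx]))] with y hy
    simp only [c3 R y hy, one_mul, mul_assoc]
  refine ⟨contDiff_iff_contDiffAt.2 fun x => ?_, fun k hk x hx => ?_⟩
  · obtain ⟨R, hR⟩ := exists_nat_ge ‖x‖
    exact (contDiff_tsum (N := ⊤) (s1 R) (fun k _ => s3 R k)
      fun k i x _ => s2 R k i x).contDiffAt.congr_of_eventuallyEq (s4 R x hR)
  · rw [((s4 n x hx).iteratedFDeriv ℝ k).self_of_nhds, iteratedFDeriv_tsum_apply (N := ⊤) (s1 n)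
      (fun k _ => s3 n k) (fun k i x _ => s2 n k i x) le_top]
    exact (tsum_of_norm_bounded (hasSum_geometric_two' (min ε 1)) fun i => (s2 n k i x).trans
      (a2 i n (le_max_right _ _) k (le_max_of_le_right hk))).trans (min_le_left _ _)

/-- A small multiple of a smooth invariant function. -/
theorem cinf_add_smul (f0 : Cinf Γ) {N : Set (Cinf Γ)} (hN : N ∈ 𝓝 f0) {q : E → ℝ}
    (hq : ContDiff ℝ ∞ q) (hi : Inv Γ q) : ∃ ε0 : ℝ, 0 < ε0 ∧ ∀ ε : ℝ, |ε| ≤ ε0 →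
      ∃ f : Cinf Γ, f ∈ N ∧ ∀ y, f.1 y = f0.1 y + ε * q y := by
  obtain ⟨n, δ, hδ, h⟩ := cinf_basis f0 hN
  choose C hC using fun k : ℕ => (isCompact_closedBall (0 : E) n).exists_bound_of_continuousOn
    (hq.continuous_iteratedFDeriv (Cmp_le k)).continuousOn
  have C0 : ∀ k, 0 ≤ C k := fun k =>
    (norm_nonneg _).trans (hC k 0 (Metric.mem_closedBall_self n.cast_nonneg))
  have S0 : 0 ≤ ∑ k ∈ Finset.range (n + 1), C k := Finset.sum_nonneg fun k _ => C0 k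
  refine ⟨δ / (∑ k ∈ Finset.range (n + 1), C k + 1), by positivity, fun ε hε => ?_⟩
  refine ⟨⟨fun y => f0.1 y + ε * q y, f0.2.1.add (contDiff_const.mul hq), fun γ x => ?_⟩,
    h _ fun k hk x hx => ?_, fun _ => rfl⟩
  · exact congrArg₂ (fun a b => a + ε * b) (f0.2.2 γ x) (hi γ x)
  · simp only [add_sub_cancel_left]
    rw [Cmp_smul hq]
    have h1 := (hC k x (mem_closedBall_zero_iff.2 hx)).trans
      (Finset.single_le_sum (f := C) (fun k _ => C0 k) (Finset.mem_range.2 (Nat.lt_succ_of_le hk)))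
    rw [le_div_iff₀ (by positivity)] at hε
    exact (mul_le_mul_of_nonneg_left (by linarith only [h1]) (abs_nonneg ε)).trans hε

end Pool.Agent.Work.MP_1ce82a_an
end

-- merged part: Pool.Agent.Work.MP_1ce82a_an.Q.AE
section
/-! Almost everywhere quadratic second differences in countably many coordinates.
PLAN. sd_ae: the right derivative (or any monotone selection g of subgradients, for instance s -> sSup of left slopes, or derivWithin on Ioi) of a convex function is monotone on the open interval, so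
differentiable almost everywhere (MonotoneOn.ae_differentiableWithinAt or Monotone.ae_differentiableAt after extension); at such a point a(s0+s)+a(s0-s)-2a(s0) <= s (g(s0+s)-g(s0-s)) <= C s^2.
Measurability: for jointly continuous A the condition SD is equivalent to the existence of a natural N such that the inequality with C = N holds for all rational s with |s| <= 1/(N+1), a countable union of closed sets.
Let mu be Measure.infinitePi of the uniform measure on [0,1]. The map (t,s) -> update t i s sends mu x uniform to mu (Measure.eq_infinitePi on boxes), so a measurable set all of whose i-sections have full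
measure has full measure; the same for Lebesgue measure on Fin b -> R in the coordinate j (translation: use measurePreserving of (c,s) -> c + s e_j fibrewise, i.e. for every s the set S - s e_j has the measure of S,
then Fubini over s in [0,1]; or volume_preserving_piFinSuccAbove). Intersect countably many full sets in the product, swap the order (Measure.ae_ae_of_ae_prod, prod_swap) and pick t. -/

open Set Filter Topology MeasureTheory
open scoped ContDiff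

namespace Pool.Agent.Work.MP_1ce82a_an

variable {Γ : Grp}

theorem AE_sd {a : ℝ → ℝ} {S : Set ℝ} (hc : ConvexOn ℝ S a) :
    ∀ᵐ s0 : ℝ, s0 ∈ interior S → SD (fun s => a (s0 + s)) := by
  refine hc.monotoneOn_rightDeriv.ae_differentiableWithinAt_of_mem.mono fun x hx hS => ?_
  have hn : interior S ∈ 𝓝 x := isOpen_interior.mem_nhds hS
  obtain ⟨C, hC⟩ := ((hx hS).differentiableAt hn).isBigO_sub.bound
  obtain ⟨ε, hε, h⟩ := Metric.eventually_nhds_iff.1 (hC.and hn)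
  have key : ∀ s : ℝ, 0 < s → s < ε → a (x + s) + a (x + -s) - 2 * a x ≤ 2 * C * s ^ 2 := by
    intro s hs hsε
    obtain ⟨p1, p2⟩ := h (y := x + s) (by simpa [Real.dist_eq, abs_of_pos hs] using hsε)
    obtain ⟨q1, q2⟩ := h (y := x + -s) (by simpa [Real.dist_eq, abs_of_pos hs] using hsε)
    have r1 := (hc.slope_le_leftDeriv_of_mem_interior (interior_subset hS) p2 (by linarith only [hs])).trans
      (hc.leftDeriv_le_rightDeriv_of_mem_interior p2)
    have r2 := hc.rightDeriv_le_slope_of_mem_interior q2 (interior_subset hS) (by linarith only [hs])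
    rw [slope_def_field, add_sub_cancel_left, div_le_iff₀ hs] at r1
    rw [slope_def_field, show x - (x + -s) = s by ring, le_div_iff₀ hs] at r2
    rw [add_sub_cancel_left, Real.norm_eq_abs, Real.norm_eq_abs] at p1 q1
    rw [abs_neg] at q1
    rw [abs_of_pos hs] at p1 q1
    have u1 := mul_le_mul_of_nonneg_right (abs_le.1 p1).2 hs.le
    have u2 := mul_le_mul_of_nonneg_right (abs_le.1 q1).1 hs.le
    linarith only [r1, r2, u1, u2]
  refine ⟨2 * C, ε / 2, half_pos hε, fun s hs => ?_⟩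
  have hs' := abs_le.1 hs
  simp only [add_zero]
  rcases lt_trichotomy s 0 with h0 | rfl | h0
  · have := key (-s) (by linarith only [h0]) (by linarith only [hs', h0])
    rw [neg_neg, neg_sq] at this
    linarith only [this]
  · simp [two_mul]
  · exact key s h0 (by linarith only [hs', h0])

theorem sd_ae {a : ℝ → ℝ} {l r : ℝ} (hc : ConvexOn ℝ (Ioo l r) a) :
    ∀ᵐ s0 : ℝ, s0 ∈ Ioo l r → SD (fun s => a (s0 + s)) := by
  have h := AE_sd hc
  rwa [interior_Ioo] at h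

theorem sd_ae_univ {a : ℝ → ℝ} (hc : ConvexOn ℝ univ a) :
    ∀ᵐ s0 : ℝ, SD (fun s => a (s0 + s)) := by
  have h := AE_sd hc
  rw [interior_univ] at h
  exact h.mono fun s hs => hs (mem_univ s)

theorem sd_measurable {X : Type} [TopologicalSpace X] [MeasurableSpace X] [OpensMeasurableSpace X]
    {A : X → ℝ → ℝ} (hA : Continuous (fun q : X × ℝ => A q.1 q.2)) :
    MeasurableSet {x | SD (A x)} := by
  have hc : ∀ s : ℝ, Continuous fun x => A x s := fun s =>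
    hA.comp (continuous_id.prodMk continuous_const)
  have e : {x | SD (A x)} = ⋃ N : ℕ, ⋂ s : ℝ, ⋂ _ : |s| ≤ 1 / ((N : ℝ) + 1),
      {x | A x s + A x (-s) - 2 * A x 0 ≤ N * s ^ 2} := by
    ext x
    simp only [mem_ofPred_eq, mem_iUnion, mem_iInter]
    constructor
    · rintro ⟨C, δ, hδ, h⟩
      obtain ⟨N, hN⟩ := exists_nat_ge (max C (1 / δ))
      refine ⟨N, fun s hs => (h s (hs.trans ?_)).trans
        (mul_le_mul_of_nonneg_right ((le_max_left _ _).trans hN) (sq_nonneg s))⟩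
      rw [one_div_le (by positivity) hδ]
      linarith only [hN, le_max_right C (1 / δ)]
    · rintro ⟨N, h⟩
      exact ⟨N, _, by positivity, h⟩
  rw [e]
  refine MeasurableSet.iUnion fun N => IsClosed.measurableSet ?_
  refine isClosed_iInter fun s => isClosed_iInter fun _ => isClosed_le ?_ continuous_const
  exact ((hc s).add (hc (-s))).sub (continuous_const.mul (hc 0))

theorem AE_upd (ν : Measure ℝ) [IsProbabilityMeasure ν] (i : ℕ) :
    ((Measure.infinitePi fun _ : ℕ => ν).prod ν).map (fun p => Function.update p.1 i p.2) =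
      Measure.infinitePi fun _ : ℕ => ν := by
  refine Measure.eq_infinitePi _ fun s t ht => ?_
  rw [Measure.map_apply measurable_update' (MeasurableSet.pi s.countable_toSet fun j _ => ht j)]
  by_cases hi : i ∈ s
  · have e : (fun p : (ℕ → ℝ) × ℝ => Function.update p.1 i p.2) ⁻¹' Set.pi s t =
        Set.pi (s.erase i) t ×ˢ t i := by
      ext p
      simp only [mem_preimage, Set.mem_pi, Finset.mem_coe, mem_prod, Finset.mem_erase]
      refine ⟨fun h => ⟨fun j hj => ?_, ?_⟩, fun h j hj => ?_⟩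
      · simpa [hj.1] using h j hj.2
      · simpa using h i hi
      · by_cases e : j = i
        · subst e
          simpa using h.2
        · simpa [e] using h.1 j ⟨e, hj⟩
    rw [e, Measure.prod_prod, Measure.infinitePi_pi _ fun j _ => ht j, Finset.prod_erase_mul _ _ hi]
  · have e : (fun p : (ℕ → ℝ) × ℝ => Function.update p.1 i p.2) ⁻¹' Set.pi s t =
        Set.pi s t ×ˢ univ := by
      ext p
      simp only [mem_preimage, Set.mem_pi, Finset.mem_coe, mem_prod, mem_univ, and_true]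
      refine forall₂_congr fun j hj => ?_
      rw [Function.update_of_ne (ne_of_mem_of_not_mem hj hi)]
    rw [e, Measure.prod_prod, Measure.infinitePi_pi _ fun j _ => ht j, measure_univ, mul_one]

theorem AE_sec (ν : Measure ℝ) [IsProbabilityMeasure ν] (i : ℕ) {P : (ℕ → ℝ) → Prop}
    (hP : MeasurableSet {t | P t}) (h : ∀ t, ∀ᵐ s ∂ν, P (Function.update t i s)) :
    ∀ᵐ t ∂(Measure.infinitePi fun _ : ℕ => ν), P t := by
  rw [← AE_upd ν i, ae_map_iff measurable_update'.aemeasurable hP]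
  exact (Measure.ae_prod_iff_ae_ae (measurable_update' hP)).2 (.of_forall h)

theorem AE_dir {b : ℕ} (v : Fin b → ℝ) {P : (Fin b → ℝ) → Prop} (hP : MeasurableSet {c | P c})
    (h : ∀ c, ∀ᵐ s : ℝ, P (c + s • v)) : ∀ᵐ c : Fin b → ℝ, P c := by
  have hm : Measurable fun q : (Fin b → ℝ) × ℝ => q.1 + q.2 • v := by fun_prop
  obtain ⟨s, hs⟩ := ((Measure.ae_ae_comm (μ := volume) (ν := volume)
    (p := fun (c : Fin b → ℝ) (s : ℝ) => P (c + s • v)) (hm hP)).1 (.of_forall h)).exists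
  have := (measurePreserving_add_right volume (-(s • v))).quasiMeasurePreserving.ae hs
  simpa using this

theorem ae_sd {b : ℕ} {A : (Fin b → ℝ) → (ℕ → ℝ) → ℝ}
    (hA : Continuous (fun q : (Fin b → ℝ) × (ℕ → ℝ) => A q.1 q.2))
    (h1 : ∀ c t i, ConvexOn ℝ (Ioo 0 1) (fun s : ℝ => A c (Function.update t i s)))
    (h2 : ∀ c t j, ConvexOn ℝ univ (fun s : ℝ => A (c + s • Pi.single j 1) t)) :
    ∃ t : ℕ → ℝ, (∀ i, t i ∈ Ioo (0 : ℝ) 1) ∧ ∀ᵐ c : Fin b → ℝ,
      (∀ i, SD (fun s => A c (Function.update t i (t i + s)))) ∧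
        ∀ j, SD (fun s => A (c + s • Pi.single j 1) t) := by
  let ν : Measure ℝ := volume.restrict (Ioo 0 1)
  have : IsProbabilityMeasure ν := ⟨by simp [ν]⟩
  let μ : Measure (ℕ → ℝ) := Measure.infinitePi fun _ => ν
  have m1 : ∀ i, MeasurableSet {q : (Fin b → ℝ) × (ℕ → ℝ) |
      SD (fun s => A q.1 (Function.update q.2 i (q.2 i + s)))} := fun i =>
    sd_measurable (A := fun (q : (Fin b → ℝ) × (ℕ → ℝ)) s => A q.1 (Function.update q.2 i (q.2 i + s)))
      (hA.comp (continuous_fst.fst.prodMk (continuous_fst.snd.update i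
        (((continuous_apply i).comp continuous_fst.snd).add continuous_snd))))
  have m2 : ∀ j t, MeasurableSet {c : Fin b → ℝ | SD (fun s => A (c + s • Pi.single j 1) t)} :=
    fun j t => sd_measurable (A := fun (c : Fin b → ℝ) s => A (c + s • Pi.single j 1) t)
      (hA.comp ((continuous_fst.add (continuous_snd.smul continuous_const)).prodMk continuous_const))
  have a0 : ∀ᵐ t ∂μ, ∀ i, t i ∈ Ioo (0 : ℝ) 1 := ae_all_iff.2 fun i =>
    (measurePreserving_eval_infinitePi (fun _ : ℕ => ν) i).quasiMeasurePreserving.ae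
      (ae_restrict_mem measurableSet_Ioo)
  have a1 : ∀ᵐ t ∂μ, ∀ i, ∀ᵐ c : Fin b → ℝ, SD (fun s => A c (Function.update t i (t i + s))) :=
    ae_all_iff.2 fun i => (Measure.ae_ae_comm (m1 i)).1 (.of_forall fun c =>
      AE_sec ν i (measurable_prodMk_left (m1 i)) fun t => by
        refine (ae_restrict_iff' measurableSet_Ioo).2 ((sd_ae (h1 c t i)).mono fun s hs h => ?_)
        simpa using hs h)
  obtain ⟨t, ht0, ht1⟩ := (a0.and a1).exists
  refine ⟨t, ht0, (ae_all_iff.2 ht1).and (ae_all_iff.2 fun j => ?_)⟩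
  refine AE_dir (Pi.single j 1) (m2 j t) fun c => (sd_ae_univ (h2 c t j)).mono fun s hs => ?_
  simpa [add_smul, add_assoc] using hs

theorem SD.congr {a a' : ℝ → ℝ} (h : SD a) {δ : ℝ} (hδ : 0 < δ) (he : ∀ s, |s| ≤ δ → a s = a' s) :
    SD a' := by
  obtain ⟨C, δ', hδ', h⟩ := h
  refine ⟨C, min δ δ', lt_min hδ hδ', fun s hs => ?_⟩
  have h1 := hs.trans (min_le_left _ _)
  rw [← he s h1, ← he (-s) (by rwa [abs_neg]), ← he 0 (by simpa using hδ.le)]
  exact h s (hs.trans (min_le_right _ _))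

end Pool.Agent.Work.MP_1ce82a_an
end

-- merged part: Pool.Agent.Work.MP_1ce82a_an.Q.Rand
section
/-! Random potentials have quadratic growth in all directions for almost every class.
PLAN. Enumerate Bx x Bool by the naturals (exists_surjective_nat), g i = per f0 or per f1 (per_contDiff, per_inv, Surf.bdd_inv). n, eps from cinf_basis, a from series. With cl s = max 0 (min 1 s) put f t = f0 + sum cl(t i) a i g i and A c t = alc (addPot L (f t)) (e c).
A is continuous: t -> f t is continuous for the sup norm (tail bound 1/2^i, finitely many coordinates), alc_lip and alc_cont. For s in (0,1), f (update t i s) = f (update t i 0) + s a i g i (tsum_eq_add_tsum_ite or Summable.tsum_update), so alc_convex_pot (addPot_addPot) gives h1; alc_convex_cls gives h2.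
ae_sd; SD.congr near t i; qg_of_sd_pot with g = a i g i, QG.smul with 1/a i; qg_of_sd_cls and qg_all_cls (crit_alc). -/

open Set Filter Topology MeasureTheory
open scoped ContDiff

namespace Pool.Agent.Work.MP_1ce82a_an

variable {Γ : Grp}

theorem Rand_cont {X Y : Type} [TopologicalSpace X] [TopologicalSpace Y] {A : X → Y → ℝ}
    {D : Y → Y → ℝ} (h1 : ∀ y, Continuous fun x => A x y) (h2 : ∀ y, Continuous fun y' => D y' y)
    (h3 : ∀ y, D y y = 0) (h4 : ∀ x y y', |A x y' - A x y| ≤ D y' y) :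
    Continuous fun q : X × Y => A q.1 q.2 := by
  refine continuous_iff_continuousAt.2 fun p => ?_
  have k1 : Tendsto (fun q : X × Y => A q.1 q.2 - A q.1 p.2) (𝓝 p) (𝓝 0) :=
    squeeze_zero_norm (fun q => h4 _ _ _) (h3 p.2 ▸ ((h2 p.2).comp continuous_snd).tendsto p)
  simpa [ContinuousAt] using k1.add (((h1 p.2).comp continuous_fst).tendsto p)

/-- Projection to the unit interval. -/
noncomputable def Rand_cl (s : ℝ) : ℝ := max 0 (min 1 s)

theorem Rand_cl_cont : Continuous Rand_cl := continuous_const.max (continuous_const.min continuous_id)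

theorem Rand_cl_le (s : ℝ) : |Rand_cl s| ≤ 1 :=
  (abs_of_nonneg (le_max_left _ _)).trans_le (max_le zero_le_one (min_le_left _ _))

theorem Rand_cl_eq {s : ℝ} (h0 : 0 ≤ s) (h1 : s ≤ 1) : Rand_cl s = s := by
  rw [Rand_cl, min_eq_right h1, max_eq_right h0]

theorem Rand_sub {G : ℕ → ℝ} (hG : ∀ i, |G i| ≤ (1 / 2) ^ i) (t t' : ℕ → ℝ) :
    ∑' i, Rand_cl (t' i) * G i - ∑' i, Rand_cl (t i) * G i =
      ∑' i, (Rand_cl (t' i) - Rand_cl (t i)) * G i := by
  have h : ∀ t : ℕ → ℝ, Summable fun i => Rand_cl (t i) * G i := fun t =>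
    summable_geometric_two.of_norm_bounded fun i => by
      rw [Real.norm_eq_abs, abs_mul]
      exact (mul_le_of_le_one_left (abs_nonneg _) (Rand_cl_le _)).trans (hG i)
  simp only [sub_mul, (h t').tsum_sub (h t)]

theorem Rand_bd (s s' : ℝ) (i : ℕ) :
    ‖|Rand_cl s' - Rand_cl s| * (1 / 2 : ℝ) ^ i‖ ≤ 2 * (1 / 2) ^ i := by
  rw [Real.norm_of_nonneg (by positivity)]
  refine mul_le_mul_of_nonneg_right ((abs_sub _ _).trans ?_) (by positivity)
  linarith only [Rand_cl_le s, Rand_cl_le s']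

theorem Rand_main (hS : Surf Γ) {L : E × E → ℝ} (hL : Tonelli Γ L) {b : ℕ}
    (e : (Fin b → ℝ) ≃ₗ[ℝ] H1 Γ) (f0 : Cinf Γ) {N : Set (Cinf Γ)} (hN : N ∈ 𝓝 f0)
    {g : ℕ → E → ℝ} (hg : ∀ i, ContDiff ℝ ∞ (g i)) (hi : ∀ i, Inv Γ (g i)) :
    ∃ f ∈ N, ∀ᵐ t : Fin b → ℝ,
      (∀ c', ∃ m, QG (addPot (addPot L f.1) (fun _ => alc (addPot L f.1) (e t))) (e t) c'
        (fun _ => 0) m) ∧
      ∀ i, ∃ m, QG (addPot (addPot L f.1) (fun _ => alc (addPot L f.1) (e t))) (e t) 0 (g i) m := by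
  obtain ⟨n, ε, hε, hn⟩ := cinf_basis f0 hN
  obtain ⟨a, ha, hb, hs⟩ := series hg
    (fun i => (hS.bdd_inv (hg i).continuous (hi i)).imp fun M h => h.2) n hε
  let f : (ℕ → ℝ) → Cinf Γ := fun t => ⟨fun x => f0.1 x + ∑' i, Rand_cl (t i) * (a i * g i x),
    f0.2.1.add (hs _ fun i => Rand_cl_le _).1, fun γ x => by simp only [f0.inv γ x, hi _ γ x]⟩
  have hT : ∀ t, Tonelli Γ (addPot L (f t).1) := fun t => hL.addPot (f t).c2 (f t).inv
  have hG : ∀ i, ContDiff ℝ 2 fun x => a i * g i x := fun i =>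
    contDiff_const.mul ((hg i).of_le ENat.LEInfty.out)
  have hI : ∀ i, Inv Γ fun x => a i * g i x := fun i γ x => by simp only [hi i γ x]
  have hd : ∀ t t' x, (f t').1 x - (f t).1 x =
      ∑' i, (Rand_cl (t' i) - Rand_cl (t i)) * (a i * g i x) := fun t t' x =>
    (add_sub_add_left_eq_sub _ _ _).trans (Rand_sub (fun i => hb i x) t t')
  have hu : ∀ t i s, addPot L (f (Function.update t i s)).1 = addPot (addPot L (f t).1)
      fun x => (Rand_cl s - Rand_cl (t i)) * (a i * g i x) := fun t i s => by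
    rw [addPot_addPot]
    refine congrArg _ (funext fun x => eq_add_of_sub_eq' ?_)
    rw [hd, tsum_eq_single i fun j hj => by rw [Function.update_of_ne hj, sub_self, zero_mul],
      Function.update_self]
  obtain ⟨t, ht, h⟩ := ae_sd (A := fun c t => alc (addPot L (f t).1) (e c))
    (Rand_cont (D := fun t' t => ∑' i, |Rand_cl (t' i) - Rand_cl (t i)| * (1 / 2) ^ i)
      (fun t => alc_cont hS (hT t) e)
      (fun t => continuous_tsum (fun i => (((Rand_cl_cont.comp (continuous_apply i)).sub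
        continuous_const).abs).mul continuous_const) (summable_geometric_two.mul_left 2)
          fun i t' => Rand_bd _ _ i)
      (fun t => by simp) fun c t t' => alc_lip hS hL _ (f t').c2 (f t').inv (f t).c2 (f t).inv
        fun x => by
          rw [hd, ← Real.norm_eq_abs]
          refine tsum_of_norm_bounded (Summable.of_norm_bounded (summable_geometric_two.mul_left 2)
            fun i => Rand_bd _ _ i).hasSum fun i => ?_
          rw [Real.norm_eq_abs, abs_mul]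
          exact mul_le_mul_of_nonneg_left (hb i x) (abs_nonneg _))
    (fun c t i => ((alc_convex_pot hS (hT (Function.update t i 0)) (e c) (hG i) (hI i)).subset
      (subset_univ _) (convex_Ioo 0 1)).congr fun s hs => by
        have k := hu (Function.update t i 0) i s
        rw [Function.update_idem, Function.update_self, Rand_cl_eq hs.1.le hs.2.le,
          Rand_cl_eq le_rfl zero_le_one, sub_zero] at k
        exact congrArg (alc · (e c)) k.symm)
    fun c t j => ((alc_convex_cls hS (hT t)).comp_affineMap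
      (AffineMap.lineMap (e c) (e c + e (Pi.single j 1)))).congr fun s _ => by
        simp [AffineMap.lineMap_apply, add_comm]
  refine ⟨f t, hn _ fun k hk x hx => ?_, h.mono fun c hc => ⟨qg_all_cls (crit_alc hS (hT t) _) e
    fun j => qg_of_sd_cls hS (hT t) _ _ (by simpa using hc.2 j), fun i => ?_⟩⟩
  · simpa only [f, add_sub_cancel_left] using (hs _ fun i => Rand_cl_le (t i)).2 k hk x hx
  · obtain ⟨h0, h1⟩ := ht i
    obtain ⟨m, hm⟩ := qg_of_sd_pot hS (hT t) (e c) (hG i) (hI i)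
      ((hc.1 i).congr (lt_min h0 (sub_pos.2 h1)) fun s hs => by
        obtain ⟨k1, k2⟩ := abs_le.1 (hs.trans (min_le_left _ _))
        obtain ⟨k3, k4⟩ := abs_le.1 (hs.trans (min_le_right _ _))
        rw [hu, Rand_cl_eq (by linarith only [k1]) (by linarith only [k4]), Rand_cl_eq h0.le h1.le,
          add_sub_cancel_left])
    exact ⟨_, by simpa [(ha i).ne'] using hm.smul (a i)⁻¹⟩

theorem rand_qg (hS : Surf Γ) {L : E × E → ℝ} (hL : Tonelli Γ L) {b : ℕ}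
    (e : (Fin b → ℝ) ≃ₗ[ℝ] H1 Γ) (f0 : Cinf Γ) {N : Set (Cinf Γ)} (hN : N ∈ 𝓝 f0) :
    ∃ f ∈ N, ∀ᵐ t : Fin b → ℝ,
      QGall (addPot (addPot L f.1) (fun _ => alc (addPot L f.1) (e t))) (e t) := by
  obtain ⟨β, hβ⟩ := exists_surjective_nat (Bx × Bool)
  obtain ⟨f, hf, h⟩ := Rand_main hS hL e f0 hN
    (g := fun i => per Γ (cond (β i).2 (β i).1.f0 (β i).1.f1))
    (fun i => by
      cases (β i).2
      exacts [per_contDiff hS (β i).1.f1_contDiff (β i).1.f1_cpt,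
        per_contDiff hS (β i).1.f0_contDiff (β i).1.f0_cpt]) fun i => per_inv _
  refine ⟨f, hf, h.mono fun c hc => ⟨hc.1, fun B => ⟨?_, ?_⟩⟩⟩
  · obtain ⟨i, hi⟩ := hβ (B, true)
    simpa only [hi, cond_true] using hc.2 i
  · obtain ⟨i, hi⟩ := hβ (B, false)
    simpa only [hi, cond_false] using hc.2 i

end Pool.Agent.Work.MP_1ce82a_an
end

-- merged part: Pool.Agent.Work.MP_1ce82a_an.D.Defs
section
/-! Degenerate one sided periodic orbits: definitions. -/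

open Set Filter Topology MeasureTheory
open scoped ContDiff

namespace Pool.Agent.Work.MP_1ce82a_an

variable {Γ : Grp}

/-- Fields which the transport multiplies by minus one. -/
def Anti (x : ℝ → E) (P : ℝ) (σ : Γ) (ξ : ℝ → E) : Prop := ∀ t, ξ (t + P) = -dk σ (x t) (ξ t)

/-- A calibrated periodic curve with an antiperiodic transverse Jacobi field. -/
structure DegD (F : E × E → ℝ) (c : H1 Γ) (x : ℝ → E) (P : ℝ) (σ : Γ) (ξ : ℝ → E) : Prop where
  cal : AllCal F c x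
  per : Perd x P σ
  min : MinP Γ x P
  vel : deriv x 0 ≠ 0
  jac : IsJacobi F x ξ
  anti : Anti x P σ ξ
  tr : det2 (deriv x (P / 2)) (ξ (P / 2)) ≠ 0

/-- Degenerate pairs. -/
def Deg (F : E × E → ℝ) (c : H1 Γ) : Prop :=
  ∃ (x : ℝ → E) (P : ℝ) (σ : Γ) (ξ : ℝ → E), DegD F c x P σ ξ

/-- The square of an affine function, cut off in a box. -/
noncomputable def gq (q : Bx × ℚ × ℚ) (y : E) : ℝ :=
  (X2 q.1.d y - (q.2.1 : ℝ) - (q.2.2 : ℝ) * X1 q.1.d y) ^ 2 * q.1.f0 y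

/-- The second variation with its boundary term. -/
noncomputable def SVq (F : E × E → ℝ) (z : ℝ → E) (T : ℝ) (σ : Γ) (ζ : ℝ → E) : ℝ :=
  (∫ t in (0 : ℝ)..T, D2 F (ph z t) (ph ζ t) (ph ζ t)) + mo F z T (JacT_B σ (z 0) (ζ 0) (ζ 0))

/-- The second derivative is Lipschitz on a ball. -/
def LipD2 (R M : ℝ) (h : E → ℝ) : Prop :=
  ∀ a b : E, ‖a‖ ≤ R → ‖b‖ ≤ R →
    ‖fderiv ℝ (fderiv ℝ h) a - fderiv ℝ (fderiv ℝ h) b‖ ≤ M * ‖a - b‖

/-- Two periodic orbits of two perturbations, both close to `x`. -/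
structure Duo (F : E × E → ℝ) (x : ℝ → E) (P : ℝ) (σ : Γ) (d : Fin 4) (δ : ℝ) (h1 h2 : E → ℝ)
    (z1 z2 : ℝ → E) (T1 T2 : ℝ) : Prop where
  o1 : IsOrbit (addPot F h1) z1
  o2 : IsOrbit (addPot F h2) z2
  p1 : Perd z1 T1 σ
  p2 : Perd z2 T2 σ
  n1 : ∀ t ∈ Icc 0 (P + P / 4), ‖ph z1 t - ph x t‖ ≤ δ
  n2 : ∀ t ∈ Icc 0 (P + P / 4), ‖ph z2 t - ph x t‖ ≤ δ
  t1 : |T1 - P| ≤ δ
  t2 : |T2 - P| ≤ δ
  sec : X1 d (z1 0) = X1 d (z2 0)
  e1 : energy (addPot F h1) (ph z1 0) = 0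
  e2 : energy (addPot F h2) (ph z2 0) = 0

/-- The size of the difference of two potentials along a curve. -/
def Src (h1 h2 : E → ℝ) (z : ℝ → E) (T N : ℝ) : Prop :=
  ∀ t ∈ Icc 0 T, |h1 (z t) - h2 (z t)| ≤ N ∧ ‖fderiv ℝ h1 (z t) - fderiv ℝ h2 (z t)‖ ≤ N

/-- Families of potentials given by a series with coefficients in the unit interval. -/
structure Fam (g : ℕ → E → ℝ) (f : (ℕ → ℝ) → Cinf Γ) (a : ℕ → ℝ) : Prop where
  pos : ∀ i, 0 < a i
  cont : Continuous f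
  sup : ∀ (t t' : ℕ → ℝ) (y : E), |(f t').1 y - (f t).1 y| ≤
    ∑' i, |Rand_cl (t' i) - Rand_cl (t i)| * (1 / 2) ^ i
  upd : ∀ (t : ℕ → ℝ) (i : ℕ) (s : ℝ) (y : E), (f (Function.update t i s)).1 y =
    (f t).1 y + (Rand_cl s - Rand_cl (t i)) * (a i * g i y)
  dec : ∀ (R : ℝ) (i : ℕ), ∃ D : (ℕ → ℝ) × (ℕ → ℝ) → ℝ, Continuous D ∧
    (∀ (t : ℕ → ℝ) (s s' : ℝ), D (Function.update t i s, Function.update t i s') = 0) ∧
    ∀ t t' : ℕ → ℝ, ∃ ρ : E → ℝ, ContDiff ℝ 2 ρ ∧ Small R (D (t, t')) ρ ∧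
      ∀ y, (f t).1 y = (f t').1 y + (Rand_cl (t i) - Rand_cl (t' i)) * (a i * g i y) + ρ y
  lip : ∀ R : ℝ, ∃ M : ℝ, ∀ t t' : ℕ → ℝ, LipD2 R M (fun y => (f t).1 y - (f t').1 y)

theorem gq_contDiff (q : Bx × ℚ × ℚ) : ContDiff ℝ ∞ (gq q) :=
  ((((X2 q.1.d).contDiff.sub contDiff_const).sub
    (contDiff_const.mul (X1 q.1.d).contDiff)).pow 2).mul q.1.f0_contDiff

theorem gq_cpt (q : Bx × ℚ × ℚ) : HasCompactSupport (gq q) := q.1.f0_cpt.mul_left

theorem Duo.mono {F : E × E → ℝ} {x : ℝ → E} {P : ℝ} {σ : Γ} {d : Fin 4} {δ δ' : ℝ}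
    {h1 h2 : E → ℝ} {z1 z2 : ℝ → E} {T1 T2 : ℝ} (h : Duo F x P σ d δ h1 h2 z1 z2 T1 T2)
    (hδ : δ ≤ δ') : Duo F x P σ d δ' h1 h2 z1 z2 T1 T2 :=
  ⟨h.o1, h.o2, h.p1, h.p2, fun t ht => (h.n1 t ht).trans hδ, fun t ht => (h.n2 t ht).trans hδ,
    h.t1.trans hδ, h.t2.trans hδ, h.sec, h.e1, h.e2⟩

end Pool.Agent.Work.MP_1ce82a_an
end

-- merged part: Pool.Agent.Work.MP_1ce82a_an.D.Lin
section
/-! Nondegeneracy of a periodic orbit whose trace is not two.
PLAN. e, phi from IsTr. With b = 1/(2 - tau), a = b (1 - tau) put xi1 = a e + b T e, xi2 = a phi + b T phi; cayley gives xi1 - T xi1 = e + k x' and similarly for phi (Tp_lin, Tp_jacobi, den_Tp). The four functionals are linear in w; if they vanish at w then pr e w = pr phi w = pr x' w = 0. Let zeta be the Jacobi field with zeta 0 = w.1 and momentum vpart (D2 F (ph x 0) w)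
(exists_jacobi; ph zeta 0 = w by JacB_N_iff); jac_dec gives zeta = k x', and X1 d w.1 = 0 gives k = 0. An injective linear map on a finite dimensional space is bounded below (LinearMap.exists_antilipschitzWith). -/

open Set Filter Topology MeasureTheory
open scoped ContDiff

namespace Pool.Agent.Work.MP_1ce82a_an

variable {Γ : Grp}

theorem Lin_xi (hS : Surf Γ) {F : E × E → ℝ} (hF : Tonelli Γ F) {x : ℝ → E} {P : ℝ} {σ : Γ}
    (hx : IsOrbit F x) (hP : Perd x P σ) (hv : deriv x 0 ≠ 0) {τ : ℝ} (hτ : IsTr F x P σ τ)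
    (h2 : τ ≠ 2) {e : ℝ → E} (he : IsJacobi F x e) (de : den F x e 0 = 0) :
    ∃ (ξ : ℝ → E) (k : ℝ), IsJacobi F x ξ ∧ den F x ξ 0 = 0 ∧ ∀ w,
      pr F x ξ 0 w - pr F x (Tp x P σ ξ) 0 w = pr F x e 0 w + k * pr F x (deriv x) 0 w := by
  have jT := Tp_jacobi hS hF.c2 hF.inv hx hP he
  have jx := hx.deriv_jacobi hF.c2 hF.conv
  have dT := (den_Tp hS hF hx hP he).trans de
  obtain ⟨k, hk⟩ := cayley hS hF hx hP hv hτ he de
  have n := sub_ne_zero.2 h2.symm
  refine ⟨_, -k / (2 - τ), he.lin jT ((1 - τ) / (2 - τ)) (1 / (2 - τ)), ?_, fun w => ?_⟩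
  · rw [den_eq_om hF.c2 hF.conv hx, om_swap, om] at de dT ⊢
    rw [pr_lin F x he.1 jT.1, neg_eq_zero.1 de, neg_eq_zero.1 dT]
    simp
  · rw [Tp_lin, pr_lin F x he.1 jT.1, pr_lin F x jT.1 (Tp_jacobi hS hF.c2 hF.inv hx hP jT).1,
      show Tp x P σ (Tp x P σ e) = fun t => k • deriv x t + τ • Tp x P σ e t + (-1 : ℝ) • e t from
        funext fun t => by rw [hk]; module,
      Tr_three, pr_lin F x (jx.lin jT k τ).1 he.1, pr_lin F x jx.1 jT.1]
    field_simp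
    ring

theorem lin_bound (hS : Surf Γ) {F : E × E → ℝ} (hF : Tonelli Γ F) {x : ℝ → E} {P : ℝ} {σ : Γ}
    (hx : IsOrbit F x) (hP : Perd x P σ) {d : Fin 4} (hd : 0 < X1 d (deriv x 0)) {τ : ℝ}
    (hτ : IsTr F x P σ τ) (h2 : τ ≠ 2) : ∃ (C : ℝ) (ξ1 ξ2 : ℝ → E), 0 < C ∧ IsJacobi F x ξ1 ∧
      IsJacobi F x ξ2 ∧ den F x ξ1 0 = 0 ∧ den F x ξ2 0 = 0 ∧ ∀ w : E × E,
        ‖w‖ ≤ C * (|X1 d w.1| + |pr F x (deriv x) 0 w| +
          |pr F x ξ1 0 w - pr F x (Tp x P σ ξ1) 0 w| +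
          |pr F x ξ2 0 w - pr F x (Tp x P σ ξ2) 0 w|) := by
  have hv : deriv x 0 ≠ 0 := fun h => by simp [h] at hd
  obtain ⟨e, φ, he, hφ, h0, de, dφ, h1, -⟩ := id hτ
  obtain ⟨ξ1, k1, j1, d1, p1⟩ := Lin_xi hS hF hx hP hv hτ h2 he de
  obtain ⟨ξ2, k2, j2, d2, p2⟩ := Lin_xi hS hF hx hP hv hτ h2 hφ dφ
  let L : (ℝ → E) → E × E →L[ℝ] ℝ := fun ξ =>
    (D2 F (ph x 0)).flip (0, ξ 0) - (mom F x ξ 0).comp (ContinuousLinearMap.fst ℝ E E)
  let Φ : E × E →L[ℝ] ℝ × ℝ × ℝ × ℝ := ((X1 d).comp (ContinuousLinearMap.fst ℝ E E)).prod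
    ((L (deriv x)).prod ((L ξ1 - L (Tp x P σ ξ1)).prod (L ξ2 - L (Tp x P σ ξ2))))
  have hΦ : ∀ w, Φ w = (X1 d w.1, pr F x (deriv x) 0 w,
      pr F x ξ1 0 w - pr F x (Tp x P σ ξ1) 0 w, pr F x ξ2 0 w - pr F x (Tp x P σ ξ2) 0 w) :=
    fun w => rfl
  obtain ⟨K, K0, hK⟩ := Φ.toLinearMap.exists_antilipschitzWith
    (LinearMap.ker_eq_bot'.2 fun w hw => by
    obtain ⟨a1, a2, a3, a4⟩ : X1 d w.1 = 0 ∧ pr F x (deriv x) 0 w = 0 ∧ pr F x e 0 w = 0 ∧
        pr F x φ 0 w = 0 := by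
      have := (hΦ w).symm.trans hw
      simp only [Prod.mk_eq_zero, p1, p2] at this
      obtain ⟨a1, a2, a3, a4⟩ := this
      rw [a2, mul_zero, add_zero] at a3 a4
      exact ⟨a1, a2, a3, a4⟩
    obtain ⟨ζ, jζ, z0, z1⟩ := exists_jacobi hF.c2 hF.conv hx.1 w.1 (vpart (D2 F (ph x 0) w))
    have hw : ph ζ 0 = w := Prod.ext z0 (((JacB_N_iff hF.conv (ph x 0) (ζ 0) _ _).2
      z1).symm.trans (z0.symm ▸ (JacB_N_iff hF.conv (ph x 0) w.1 w.2 _).2 rfl))
    obtain ⟨k, hk⟩ := jac_dec hF hx hv he hφ h0 de dφ h1 jζ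
      (by rw [den_eq_om hF.c2 hF.conv hx, om, hw, a2])
    rw [om_swap, om, om, hw, a3, a4] at hk
    have k0 : k = 0 := by simpa [← z0, hk, hd.ne'] using a1
    rw [← hw, show ζ = fun _ => 0 from funext fun t => by simp [hk, k0]]
    simp [ph])
  refine ⟨K, ξ1, ξ2, K0, j1, j2, d1, d2, fun w =>
    (ZeroHomClass.bound_of_antilipschitz _ hK w).trans (mul_le_mul_of_nonneg_left ?_ K.2)⟩
  rw [ContinuousLinearMap.coe_coe, hΦ]
  simp only [Prod.norm_mk, Real.norm_eq_abs, max_le_iff]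
  refine ⟨?_, ?_, ?_, ?_⟩ <;> linarith only [abs_nonneg (X1 d w.1), abs_nonneg (pr F x (deriv x) 0 w),
    abs_nonneg (pr F x ξ1 0 w - pr F x (Tp x P σ ξ1) 0 w),
    abs_nonneg (pr F x ξ2 0 w - pr F x (Tp x P σ ξ2) 0 w)]

end Pool.Agent.Work.MP_1ce82a_an
end

-- merged part: Pool.Agent.Work.MP_1ce82a_an.Z.Par
section
/-! From good pairs to the statement.
PLAN. tendsto_par: tendsto_nb_iff; the Lagrangians agree by par_eq (addPot_addPot, funext); crit_alc; cinf_small; alc_lip with the sup norm bound from the ball of radius R0 (invariance), alc_cont.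
alpha_eq: IsSub F c a u iff IsSub (addPot F (const a)) c 0 u; every subsolution level bounds alc from above (inS_of_isSub on loops, alc_le); exists_isSub gives a subsolution at level alc. aubry_eq: see section 6: inclusion from right to left by CalR.hasFDerivAt, CalR.energy, CalR.smul, Surf.deriv_smul;
from left to right by aub, exists_isSub for addPot F phi (exists_inS, Tonelli.addPot), AllIn and touch_unique. The notions IsOrbit, IsJacobi, energy derivative only see fderiv of the Lagrangian (fderiv_addPot_const; the energy changes by a constant). -/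

open Set Filter Topology MeasureTheory
open scoped ContDiff

namespace Pool.Agent.Work.MP_1ce82a_an

variable {Γ : Grp}

/-- The normalised Lagrangian of a class and a potential. -/
noncomputable def nl (L : E × E → ℝ) (f : Cinf Γ) (c : H1 Γ) : E × E → ℝ :=
  addPot (addPot L f.1) (fun _ => alc (addPot L f.1) c)

/-- The perturbation from one normalised Lagrangian to another. -/
noncomputable def par (L : E × E → ℝ) (f0 : Cinf Γ) (c0 : H1 Γ) (f : Cinf Γ) (c : H1 Γ) : Par Γ :=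
  (fun y => f.1 y - f0.1 y + (alc (addPot L f.1) c - alc (addPot L f0.1) c0), c)

theorem par_eq (L : E × E → ℝ) (f0 : Cinf Γ) (c0 : H1 Γ) (f : Cinf Γ) (c : H1 Γ) :
    addPot (nl L f0 c0) (par L f0 c0 f c).1 = nl L f c := by
  funext z
  simp only [nl, par, addPot]
  ring

theorem nl_tonelli {L : E × E → ℝ} (hL : Tonelli Γ L) (f : Cinf Γ) (c : H1 Γ) :
    Tonelli Γ (nl L f c) := by
  exact (hL.addPot f.c2 f.inv).addPot contDiff_const fun _ _ => rfl

theorem nl_crit (hS : Surf Γ) {L : E × E → ℝ} (hL : Tonelli Γ L) (f : Cinf Γ) (c : H1 Γ) :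
    Crit (nl L f c) c := by
  exact crit_alc hS (hL.addPot f.c2 f.inv) c

theorem tendsto_par (hS : Surf Γ) {L : E × E → ℝ} (hL : Tonelli Γ L) {b : ℕ}
    (e : (Fin b → ℝ) ≃ₗ[ℝ] H1 Γ) (t0 : Fin b → ℝ) (f0 : Cinf Γ) :
    Tendsto (fun q : (Fin b → ℝ) × Cinf Γ => par L f0 (e t0) q.2 (e q.1)) (𝓝 (t0, f0))
      (nb (nl L f0 (e t0)) (e t0)) := by
  refine tendsto_nb_iff.2 ⟨Eventually.of_forall fun q => ⟨?_, fun γ x => ?_, ?_⟩,
    fun R ε hε => ?_, fun γ => ?_⟩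
  · exact (q.2.c2.sub f0.c2).add contDiff_const
  · simp only [par, q.2.inv γ x, f0.inv γ x]
  · rw [par_eq]
    exact nl_crit hS hL q.2 (e q.1)
  · obtain ⟨R0, -, hR0⟩ := hS.exists_R0
    have h3 : 0 < ε / 3 := by positivity
    have h1 : ∀ᶠ q : (Fin b → ℝ) × Cinf Γ in 𝓝 (t0, f0),
        Small (max R R0) (ε / 3) (fun y => q.2.1 y - f0.1 y) :=
      (continuous_snd.tendsto (t0, f0)).eventually (cinf_small f0 (max R R0) h3)
    have h2 : ∀ᶠ q : (Fin b → ℝ) × Cinf Γ in 𝓝 (t0, f0),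
        dist (alc (addPot L f0.1) (e q.1)) (alc (addPot L f0.1) (e t0)) < ε / 3 :=
      (((alc_cont hS (hL.addPot f0.c2 f0.inv) e).comp continuous_fst).tendsto
        (t0, f0)).eventually (Metric.ball_mem_nhds _ h3)
    filter_upwards [h1, h2] with q h1 h2
    have h4 := alc_lip hS hL (e q.1) q.2.c2 q.2.inv f0.c2 f0.inv (M := ε / 3) fun x => by
      obtain ⟨γ, hγ⟩ := hR0 x
      rw [← q.2.inv γ x, ← f0.inv γ x]
      exact (h1 _ (hγ.trans (le_max_right _ _))).1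
    rw [Real.dist_eq] at h2
    intro x hx
    obtain ⟨a0, a1, a2⟩ := h1 x (hx.trans (le_max_left _ _))
    have h5 : fderiv ℝ (par L f0 (e t0) q.2 (e q.1)).1 =
        fderiv ℝ fun y => q.2.1 y - f0.1 y := funext fun y => fderiv_add_const _
    rw [h5]
    refine ⟨?_, by linarith only [hε, a1], by linarith only [hε, a2]⟩
    simp only [par]
    rw [abs_le] at a0 h4 ⊢
    rw [abs_lt] at h2
    constructor <;> linarith only [h2, h4, a0, a0.1, a0.2, h4.1, h4.2, h2.1, h2.2]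
  · have h : Continuous fun t : Fin b → ℝ => (e t).1 γ :=
      ((LinearMap.proj γ).comp ((H1 Γ).subtype.comp e.toLinearMap)).continuous_of_finiteDimensional
    exact (h.comp continuous_fst).tendsto (t0, f0)

theorem Par_sub {F : E × E → ℝ} {c : H1 Γ} {a : ℝ} {u : E → ℝ} :
    IsSub (addPot F (fun _ => a)) c 0 u ↔ IsSub F c a u := by
  simp only [IsSub, addPot, add_zero]

theorem alpha_eq (hS : Surf Γ) {F : E × E → ℝ} (hF : Tonelli Γ F) (c : H1 Γ) :
    alpha F c = alc F c := by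
  have hT : ∀ a : ℝ, Tonelli Γ (addPot F fun _ => a) := fun a =>
    hF.addPot contDiff_const fun _ _ => rfl
  refine IsLeast.csInf_eq ⟨?_, fun a ⟨u, hu⟩ => alc_le fun z T γ hz => ?_⟩
  · obtain ⟨u, hu⟩ := exists_inS hS (hT _) (crit_alc hS hF c)
    obtain ⟨w, hw⟩ := exists_isSub hS (hT _) hu
    exact ⟨w, Par_sub.1 hw⟩
  · have h := inS_of_isSub (hT a).cont (Par_sub.2 hu)
    have h1 := h.2.dfc_nonneg hz.2.1
    rw [hz.dfc_eq h.1, act_addPot hF.cont continuous_const hz.2.1, pot_const] at h1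
    linarith only [h1]

theorem Par_cal {F : E × E → ℝ} (hF : Tonelli Γ F) {u : E → ℝ} (hu : Dom F u) {z : ℝ → E}
    (hz : CalR F u z) (t : ℝ) : fderiv ℝ u (z t) (deriv z t) = F (z t, deriv z t) := by
  rw [(hz.hasFDerivAt hF.ton0 hu t).fderiv]
  exact sub_eq_zero.1 (hz.energy hF.ton0 hu t)

theorem aubry_eq (hS : Surf Γ) {F : E × E → ℝ} (hF : Tonelli Γ F) {c : H1 Γ} (hc : Crit F c)
    {x : ℝ → E} (h1 : AllCal F c x) (h2 : AllIn F c x) :
    {z : E × E | ∀ u, IsSub F c 0 u → fderiv ℝ u z.1 z.2 = F z} = orb Γ x := by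
  ext ⟨y, v⟩
  constructor
  · intro hz
    obtain ⟨u0, hu0⟩ := exists_inS hS hF hc
    obtain ⟨u, hu⟩ := exists_isSub hS hF hu0
    have hi := inS_of_isSub hF.cont hu
    have hx : ∃ w, CalR F u w ∧ w 0 = y := by
      by_contra hn
      obtain ⟨φ, p1, p2, p3, p4, p5⟩ := aub hS hF hc hi hn
      obtain ⟨w0, hw0⟩ := exists_inS hS (hF.addPot p1 p2) p5
      obtain ⟨w, hw⟩ := exists_isSub hS (hF.addPot p1 p2) hw0
      have a1 := hz w ⟨hw.1, hw.2.1, fun a b => by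
        have := hw.2.2 a b
        simp only [addPot] at this
        linarith only [this, p3, p3 a]⟩
      have a2 := hw.2.2 y v
      simp only [addPot] at a1 a2
      linarith
    obtain ⟨w, hw, rfl⟩ := hx
    obtain ⟨ρ, s, hs⟩ := h2 u hi w hw
    have a1 := (touch_unique hF.c2 hF.conv (fun b => by simpa using hu.2.2 (w 0) b) (hz u hu)
      (Par_cal hF hi.2 hw 0)).1
    refine ⟨ρ, s, Prod.ext (by simpa using hs 0) ?_⟩
    rw [funext hs, hS.deriv_smul ρ (fun t => x (t + s)), deriv_comp_add_const, zero_add] at a1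
    exact a1
  · rintro ⟨γ, t, h⟩ u hu
    have hi := inS_of_isSub hF.cont hu
    have a1 := Par_cal hF hi.2 ((h1 u hi).smul hS hF.invL hi.1 γ) t
    rw [hS.deriv_smul] at a1
    rw [h]
    exact a1

theorem hypPer_const {F : E × E → ℝ} {k : ℝ} {x : ℝ → E}
    (h : HypPer Γ (addPot F (fun _ => k)) x) : HypPer Γ F x := by
  have h1 : fderiv ℝ (energy (addPot F fun _ => k)) = fderiv ℝ (energy F) := by
    have : energy (addPot F fun _ => k) = fun z => energy F z - k := by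
      funext z
      simp only [energy, fderiv_addPot_const]
      simp only [addPot]
      ring
    rw [this]
    exact funext fun z => fderiv_sub_const _
  simpa only [HypPer, IsOrbit, IsEig, IsJacobi, D2, fderiv_addPot_const, h1] using h

theorem hypFix_const {F : E × E → ℝ} {k : ℝ} {x : ℝ → E}
    (h : HypFix (addPot F (fun _ => k)) x) : HypFix F x := by
  simpa only [HypFix, IsOrbit, IsJacobi, D2, fderiv_addPot_const] using h

theorem uset_of_good (hS : Surf Γ) {L : E × E → ℝ} (hL : Tonelli Γ L) (f : Cinf Γ) (c : H1 Γ)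
    (h : Good (nl L f c) c) : c ∈ Uset L f := by
  have hT := nl_tonelli hL f c
  have hc := nl_crit hS hL f c
  have key : ∀ x, AllCal (nl L f c) c x → AllIn (nl L f c) c x →
      aubry (addPot L f.1) c = orb Γ x := fun x h1 h2 => by
    rw [← aubry_eq hS hT hc h1 h2, aubry, alpha_eq hS (hL.addPot f.c2 f.inv)]
    simp only [nl, Par_sub]
    rfl
  rcases h with ⟨x, P, σ, τ, h1, h2, h3, h4, h5, h6⟩ | ⟨x0, h1, h2, h3⟩
  · obtain ⟨u, hu⟩ := exists_inS hS hT hc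
    exact ⟨x, Or.inl (hypPer_const (hypPer_of_tr hS hT ((h3 u hu).isOrbit hT.ton0 hu.2) h1 h2 h5
      h6)), key x h3 h4⟩
  · exact ⟨fun _ => x0, Or.inr (hypFix_const (hypFix_of_coer (hc.xpart_zero hT.c2 h1) h3)),
      key _ (fun u _ => calR_const u h1) h2⟩

end Pool.Agent.Work.MP_1ce82a_an
end

-- merged part: Pool.Agent.Work.MP_1ce82a_an.Q.Oset
section
/-! The open dense set of potentials with nondegenerate minimal equilibria, and residuality.
PLAN. Open: by an ultrafilter converging to f0 carrying bad minimisers x in the compact ball; the limit is a minimiser for f0 (cinf_small on balls gives pointwise convergence), D2 (addPot L f)(x,0) converges (addPot_addPot, norm_D2_addPot_sub, continuity), coer_open and negL_open.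
Dense: a minimiser x0 of L(.,0) + f0 exists (invariant since dk g x 0 = 0, compactness); q from exists_quadPot; for eps > 0 the minimisers of f0 + eps q are in the orbit of x0, finitely many of them in the ball; at each, NegL persists for small eps or coer_of_not_negL applies (D2_addPot); cinf_add_smul.
resid: W n = {x : measure of (ball n minus section) < 1/(n+1)} is open (inner regularity of the open section in the ball by a compact set, generalized_tube_lemma) and dense; residual_of_dense_open, countable intersection.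
tendsto_par: tendsto_nb_iff, crit_alc, cinf_small, alc_lip with the sup norm bound from the ball of radius R0, alc_cont. -/

open Set Filter Topology MeasureTheory
open scoped ContDiff

namespace Pool.Agent.Work.MP_1ce82a_an

variable {Γ : Grp}

theorem ogood_const (R0 : ℝ) (F : E × E → ℝ) (k : ℝ) :
    Ogood R0 (addPot F (fun _ => k)) ↔ Ogood R0 F := by
  have e : D2 (addPot F (fun _ => k)) = D2 F := by
    funext z
    rw [D2, D2, fderiv_addPot_const]
  simp only [Ogood, e, addPot, add_le_add_iff_right]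

theorem Oset_ev {G : Type} [NormedAddCommGroup G] {f : E → G} (hf : Continuous f) (x0 : E)
    {ε : ℝ} (hε : 0 < ε) : ∀ᶠ x in 𝓝 x0, ‖f x - f x0‖ < ε := by
  simpa only [dist_eq_norm] using Metric.tendsto_nhds.1 (hf.tendsto x0) _ hε

theorem Oset_open {B : E × E →L[ℝ] E × E →L[ℝ] ℝ} (hB : Coer B ∨ NegL B)
    (hp : ∀ w : E, w ≠ 0 → 0 < B (0, w) (0, w)) :
    ∃ ε : ℝ, 0 < ε ∧ ∀ B', ‖B' - B‖ ≤ ε → Coer B' ∨ NegL B' := by
  rcases hB with hB | hB
  · obtain ⟨ε, hε, h⟩ := coer_open hB hp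
    exact ⟨ε, hε, fun B' h' => Or.inl (h B' h')⟩
  · obtain ⟨ε, hε, h⟩ := negL_open hB
    exact ⟨ε, hε, fun B' h' => Or.inr (h B' h')⟩

theorem ogood_open {L : E × E → ℝ} (hL : Tonelli Γ L) (R0 : ℝ) :
    IsOpen {f : Cinf Γ | Ogood R0 (addPot L f.1)} := by
  refine isOpen_iff_mem_nhds.2 fun f0 h0 => ?_
  have hF := hL.addPot f0.c2 f0.inv
  have e : ∀ f : Cinf Γ, addPot L f.1 = addPot (addPot L f0.1) fun y => f.1 y - f0.1 y := by
    intro f
    rw [addPot_addPot]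
    simp only [add_sub_cancel]
  have hball : ∀ x0 : E, ∀ᶠ x in 𝓝 x0, ‖x‖ ≤ ‖x0‖ + 1 := fun x0 =>
    (continuous_norm.continuousAt.eventually_lt continuousAt_const (lt_add_one ‖x0‖)).mono
      fun _ h => h.le
  have hp : Continuous fun x : E => ((x, 0) : E × E) := by fun_prop
  have key := (isCompact_closedBall (0 : E) R0).eventually_forall_of_forall_eventually (x₀ := f0)
    (P := fun (f : Cinf Γ) (x : E) => (∀ y : E, addPot L f.1 (x, 0) ≤ addPot L f.1 (y, 0)) →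
      Coer (D2 (addPot L f.1) (x, 0)) ∨ NegL (D2 (addPot L f.1) (x, 0))) fun x0 hx0 => by
    rw [nhds_prod_eq]
    by_cases hm : ∀ y : E, addPot L f0.1 (x0, 0) ≤ addPot L f0.1 (y, 0)
    · obtain ⟨ε, hε, h1⟩ := Oset_open (h0 x0 (mem_closedBall_zero_iff.1 hx0) hm) (hF.conv _)
      have h2 : ∀ᶠ x in 𝓝 x0, ‖D2 (addPot L f0.1) (x, 0) - D2 (addPot L f0.1) (x0, 0)‖ < ε / 2 :=
        Oset_ev (G := E × E →L[ℝ] E × E →L[ℝ] ℝ) ((continuous_D2 hF.c2).comp hp) x0 (half_pos hε)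
      refine ((cinf_small f0 (‖x0‖ + 1) (half_pos hε)).prod_mk ((hball x0).and h2)).mono ?_
      rintro ⟨f, x⟩ ⟨h3, h4, h5⟩ -
      refine h1 _ ?_
      have h6 := (norm_D2_addPot_sub hF.c2 (f.c2.sub f0.c2) (x, 0)).trans (h3 x h4).2.2
      rw [← e] at h6
      have h7 := norm_sub_le_norm_sub_add_norm_sub (D2 (addPot L f.1) (x, 0))
        (D2 (addPot L f0.1) (x, 0)) (D2 (addPot L f0.1) (x0, 0))
      dsimp only at h5 ⊢
      linarith only [h5, h6, h7]
    · obtain ⟨y, hy⟩ := not_forall.1 hm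
      have hδ : 0 < (addPot L f0.1 (x0, 0) - addPot L f0.1 (y, 0)) / 3 := by
        have := not_le.1 hy
        linarith only [hy]
      have h2 := Metric.tendsto_nhds.1 ((hF.cont.comp hp).tendsto x0) _ hδ
      refine (((cinf_small f0 (‖x0‖ + 1) hδ).and (cinf_small f0 ‖y‖ hδ)).prod_mk
        ((hball x0).and h2)).mono ?_
      rintro ⟨f, x⟩ ⟨⟨h3, h3'⟩, h4, h5⟩ h6
      have h7 := abs_le.1 (h3 x h4).1
      have h8 := abs_le.1 (h3' y le_rfl).1
      have h9 := h6 y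
      rw [Real.dist_eq, abs_lt] at h5
      simp only [addPot, Function.comp_apply] at h5 h7 h8 h9
      linarith only [h5, h7, h8, h9, h5.1, h7.1, h8.2]
  exact key.mono fun f hf x hx => hf x (mem_closedBall_zero_iff.2 hx)

theorem Oset_smul {q : E → ℝ} (hq : ContDiff ℝ 2 q) (ε : ℝ) (x : E) :
    fderiv ℝ (fderiv ℝ fun y => ε * q y) x = ε • fderiv ℝ (fderiv ℝ q) x := by
  have e : (fderiv ℝ fun y => ε * q y) = fun y => ε • fderiv ℝ q y :=
    funext fun y => fderiv_const_mul (hq.differentiable two_ne_zero y) ε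
  have h : ContDiff ℝ 1 (fderiv ℝ q) := hq.fderiv_right (by norm_num)
  rw [e, fderiv_fun_const_smul (h.differentiable one_ne_zero x)]

theorem Oset_pert {F : E × E → ℝ} (hF : ContDiff ℝ 2 F) {q : E → ℝ} (hq : ContDiff ℝ 2 q) (x : E)
    (h : ∃ μ : ℝ, 0 < μ ∧ ∀ w : E, μ * ‖w‖ ^ 2 ≤ fderiv ℝ (fderiv ℝ q) x w w) :
    ∀ᶠ ε in 𝓝[>] (0 : ℝ), Coer (D2 (addPot F fun y => ε * q y) (x, 0)) ∨
      NegL (D2 (addPot F fun y => ε * q y) (x, 0)) := by
  by_cases hn : NegL (D2 F (x, 0))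
  · obtain ⟨δ, hδ, h1⟩ := negL_open hn
    have h2 : Continuous fun ε : ℝ => ‖ε‖ * ‖fderiv ℝ (fderiv ℝ q) x‖ :=
      continuous_norm.mul continuous_const
    have h3 := h2.continuousAt.eventually_lt (continuousAt_const (y := δ)) (x₀ := 0)
      (by simpa using hδ)
    filter_upwards [nhdsWithin_le_nhds h3] with ε hε
    refine Or.inr (h1 _ ((norm_D2_addPot_sub hF (contDiff_const.mul hq) _).trans ?_))
    rw [Oset_smul hq]
    exact (ContinuousLinearMap.opNorm_smul_le _ _).trans (le_of_lt hε)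
  · obtain ⟨μ, hμ, h1⟩ := h
    filter_upwards [self_mem_nhdsWithin] with ε hε
    refine Or.inl (coer_of_not_negL hn (mul_pos hε hμ) fun a => ?_)
    rw [D2_addPot hF (contDiff_const.mul hq), Oset_smul hq, mul_assoc]
    exact add_le_add_right (mul_le_mul_of_nonneg_left (h1 a.1) (le_of_lt hε)) _

theorem ogood_dense (hS : Surf Γ) {L : E × E → ℝ} (hL : Tonelli Γ L) (R0 : ℝ) :
    Dense {f : Cinf Γ | Ogood R0 (addPot L f.1)} := by
  refine fun f0 => mem_closure_iff_nhds.2 fun N hN => ?_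
  have hF := hL.addPot f0.c2 f0.inv
  obtain ⟨R1, hR1, hR⟩ := hS.exists_R0
  obtain ⟨x0, -, hx0⟩ := (isCompact_closedBall (0 : E) R1).exists_isMinOn
    (Metric.nonempty_closedBall.2 hR1.le)
    (f := fun x : E => addPot L f0.1 (x, 0)) (hF.cont.comp (by fun_prop)).continuousOn
  have hmin : ∀ y : E, addPot L f0.1 (x0, 0) ≤ addPot L f0.1 (y, 0) := by
    intro y
    obtain ⟨γ, hγ⟩ := hR y
    have h1 := hF.inv γ y 0
    rw [map_zero] at h1
    exact h1 ▸ hx0 (mem_closedBall_zero_iff.2 hγ)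
  obtain ⟨q, q1, q2, q3, q4, q5, q6⟩ := exists_quadPot hS x0
  have q7 : ContDiff ℝ 2 q := q1.of_le (by norm_cast)
  obtain ⟨ε0, hε0, h0⟩ := cinf_add_smul f0 hN q1 q2
  have h1 := (hS.finite_ball ‖x0‖ R0).eventually_all.2 fun γ _ =>
    Oset_pert hF.c2 q7 (γ • x0) (q6 γ)
  obtain ⟨ε, ⟨h2, h3⟩, h4⟩ := ((h1.and (Ioc_mem_nhdsGT hε0)).and self_mem_nhdsWithin).exists
  obtain ⟨f, hf, he⟩ := h0 ε (by rw [abs_of_pos h3.1]; exact h3.2)
  have e : addPot L f.1 = addPot (addPot L f0.1) fun y => ε * q y := by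
    rw [addPot_addPot]
    exact congrArg _ (funext he)
  refine ⟨f, hf, fun x hx hm => ?_⟩
  rw [e] at hm ⊢
  have h5 : addPot L f0.1 (x, 0) + ε * q x ≤ addPot L f0.1 (x0, 0) + ε * q x0 := hm x0
  have h6 := hmin x
  rw [q3, mul_zero] at h5
  obtain ⟨γ, rfl⟩ := q5 x (le_antisymm (le_of_mul_le_mul_left (by linarith only [h5, h6]) h3.1) (q4 x))
  exact h2 γ ⟨x0, le_rfl, hx⟩

theorem resid {X : Type} [TopologicalSpace X] {b : ℕ} {G : Set ((Fin b → ℝ) × X)} (hG : IsOpen G)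
    (hd : ∀ (x0 : X) (N : Set X), N ∈ 𝓝 x0 → ∃ x ∈ N, ∀ᵐ t : Fin b → ℝ, (t, x) ∈ G) :
    ∀ᶠ x in residual X, ∀ᵐ t : Fin b → ℝ, (t, x) ∈ G := by
  have key : ∀ m n : ℕ, ∀ᶠ x in residual X,
      volume (Metric.ball (0 : Fin b → ℝ) m \ {t | (t, x) ∈ G}) < (n : ENNReal)⁻¹ := by
    intro m n
    refine residual_of_dense_open (isOpen_iff_mem_nhds.2 fun x0 h0 => ?_)
      fun x0 => mem_closure_iff_nhds.2 fun N hN => ?_
    · obtain ⟨r, hr, h1⟩ := ENNReal.lt_iff_exists_add_pos_lt.1 h0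
      have hU : IsOpen (Metric.ball (0 : Fin b → ℝ) m ∩ {t | (t, x0) ∈ G}) :=
        Metric.isOpen_ball.inter (hG.preimage (by fun_prop))
      obtain ⟨K, k1, k2, k3⟩ := hU.measurableSet.exists_isCompact_sdiff_lt (μ := volume)
        ((measure_mono inter_subset_left).trans_lt measure_ball_lt_top).ne
        (ENNReal.coe_ne_zero.2 hr.ne')
      have h2 := k2.eventually_forall_of_forall_eventually (x₀ := x0)
        (P := fun x t => (t, x) ∈ G) fun t ht =>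
          (hG.preimage continuous_swap).mem_nhds (k1 ht).2
      refine h2.mono fun x hx => lt_of_le_of_lt ?_ h1
      refine le_trans (measure_mono fun t ht => ?_)
        ((measure_union_le _ _).trans (add_le_add_right k3.le _))
      by_cases h3 : (t, x0) ∈ G
      · exact Or.inr ⟨⟨ht.1, h3⟩, fun h4 => ht.2 (hx t h4)⟩
      · exact Or.inl ⟨ht.1, h3⟩
    · obtain ⟨x, hx, h1⟩ := hd x0 N hN
      refine ⟨x, hx, lt_of_le_of_lt (measure_mono fun t ht => ht.2) ?_⟩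
      exact (ae_iff.1 h1).trans_lt (ENNReal.inv_pos.2 (ENNReal.natCast_ne_top n))
  filter_upwards [eventually_countable_forall.2 fun m => eventually_countable_forall.2 (key m)]
    with x hx
  refine ae_iff.2 (measure_mono_null (fun t ht => ?_) (measure_iUnion_null fun m : ℕ => ?_)
    (t := ⋃ m : ℕ, Metric.ball (0 : Fin b → ℝ) m \ {t | (t, x) ∈ G}))
  · obtain ⟨m, hm⟩ := exists_nat_gt (dist t 0)
    exact mem_iUnion.2 ⟨m, hm, ht⟩
  · by_contra h1
    obtain ⟨n, hn⟩ := ENNReal.exists_inv_nat_lt h1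
    exact lt_asymm hn (hx m n)

end Pool.Agent.Work.MP_1ce82a_an
end

-- merged part: Pool.Agent.Work.MP_1ce82a_an.P.Ret
section
/-! Returns to the section for perturbed calibrated curves.
PLAN. x is calibrated by some u0 (exists_inS), so it is an orbit. ret: cc_R with S = 0, T = P + 2 and sec_cross for (s, P) and (s^-1, -P) (Perd.nxt_self with k = 1, -1). Differentiability of z from CalR.isOrbit for addPot F p.1
(Tonelli.addPot with nb_adm). enter: cc_R with S = P applied to rho z, then sec_cross with rho = 1, s0 = 0 for the curve t -> rho z (t - s). chain: replace delta1 by min delta1 (min r0 1); induction upwards and downwards with ret, tight,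
nb_smul, nxt_nxt, nxt_prev; |tk k| <= |k| (P+1). pair_of_start: graph_unif on a ball containing x [0,P+1] with margin 1, and ret; IsOrbit.orbOn. -/

open Set Filter Topology MeasureTheory
open scoped ContDiff

namespace Pool.Agent.Work.MP_1ce82a_an

variable {Γ : Grp}

theorem Ret_diff {F : E × E → ℝ} (hF : Tonelli Γ F) {p : Par Γ} (hp : Adm F p) {u : E → ℝ}
    (hu : InS (addPot F p.1) p.2 u) {z : ℝ → E} (hz : CalR (addPot F p.1) u z) :
    IsOrbit (addPot F p.1) z :=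
  hz.isOrbit (hF.addPot hp.1 hp.2.1).ton0 hu.2

theorem Ret_mono {d : Fin 4} {x z : ℝ → E} {δ δ' : ℝ} (h : Start d x δ z) (hδ : δ ≤ δ') :
    Start d x δ' z := ⟨h.1, h.2.trans hδ⟩

theorem Ret_ind {G : ℤ → ℝ → Prop} {P δ B : ℝ} (hP : 0 < P) (hδ : δ ≤ 1) (h0 : G 0 0)
    (up : ∀ k s, G k s → |s| + (P + 1) ≤ B → ∃ t, |t - s - P| ≤ δ ∧ G (k + 1) t)
    (dn : ∀ k s, G k s → |s| + (P + 1) ≤ B → ∃ t, |t - s + P| ≤ δ ∧ G (k - 1) t) (m : ℕ) :
    (m : ℝ) * (P + 1) ≤ B → ∃ tk : ℤ → ℝ, tk 0 = 0 ∧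
      (∀ k : ℤ, |k| ≤ m → G k (tk k) ∧ |tk k| ≤ m * (P + 1)) ∧
      ∀ k : ℤ, -(m : ℤ) ≤ k → k < m → |tk (k + 1) - tk k - P| ≤ δ := by
  induction m with
  | zero =>
    intro _
    refine ⟨fun _ => 0, rfl, fun k hk => ?_, fun k h1 h2 => ?_⟩
    · have : k = 0 := by
        have := abs_nonneg k
        have h3 : |k| = 0 := by push_cast at hk; omega
        exact abs_eq_zero.mp h3
      subst this
      exact ⟨h0, by simp⟩
    · exfalso
      push_cast at h1 h2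
      omega
  | succ m ih =>
    intro hB
    push_cast at hB
    obtain ⟨tk, ht0, hG, hd⟩ := ih (by linarith only [hP, hB])
    have hm1 : |(m : ℤ)| ≤ m := by rw [abs_of_nonneg (by omega)]
    have hm2 : |-(m : ℤ)| ≤ m := by rw [abs_neg]; exact hm1
    obtain ⟨a, ha, hGa⟩ := up m (tk m) (hG m hm1).1 (by have := (hG m hm1).2; linarith only [hB, this])
    obtain ⟨b, hb, hGb⟩ := dn (-m) (tk (-m)) (hG _ hm2).1 (by have := (hG _ hm2).2; linarith only [hB, this])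
    refine ⟨fun k => if k = m + 1 then a else if k = -m - 1 then b else tk k, ?_, ?_, ?_⟩
    · simp only
      rw [if_neg (by omega), if_neg (by omega), ht0]
    · intro k hk
      have hk' := abs_le.mp hk
      push_cast at hk' ⊢
      by_cases e1 : k = m + 1
      · rw [if_pos e1, e1]
        refine ⟨hGa, ?_⟩
        have h1 := abs_le.mp ha
        have h2 := abs_le.mp (hG m hm1).2
        rw [abs_le]
        constructor <;> linarith only [hP, hδ, h1, h2]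
      · rw [if_neg e1]
        by_cases e2 : k = -m - 1
        · rw [if_pos e2, e2]
          refine ⟨hGb, ?_⟩
          have h1 := abs_le.mp hb
          have h2 := abs_le.mp (hG _ hm2).2
          rw [abs_le]
          constructor <;> linarith only [hδ, h1, h2, hP]
        · rw [if_neg e2]
          have h3 : |k| ≤ m := abs_le.mpr ⟨by omega, by omega⟩
          exact ⟨(hG k h3).1, (hG k h3).2.trans (by linarith only [hP])⟩
    · intro k h1 h2
      push_cast at h1 h2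
      simp only
      by_cases e1 : k = m
      · subst e1
        rw [if_pos rfl, if_neg (by omega), if_neg (by omega)]
        exact ha
      · by_cases e2 : k = -m - 1
        · subst e2
          rw [if_neg (by omega), if_neg (by omega), if_neg (by omega), if_pos rfl]
          have e : -(m : ℤ) - 1 + 1 = -m := by ring
          rw [e, ← abs_neg]
          have e' : -(tk (-m) - b - P) = b - tk (-m) + P := by ring
          rw [e']
          exact hb
        · rw [if_neg (by omega), if_neg (by omega), if_neg (by omega), if_neg (by omega)]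
          exact hd k (by omega) (by omega)

theorem ret (hS : Surf Γ) {F : E × E → ℝ} (hF : Tonelli Γ F) {c : H1 Γ} (hc : Crit F c)
    {x : ℝ → E} (hx : AllCal F c x) {P : ℝ} {σ : Γ} (hP : Perd x P σ) {d : Fin 4}
    (hd : 0 < X1 d (deriv x 0)) {δ1 : ℝ} (hδ1 : 0 < δ1) : ∃ δ2 : ℝ, 0 < δ2 ∧ ∀ᶠ p in nb F c,
      ∀ u, InS (addPot F p.1) p.2 u → ∀ z, CalR (addPot F p.1) u z → Start d x δ2 z →
        (∀ t ∈ Icc (-(P + 1)) (P + 1), ‖ph z t - ph x t‖ ≤ δ1) ∧
        (∃ T : ℝ, |T - P| ≤ δ1 ∧ Start d x δ1 (nxt σ z T)) ∧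
        ∃ T : ℝ, |T + P| ≤ δ1 ∧ Start d x δ1 (nxt σ⁻¹ z T) := by
  obtain ⟨u0, hu0⟩ := exists_inS hS hF hc
  have hx1 : ContDiff ℝ 1 x := ((hx u0 hu0).isOrbit hF.ton0 hu0.2).1
  have h1 : nxt σ x P = x := by simpa using hP.nxt_self 1
  have h2 : nxt σ⁻¹ x (-P) = x := by simpa using hP.nxt_self (-1)
  obtain ⟨δa, hδa, Ha⟩ := sec_cross hS hx1 hd σ P h1 hδ1
  obtain ⟨δb, hδb, Hb⟩ := sec_cross hS hx1 hd σ⁻¹ (-P) h2 hδ1
  obtain ⟨δ2, hδ2, Hc⟩ := cc_R hS hF hx 0 (P + 1) (lt_min hδ1 (lt_min hδa hδb))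
  refine ⟨δ2, hδ2, ?_⟩
  filter_upwards [Hc, nb_adm F c] with p hp hadm u hu z hz hst
  have hcl : ∀ t ∈ Icc (-(P + 1)) (P + 1), ‖ph z t - ph x t‖ ≤ min δ1 (min δa δb) := by
    intro t ht
    simpa only [zero_add] using hp u hu z hz 0 (by simp) hst.2 t ht
  have hdz : ∀ t, HasDerivAt z (deriv z t) t := fun t =>
    ((Ret_diff hF hadm hu hz).1.differentiable one_ne_zero t).hasDerivAt
  have hP0 := hP.1
  refine ⟨fun t ht => (hcl t ht).trans (min_le_left _ _), Ha z fun t ht => ⟨hdz t, ?_⟩, ?_⟩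
  · exact (hcl t ⟨by linarith only [hP0, ht, ht.1], by linarith only [ht, ht.2]⟩).trans
      ((min_le_right _ _).trans (min_le_left _ _))
  · obtain ⟨T, hT, hs⟩ := Hb z fun t ht => ⟨hdz t,
      (hcl t ⟨by linarith only [ht, ht.1], by linarith only [hP0, ht, ht.2]⟩).trans
        ((min_le_right _ _).trans (min_le_right _ _))⟩
    exact ⟨T, by simpa only [sub_neg_eq_add] using hT, hs⟩

theorem enter (hS : Surf Γ) {F : E × E → ℝ} (hF : Tonelli Γ F) {c : H1 Γ} (hc : Crit F c)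
    {x : ℝ → E} (hx : AllCal F c x) {P : ℝ} {σ : Γ} (hP : Perd x P σ) {d : Fin 4}
    (hd : 0 < X1 d (deriv x 0)) {δ2 : ℝ} (hδ2 : 0 < δ2) : ∃ δ : ℝ, 0 < δ ∧ ∀ᶠ p in nb F c,
      ∀ u, InS (addPot F p.1) p.2 u → ∀ z, CalR (addPot F p.1) u z → z 0 ∈ Nb Γ x P δ →
        ∃ (ρ : Γ) (s : ℝ), |s| ≤ P + 1 ∧ Start d x δ2 (nxt ρ z s) := by
  obtain ⟨u0, hu0⟩ := exists_inS hS hF hc
  have hx1 : ContDiff ℝ 1 x := ((hx u0 hu0).isOrbit hF.ton0 hu0.2).1
  obtain ⟨δa, hδa, Ha⟩ := sec_cross hS hx1 hd (1 : Γ) 0 (nxt_one x) (lt_min hδ2 one_pos)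
  obtain ⟨δ, hδ, Hc⟩ := cc_R hS hF hx P (P + 1) hδa
  refine ⟨δ, hδ, ?_⟩
  filter_upwards [Hc, nb_adm F c] with p hp hadm u hu z hz hN
  obtain ⟨ρ, s, hs, hρ⟩ := hN
  have hP0 := hP.1
  have hw : CalR (addPot F p.1) u (fun t => ρ • z t) :=
    hz.smul hS (hF.addPot hadm.1 hadm.2.1).invL hu.1 ρ
  have hcl := hp u hu _ hw s (abs_le.mpr ⟨by linarith only [hP0, hs, hs.1], hs.2⟩) hρ.le
  have hy := hw.shift (-s)
  obtain ⟨T, hT, hst⟩ := Ha (fun r => ρ • z (r + -s)) fun t ht =>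
    ⟨((Ret_diff hF hadm hu hy).1.differentiable one_ne_zero t).hasDerivAt, by
      have h3 := hcl (t + -s) ⟨by linarith only [ht, hs, ht.1, hs.2], by linarith only [hP0, ht, hs, ht.2, hs.1]⟩
      have e : s + (t + -s) = t := by ring
      rw [e, ← ph_shift (fun t => ρ • z t) (-s) t] at h3
      exact h3⟩
  have hT' := abs_le.mp (hT.trans (min_le_right _ _))
  refine ⟨ρ⁻¹, T - s, abs_le.mpr ⟨by linarith only [hT', hs, hs.2], by linarith only [hP0, hT', hs, hs.1]⟩, ?_⟩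
  have e : nxt ρ⁻¹ z (T - s) = nxt (1 : Γ) (fun r => ρ • z (r + -s)) T := by
    funext t
    simp only [nxt, inv_inv, inv_one, one_smul]
    congr 2
    ring
  rw [e]
  exact Ret_mono hst (min_le_left _ _)

theorem chain (hS : Surf Γ) {F : E × E → ℝ} (hF : Tonelli Γ F) {c : H1 Γ} (hc : Crit F c)
    {x : ℝ → E} (hx : AllCal F c x) {P : ℝ} {σ : Γ} (hP : Perd x P σ) {d : Fin 4}
    (hd : 0 < X1 d (deriv x 0)) {δ1 : ℝ} (hδ1 : 0 < δ1) :
    ∃ δ2 δ : ℝ, 0 < δ2 ∧ δ2 ≤ δ1 ∧ 0 < δ ∧ ∀ᶠ p in nb F c,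
      ∀ u, InS (addPot F p.1) p.2 u → ∀ z, CalR (addPot F p.1) u z → Start d x δ2 z → ∀ n : ℕ,
        (∀ t : ℝ, |t| ≤ n * (P + 1) → z t ∈ Nb Γ x P δ) → ∃ tk : ℤ → ℝ, tk 0 = 0 ∧
          (∀ k : ℤ, |k| ≤ n → Start d x δ2 (nxt (σ ^ k) z (tk k))) ∧
          ∀ k : ℤ, -(n : ℤ) ≤ k → k < n → |tk (k + 1) - tk k - P| ≤ δ1 := by
  obtain ⟨u0, hu0⟩ := exists_inS hS hF hc
  obtain ⟨r0, hr0, Ht⟩ := tight hS hF hu0 (hx u0 hu0) hP hd
  obtain ⟨δa, hδa, Hr⟩ := ret hS hF hc hx hP hd (lt_min hδ1 (lt_min hr0 one_pos))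
  obtain ⟨δ, hδ, Ht⟩ := Ht (min δa δ1) (lt_min hδa hδ1)
  refine ⟨min δa δ1, δ, lt_min hδa hδ1, min_le_right _ _, hδ, ?_⟩
  filter_upwards [Hr, nb_adm F c] with p hp hadm u hu z hz hst n hN
  have hP0 := hP.1
  have hm1 : min δ1 (min r0 1) ≤ 1 := (min_le_right _ _).trans (min_le_right _ _)
  have hm0 : min δ1 (min r0 1) ≤ r0 := (min_le_right _ _).trans (min_le_left _ _)
  have key : ∀ (ρ : Γ) (t : ℝ), |t| ≤ n * (P + 1) →
      Start d x (min δ1 (min r0 1)) (nxt ρ z t) → Start d x (min δa δ1) (nxt ρ z t) := by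
    intro ρ t ht h
    refine ⟨h.1, Ht _ h.1 (h.2.trans hm0) ?_⟩
    have : nxt ρ z t 0 = ρ⁻¹ • z t := by simp only [nxt, add_zero]
    rw [this, nb_smul]
    exact hN t ht
  have hw : ∀ (k : ℤ) (s : ℝ), CalR (addPot F p.1) u (nxt (σ ^ k) z s) := fun k s =>
    hz.nxt hS (hF.addPot hadm.1 hadm.2.1).invL hu.1 _ _
  obtain ⟨tk, h0, h1, h2⟩ := Ret_ind (G := fun k s => Start d x (min δa δ1) (nxt (σ ^ k) z s))
    (B := n * (P + 1)) hP0 hm1 (by simpa only [zpow_zero, nxt_one] using hst)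
    (fun k s hs hB => by
      obtain ⟨T, hT, hT'⟩ := (hp u hu _ (hw k s) (Ret_mono hs (min_le_left _ _))).2.1
      have e : T = s + T - s := by ring
      rw [e, nxt_nxt] at hT'
      have h3 := abs_le.mp (hT.trans hm1)
      refine ⟨s + T, by rw [← e]; exact hT, key _ _ ?_ hT'⟩
      have h4 : |T| ≤ P + 1 := abs_le.mpr ⟨by linarith only [hP0, h3], by linarith only [h3]⟩
      linarith only [hB, h4, abs_add_le s T])
    (fun k s hs hB => by
      obtain ⟨T, hT, hT'⟩ := (hp u hu _ (hw k s) (Ret_mono hs (min_le_left _ _))).2.2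
      have e : T = s + T - s := by ring
      rw [e, nxt_prev] at hT'
      have h3 := abs_le.mp (hT.trans hm1)
      refine ⟨s + T, by rw [← e]; exact hT, key _ _ ?_ hT'⟩
      have h4 : |T| ≤ P + 1 := abs_le.mpr ⟨by linarith only [h3], by linarith only [hP0, h3]⟩
      linarith only [hB, h4, abs_add_le s T]) n le_rfl
  exact ⟨tk, h0, fun k hk => (h1 k hk).1, fun k ha hb => (h2 k ha hb).trans (min_le_left _ _)⟩

theorem pair_of_start (hS : Surf Γ) {F : E × E → ℝ} (hF : Tonelli Γ F) {c : H1 Γ} (hc : Crit F c)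
    {x : ℝ → E} (hx : AllCal F c x) {P : ℝ} {σ : Γ} (hP : Perd x P σ) {d : Fin 4}
    (hd : 0 < X1 d (deriv x 0)) : ∃ Λ : ℝ, 0 ≤ Λ ∧ ∀ δ : ℝ, 0 < δ → ∃ δ2 : ℝ, 0 < δ2 ∧
      ∀ᶠ p in nb F c, ∀ u, InS (addPot F p.1) p.2 u → ∀ (z1 z2 : ℝ → E) (T1 T2 : ℝ),
        CalR (addPot F p.1) u z1 → CalR (addPot F p.1) u z2 → Start d x δ2 z1 → Start d x δ2 z2 →
        |T1 - P| ≤ δ → |T2 - P| ≤ δ → X1 d (nxt σ z1 T1 0) = X1 d (x 0) →
        X1 d (nxt σ z2 T2 0) = X1 d (x 0) → Pair F x P σ d Λ δ p.1 z1 z2 T1 T2 := by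
  have hP0 := hP.1
  obtain ⟨u0, hu0⟩ := exists_inS hS hF hc
  obtain ⟨R, hR⟩ := Lim_bdd (hx u0 hu0 0 (P + 1) (by linarith only [hP0])).1
  obtain ⟨Λ, hΛ, Hg⟩ := graph_unif hF c (R + 1)
  refine ⟨Λ, hΛ, fun δ hδ => ?_⟩
  obtain ⟨δ2, hδ2, Hr⟩ := ret hS hF hc hx hP hd (lt_min hδ one_pos)
  refine ⟨δ2, hδ2, ?_⟩
  filter_upwards [Hr, Hg, nb_adm F c] with p hp hg hadm u hu z1 z2 T1 T2 hz1 hz2 hs1 hs2 hT1 hT2
    hX1 hX2
  have near : ∀ z, CalR (addPot F p.1) u z → Start d x δ2 z → ∀ t ∈ Icc 0 (P + 1),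
      ‖ph z t - ph x t‖ ≤ min δ 1 := fun z hz hs t ht =>
    (hp u hu z hz hs).1 t ⟨by linarith only [hP0, ht, ht.1], ht.2⟩
  have bd : ∀ z, CalR (addPot F p.1) u z → Start d x δ2 z → ∀ t ∈ Icc 0 (P + 1),
      ‖z t‖ ≤ R + 1 := by
    intro z hz hs t ht
    have h1 : ‖z t - x t‖ ≤ 1 :=
      (norm_fst_le (ph z t - ph x t)).trans ((near z hz hs t ht).trans (min_le_right _ _))
    have h2 := norm_sub_norm_le (z t) (x t)
    linarith only [h1, h2, hR, ht, hR t ht]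
  have shad : ∀ z T, CalR (addPot F p.1) u z → Start d x δ2 z → |T - P| ≤ δ →
      X1 d (nxt σ z T 0) = X1 d (x 0) → Shad F x P σ d δ p.1 z T := fun z T hz hs hT hX =>
    ⟨(Ret_diff hF hadm hu hz).orbOn _ _, fun t ht => (near z hz hs t ht).trans (min_le_left _ _),
      hT, hs.1, by simpa only [nxt, add_zero] using hX,
      hz.energy (hF.addPot hadm.1 hadm.2.1).ton0 hu.2 0⟩
  refine ⟨shad _ _ hz1 hs1 hT1 hX1, shad _ _ hz2 hs2 hT2 hX2, fun s hs t ht => ?_⟩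
  exact (hg u hu.2 z1 z2 s t (hz1 _ _ (by linarith only [])) (hz2 _ _ (by linarith only [])) (bd _ hz1 hs1 s hs)
    (bd _ hz2 hs2 t ht)).2.2

end Pool.Agent.Work.MP_1ce82a_an
end

-- merged part: Pool.Agent.Work.MP_1ce82a_an.P.Exp
section
/-! Expansivity near a periodic orbit with trace larger than two, and openness.
PLAN. expp: eps, theta from seq_max; Lambda from pair_of_start; delta from rec3; delta2' from pair_of_start; chain with delta1 = min of these and the given bound; eta k = ht of the k-th returns, |eta k| <= 2 delta2 (norm_eq_ht); rec3 for the pairs at k-1 and k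
(nxt_nxt, CalR.nxt, nb_small). expC_per: nb_self for expp and enter; the midpoint of [a,a+l]; n = floor (l/(2(P+1))) - 1; compare with x itself (mem_nb_self); for l < 2(P+1) take t = a and C large.
open_per: all_near, exists_inS and exists_calR for addPot F p.1, enter; z and nxt s z T (from ret, tightened by chain with n = 1, or by applying expp with the bound delta1) coincide by expp for all n and CalR.uniq, so z is periodic with period T;
CalR.allCal; any other complete calibrated curve enters (enter) and coincides with z by expp; tr_cont with the closeness of ret. -/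

open Set Filter Topology MeasureTheory
open scoped ContDiff

namespace Pool.Agent.Work.MP_1ce82a_an

variable {Γ : Grp}

theorem expp (hS : Surf Γ) {F : E × E → ℝ} (hF : Tonelli Γ F) {c : H1 Γ} (hc : Crit F c)
    {x : ℝ → E} (hx : AllCal F c x) {P : ℝ} {σ : Γ} (hP : Perd x P σ) {d : Fin 4}
    (hd : 0 < X1 d (deriv x 0)) {τ : ℝ} (hτ : IsTr F x P σ τ) (h2 : 2 < τ) {δ0 : ℝ}
    (hδ0 : 0 < δ0) : ∃ δ2 δ θ : ℝ, 0 < δ2 ∧ δ2 ≤ δ0 ∧ 0 < δ ∧ 0 < θ ∧ θ < 1 ∧ ∀ᶠ p in nb F c,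
      ∀ u, InS (addPot F p.1) p.2 u → ∀ z1 z2 : ℝ → E, CalR (addPot F p.1) u z1 →
        CalR (addPot F p.1) u z2 → Start d x δ2 z1 → Start d x δ2 z2 → ∀ n : ℕ,
        (∀ t : ℝ, |t| ≤ n * (P + 1) → z1 t ∈ Nb Γ x P δ ∧ z2 t ∈ Nb Γ x P δ) →
          ‖z2 0 - z1 0‖ ≤ 4 * δ2 * θ ^ n := by
  obtain ⟨u0, hu0⟩ := exists_inS hS hF hc
  have hxo : IsOrbit F x := (hx u0 hu0).isOrbit hF.ton0 hu0.2
  obtain ⟨ε, θ, hε, hθ0, hθ1, hseq⟩ := seq_max h2
  obtain ⟨Λ, hΛ, hpair⟩ := pair_of_start hS hF hc hx hP hd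
  obtain ⟨δr, R, hδr, hrec⟩ := rec3 hS hF hxo hP hd hτ hΛ hε
  obtain ⟨δp, hδp, hpair'⟩ := hpair δr hδr
  obtain ⟨δ2, δ, hδ2, hδ21, hδ, hchain⟩ := chain hS hF hc hx hP hd
    (lt_min hδ0 (lt_min hδr hδp))
  have a0 : min δ0 (min δr δp) ≤ δ0 := min_le_left _ _
  have ar : min δ0 (min δr δp) ≤ δr := (min_le_right _ _).trans (min_le_left _ _)
  have ap : min δ0 (min δr δp) ≤ δp := (min_le_right _ _).trans (min_le_right _ _)
  refine ⟨δ2, δ, θ, hδ2, hδ21.trans a0, hδ, hθ0, hθ1, ?_⟩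
  filter_upwards [hpair', hchain, nb_adm F c, nb_small F c R hδr] with p hp1 hp2 hp3 hp4 u hu z1 z2
    hz1 hz2 hs1 hs2 n hn
  obtain ⟨t1, t10, ht1s, ht1d⟩ := hp2 u hu z1 hz1 hs1 n fun t ht => (hn t ht).1
  obtain ⟨t2, t20, ht2s, ht2d⟩ := hp2 u hu z2 hz2 hs2 n fun t ht => (hn t ht).2
  have hi : InvL Γ (addPot F p.1) := (hF.addPot hp3.1 hp3.2.1).invL
  have hP' : ∀ j : ℤ, -(n : ℤ) ≤ j → j < n → Pair F x P σ d Λ δr p.1 (nxt (σ ^ j) z1 (t1 j))
      (nxt (σ ^ j) z2 (t2 j)) (t1 (j + 1) - t1 j) (t2 (j + 1) - t2 j) := by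
    intro j h1 h2
    have b0 : |j| ≤ n := abs_le.2 ⟨h1, h2.le⟩
    have b1 : |j + 1| ≤ n := abs_le.2 ⟨by omega, by omega⟩
    refine hp1 u hu _ _ _ _ (hz1.nxt hS hi hu.1 _ _) (hz2.nxt hS hi hu.1 _ _)
      ⟨(ht1s j b0).1, (ht1s j b0).2.trans (hδ21.trans ap)⟩
      ⟨(ht2s j b0).1, (ht2s j b0).2.trans (hδ21.trans ap)⟩
      ((ht1d j h1 h2).trans ar) ((ht2d j h1 h2).trans ar) ?_ ?_
    · rw [nxt_nxt]
      exact (ht1s _ b1).1
    · rw [nxt_nxt]
      exact (ht2s _ b1).1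
  have key := hseq n (fun k => ht d (nxt (σ ^ k) z1 (t1 k)) (nxt (σ ^ k) z2 (t2 k))) (2 * δ2)
    (fun k hk => by
      rw [← norm_eq_ht ((ht1s k hk).1.trans (ht2s k hk).1.symm)]
      have := norm_sub_le_norm_sub_add_norm_sub (nxt (σ ^ k) z2 (t2 k) 0) (x 0)
        (nxt (σ ^ k) z1 (t1 k) 0)
      rw [norm_sub_rev (x 0)] at this
      linarith only [this, ht1s, hk, ht2s, (ht1s k hk).2, (ht2s k hk).2])
    (fun k h1 h2 => by
      obtain ⟨j, rfl⟩ : ∃ j, k = j + 1 := ⟨k - 1, by ring⟩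
      have q1 := hP' j (by omega) (by omega)
      have q2 := hP' (j + 1) (by omega) h2
      have q3 := hrec p.1 hp3.1 hp4 _ _ _ _ (t1 (j + 1 + 1) - t1 (j + 1))
        (t2 (j + 1 + 1) - t2 (j + 1)) q1 (by
          rw [nxt_nxt, nxt_nxt]
          exact q2)
      rw [nxt_nxt, nxt_nxt, nxt_nxt, nxt_nxt] at q3
      rw [add_sub_cancel_right]
      exact q3)
  rw [zpow_zero, t10, t20, nxt_one, nxt_one, ← norm_eq_ht (hs1.1.trans hs2.1.symm)] at key
  linarith only [key]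

theorem expC_per (hS : Surf Γ) {F : E × E → ℝ} (hF : Tonelli Γ F) {c : H1 Γ} (hc : Crit F c)
    {x : ℝ → E} (hx : AllCal F c x) {P : ℝ} {σ : Γ} (hP : Perd x P σ) (hv : deriv x 0 ≠ 0)
    {τ : ℝ} (hτ : IsTr F x P σ τ) (h2 : 2 < τ) : ExpC F c x P := by
  obtain ⟨d, hd0⟩ := exists_dir (deriv x 0)
  have hd : 0 < X1 d (deriv x 0) := by
    rw [hd0]
    exact norm_pos_iff.2 hv
  obtain ⟨δ2, δe, θ, hδ2, -, hδe, hθ0, hθ1, he⟩ := expp hS hF hc hx hP hd hτ h2 one_pos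
  obtain ⟨δn, hδn, hn⟩ := enter hS hF hc hx hP hd hδ2
  have he' := nb_self hc he
  have hn' := nb_self hc hn
  simp only [addPot_zero] at he' hn'
  have hP0 := hP.1
  have hl : Real.log θ < 0 := Real.log_neg hθ0 hθ1
  have hδ : 0 < min δe δn := lt_min hδe hδn
  refine ⟨min δe δn, (4 * δ2 + min δe δn) * Real.exp (-(2 * Real.log θ)),
    -Real.log θ / (2 * (P + 1)), hδ, div_pos (by linarith only [hl]) (by linarith only [hθ0, hθ1, hP0]), ?_⟩
  intro u hu z hz a l hl0 hz'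
  obtain ⟨q, hq⟩ : ∃ q : ℝ, l = q * (2 * (P + 1)) := ⟨l / (2 * (P + 1)), by field_simp⟩
  have e : Real.exp (-(2 * Real.log θ)) * Real.exp (-(-Real.log θ / (2 * (P + 1)) * l)) =
      Real.exp ((q - 2) * Real.log θ) := by
    rw [← Real.exp_add, hq]
    congr 1
    field_simp
    ring
  rw [mul_assoc, e]
  rcases lt_or_ge q 1 with h1 | h1
  · obtain ⟨ρ, s, hs, hρ⟩ := hz' a ⟨le_rfl, by linarith only [hl0]⟩
    refine ⟨a, ⟨le_rfl, by linarith only [hl0]⟩, ρ, s, hs, hρ.le.trans ?_⟩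
    have : 1 ≤ Real.exp ((q - 2) * Real.log θ) := Real.one_le_exp (by (refine le_of_not_gt fun h_nl => ?_; linarith only [h_nl, hθ0, hl, hθ1, h1, mul_pos_of_neg_of_neg (Mathlib.Tactic.Linarith.sub_neg_of_lt hθ0) (Mathlib.Tactic.Linarith.sub_neg_of_lt hl), mul_pos_of_neg_of_neg (Mathlib.Tactic.Linarith.sub_neg_of_lt hθ0) (Mathlib.Tactic.Linarith.sub_neg_of_lt h_nl), mul_pos_of_neg_of_neg (Mathlib.Tactic.Linarith.sub_neg_of_lt hθ1) (Mathlib.Tactic.Linarith.sub_neg_of_lt hl), mul_pos_of_neg_of_neg (Mathlib.Tactic.Linarith.sub_neg_of_lt hθ1) (Mathlib.Tactic.Linarith.sub_neg_of_lt h_nl), mul_pos_of_neg_of_neg (Mathlib.Tactic.Linarith.sub_neg_of_lt hl) (Mathlib.Tactic.Linarith.sub_neg_of_lt h1)]))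
    (refine le_of_not_gt fun h_nl => ?_; linarith only [h_nl, hδ2, hθ0, hθ1, this, hδ, mul_pos_of_neg_of_neg (Mathlib.Tactic.Linarith.sub_neg_of_lt hδ2) (Mathlib.Tactic.Linarith.sub_neg_of_lt hθ0), mul_pos_of_neg_of_neg (Mathlib.Tactic.Linarith.sub_neg_of_lt hδ2) (Mathlib.Tactic.Linarith.sub_neg_of_lt hθ1), mul_nonneg_of_nonpos_of_nonpos (le_of_lt (Mathlib.Tactic.Linarith.sub_neg_of_lt hδ2)) (Mathlib.Tactic.Linarith.sub_nonpos_of_le this), mul_pos_of_neg_of_neg (Mathlib.Tactic.Linarith.sub_neg_of_lt hθ0) (Mathlib.Tactic.Linarith.sub_neg_of_lt h_nl), mul_pos_of_neg_of_neg (Mathlib.Tactic.Linarith.sub_neg_of_lt hθ1) (Mathlib.Tactic.Linarith.sub_neg_of_lt h_nl), mul_nonneg_of_nonpos_of_nonpos (le_of_lt (Mathlib.Tactic.Linarith.sub_neg_of_lt hδ)) (Mathlib.Tactic.Linarith.sub_nonpos_of_le this)])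
  · obtain ⟨n, hn1, hn2⟩ : ∃ n : ℕ, (n : ℝ) + 1 ≤ q ∧ q - 2 ≤ n := by
      refine ⟨⌊q - 1⌋₊, ?_, ?_⟩
      · linarith only [h1, Nat.floor_le (show 0 ≤ q - 1 by linarith)]
      · linarith only [Nat.lt_floor_add_one (q - 1)]
    have hn0 : (0 : ℝ) ≤ n := n.cast_nonneg
    have hm : ((n : ℝ) + 1) * (P + 1) ≤ l / 2 := by (refine le_of_not_gt fun h_nl => ?_; linarith only [h_nl, hq, hn1, hθ0, hθ1, hP0, mul_pos_of_neg_of_neg (Mathlib.Tactic.Linarith.sub_neg_of_lt hθ0) (Mathlib.Tactic.Linarith.sub_neg_of_lt h_nl), mul_pos_of_neg_of_neg (Mathlib.Tactic.Linarith.sub_neg_of_lt hθ1) (Mathlib.Tactic.Linarith.sub_neg_of_lt h_nl), mul_nonneg_of_nonpos_of_nonpos (le_of_lt (Mathlib.Tactic.Linarith.sub_neg_of_lt hP0)) (Mathlib.Tactic.Linarith.sub_nonpos_of_le hn1)])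
    have hz0 := hz.shift (a + l / 2)
    obtain ⟨ρ, s, hs, hst⟩ := hn' u hu _ hz0 (nb_mono (min_le_right _ _)
      (hz' _ ⟨by linarith only [hl0], by linarith only [hl0]⟩))
    have hs' := abs_le.1 hs
    have key := he' u hu x _ (hx u hu) (hz0.nxt hS hF.invL hu.1 ρ s)
      ⟨rfl, by rw [sub_self, norm_zero]; exact hδ2.le⟩ hst n (fun t ht => by
        have ht' := abs_le.1 ht
        refine ⟨by simpa using mem_nb_self hP hδe (1 : Γ) t, ?_⟩
        exact (nb_smul ρ⁻¹).2 (nb_mono (min_le_left _ _)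
          (hz' _ ⟨by linarith only [hm, hs', ht', ht'.1], by linarith only [hm, hs', ht', ht'.2]⟩)))
    refine ⟨s + 0 + (a + l / 2), ⟨by linarith only [hm, hs', hP0, hs'.1, mul_nonneg_of_nonpos_of_nonpos (Mathlib.Tactic.Linarith.sub_nonpos_of_le (Mathlib.Tactic.Linarith.natCast_nonneg ℝ n)) (le_of_lt (Mathlib.Tactic.Linarith.sub_neg_of_lt hP0))], by linarith only [hm, hs', hP0, hs'.2, mul_nonneg_of_nonpos_of_nonpos (Mathlib.Tactic.Linarith.sub_nonpos_of_le (Mathlib.Tactic.Linarith.natCast_nonneg ℝ n)) (le_of_lt (Mathlib.Tactic.Linarith.sub_neg_of_lt hP0))]⟩, ρ⁻¹, 0,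
      ⟨le_rfl, hP0.le⟩, key.trans ?_⟩
    have h3 : θ ^ n ≤ Real.exp ((q - 2) * Real.log θ) := by
      rw [← Real.exp_log (pow_pos hθ0 n), Real.log_pow]
      exact Real.exp_le_exp.2 (by (refine le_of_not_gt fun h_nl => ?_; linarith only [h_nl, hθ0, hθ1, hl, hn2, mul_pos_of_neg_of_neg (Mathlib.Tactic.Linarith.sub_neg_of_lt hθ0) (Mathlib.Tactic.Linarith.sub_neg_of_lt h_nl), mul_pos_of_neg_of_neg (Mathlib.Tactic.Linarith.sub_neg_of_lt hθ1) (Mathlib.Tactic.Linarith.sub_neg_of_lt h_nl), mul_nonneg_of_nonpos_of_nonpos (le_of_lt (Mathlib.Tactic.Linarith.sub_neg_of_lt hl)) (Mathlib.Tactic.Linarith.sub_nonpos_of_le hn2)]))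
    have h4 := Real.exp_pos ((q - 2) * Real.log θ)
    (refine le_of_not_gt fun h_nl => ?_; linarith only [h_nl, hδ2, h3, hθ0, hθ1, hδ, h4, mul_nonneg_of_nonpos_of_nonpos (le_of_lt (Mathlib.Tactic.Linarith.sub_neg_of_lt hδ2)) (Mathlib.Tactic.Linarith.sub_nonpos_of_le h3), mul_pos_of_neg_of_neg (Mathlib.Tactic.Linarith.sub_neg_of_lt hθ0) (Mathlib.Tactic.Linarith.sub_neg_of_lt h_nl), mul_pos_of_neg_of_neg (Mathlib.Tactic.Linarith.sub_neg_of_lt hθ1) (Mathlib.Tactic.Linarith.sub_neg_of_lt h_nl), mul_pos_of_neg_of_neg (Mathlib.Tactic.Linarith.sub_neg_of_lt hδ) (Mathlib.Tactic.Linarith.sub_neg_of_lt h4)])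

end Pool.Agent.Work.MP_1ce82a_an
end

-- merged part: Pool.Agent.Work.MP_1ce82a_an.P.Open
section
/-! Openness of good periodic pairs.
PLAN. d from exists_dir. all_near, exists_inS and exists_calR for addPot F p.1 (Tonelli.addPot, nb_adm), enter give a complete calibrated z with Start delta2. By ret there is T near P with Start delta1 (nxt s z T), and tight (with a u0 from exists_inS for F)
improves this to Start delta2 because the point lies in Nb. expp for all n gives z 0 = nxt s z T 0, CalR.uniq gives periodicity with period T > 0. CalR.allCal. Any other complete calibrated curve (for u') enters and coincides with z, which is calibrated by u' too.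
tr_cont with the closeness of ret and eps = (tau - 2)/2. -/

open Set Filter Topology MeasureTheory
open scoped ContDiff

namespace Pool.Agent.Work.MP_1ce82a_an

variable {Γ : Grp}

theorem Open_eq {a b : E} {C θ : ℝ} (h0 : 0 < θ) (h1 : θ < 1)
    (h : ∀ n : ℕ, ‖a - b‖ ≤ C * θ ^ n) : a = b := by
  have ht : Tendsto (fun n : ℕ => C * θ ^ n) atTop (𝓝 (C * 0)) :=
    (tendsto_pow_atTop_nhds_zero_of_lt_one h0.le h1).const_mul C
  rw [mul_zero] at ht
  have hle : ‖a - b‖ ≤ 0 := ge_of_tendsto' ht h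
  exact sub_eq_zero.1 (norm_le_zero_iff.1 hle)

theorem Open_mono {d : Fin 4} {x z : ℝ → E} {δ δ' : ℝ} (h : Start d x δ z) (hδ : δ ≤ δ') :
    Start d x δ' z := ⟨h.1, h.2.trans hδ⟩

theorem open_per (hS : Surf Γ) {F : E × E → ℝ} (hF : Tonelli Γ F) {c : H1 Γ} (hc : Crit F c)
    (h : GoodPer F c) : ∀ᶠ p in nb F c, GoodPer (addPot F p.1) p.2 := by
  obtain ⟨x, P, σ, τ, hP, hv, hx, hin, hτ, h2⟩ := h
  obtain ⟨d, hd0⟩ := exists_dir (deriv x 0)
  have hd : 0 < X1 d (deriv x 0) := by rw [hd0]; exact norm_pos_iff.2 hv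
  obtain ⟨u0, hu0⟩ := exists_inS hS hF hc
  have hx0 : CalR F u0 x := hx u0 hu0
  obtain ⟨δt, R, hδt, htr⟩ := tr_cont hS hF (hx0.isOrbit hF.ton0 hu0.2) hP.1 hv hτ
    (show 0 < (τ - 2) / 2 by linarith only [h2])
  obtain ⟨r0, hr0, hti⟩ := tight hS hF hu0 hx0 hP hd
  have hP0 := hP.1
  have hδ1 : 0 < min (min δt r0) (P / 2) := lt_min (lt_min hδt hr0) (by linarith only [hP0])
  have l1 : min (min δt r0) (P / 2) ≤ δt := (min_le_left _ _).trans (min_le_left _ _)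
  have l2 : min (min δt r0) (P / 2) ≤ r0 := (min_le_left _ _).trans (min_le_right _ _)
  have l3 : min (min δt r0) (P / 2) ≤ P / 2 := min_le_right _ _
  obtain ⟨δr, hδr, hret⟩ := ret hS hF hc hx hP hd hδ1
  obtain ⟨δ2, δe, θ, hδ2, h2r, hδe, hθ0, hθ1, hexp⟩ := expp hS hF hc hx hP hd hτ h2 hδr
  obtain ⟨δi, hδi, hti2⟩ := hti δ2 hδ2
  obtain ⟨δn, hδn, hen⟩ := enter hS hF hc hx hP hd hδ2
  have hδ : 0 < min (min δe δi) δn := lt_min (lt_min hδe hδi) hδn
  have m1 : min (min δe δi) δn ≤ δe := (min_le_left _ _).trans (min_le_left _ _)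
  have m2 : min (min δe δi) δn ≤ δi := (min_le_left _ _).trans (min_le_right _ _)
  have m3 : min (min δe δi) δn ≤ δn := min_le_right _ _
  filter_upwards [hret, hexp, hen, all_near hS hF hP hin hδ, nb_adm F c, nb_small F c R hδt]
    with p hret hexp hen hnear hadm hsm
  have hG : Tonelli Γ (addPot F p.1) := hF.addPot hadm.1 hadm.2.1
  have same : ∀ u, InS (addPot F p.1) p.2 u → ∀ z1 z2 : ℝ → E, CalR (addPot F p.1) u z1 →
      CalR (addPot F p.1) u z2 → Start d x δ2 z1 → Start d x δ2 z2 → ∀ t, z2 t = z1 t := by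
    intro u hu z1 z2 h1 h2 s1 s2 t
    have e0 : z2 0 = z1 0 := Open_eq hθ0 hθ1 fun n => hexp u hu z1 z2 h1 h2 s1 s2 n fun r _ =>
      ⟨nb_mono m1 (hnear u hu z1 h1 r), nb_mono m1 (hnear u hu z2 h2 r)⟩
    have := CalR.uniq hG.ton0 hu.2 h2 h1 e0 t
    rwa [zero_add] at this
  obtain ⟨u, hu⟩ := exists_inS hS hG hadm.2.2
  obtain ⟨z0, hz0⟩ := exists_calR hS hG hadm.2.2 hu
  obtain ⟨ρ, s, -, hst⟩ := hen u hu z0 hz0 (nb_mono m3 (hnear u hu z0 hz0 0))
  have hz : CalR (addPot F p.1) u (nxt ρ z0 s) := hz0.nxt hS hG.invL hu.1 ρ s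
  generalize nxt ρ z0 s = z at hst hz
  obtain ⟨hcl, ⟨T, hT, hst1⟩, -⟩ := hret u hu z hz (Open_mono hst h2r)
  have hz1 : CalR (addPot F p.1) u (nxt σ z T) := hz.nxt hS hG.invL hu.1 σ T
  have hst2 : Start d x δ2 (nxt σ z T) :=
    ⟨hst1.1, hti2 _ hst1.1 (hst1.2.trans l2) (nb_mono m2 (hnear u hu _ hz1 0))⟩
  have hT0 : 0 < T := by
    have := (abs_le.1 (hT.trans l3)).1
    linarith only [hδ1, l3, this]
  have hper : Perd z T σ := by
    refine ⟨hT0, fun t => ?_⟩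
    have e : σ⁻¹ • z (T + t) = z t := same u hu z _ hz hz1 hst hst2 t
    rw [add_comm, ← e, smul_inv_smul]
  have hall : AllCal (addPot F p.1) p.2 z := hz.allCal hS hG hu hper
  obtain ⟨hv1, τ1, hτ1, hτ2⟩ := htr p.1 hadm.1 hsm z T (hz.isOrbit hG.ton0 hu.2).1 (hT.trans l1)
    fun t ht => (hcl t ⟨ht.1, by linarith only [hδ1, l3, hθ0, hθ1, ht, ht.2]⟩).trans l1
  refine ⟨z, T, σ, τ1, hper, hv1, hall, ?_, hτ1, ?_⟩
  · intro u' hu' y hy
    obtain ⟨ρ', s', -, hst'⟩ := hen u' hu' y hy (nb_mono m3 (hnear u' hu' y hy 0))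
    refine ⟨ρ', -s', fun t => ?_⟩
    have e : ρ'⁻¹ • y (s' + (t + -s')) = z (t + -s') :=
      same u' hu' z _ (hall u' hu') (hy.nxt hS hG.invL hu'.1 ρ' s') hst hst' (t + -s')
    rw [← e, smul_inv_smul, show s' + (t + -s') = t by ring]
  · have := (abs_le.1 hτ2).1
    linarith only [h2, this]

end Pool.Agent.Work.MP_1ce82a_an
end
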