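import Pool.Agent.Work.MP_1ce82a_an.D.Defs

-- merged part: Pool.Agent.Work.MP_1ce82a_an.D.SV
section
/-! The second variation for antiperiodic variations.
PLAN. sv_nonneg: for r small and sg = 1, -1 let y sg t = x t + sg r zeta t + (t/T) h sg with h sg = s (x 0 - sg r zeta 0) - s (x 0) + sg r dk s (x 0) (zeta 0) = r^2/2 JacT_B s (x 0) (zeta 0) (zeta 0) + o(r^2) (Taylor for r -> s (x 0 + r v), JacT_hB). Then y sg 0 = x 0 + sg r zeta 0 and y sg T = s (x 0 - sg r zeta 0), so adding the two domination inequalities gives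
2 c s <= act (y 1) + act (y (-1)), and c s = act x (CalR.act_eq). Uniform Taylor expansion of F at ph x t (uniform continuity of D2 F near the compact arc, ClsB_tay'): F (Z + a) <= F Z + DF a + (D2 a a + eps |a|^2)/2 with a = sg r ph zeta + (t/T h, h/T); the terms linear in zeta cancel, the integral of DF (t/T h, h/T) is mo T h (fv_orb with h0 = 0). Divide by r^2.
sv_zero: the derivative of mom xi t (xi t) is D2 F (ph xi) (ph xi) (clm_split); ph xi T = - fderiv (tl s) (ph x 0) (ph xi 0) (ph_dk), Perd.ph, and JacT_d2v with z = ph x 0, a = ph xi 0, e = xi 0. sv_addPot: D2_addPot, vpart_addPot. -/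

open Set Filter Topology MeasureTheory
open scoped ContDiff

namespace Pool.Agent.Work.MP_1ce82a_an

variable {Γ : Grp}

/-- The symmetric second difference. -/
theorem SV_diff {g g' g'' : ℝ → ℝ} (h1 : ∀ s, HasDerivAt g (g' s) s)
    (h2 : ∀ s, HasDerivAt g' (g'' s) s) {c δ : ℝ} (hδ : 0 ≤ δ)
    (hc : ∀ s, |s| ≤ δ → g'' s ≤ c) : g δ + g (-δ) ≤ 2 * g 0 + δ ^ 2 * c := by
  have key : ∀ a : ℝ, |a| ≤ δ → g a ≤ g 0 + g' 0 * a + a ^ 2 * c / 2 := fun a ha => by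
    have hl : ∀ s : ℝ, HasDerivAt (fun s : ℝ => a * s) a s := fun s => by
      simpa only [mul_one, id] using (hasDerivAt_id s).const_mul a
    have h := (ClsB_one (g := fun s => -g (a * s)) (g' := fun s => -(g' (a * s) * a))
      (g'' := fun s => -(g'' (a * s) * a * a)) (c := -(a ^ 2 * c))
      (fun s => ((h1 (a * s)).comp s (hl s)).fun_neg)
      (fun s => (((h2 (a * s)).comp s (hl s)).mul_const a).fun_neg) fun s hs => by
        have k1 : |a * s| ≤ δ := by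
          rw [abs_mul, abs_of_nonneg hs.1]
          exact (mul_le_of_le_one_right (abs_nonneg a) hs.2).trans ha
        have k2 := mul_le_mul_of_nonneg_left (hc _ k1) (sq_nonneg a)
        linarith only [k2]).2
    simp only [mul_zero, mul_one] at h
    linarith only [h]
  have k1 := key δ (abs_of_nonneg hδ).le
  have k2 := key (-δ) (by rw [abs_neg]; exact (abs_of_nonneg hδ).le)
  linarith only [k1, k2]

/-- Second order condition for integrals depending on a parameter. -/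
theorem SV_second {G G₁ G₂ : ℝ → ℝ → ℝ} {T : ℝ} (hT : 0 ≤ T)
    (d1 : ∀ t r, HasDerivAt (fun r => G r t) (G₁ r t) r)
    (d2 : ∀ t r, HasDerivAt (fun r => G₁ r t) (G₂ r t) r) (c0 : ∀ r, Continuous (G r))
    (c2 : Continuous fun p : ℝ × ℝ => G₂ p.1 p.2)
    (h : ∀ r, 2 * ∫ t in (0 : ℝ)..T, G 0 t ≤
      (∫ t in (0 : ℝ)..T, G r t) + ∫ t in (0 : ℝ)..T, G (-r) t) :
    0 ≤ ∫ t in (0 : ℝ)..T, G₂ 0 t := by
  have c3 : Continuous (G₂ 0) := c2.comp (Continuous.prodMk_right 0)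
  refine le_of_forall_pos_le_add fun ε hε => ?_
  obtain ⟨η, hη, hηT⟩ : ∃ η : ℝ, 0 < η ∧ T * η ≤ ε := by
    refine ⟨ε / (T + 1), by positivity, ?_⟩
    rw [mul_div_assoc', div_le_iff₀ (by positivity)]
    linarith only [hε]
  have k1 : ∀ᶠ r in 𝓝 (0 : ℝ), ∀ t ∈ Icc 0 T, G₂ r t - G₂ 0 t < η :=
    isCompact_Icc.eventually_forall_of_forall_eventually fun t _ =>
      (c2.sub (c3.comp continuous_snd)).continuousAt.eventually_lt_const (by simpa using hη)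
  obtain ⟨δ, hδ, k2⟩ := Metric.nhds_basis_closedBall.eventually_iff.1 k1
  have k3 : ∫ t in (0 : ℝ)..T, (G δ t + G (-δ) t) ≤
      ∫ t in (0 : ℝ)..T, (2 * G 0 t + δ ^ 2 * (G₂ 0 t + η)) :=
    intervalIntegral.integral_mono_on hT (((c0 _).add (c0 _)).intervalIntegrable _ _)
      (((continuous_const.mul (c0 0)).add
        (continuous_const.mul (c3.add continuous_const))).intervalIntegrable _ _)
      fun t ht => SV_diff (d1 t) (d2 t) hδ.le fun s hs => by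
        have := k2 (show s ∈ Metric.closedBall 0 δ by simpa using hs) t ht
        linarith only [this]
  rw [intervalIntegral.integral_add ((c0 _).intervalIntegrable _ _) ((c0 _).intervalIntegrable _ _),
    intervalIntegral.integral_add (((c0 0).intervalIntegrable _ _).const_mul _)
      ((Continuous.intervalIntegrable (by fun_prop) _ _)),
    intervalIntegral.integral_const_mul, intervalIntegral.integral_const_mul,
    intervalIntegral.integral_add (c3.intervalIntegrable _ _) intervalIntegrable_const,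
    intervalIntegral.integral_const, sub_zero, smul_eq_mul] at k3
  have k4 := h δ
  have k5 : 0 ≤ δ ^ 2 * ((∫ t in (0 : ℝ)..T, G₂ 0 t) + T * η) := by linarith only [k3, k4]
  have k6 := nonneg_of_mul_nonneg_right k5 (pow_pos hδ 2)
  linarith

theorem sv_nonneg (hS : Surf Γ) {F : E × E → ℝ} (hF : Tonelli Γ F) {c : H1 Γ} {u : E → ℝ}
    (hu : InS F c u) {x : ℝ → E} (hx : CalR F u x) {T : ℝ} {σ : Γ} (hP : Perd x T σ) {ζ : ℝ → E}
    (hζ : ContDiff ℝ 1 ζ) (he : ζ T = -dk σ (x 0) (ζ 0)) : 0 ≤ SVq F x T σ ζ := by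
  have ho := hx.isOrbit hF.ton0 hu.2
  have hT := hP.1
  have cx := JacB_ph ho.1
  have cζ := JacB_ph hζ
  have cD := (ClsB_c1 hF.c2).continuous
  have cD2 := continuous_D2 hF.c2
  have cσ := hS.cont σ
  have ck := (hS.contDiff_dk σ).continuous
  have cB : Continuous (JacT_B σ) := (hS.contDiff_dk σ).continuous_fderiv (by simp)
  obtain ⟨h, hh⟩ : ∃ h : ℝ → E,
      h = fun r => σ • (x 0 + r • -ζ 0) - σ • x 0 + r • dk σ (x 0) (ζ 0) := ⟨_, rfl⟩
  obtain ⟨h₁, hh₁⟩ : ∃ h₁ : ℝ → E,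
      h₁ = fun r => dk σ (x 0 + r • -ζ 0) (-ζ 0) + dk σ (x 0) (ζ 0) := ⟨_, rfl⟩
  obtain ⟨h₂, hh₂⟩ : ∃ h₂ : ℝ → E,
      h₂ = fun r => JacT_B σ (x 0 + r • -ζ 0) (-ζ 0) (-ζ 0) := ⟨_, rfl⟩
  have hl : ∀ r : ℝ, HasDerivAt (fun r : ℝ => x 0 + r • -ζ 0) (-ζ 0) r := fun r => by
    simpa only [one_smul, id] using ((hasDerivAt_id r).smul_const (-ζ 0)).const_add (x 0)
  have d1 : ∀ r, HasDerivAt h (h₁ r) r := fun r => by
    rw [hh, hh₁]
    simpa only [one_smul, id] using ((hS.hasDerivAt_smul σ (hl r)).sub_const (σ • x 0)).fun_add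
      ((hasDerivAt_id r).smul_const (dk σ (x 0) (ζ 0)))
  have d2 : ∀ r, HasDerivAt h₁ (h₂ r) r := fun r => by
    rw [hh₁, hh₂]
    simpa only [map_zero, add_zero, Function.comp_apply] using
      (((JacT_hB hS σ _).comp_hasDerivAt r (hl r)).clm_apply
        (hasDerivAt_const r (-ζ 0))).add_const (dk σ (x 0) (ζ 0))
  have c0 : Continuous h := continuous_iff_continuousAt.2 fun r => (d1 r).continuousAt
  have c1 : Continuous h₁ := continuous_iff_continuousAt.2 fun r => (d2 r).continuousAt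
  have c2 : Continuous h₂ := by
    rw [hh₂]
    fun_prop
  have z0 : h 0 = 0 := by simp [hh]
  have z1 : h₁ 0 = 0 := by simp [hh₁]
  have z2 : h₂ 0 = JacT_B σ (x 0) (ζ 0) (ζ 0) := by simp [hh₂]
  have dZ : ∀ t r, HasDerivAt (fun r : ℝ => ph x t + r • ph ζ t + ((t / T) • h r, (1 / T) • h r))
      (ph ζ t + ((t / T) • h₁ r, (1 / T) • h₁ r)) r := fun t r => by
    simpa only [one_smul, id] using (((hasDerivAt_id r).smul_const (ph ζ t)).const_add
      (ph x t)).fun_add (((d1 r).fun_const_smul (t / T)).prodMk ((d1 r).fun_const_smul (1 / T)))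
  have dZ' : ∀ t r, HasDerivAt (fun r : ℝ => ph ζ t + ((t / T) • h₁ r, (1 / T) • h₁ r))
      ((t / T) • h₂ r, (1 / T) • h₂ r) r := fun t r =>
    (((d2 r).fun_const_smul (t / T)).prodMk ((d2 r).fun_const_smul (1 / T))).const_add _
  have dom : ∀ r : ℝ, u (x 0 + r • -ζ 0) + c.1 σ - u (x 0 + r • ζ 0) ≤
      ∫ t in (0 : ℝ)..T, F (ph x t + r • ph ζ t + ((t / T) • h r, (1 / T) • h r)) := fun r => by
    have k1 : ContDiff ℝ 1 fun t : ℝ => x t + r • ζ t + (t / T) • h r :=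
      (ho.1.add (hζ.const_smul r)).add ((contDiff_id.div_const T).smul contDiff_const)
    have k2 := hu.2 _ 0 T (isPath_of_contDiff k1 hT.le)
    have k3 : ∀ t, ph (fun t : ℝ => x t + r • ζ t + (t / T) • h r) t =
        ph x t + r • ph ζ t + ((t / T) • h r, (1 / T) • h r) := fun t =>
      Prod.ext rfl (((JacT_hd ho.1 t).fun_add ((JacT_hd hζ t).fun_const_smul r)).fun_add
        (((hasDerivAt_id t).div_const T).smul_const (h r))).deriv
    have k4 : x T + r • ζ T + (T / T) • h r = σ • (x 0 + r • -ζ 0) := by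
      have k5 := hP.2 0
      rw [zero_add] at k5
      rw [div_self hT.ne', one_smul, k5, he, hh, smul_neg]
      dsimp only
      abel
    simp only [act, k3, k4, zero_div, zero_smul, add_zero] at k2
    rwa [hu.1] at k2
  have key := SV_second hT.le
    (G := fun r t => F (ph x t + r • ph ζ t + ((t / T) • h r, (1 / T) • h r)))
    (G₁ := fun r t => fderiv ℝ F (ph x t + r • ph ζ t + ((t / T) • h r, (1 / T) • h r))
      (ph ζ t + ((t / T) • h₁ r, (1 / T) • h₁ r)))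
    (G₂ := fun r t => D2 F (ph x t + r • ph ζ t + ((t / T) • h r, (1 / T) • h r))
      (ph ζ t + ((t / T) • h₁ r, (1 / T) • h₁ r)) (ph ζ t + ((t / T) • h₁ r, (1 / T) • h₁ r)) +
      fderiv ℝ F (ph x t + r • ph ζ t + ((t / T) • h r, (1 / T) • h r))
        ((t / T) • h₂ r, (1 / T) • h₂ r))
    (fun t r => (hF.c2.differentiable two_ne_zero _).hasFDerivAt.comp_hasDerivAt r (dZ t r))
    (fun t r => ((hasFDerivAt_fderiv hF.c2 _).comp_hasDerivAt r (dZ t r)).clm_apply (dZ' t r))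
    (fun r => hF.cont.comp (by fun_prop)) (by fun_prop) (fun r => by
      have k1 := dom r
      have k2 := dom (-r)
      have k3 := (hx.act_eq hu hP).2
      simp only [z0, zero_smul, smul_zero, add_zero, Prod.mk_zero_zero]
      rw [neg_smul_neg, neg_smul r (ζ 0), ← smul_neg] at k2
      unfold act at k3
      linarith only [k1, k2, k3])
  simp only [z0, z1, z2, zero_smul, smul_zero, add_zero, Prod.mk_zero_zero] at key
  have k6 := fv_orb hF.c2 hT (ho.orbOn 0 T) 0 (JacT_B σ (x 0) (ζ 0) (ζ 0))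
  simp only [fv, smul_zero, zero_add, sub_zero, map_zero] at k6
  rw [intervalIntegral.integral_add (Continuous.intervalIntegrable (by fun_prop) _ _)
    (Continuous.intervalIntegrable (by fun_prop) _ _), k6] at key
  exact key

theorem sv_zero (hS : Surf Γ) {F : E × E → ℝ} (hF : Tonelli Γ F) {x ξ : ℝ → E} {T : ℝ} {σ : Γ}
    (hx : IsOrbit F x) (hP : Perd x T σ) (hξ : IsJacobi F x ξ) (ha : Anti x T σ ξ) :
    SVq F x T σ ξ = 0 := by
  have cx := hx.continuous_ph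
  have cξ := JacB_ph hξ.1
  have cD2 := continuous_D2 hF.c2
  have d : ∀ t, HasDerivAt (fun s => vpart (D2 F (ph x s) (ph ξ s)) (ξ s))
      (D2 F (ph x t) (ph ξ t) (ph ξ t)) t := fun t =>
    ((hξ.2 t).clm_apply (JacT_hd hξ.1 t)).congr_deriv (clm_split _ _ _).symm
  have e1 : ph x T = tl σ (ph x 0) := by rw [← hP.ph hS, zero_add]
  have e2 : ph ξ T = -fderiv ℝ (tl σ) (ph x 0) (ph ξ 0) := by
    rw [← ph_dk hS σ hx.1 hξ.1, ← zero_add T, ← ph_shift, funext ha]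
    exact Prod.ext rfl deriv.fun_neg
  have e3 : ξ T = -dk σ (x 0) (ξ 0) := by rw [← ha, zero_add]
  have e4 := JacT_d2v hS hF.c2 hF.invL σ (ph x 0) (ph ξ 0) (ξ 0)
  rw [SVq, intervalIntegral.integral_eq_sub_of_hasDerivAt (fun t _ => d t)
    (Continuous.intervalIntegrable (by fun_prop) _ _), mo, e1, e2, e3, map_neg, map_neg,
    vpart_apply, vpart_apply, vpart_apply, e4, neg_apply, neg_neg]
  exact (fun a b : ℝ => (by ring : a - (a + b) + b = 0)) _ _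

theorem sv_addPot {F : E × E → ℝ} (hF : ContDiff ℝ 2 F) {h : E → ℝ} (hh : ContDiff ℝ 2 h)
    {z ζ : ℝ → E} (hz : ContDiff ℝ 1 z) (hζ : ContDiff ℝ 1 ζ) (T : ℝ) (σ : Γ) :
    SVq (addPot F h) z T σ ζ =
      SVq F z T σ ζ + ∫ t in (0 : ℝ)..T, fderiv ℝ (fderiv ℝ h) (z t) (ζ t) (ζ t) := by
  have cz := JacB_ph hz
  have cζ := JacB_ph hζ
  have c1 := hz.continuous
  have c2 := hζ.continuous
  have cD2 := continuous_D2 hF
  have ch : Continuous (fderiv ℝ (fderiv ℝ h)) :=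
    (hh.fderiv_right (m := 1) le_rfl).continuous_fderiv one_ne_zero
  simp only [SVq, mo, D2_addPot hF hh, vpart_addPot hF hh]
  rw [intervalIntegral.integral_add (Continuous.intervalIntegrable (by fun_prop) _ _)
    (Continuous.intervalIntegrable (by fun_prop) _ _), add_right_comm]
  rfl

end Pool.Agent.Work.MP_1ce82a_an
end

-- merged part: Pool.Agent.Work.MP_1ce82a_an.D.Cmp
section
/-! Comparison of second variations along two close periodic curves.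
PLAN. k = (1/T1) (- dk s (z1 0) (xi 0) - xi T1); xi T2 = - dk s (z2 0) (xi 0), Surf.lip, and norm (xi T1 - xi T2) <= M0 |T1 - T2| (mean value inequality). D2 F is Lipschitz and bounded on the ball of radius R0 (F is C^3: D2 F is C^1, ContDiff.locallyLipschitz or the mean value inequality on a compact convex set), D2 (addPot F h) by D2_addPot, LipD2 and Small.
ph zeta t = ph xi t + (t k, k). Compare the integrands on [0, T1], bound the integral between T1 and T2. Boundary terms: mo (addPot F h) z_i T_i = vpart (fderiv F (tl s (ph z_i 0))) (vpart_addPot, Perd.ph); the map Z -> vpart (fderiv F (tl s Z)) (JacT_B s Z.1 v v) is Lipschitz on the ball, with constant proportional to |v|^2. -/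

open Set Filter Topology MeasureTheory
open scoped ContDiff

namespace Pool.Agent.Work.MP_1ce82a_an

variable {Γ : Grp}

theorem Cmp_lip {X Y : Type} [NormedAddCommGroup X] [NormedSpace ℝ X] [ProperSpace X]
    [NormedAddCommGroup Y] [NormedSpace ℝ Y] {f : X → Y} (hf : ContDiff ℝ 1 f) (R : ℝ) :
    ∃ K : ℝ, 0 ≤ K ∧ ∀ x y : X, ‖x‖ ≤ R → ‖y‖ ≤ R → ‖f x‖ ≤ K ∧ ‖f x - f y‖ ≤ K * ‖x - y‖ := by
  have hc := isCompact_closedBall (0 : X) R
  have hv := convex_closedBall (0 : X) R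
  obtain ⟨K1, h1⟩ := hf.contDiffOn.exists_lipschitzOnWith (by simp) hv hc
  obtain ⟨K3, h3⟩ := hc.exists_bound_of_continuousOn hf.continuous.continuousOn
  have p1 := K1.coe_nonneg
  have p3 := abs_nonneg K3
  have p4 := le_abs_self K3
  refine ⟨K1 + |K3|, by positivity, fun x y hx hy => ?_⟩
  rw [← mem_closedBall_zero_iff] at hx hy
  exact ⟨(h3 x hx).trans (by linarith only [p4]), (h1.norm_sub_le hx hy).trans (by gcongr; linarith only [p3])⟩

theorem Cmp_bil {X : Type} [NormedAddCommGroup X] [NormedSpace ℝ X] (A : X →L[ℝ] X →L[ℝ] ℝ)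
    {a b : X} {K p q : ℝ} (hA : ‖A‖ ≤ K) (ha : ‖a‖ ≤ p) (hb : ‖b‖ ≤ q) : |A a b| ≤ K * p * q := by
  have h0 : 0 ≤ K := (ContinuousLinearMap.opNorm_nonneg A).trans hA
  have h1 : 0 ≤ p := (norm_nonneg _).trans ha
  refine (A.le_opNorm₂ a b).trans ?_
  gcongr

theorem Cmp_pt {X : Type} [NormedAddCommGroup X] [NormedSpace ℝ X] (A B : X →L[ℝ] X →L[ℝ] ℝ)
    {a w : X} {K δ p e : ℝ} (hA : ‖A‖ ≤ K) (hAB : ‖A - B‖ ≤ δ) (ha : ‖a‖ ≤ p) (hw : ‖w‖ ≤ e) :
    A (a + w) (a + w) ≤ B a a + (K * p * e + K * e * p + K * e * e + δ * p * p) := by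
  have h1 := (abs_le.1 (Cmp_bil A hA ha hw)).2
  have h2 := (abs_le.1 (Cmp_bil A hA hw ha)).2
  have h3 := (abs_le.1 (Cmp_bil A hA hw hw)).2
  have h4 := (abs_le.1 (Cmp_bil (A - B) hAB ha ha)).2
  simp only [ContinuousLinearMap.sub_apply] at h4
  simp only [map_add, ContinuousLinearMap.add_apply]
  linarith only [h1, h2, h3, h4]

theorem Cmp_D2 {F : E × E → ℝ} (h3 : ContDiff ℝ 3 F) (R M : ℝ) : ∃ K : ℝ, 0 ≤ K ∧
    ∀ h : E → ℝ, ContDiff ℝ 2 h → Small R 1 h → LipD2 R M h → ∀ Z W : E × E, ‖Z‖ ≤ R → ‖W‖ ≤ R →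
      ‖D2 (addPot F h) Z‖ ≤ K ∧ ‖D2 (addPot F h) Z - D2 (addPot F h) W‖ ≤ K * ‖Z - W‖ := by
  have hF : ContDiff ℝ 2 F := h3.of_le (by norm_num)
  have h1 : ContDiff ℝ 1 (D2 F) :=
    (h3.fderiv_right (m := 2) (by norm_num)).fderiv_right (m := 1) (by norm_num)
  obtain ⟨K, hK, hb⟩ := Cmp_lip h1 R
  refine ⟨K + 1 + |M|, by positivity, fun h hh hs hl Z W hZ hW => ?_⟩
  have z1 : ‖Z.1‖ ≤ R := (norm_fst_le Z).trans hZ
  have w1 : ‖W.1‖ ≤ R := (norm_fst_le W).trans hW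
  have pM := abs_nonneg M
  constructor
  · have a1 := norm_D2_addPot_sub hF hh Z
    have a2 := (hs Z.1 z1).2.2
    have a3 := (hb Z W hZ hW).1
    have a4 := norm_le_norm_sub_add (D2 (addPot F h) Z) (D2 F Z)
    linarith only [pM, a1, a2, a3, a4]
  · refine ContinuousLinearMap.opNorm_le_bound₂ _ (by positivity) fun a b => ?_
    have a1 := Cmp_bil (D2 F Z - D2 F W) (hb Z W hZ hW).2 (le_refl ‖a‖) (le_refl ‖b‖)
    have a0 : ‖fderiv ℝ (fderiv ℝ h) Z.1 - fderiv ℝ (fderiv ℝ h) W.1‖ ≤ |M| * ‖Z - W‖ :=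
      (hl Z.1 W.1 z1 w1).trans (mul_le_mul (le_abs_self M) (norm_fst_le (Z - W)) (norm_nonneg _) pM)
    have a2 := Cmp_bil _ a0 (norm_fst_le a) (norm_fst_le b)
    simp only [ContinuousLinearMap.sub_apply] at a1 a2 ⊢
    rw [D2_addPot hF hh, D2_addPot hF hh, Real.norm_eq_abs]
    have a3 := abs_le.1 a1
    have a4 := abs_le.1 a2
    have a5 : 0 ≤ ‖Z - W‖ * ‖a‖ * ‖b‖ := by positivity
    rw [abs_le]
    constructor <;> linarith only [a3, a4, a5]

theorem Cmp_bd (hS : Surf Γ) (σ : Γ) {F : E × E → ℝ} (hF : ContDiff ℝ 2 F) (R : ℝ) :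
    ∃ K : ℝ, 0 ≤ K ∧ ∀ (Z W : E × E) (v : E) (p : ℝ), ‖Z‖ ≤ R → ‖W‖ ≤ R → ‖v‖ ≤ p →
      vpart (fderiv ℝ F (tl σ Z)) (JacT_B σ Z.1 v v) ≤
        vpart (fderiv ℝ F (tl σ W)) (JacT_B σ W.1 v v) + K * ‖Z - W‖ * p * p := by
  have h1 : ContDiff ℝ 1 (fun Z => fderiv ℝ F (tl σ Z)) :=
    (hF.fderiv_right (m := 1) (by norm_num)).comp ((contDiff_tl hS σ).of_le (by exact_mod_cast le_top))
  have h2 : ContDiff ℝ 1 (JacT_B σ) :=
    (contDiff_infty_iff_fderiv.1 (hS.contDiff_dk σ)).2.of_le (by exact_mod_cast le_top)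
  obtain ⟨K1, k1, b1⟩ := Cmp_lip h1 R
  obtain ⟨K2, k2, b2⟩ := Cmp_lip h2 R
  refine ⟨2 * (K1 * K2), by positivity, fun Z W v p hZ hW hv => ?_⟩
  have z1 : ‖Z.1‖ ≤ R := (norm_fst_le Z).trans hZ
  have w1 : ‖W.1‖ ≤ R := (norm_fst_le W).trans hW
  have p0 : 0 ≤ p := (norm_nonneg _).trans hv
  have c1 : ‖JacT_B σ Z.1 v v‖ ≤ K2 * p * p := by
    refine ((JacT_B σ Z.1).le_opNorm₂ v v).trans ?_
    have := (b2 Z.1 W.1 z1 w1).1
    gcongr
  have c2 : ‖JacT_B σ Z.1 v v - JacT_B σ W.1 v v‖ ≤ K2 * ‖Z - W‖ * p * p := by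
    refine ((JacT_B σ Z.1 - JacT_B σ W.1).le_opNorm₂ v v).trans ?_
    have := (b2 Z.1 W.1 z1 w1).2.trans (mul_le_mul_of_nonneg_left (norm_fst_le (Z - W)) k2)
    gcongr
  have n0 : ∀ u : E, ‖((0 : E), u)‖ = ‖u‖ := fun u => by simp [Prod.norm_def]
  have d1 : |(fderiv ℝ F (tl σ Z) - fderiv ℝ F (tl σ W)) (0, JacT_B σ Z.1 v v)| ≤
      K1 * ‖Z - W‖ * (K2 * p * p) := by
    refine ((fderiv ℝ F (tl σ Z) - fderiv ℝ F (tl σ W)).le_opNorm _).trans ?_
    rw [n0]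
    have := (b1 Z W hZ hW).2
    gcongr
  have d2 : |fderiv ℝ F (tl σ W) (0, JacT_B σ Z.1 v v - JacT_B σ W.1 v v)| ≤
      K1 * (K2 * ‖Z - W‖ * p * p) := by
    refine ((fderiv ℝ F (tl σ W)).le_opNorm _).trans ?_
    rw [n0]
    have := (b1 W Z hW hZ).1
    gcongr
  rw [← vpart_apply, map_sub] at d2
  rw [ContinuousLinearMap.sub_apply, ← vpart_apply, ← vpart_apply] at d1
  have e1 := (abs_le.1 d1).2
  have e2 := (abs_le.1 d2).2
  linarith only [e1, e2]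

theorem Cmp_ph {ξ : ℝ → E} (hξ : ContDiff ℝ 1 ξ) (k : E) (t : ℝ) :
    ph (fun t => ξ t + t • k) t = ph ξ t + (t • k, k) := by
  refine Prod.ext rfl ?_
  have h := ((hξ.differentiable one_ne_zero t).hasDerivAt.add
    ((hasDerivAt_id t).smul_const k)).deriv
  rw [one_smul] at h
  exact h

theorem Cmp_int {f g : ℝ → ℝ} (hf : Continuous f) (hg : Continuous g) {T1 T2 Q δ B : ℝ}
    (h1 : T1 ∈ Icc 0 Q) (h2 : T2 ∈ Icc 0 Q) (hδ : 0 ≤ δ) (hfg : ∀ t ∈ Icc 0 Q, f t ≤ g t + δ)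
    (hB : ∀ t ∈ Icc 0 Q, |g t| ≤ B) :
    ∫ t in (0 : ℝ)..T1, f t ≤ (∫ t in (0 : ℝ)..T2, g t) + (Q * δ + B * |T1 - T2|) := by
  have a1 : ∫ t in (0 : ℝ)..T1, f t ≤ ∫ t in (0 : ℝ)..T1, (g t + δ) :=
    intervalIntegral.integral_mono_on h1.1 (hf.intervalIntegrable _ _)
      ((hg.add continuous_const).intervalIntegrable _ _)
      fun t ht => hfg t ⟨ht.1, ht.2.trans h1.2⟩
  rw [intervalIntegral.integral_add (hg.intervalIntegrable _ _)
    (continuous_const.intervalIntegrable _ _), intervalIntegral.integral_const, smul_eq_mul,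
    sub_zero] at a1
  have a2 := intervalIntegral.integral_add_adjacent_intervals (μ := volume)
    (hg.intervalIntegrable 0 T2) (hg.intervalIntegrable T2 T1)
  have a3 : ‖∫ t in T2..T1, g t‖ ≤ B * |T1 - T2| :=
    intervalIntegral.norm_integral_le_of_norm_le_const fun t ht =>
      hB t ⟨(le_min h2.1 h1.1).trans ht.1.le, ht.2.trans (max_le h2.2 h1.2)⟩
  have a4 := (abs_le.1 a3).2
  have a5 : T1 * δ ≤ Q * δ := mul_le_mul_of_nonneg_right h1.2 hδ
  linarith only [a1, a2, a4, a5]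

theorem sv_cmp (hS : Surf Γ) (σ : Γ) {F : E × E → ℝ} (h3 : ContDiff ℝ 3 F) (R0 M0 M : ℝ) {P : ℝ}
    (hP : 0 < P) : ∃ C : ℝ, 0 ≤ C ∧ ∀ (h : E → ℝ) (z1 z2 ξ : ℝ → E) (T1 T2 D : ℝ),
      ContDiff ℝ 2 h → Small R0 1 h → LipD2 R0 M h → ContDiff ℝ 1 z1 → ContDiff ℝ 1 z2 →
      ContDiff ℝ 1 ξ → Perd z1 T1 σ → Perd z2 T2 σ → |T1 - P| ≤ P / 4 → |T2 - P| ≤ P / 4 →
      ξ T2 = -dk σ (z2 0) (ξ 0) → D ≤ 1 → |T1 - T2| ≤ D →
      (∀ t ∈ Icc 0 (P + P / 4), ‖ph z1 t‖ ≤ R0 ∧ ‖ph z2 t‖ ≤ R0 ∧ ‖ph ξ t‖ ≤ M0 ∧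
        ‖ph z1 t - ph z2 t‖ ≤ D) →
      ∃ k : E, ‖k‖ ≤ C * D ∧ ξ T1 + T1 • k = -dk σ (z1 0) (ξ 0) ∧
        SVq (addPot F h) z1 T1 σ (fun t => ξ t + t • k) ≤ SVq (addPot F h) z2 T2 σ ξ + C * D := by
  have hF : ContDiff ℝ 2 F := h3.of_le (by norm_num)
  obtain ⟨K0, k0, b0⟩ := hS.lip σ R0
  obtain ⟨K1, k1, b1⟩ := Cmp_D2 h3 R0 M
  obtain ⟨K2, k2, b2⟩ := Cmp_bd hS σ hF R0
  obtain ⟨m, hm⟩ : ∃ m : ℝ, m = |M0| := ⟨_, rfl⟩
  have m0 : 0 ≤ m := hm ▸ abs_nonneg M0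
  have m1 : M0 ≤ m := hm ▸ le_abs_self M0
  obtain ⟨Q, hQ⟩ : ∃ Q : ℝ, Q = P + P / 4 := ⟨_, rfl⟩
  have q0 : 0 ≤ Q := by rw [hQ]; positivity
  obtain ⟨c, hc⟩ : ∃ c : ℝ, c = 2 / P * (K0 * m + m) := ⟨_, rfl⟩
  have c0 : 0 ≤ c := by rw [hc]; positivity
  obtain ⟨e, he⟩ : ∃ e : ℝ, e = (Q + 1) * c := ⟨_, rfl⟩
  have e0 : 0 ≤ e := by rw [he]; positivity
  obtain ⟨δ, hδ⟩ : ∃ δ : ℝ, δ = K1 * m * e + K1 * e * m + K1 * e * e + K1 * m * m := ⟨_, rfl⟩
  have d0 : 0 ≤ δ := by rw [hδ]; positivity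
  refine ⟨c + (Q * δ + K1 * m * m + K2 * m * m), by positivity,
    fun h z1 z2 ξ T1 T2 D hh hs hl hz1 hz2 hξ p1 p2 t1 t2 hx D1 hT hb => ?_⟩
  rw [← hQ] at hb
  have D0 : 0 ≤ D := (abs_nonneg _).trans hT
  have u1 := abs_le.1 t1
  have u2 := abs_le.1 t2
  have i1 : T1 ∈ Icc 0 Q := ⟨p1.1.le, by rw [hQ]; linarith only [u1]⟩
  have i2 : T2 ∈ Icc 0 Q := ⟨p2.1.le, by rw [hQ]; linarith only [u2]⟩
  have i0 : (0 : ℝ) ∈ Icc 0 Q := ⟨le_rfl, q0⟩
  obtain ⟨s1, s2, s3, s4⟩ := hb 0 i0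
  have x0 : ‖ξ 0‖ ≤ m := ((norm_fst_le (ph ξ 0)).trans s3).trans m1
  have mv : ‖ξ T2 - ξ T1‖ ≤ m * D := by
    refine (Convex.norm_image_sub_le_of_norm_deriv_le (C := m)
      (fun t _ => hξ.differentiable one_ne_zero t)
      (fun t ht => ((norm_snd_le (ph ξ t)).trans (hb t ht).2.2.1).trans m1)
      (convex_Icc 0 Q) i1 i2).trans ?_
    rw [Real.norm_eq_abs, abs_sub_comm]
    gcongr
  have dd : ‖(dk σ (z2 0) - dk σ (z1 0)) (ξ 0)‖ ≤ K0 * D * m := by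
    clear * - Γ σ z2 z1 ξ K0 D m b0 R0 s2 s1 s4 k0 x0 D0
    refine (ContinuousLinearMap.le_opNorm _ _).trans ?_
    have a1 := (b0 (z2 0) (z1 0) ((norm_fst_le (ph z2 0)).trans s2)
      ((norm_fst_le (ph z1 0)).trans s1)).2.2.1
    have a2 : ‖z2 0 - z1 0‖ ≤ D := by
      rw [norm_sub_rev]
      exact (norm_fst_le (ph z1 0 - ph z2 0)).trans s4
    have a3 := a1.trans (mul_le_mul_of_nonneg_left a2 k0)
    gcongr
  obtain ⟨k, hk⟩ : ∃ k : E, k = T1⁻¹ • (-dk σ (z1 0) (ξ 0) - ξ T1) := ⟨_, rfl⟩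
  have nk : ‖k‖ ≤ c * D := by
    clear * - Γ σ z1 ξ T1 z2 T2 hx P p1 hP u1 k c D hk K0 m hc dd mv
    have a1 : -dk σ (z1 0) (ξ 0) - ξ T1 =
        (dk σ (z2 0) - dk σ (z1 0)) (ξ 0) + (ξ T2 - ξ T1) := by
      rw [hx, ContinuousLinearMap.sub_apply]
      abel
    have a2 : T1⁻¹ ≤ 2 / P := by
      rw [inv_le_comm₀ p1.1 (by positivity), inv_div]
      linarith only [hP, u1]
    rw [hk, norm_smul, a1, Real.norm_eq_abs, abs_of_pos (inv_pos.2 p1.1), hc]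
    have a3 := (norm_add_le _ _).trans (add_le_add dd mv)
    calc _ ≤ 2 / P * (K0 * D * m + m * D) := by gcongr
      _ = _ := by ring
  refine ⟨k, nk.trans (by clear * - D c Q δ K1 m K2 q0 d0 k1 m0 k2 D0; gcongr; linarith only [q0, d0, k1, m0, k2, show 0 ≤ Q * δ + K1 * m * m + K2 * m * m by clear * - Q δ K1 m K2 q0 d0 k1 m0 k2; positivity]),
    ?_, ?_⟩
  · rw [hk, smul_inv_smul₀ p1.1.ne']
    abel
  have hA := continuous_D2 (Ton_c2 hF hh)
  have hζ : ContDiff ℝ 1 (fun t => ξ t + t • k) := hξ.add (contDiff_id.smul contDiff_const)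
  have f1 : Continuous fun t => D2 (addPot F h) (ph z1 t) (ph (fun t => ξ t + t • k) t)
      (ph (fun t => ξ t + t • k) t) :=
    ((hA.comp (TrCont_ph hz1)).clm_apply (TrCont_ph hζ)).clm_apply (TrCont_ph hζ)
  have f2 : Continuous fun t => D2 (addPot F h) (ph z2 t) (ph ξ t) (ph ξ t) :=
    ((hA.comp (TrCont_ph hz2)).clm_apply (TrCont_ph hξ)).clm_apply (TrCont_ph hξ)
  have I := Cmp_int f1 f2 (δ := δ * D) (B := K1 * m * m) i1 i2 (by positivity) (fun t ht => by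
      clear * - z1 t R0 z2 ξ M0 D F h k δ hb ht K1 b1 hh hs hl e Q c he nk q0 c0 D0 hξ m k1 m1 D1 e0
        hδ
      obtain ⟨r1, r2, r3, r4⟩ := hb t ht
      obtain ⟨g1, g2⟩ := b1 h hh hs hl _ _ r1 r2
      have w : ‖(t • k, k)‖ ≤ e * D := by
        clear * - t k e D Q c he ht nk q0 c0 D0
        rw [Prod.norm_def, he, norm_smul, Real.norm_eq_abs, abs_of_nonneg ht.1, max_le_iff]
        have := ht.2
        have a1 : t * ‖k‖ ≤ Q * (c * D) := by gcongr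
        have a2 : 0 ≤ Q * (c * D) := by positivity
        have a3 : 0 ≤ c * D := by positivity
        constructor <;> linarith only [a1, a3, nk, a2]
      rw [Cmp_ph hξ]
      refine (Cmp_pt _ _ g1 (g2.trans (mul_le_mul_of_nonneg_left r4 k1)) (r3.trans m1) w).trans ?_
      have a4 : K1 * (e * D) * (e * D) ≤ K1 * e * e * D := by
        clear * - K1 e D D1 k1 e0 D0
        have : K1 * e * e * D * D ≤ K1 * e * e * D * 1 := by gcongr
        linarith only [this]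
      rw [hδ]
      linarith only [a4])
    (fun t ht => by
      obtain ⟨r1, r2, r3, r4⟩ := hb t ht
      exact Cmp_bil _ (b1 h hh hs hl _ _ r2 r1).1 (r3.trans m1) (r3.trans m1))
  have J := b2 (ph z1 0) (ph z2 0) (ξ 0) m s1 s2 x0
  have o1 : ph z1 T1 = tl σ (ph z1 0) := by rw [← p1.ph hS 0, zero_add]
  have o2 : ph z2 T2 = tl σ (ph z2 0) := by rw [← p2.ph hS 0, zero_add]
  simp only [SVq, mo, vpart_addPot hF hh, o1, o2, zero_smul, add_zero]
  have a1 : K1 * m * m * |T1 - T2| ≤ K1 * m * m * D := by clear * - K1 m T1 T2 D hT k1 m0; gcongr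
  have a2 : K2 * ‖ph z1 0 - ph z2 0‖ * m * m ≤ K2 * D * m * m := by clear * - m K2 z1 z2 D s4 k2 m0; gcongr
  have a3 : 0 ≤ c * D := by positivity
  have J' : vpart (fderiv ℝ F (tl σ (ph z1 0))) (JacT_B σ (z1 0) (ξ 0) (ξ 0)) ≤
      vpart (fderiv ℝ F (tl σ (ph z2 0))) (JacT_B σ (z2 0) (ξ 0) (ξ 0)) +
        K2 * ‖ph z1 0 - ph z2 0‖ * m * m := J
  linarith only [I, a1, a2, a3, J']

end Pool.Agent.Work.MP_1ce82a_an
end

-- merged part: Pool.Agent.Work.MP_1ce82a_an.D.GQa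
section
/-! A potential which nearly vanishes to first order along a short arc and has a positive transverse Hessian.
PLAN. v = norm V. Phi = bump 0 (1/3) (2/3) 1 has bounded first and second derivatives (compact support), and for rational A, w > 0 the levels A, A + w/3, A + 2w/3, A + w give fa y = Phi ((y - A)/w), so |fa'| <= Cb/w, |fa''| <= Cb/w^2. theta <= v/2 small; be rational within theta of X2 V/v; w rational small compared with eta v and rho; A rational with X1 p < A < X1 p + w; al rational with |X2 p - al - be X1 p| <= theta w;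
vertical levels rational with plateau containing X2 p +- 8 w(1 + ...) and support within rho; delta <= theta w. X1 (z t) increases with speed in [v/2, 3v/2] on the window, so X1 (z t) in [A - w, A + 2w] forces |t - s| <= 8 w/v; for such t the height is inside the plateau and l = X2 - al - be X1 satisfies |l (z t)| <= C theta w (its derivative along z is O(theta)).
Hence near every z t, t in the window, gq q agrees with l^2 fa(X1), whose derivative is 2 l fa Dl + l^2 fa' X1 and whose Hessian on (a, a) is 2 fa (Dl a)^2 + 4 l fa' (Dl a) (X1 a) + l^2 fa'' (X1 a)^2. det2 V a = v (X2 a - (X2 V/v) X1 a) (det2_X) gives |Dl a| >= m0/(2v). The curve spends a time at least w/(3 (3v/2)) in the plateau (cross_time, or pass_lower) and the error terms vanish for |t - s| > 8 w/v.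
kappa = c w m0^2/v^3. -/

open Set Filter Topology MeasureTheory
open scoped ContDiff

namespace Pool.Agent.Work.MP_1ce82a_an

variable {Γ : Grp}

theorem GQa_phi : ∃ Cb : ℝ, 1 ≤ Cb ∧ ∀ u, |deriv (bump 0 1 2 3) u| ≤ Cb ∧
    |deriv (deriv (bump 0 1 2 3)) u| ≤ Cb := by
  have h : HasCompactSupport (bump 0 1 2 3) :=
    HasCompactSupport.intro (isCompact_Icc (a := (0 : ℝ)) (b := 3)) fun u hu => by_contra fun k => by
      have := (bump_pos_iff (a1 := 1) (a2 := 2) one_pos (by norm_num) u).1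
        ((bump_nonneg _ _ _ _ _).lt_of_ne' k)
      exact hu ⟨this.1.le, this.2.le⟩
  have c1 := (contDiff_infty_iff_deriv.1 (bump_contDiff 0 1 2 3)).2
  have c2 := (contDiff_infty_iff_deriv.1 c1).2
  obtain ⟨C1, h1⟩ := c1.continuous.bounded_above_of_compact_support h.deriv
  obtain ⟨C2, h2⟩ := c2.continuous.bounded_above_of_compact_support h.deriv.deriv
  exact ⟨max 1 (max C1 C2), le_max_left _ _, fun u =>
    ⟨(h1 u).trans ((le_max_left _ _).trans (le_max_right _ _)),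
      (h2 u).trans ((le_max_right _ _).trans (le_max_right _ _))⟩⟩

theorem GQa_d1 {φ : ℝ → ℝ} (hφ : Differentiable ℝ φ) (L X : E →L[ℝ] ℝ) (α a : ℝ) (y : E) :
    HasFDerivAt (fun y => (L y - α) ^ 2 * φ (X y - a))
      ((2 * (L y - α) * φ (X y - a)) • L + ((L y - α) ^ 2 * deriv φ (X y - a)) • X) y := by
  have h1 := (L.hasFDerivAt (x := y)).sub_const α
  have h2 := (hφ (X y - a)).hasDerivAt.comp_hasFDerivAt y ((X.hasFDerivAt (x := y)).sub_const a)
  refine ((h1.pow 2).mul h2).congr_fderiv ?_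
  ext <;> simp <;> ring

theorem GQa_d2 {φ : ℝ → ℝ} (hφ : Differentiable ℝ φ) (hφ' : Differentiable ℝ (deriv φ))
    (L X : E →L[ℝ] ℝ) (α a : ℝ) (y b : E) :
    fderiv ℝ (fderiv ℝ fun y => (L y - α) ^ 2 * φ (X y - a)) y b b =
      2 * L b ^ 2 * φ (X y - a) + 4 * deriv φ (X y - a) * L b * ((L y - α) * X b) +
        deriv (deriv φ) (X y - a) * ((L y - α) * X b) ^ 2 := by
  have h1 := (L.hasFDerivAt (x := y)).sub_const α
  have h2 := (hφ (X y - a)).hasDerivAt.comp_hasFDerivAt y ((X.hasFDerivAt (x := y)).sub_const a)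
  have h3 := (((h1.const_mul 2).mul h2).smul_const L).add ((GQa_d1 hφ' L X α a y).smul_const X)
  rw [funext fun y => (GQa_d1 hφ L X α a y).fderiv]
  refine (congrArg (fun M : E →L[ℝ] E →L[ℝ] ℝ => M b b) h3.fderiv).trans ?_
  simp
  ring

/-- The box. -/
def GQa_bx (d : Fin 4) (A B w : ℚ) (hw : 0 < w) : Bx :=
  ⟨d, A, A + w, A + 2 * w, A + 3 * w, B - 11 * w, B - 10 * w, B + 10 * w, B + 11 * w,
    by linarith, by linarith, by linarith, by linarith, by linarith, by linarith⟩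

variable {d : Fin 4} {A B w α β : ℚ} (hw : 0 < w)

theorem GQa_fa (u : ℝ) : (GQa_bx d A B w hw).fa u = bump 0 1 2 3 ((w : ℝ)⁻¹ * u - A / w) := by
  have h : (w : ℝ) ≠ 0 := by exact_mod_cast hw.ne'
  refine congrArg₂ (fun a b => Real.smoothTransition a * Real.smoothTransition b) ?_ ?_
  · simp only [GQa_bx]
    push_cast
    rw [add_sub_cancel_left]
    field_simp
    ring
  · simp only [GQa_bx]
    push_cast
    rw [show (A : ℝ) + 3 * w - (A + 2 * w) = w by ring]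
    field_simp
    ring

theorem GQa_supp {y : E} (h : (GQa_bx d A B w hw).f0 y ≠ 0) :
    ((A : ℝ) < X1 d y ∧ X1 d y < A + 3 * w) ∧ (B : ℝ) - 11 * w < X2 d y ∧ X2 d y < B + 11 * w := by
  have k := (Bump_ne _ y).1 h
  simp only [GQa_bx] at k
  exact_mod_cast k

theorem GQa_out {y : E} (h : X1 d y ∉ Icc (A : ℝ) (A + 3 * w)) :
    gq (GQa_bx d A B w hw, α, β) =ᶠ[𝓝 y] fun _ => 0 := by
  filter_upwards [(isClosed_Icc.preimage (X1 d).continuous).isOpen_compl.mem_nhds h] with x hx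
  have k : (GQa_bx d A B w hw).f0 x = 0 := by_contra fun k =>
    hx ⟨(GQa_supp hw k).1.1.le, (GQa_supp hw k).1.2.le⟩
  rw [gq, k, mul_zero]

theorem GQa_loc {y : E} (h : X2 d y ∈ Ioo ((B : ℝ) - 10 * w) (B + 10 * w)) :
    gq (GQa_bx d A B w hw, α, β) =ᶠ[𝓝 y] fun x => ((X2 d - (β : ℝ) • X1 d) x - α) ^ 2 *
      bump 0 1 2 3 (((w : ℝ)⁻¹ • X1 d) x - A / w) := by
  filter_upwards [(isOpen_Ioo.preimage (X2 d).continuous).mem_nhds h] with x hx
  have k : (GQa_bx d A B w hw).fb (X2 d x) = 1 := Bx.fb_eq_one _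
    (by simp only [GQa_bx]; push_cast; exact hx.1.le) (by simp only [GQa_bx]; push_cast; exact hx.2.le)
  change (X2 d x - α - β * X1 d x) ^ 2 * ((GQa_bx d A B w hw).fa (X1 d x) *
    (GQa_bx d A B w hw).fb (X2 d x)) = (X2 d x - β * X1 d x - α) ^ 2 *
      bump 0 1 2 3 ((w : ℝ)⁻¹ * X1 d x - A / w)
  rw [k, GQa_fa]
  ring

theorem GQa_L {β : ℝ} (hβ : |β| ≤ 2) (a : E) : |X2 d a - β * X1 d a| ≤ 3 * ‖a‖ := by
  have h1 := mul_le_mul hβ (abs_X1_le d a) (abs_nonneg _) zero_le_two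
  have h2 := abs_sub (X2 d a) (β * X1 d a)
  rw [abs_mul] at h2
  linarith only [h1, h2, abs_X2_le d a]

theorem GQa_in {Cb lam M μ : ℝ} (hC : ∀ u, |deriv (bump 0 1 2 3) u| ≤ Cb ∧
    |deriv (deriv (bump 0 1 2 3)) u| ≤ Cb) (hβ : |(β : ℝ)| ≤ 2) (hμ : 0 ≤ μ) {y : E}
    (h : X2 d y ∈ Ioo ((B : ℝ) - 10 * w) (B + 10 * w)) (hl : |X2 d y - β * X1 d y - α| ≤ lam * w) :
    |gq (GQa_bx d A B w hw, α, β) y| ≤ lam ^ 2 * w ^ 2 ∧
      ‖fderiv ℝ (gq (GQa_bx d A B w hw, α, β)) y‖ ≤ (6 * lam + Cb * lam ^ 2) * w ∧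
      ∀ a : E, ‖a‖ ≤ M → μ ≤ |X2 d a - β * X1 d a| →
        2 * μ ^ 2 * bump 0 1 2 3 ((w : ℝ)⁻¹ * X1 d y - A / w) - (12 * lam + lam ^ 2) * Cb * M ^ 2 ≤
          fderiv ℝ (fderiv ℝ (gq (GQa_bx d A B w hw, α, β))) y a a := by
  have w0 : (0 : ℝ) < w := by exact_mod_cast hw
  have e := GQa_loc (A := A) (α := α) (β := β) hw h
  have c1 := contDiff_infty_iff_deriv.1 (bump_contDiff 0 1 2 3)
  have c2 := contDiff_infty_iff_deriv.1 c1.2
  have l0 : 0 ≤ lam := nonneg_of_mul_nonneg_left ((abs_nonneg _).trans hl) w0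
  have C0 : 0 ≤ Cb := (abs_nonneg _).trans (hC 0).1
  have hn : ∀ a : E, |(X2 d y - β * X1 d y - α) * ((w : ℝ)⁻¹ * X1 d a)| ≤ lam * ‖a‖ := fun a => by
    rw [abs_mul, abs_mul, abs_of_pos (inv_pos.2 w0)]
    calc _ ≤ lam * w * ((w : ℝ)⁻¹ * ‖a‖) := by gcongr; exact abs_X1_le d a
      _ = _ := by field_simp
  rw [e.eq_of_nhds, e.fderiv_eq, e.fderiv.fderiv_eq, (GQa_d1 c1.1 _ _ _ _ y).fderiv]
  simp only [GQa_d2 c1.1 c2.1]
  simp only [sub_apply, smul_apply, smul_eq_mul]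
  obtain ⟨p1, p2⟩ := hC ((w : ℝ)⁻¹ * X1 d y - A / w)
  have p3 := bump_nonneg 0 1 2 3 ((w : ℝ)⁻¹ * X1 d y - A / w)
  have p4 := bump_le_one 0 1 2 3 ((w : ℝ)⁻¹ * X1 d y - A / w)
  generalize bump 0 1 2 3 ((w : ℝ)⁻¹ * X1 d y - A / w) = f0 at *
  generalize deriv (bump 0 1 2 3) ((w : ℝ)⁻¹ * X1 d y - A / w) = f1 at *
  generalize deriv (deriv (bump 0 1 2 3)) ((w : ℝ)⁻¹ * X1 d y - A / w) = f2 at *
  generalize X2 d y - β * X1 d y - α = l at *
  refine ⟨?_, ContinuousLinearMap.opNorm_le_bound _ (by positivity) fun a => ?_, fun a h1 h2 => ?_⟩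
  · rw [abs_mul, abs_pow, abs_of_nonneg p3, ← mul_pow]
    exact (mul_le_of_le_one_right (by positivity) p4).trans (pow_le_pow_left₀ (abs_nonneg _) hl 2)
  · have q1 : |2 * l * f0 * (X2 d a - β * X1 d a)| ≤ 2 * (lam * w) * 1 * (3 * ‖a‖) := by
      clear * - l f0 d a β lam w p3 hl p4 l0 hw hβ
      rw [abs_mul, abs_mul, abs_mul, abs_two, abs_of_nonneg p3]
      gcongr
      exact GQa_L hβ a
    have q2 : |f1 * l * (l * ((w : ℝ)⁻¹ * X1 d a))| ≤ Cb * (lam * w) * (lam * ‖a‖) := by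
      clear * - f1 l w d a Cb lam p1 hl C0 hn l0 hw
      rw [abs_mul, abs_mul]
      gcongr
      exact hn a
    have q3 := abs_add_le (2 * l * f0 * (X2 d a - β * X1 d a)) (f1 * l * (l * ((w : ℝ)⁻¹ * X1 d a)))
    rw [Real.norm_eq_abs]
    simp only [add_apply, sub_apply, smul_apply, smul_eq_mul]
    rw [show l ^ 2 * f1 * ((w : ℝ)⁻¹ * X1 d a) = f1 * l * (l * ((w : ℝ)⁻¹ * X1 d a)) by ring]
    linarith only [q1, q2, q3]
  · have M0 : 0 ≤ M := (norm_nonneg _).trans h1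
    have q0 := (hn a).trans (mul_le_mul_of_nonneg_left h1 l0)
    have q1 : |4 * f1 * (X2 d a - β * X1 d a) * (l * ((w : ℝ)⁻¹ * X1 d a))| ≤
        4 * Cb * (3 * M) * (lam * M) := by
      clear * - f1 d a β l w Cb M lam p1 h1 hβ C0 q0 M0
      rw [abs_mul, abs_mul, abs_mul, abs_of_pos (by norm_num : (0 : ℝ) < 4)]
      gcongr
      linarith only [h1, hβ, GQa_L (d := d) hβ a]
    have q2 : |f2 * (l * ((w : ℝ)⁻¹ * X1 d a)) ^ 2| ≤ Cb * (lam * M) ^ 2 := by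
      rw [abs_mul, abs_pow]
      gcongr
    have q3 : μ ^ 2 * f0 ≤ (X2 d a - β * X1 d a) ^ 2 * f0 := by
      rw [← sq_abs (X2 d a - β * X1 d a)]
      gcongr
    clear * - μ f0 lam Cb M d a β f1 l w f2 q3 q1 q2; linarith only [q3, q1, q2, (abs_le.1 q1).1, (abs_le.1 q2).1]

theorem GQa_mv {z : ℝ → E} (hz : ContDiff ℝ 1 z) {V : E} {s η θ t : ℝ} (hη : 0 ≤ η)
    (h : ∀ t ∈ Icc (s - η) (s + η), ‖deriv z t - V‖ ≤ θ) (ht : t ∈ Icc (s - η) (s + η)) :
    ‖z t - z s - (t - s) • V‖ ≤ θ * |t - s| := by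
  have k := (convex_Icc (s - η) (s + η)).norm_image_sub_le_of_norm_hasDerivWithin_le
    (f := fun t => z t - t • V) (f' := fun t => deriv z t - V) (fun t _ =>
      ((((hz.differentiable one_ne_zero) t).hasDerivAt.sub
        ((hasDerivAt_id t).smul_const V)).congr_deriv (by rw [one_smul])).hasDerivWithinAt) h
    (show s ∈ _ from ⟨by linarith, by linarith⟩) ht
  rwa [show z t - t • V - (z s - s • V) = z t - z s - (t - s) • V by rw [sub_smul]; abel] at k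

theorem GQa_int {H : ℝ → ℝ} (hH : Continuous H) {a b c : ℝ} (hab : a ≤ b)
    (h : ∀ t ∈ Icc a b, c ≤ H t) : (b - a) * c ≤ ∫ t in a..b, H t := by
  simpa using intervalIntegral.integral_mono_on (μ := volume) hab
    (continuous_const.intervalIntegrable _ _) (hH.intervalIntegrable _ _) h

theorem GQa_sum {H : ℝ → ℝ} (hH : Continuous H) {s η τ τ0 c e : ℝ} (h0 : 0 ≤ τ0) (h1 : τ0 ≤ τ)
    (h2 : τ ≤ η) (k1 : ∀ t ∈ Icc (s - η) (s + η), τ ≤ |t - s| → 0 ≤ H t)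
    (k2 : ∀ t ∈ Icc (s - η) (s + η), -e ≤ H t)
    (k3 : ∀ t ∈ Icc (s - η) (s + η), |t - s| ≤ τ0 → c - e ≤ H t) :
    2 * τ0 * c - 2 * τ * e ≤ ∫ t in (s - η)..(s + η), H t := by
  have i := fun a b c => intervalIntegral.integral_add_adjacent_intervals (μ := volume)
    (hH.intervalIntegrable a b) (hH.intervalIntegrable b c)
  rw [← i _ (s - τ), ← i (s - τ) (s - τ0), ← i (s - τ0) (s + τ0), ← i (s + τ0) (s + τ)]
  have j1 := GQa_int hH (a := s - η) (b := s - τ) (by linarith only [h2]) fun t ht =>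
    k1 t ⟨ht.1, by linarith only [h0, h1, h2, ht, ht.2]⟩ (le_abs.2 (Or.inr (by linarith [ht.2])))
  have j2 := GQa_int hH (a := s - τ) (b := s - τ0) (by linarith) fun t ht =>
    k2 t ⟨by linarith [ht.1], by linarith only [h0, h1, h2, ht, ht.2]⟩
  have j3 := GQa_int hH (a := s - τ0) (b := s + τ0) (by linarith) fun t ht =>
    k3 t ⟨by linarith [ht.1], by linarith only [h1, h2, ht, ht.2]⟩
      (abs_le.2 ⟨by linarith [ht.1], by linarith [ht.2]⟩)
  have j4 := GQa_int hH (a := s + τ0) (b := s + τ) (by linarith) fun t ht =>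
    k2 t ⟨by linarith only [h0, h1, h2, ht, ht.1], by linarith [ht.2]⟩
  have j5 := GQa_int hH (a := s + τ) (b := s + η) (by linarith only [h2]) fun t ht =>
    k1 t ⟨by linarith only [h0, h1, h2, ht, ht.1], ht.2⟩ (le_abs.2 (Or.inl (by linarith [ht.1])))
  linarith only [j1, j2, j3, j4, j5]

theorem GQa_ev {f : ℝ → ℝ} (hf : Continuous f) (h0 : f 0 = 0) {c : ℝ} (hc : 0 < c) :
    ∀ᶠ θ in 𝓝[>] (0 : ℝ), f θ ≤ c :=
  ((hf.tendsto' 0 0 h0).eventually (Iic_mem_nhds hc)).filter_mono nhdsWithin_le_nhds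

/-- The position of the curve relative to the box. -/
theorem GQa_pos {v θ w D r a1 a2 e1 e2 c2 β : ℝ} (hv : 0 < v) (hw : 0 < w) (h0 : 0 ≤ θ)
    (h1 : θ ≤ v / 2) (h2 : θ ≤ 1 / 8) (hr : |r| = D) (ha1 : |a1| ≤ θ * w) (ha2 : |a2| ≤ θ * w)
    (he1 : |e1| ≤ θ * D) (he2 : |e2| ≤ θ * D) (hc : |c2| ≤ v) (hβ : |β| ≤ 2)
    (hcβ : |c2 - β * v| ≤ θ) :
    (D ≤ w / (8 * v) → |a1 + r * v + e1| ≤ 3 / 8 * w) ∧
      (|a1 + r * v + e1| ≤ 13 / 8 * w → D < 4 * w / v ∧ |a2 + r * c2 + e2| < 9 * w ∧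
        |a2 + r * c2 + e2 - β * (a1 + r * v + e1)| ≤ (3 + 16 / v) * θ * w) := by
  have D0 : 0 ≤ D := hr ▸ abs_nonneg r
  have k1 : |r * v| = D * v := by rw [abs_mul, hr, abs_of_pos hv]
  have k2 := mul_le_mul_of_nonneg_right h1 D0
  have k3 := mul_le_mul_of_nonneg_right h2 hw.le
  refine ⟨fun h => ?_, fun h => ?_⟩
  · rw [le_div_iff₀ (by positivity)] at h
    linarith only [hw, ha1, he1, k1, k2, k3, h, abs_add_three a1 (r * v) e1]
  · have k4 : D * v < 4 * w := by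
      have k := abs_add_three (a1 + r * v + e1) (-a1) (-e1)
      rw [show a1 + r * v + e1 + -a1 + -e1 = r * v by ring, abs_neg, abs_neg] at k
      linarith only [hw, ha1, he1, k1, k2, k3, h, k]
    have k5 : D < 4 * w / v := (lt_div_iff₀ hv).2 k4
    have k6 : |r * c2| ≤ D * v := by rw [abs_mul, hr]; gcongr
    refine ⟨k5, by linarith only [hw, ha2, he2, k2, k3, k4, k6, abs_add_three a2 (r * c2) e2], ?_⟩
    have k7 : |r * (c2 - β * v)| ≤ D * θ := by rw [abs_mul, hr]; gcongr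
    have k8 : |β * a1| ≤ 2 * (θ * w) := by rw [abs_mul]; gcongr
    have k9 : |β * e1| ≤ 2 * (θ * D) := by rw [abs_mul]; gcongr
    have k10 := mul_le_mul_of_nonneg_left k5.le h0
    rw [show a2 + r * c2 + e2 - β * (a1 + r * v + e1) =
      (a2 - β * a1) + r * (c2 - β * v) + (e2 - β * e1) by ring,
      show (3 + 16 / v) * θ * w = 3 * (θ * w) + 4 * (θ * (4 * w / v)) by ring]
    linarith only [ha2, he2, k7, k8, k9, k10, abs_add_three (a2 - β * a1) (r * (c2 - β * v)) (e2 - β * e1), abs_sub a2 (β * a1),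
      abs_sub e2 (β * e1)]

theorem GQa_rat (x : ℝ) {r : ℝ} (hr : 0 < r) : ∃ q : ℚ, |x - q| ≤ r :=
  (exists_rat_near x hr).imp fun _ h => h.le

theorem gq_local (d : Fin 4) (p V : E) (hV : X1 d V = ‖V‖) (hv : V ≠ 0) {m0 M0 ε : ℝ}
    (hm : 0 < m0) (hM : 0 < M0) (hε : 0 < ε) : ∃ θ : ℝ, 0 < θ ∧ ∀ η ρ : ℝ, 0 < η → 0 < ρ →
      ∃ (q : Bx × ℚ × ℚ) (κ δ : ℝ), 0 < κ ∧ 0 < δ ∧ (∀ y, q.1.f0 y ≠ 0 → ‖y - p‖ < ρ) ∧
        ∀ (z : ℝ → E) (s : ℝ), ContDiff ℝ 1 z → ‖z s - p‖ ≤ δ →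
          (∀ t ∈ Icc (s - η) (s + η), ‖deriv z t - V‖ ≤ θ) →
          (∀ t ∈ Icc (s - η) (s + η), |gq q (z t)| ≤ ε * κ ∧ ‖fderiv ℝ (gq q) (z t)‖ ≤ ε * κ) ∧
            ∀ ζ : ℝ → E, Continuous ζ →
              (∀ t ∈ Icc (s - η) (s + η), ‖ζ t‖ ≤ M0 ∧ m0 ≤ |det2 V (ζ t)|) →
              κ ≤ ∫ t in (s - η)..(s + η), fderiv ℝ (fderiv ℝ (gq q)) (z t) (ζ t) (ζ t) := by
  obtain ⟨Cb, C1, hC⟩ := GQa_phi
  have v0 : 0 < ‖V‖ := norm_pos_iff.2 hv
  have c2 := abs_X2_le d V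
  generalize ‖V‖ = v at hV v0 c2
  obtain ⟨μ, hμ⟩ : ∃ μ, μ = m0 / (2 * v) := ⟨_, rfl⟩
  have μ0 : 0 < μ := by rw [hμ]; positivity
  obtain ⟨K, hK⟩ : ∃ K, K = 4 + 16 / v := ⟨_, rfl⟩
  have K0 : 0 < K := by rw [hK]; positivity
  obtain ⟨θ, ⟨⟨t1, t2⟩, t3, t4, t5⟩, θ0⟩ := ((((GQa_ev continuous_id rfl (half_pos v0)).and
    (GQa_ev continuous_id rfl (by norm_num : (0 : ℝ) < 1 / 8))).and
    ((GQa_ev (f := fun θ => θ * M0) (by fun_prop) (by simp) (half_pos hm)).and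
    ((GQa_ev (f := fun θ => (12 * (K * θ) + (K * θ) ^ 2) * Cb * M0 ^ 2) (by fun_prop) (by simp)
      (by positivity : 0 < μ ^ 2 / 32)).and
    (GQa_ev (f := fun θ => 6 * (K * θ) + Cb * (K * θ) ^ 2) (by fun_prop) (by simp)
      (by positivity : 0 < ε * (μ ^ 2 / (4 * v))))))).and self_mem_nhdsWithin).exists
  replace θ0 : 0 < θ := θ0
  replace t1 : θ ≤ v / 2 := t1
  replace t2 : θ ≤ 1 / 8 := t2
  refine ⟨θ, θ0, fun η ρ hη hρ => ?_⟩
  obtain ⟨w, w0, w1⟩ := exists_rat_btwn (show (0 : ℝ) < min 1 (min (ρ / 12) (η * v / 4)) by positivity)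
  have hw : 0 < w := by exact_mod_cast w0
  obtain ⟨w1, w2, w3⟩ : (w : ℝ) < 1 ∧ (w : ℝ) < ρ / 12 ∧ (w : ℝ) < η * v / 4 := by
    simpa only [lt_min_iff] using w1
  obtain ⟨β, hβ⟩ := GQa_rat (X2 d V / v) (div_pos θ0 v0)
  have b1 : |X2 d V - β * v| ≤ θ := by
    rwa [show X2 d V / v - β = (X2 d V - β * v) / v by field_simp, abs_div, abs_of_pos v0,
      div_le_div_iff_of_pos_right v0] at hβ
  have b2 : |(β : ℝ)| ≤ 2 := by
    have k := abs_sub (X2 d V) (X2 d V - β * v)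
    rw [sub_sub_cancel, abs_mul, abs_of_pos v0] at k
    exact le_of_mul_le_mul_right (by linarith only [c2, θ0, t1, b1, k]) v0
  obtain ⟨A, hA⟩ := GQa_rat (X1 d p - 3 / 2 * w) (show (0 : ℝ) < w / 8 by positivity)
  obtain ⟨B, hB⟩ := GQa_rat (X2 d p) w0
  obtain ⟨α, hα⟩ := GQa_rat (X2 d p - β * X1 d p) (mul_pos θ0 w0)
  obtain ⟨A1, A2⟩ := abs_le.1 hA
  obtain ⟨B1, B2⟩ := abs_le.1 hB
  refine ⟨(GQa_bx d A B w hw, α, β), μ ^ 2 / (4 * v) * w, θ * w, by positivity, by positivity,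
    fun y hy => ?_, fun z s hz hs hd => ?_⟩
  · obtain ⟨⟨k1, k2⟩, k3, k4⟩ := GQa_supp hw hy
    rw [norm_eq_X d, map_sub, map_sub]
    refine max_lt (abs_lt.2 ⟨?_, ?_⟩) (abs_lt.2 ⟨?_, ?_⟩) <;> linarith only [w0, w2, A2, k1, A1, k2, B2, k3, B1, k4]
  have pos : ∀ t ∈ Icc (s - η) (s + η),
      (|t - s| ≤ w / (8 * v) → bump 0 1 2 3 ((w : ℝ)⁻¹ * X1 d (z t) - A / w) = 1 ∧
        X1 d (z t) ∈ Icc (A : ℝ) (A + 3 * w)) ∧
      (X1 d (z t) ∈ Icc (A : ℝ) (A + 3 * w) → |t - s| < 4 * w / v ∧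
        X2 d (z t) ∈ Ioo ((B : ℝ) - 10 * w) (B + 10 * w) ∧
        |X2 d (z t) - β * X1 d (z t) - α| ≤ K * θ * w) := fun t ht => by
    have k := GQa_mv hz hη.le hd ht
    obtain ⟨k1, k2⟩ := GQa_pos v0 w0 θ0.le t1 t2 (r := t - s) rfl ((abs_X1_le d _).trans hs)
      ((abs_X2_le d _).trans hs) ((abs_X1_le d _).trans k) ((abs_X2_le d _).trans k) c2 b2 b1
    have e1 : X1 d (z s - p) + (t - s) * v + X1 d (z t - z s - (t - s) • V) =
        X1 d (z t) - X1 d p := by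
      simp only [map_sub, map_smul, smul_eq_mul, hV]
      ring
    have e2 : X2 d (z s - p) + (t - s) * X2 d V + X2 d (z t - z s - (t - s) • V) =
        X2 d (z t) - X2 d p := by
      simp only [map_sub, map_smul, smul_eq_mul]
      ring
    rw [e1] at k1
    rw [e1, e2] at k2
    refine ⟨fun h => ?_, fun h => ?_⟩
    · obtain ⟨k3, k4⟩ := abs_le.1 (k1 h)
      refine ⟨bump_eq_one one_pos (by norm_num) ?_ ?_, by linarith only [w0, A1, k3], by linarith only [w0, A2, k4]⟩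
      · rw [← div_eq_inv_mul, ← sub_div, le_div_iff₀ w0]
        linarith only [A1, k3]
      · rw [← div_eq_inv_mul, ← sub_div, div_le_iff₀ w0]
        linarith only [A2, k4]
    · obtain ⟨k3, k4, k5⟩ := k2 (abs_le.2 ⟨by linarith only [A2, h, h.1], by linarith only [A1, h, h.2]⟩)
      obtain ⟨k6, k7⟩ := abs_lt.1 k4
      refine ⟨k3, ⟨by linarith only [B1, k6], by linarith only [B2, k7]⟩, ?_⟩
      rw [show X2 d (z t) - β * X1 d (z t) - α = (X2 d (z t) - X2 d p - β * (X1 d (z t) - X1 d p)) +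
        (X2 d p - β * X1 d p - α) by ring, show K * θ * w = (3 + 16 / v) * θ * w + θ * w by
          rw [hK]; ring]
      exact (abs_add_le _ _).trans (add_le_add k5 hα)
  have ek : 0 ≤ ε * (μ ^ 2 / (4 * v) * w) := by positivity
  refine ⟨fun t ht => ?_, fun ζ hζ hb => ?_⟩
  · by_cases h : X1 d (z t) ∈ Icc (A : ℝ) (A + 3 * w)
    · obtain ⟨-, k1, k2⟩ := (pos t ht).2 h
      obtain ⟨k3, k4, -⟩ := GQa_in (A := A) hw (M := 0) hC b2 le_rfl k1 k2
      have k5 := mul_le_mul_of_nonneg_right t5 w0.le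
      have k6 : (K * θ) ^ 2 * w ^ 2 ≤ (6 * (K * θ) + Cb * (K * θ) ^ 2) * w := by
        rw [sq (w : ℝ), ← mul_assoc]
        refine mul_le_mul_of_nonneg_right ?_ w0.le
        have k7 := mul_le_mul_of_nonneg_left (w1.le.trans C1) (sq_nonneg (K * θ))
        linarith only [k7, K0, θ0, mul_pos K0 θ0]
      exact ⟨by linarith only [hw, k3, k5, k6], by linarith only [hw, k4, k5]⟩
    · have e := GQa_out (B := B) (α := α) (β := β) hw h
      rw [e.eq_of_nhds, e.fderiv_eq]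
      simpa using ek
  have cg := (gq_contDiff (GQa_bx d A B w hw, α, β)).fderiv_right (m := ∞) (by simp)
  have hH : Continuous fun t =>
      fderiv ℝ (fderiv ℝ (gq (GQa_bx d A B w hw, α, β))) (z t) (ζ t) (ζ t) :=
    (((cg.continuous_fderiv (by simp)).comp hz.continuous).clm_apply hζ).clm_apply hζ
  have out : ∀ t, X1 d (z t) ∉ Icc (A : ℝ) (A + 3 * w) →
      fderiv ℝ (fderiv ℝ (gq (GQa_bx d A B w hw, α, β))) (z t) (ζ t) (ζ t) = 0 := fun t h => by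
    rw [(GQa_out (B := B) (α := α) (β := β) hw h).fderiv.fderiv_eq]
    simp
  have inn : ∀ t ∈ Icc (s - η) (s + η), X1 d (z t) ∈ Icc (A : ℝ) (A + 3 * w) →
      2 * μ ^ 2 * bump 0 1 2 3 ((w : ℝ)⁻¹ * X1 d (z t) - A / w) - μ ^ 2 / 32 ≤
        fderiv ℝ (fderiv ℝ (gq (GQa_bx d A B w hw, α, β))) (z t) (ζ t) (ζ t) := fun t ht h => by
    obtain ⟨-, k1, k2⟩ := (pos t ht).2 h
    refine le_trans (by linarith only [t4]) ((GQa_in (A := A) hw hC b2 μ0.le k1 k2).2.2 _ (hb t ht).1 ?_)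
    have k3 := (hb t ht).2
    have k4 := mul_le_mul b1 ((abs_X1_le d _).trans (hb t ht).1) (abs_nonneg _) θ0.le
    have k5 := abs_sub (v * (X2 d (ζ t) - β * X1 d (ζ t))) ((X2 d V - β * v) * X1 d (ζ t))
    rw [abs_mul, abs_mul, abs_of_pos v0] at k5
    rw [det2_X d, hV, show v * X2 d (ζ t) - X2 d V * X1 d (ζ t) =
      v * (X2 d (ζ t) - β * X1 d (ζ t)) - (X2 d V - β * v) * X1 d (ζ t) by ring] at k3
    rw [hμ, div_le_iff₀ (by positivity)]
    linarith only [t3, k3, k4, k5]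
  refine le_trans (le_of_eq ?_) (GQa_sum hH (τ0 := w / (8 * v)) (τ := 4 * w / v) (c := 2 * μ ^ 2)
    (e := μ ^ 2 / 32) (by positivity) ?_ ?_ (fun t ht h => ?_) (fun t ht => ?_) fun t ht h => ?_)
  · field_simp
    ring
  · rw [div_le_div_iff₀ (by positivity) v0]
    linarith only [mul_pos w0 v0]
  · rw [div_le_iff₀ v0]
    linarith only [w3]
  · exact (out t fun k => ((pos t ht).2 k).1.not_ge h).ge
  · by_cases h : X1 d (z t) ∈ Icc (A : ℝ) (A + 3 * w)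
    · refine le_trans ?_ (inn t ht h)
      have := mul_nonneg (sq_nonneg μ) (bump_nonneg 0 1 2 3 ((w : ℝ)⁻¹ * X1 d (z t) - A / w))
      linarith only [this]
    · rw [out t h]
      linarith only [sq_nonneg μ]
  · obtain ⟨k1, k2⟩ := (pos t ht).1 h
    have k3 := inn t ht k2
    rwa [k1, mul_one] at k3

end Pool.Agent.Work.MP_1ce82a_an
end
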