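import Pool.Agent.Work.MP_1ce82a_an.D.Defs
import Pool.Agent.Work.MP_1ce82a_an.U.Rets
import Pool.Agent.Work.MP_1ce82a_an.D.GQa

-- merged part: Pool.Agent.Work.MP_1ce82a_an.D.Tau
section
/-! The trace of a one sided calibrated periodic orbit.
PLAN. seq_osc: eps = min (1/2) ((2 - tau)/4); r k = eta (k+1)/eta k > 0 satisfies r (k+1) <= A - B/r k with A = tau + eps, B = 1 - eps <= 1; since B/r + r >= 2 B, r (k+1) <= r k - (2 B - A), and r 1 <= A. tr_neg: as in tr_gt_two, with fwd_chainS and rec3; eta k = chi^k sg ht satisfies the recurrence with -tau.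
isTr_sq: Tp x (P+P) (s*s) xi = Tp x P s (Tp x P s xi) (Surf.dk_mul, Perd), cayley for e and phi, Tr_om or pr_lin, om_swap, den_eq_om. deg_of_tr: cayley gives (T+1)^2 e = k x'; take xi = (T+1) e - (k/2) x' if (T+1) e is not a multiple of x', else xi = e - (k'/2) x' (om e phi = 1, om x' phi = 0); so T xi = -xi, den xi = 0 and xi is not a constant multiple of x'.
If det2 (x' t) (xi t) = 0 for all t then the continuous function t -> euclidean product of xi t and x' t has opposite signs at t and t + P (xi t = k x' t by Tr_par, xi (t+P) = -k x'(t+P)), so it vanishes at some t1, xi t1 = 0; differentiating det2 at t1 gives xi' t1 parallel to x' t1, den = 0 and convexity give xi' t1 = 0, so xi = 0 (jacobi_zero after a shift, JacT_shift).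
Shift time so that the good time is P/2; MinP is invariant under shifts for calibrated curves (CalR.uniq, CalR.smul). DegD.tau: den xi = den (T xi) = - den xi; cayley gives (2 + tau) xi = k x'. -/

open Set Filter Topology MeasureTheory
open scoped ContDiff

namespace Pool.Agent.Work.MP_1ce82a_an

variable {Γ : Grp}

theorem seq_osc {τ : ℝ} (hτ : τ < 2) : ∃ (n : ℕ) (ε : ℝ), 0 < ε ∧ ∀ η : ℕ → ℝ,
    (∀ k ≤ n, 0 < η k) →
    (∀ k, k + 2 ≤ n → |η (k + 2) - τ * η (k + 1) + η k| ≤ ε * (η k + η (k + 1))) → False := by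
  obtain ⟨ε, h0, h1, h2⟩ : ∃ ε : ℝ, 0 < ε ∧ ε ≤ 1 / 2 ∧ ε ≤ (2 - τ) / 4 :=
    ⟨min (1 / 2) ((2 - τ) / 4), lt_min one_half_pos (by linarith only [hτ]), min_le_left _ _,
      min_le_right _ _⟩
  have hD : 0 < 2 - τ - 3 * ε := by linarith only [h0, h2]
  obtain ⟨n, hn⟩ := exists_nat_ge ((τ + ε) / (2 - τ - 3 * ε))
  rw [div_le_iff₀ hD] at hn
  refine ⟨n + 2, ε, h0, fun η hp hr => ?_⟩
  have key : ∀ k : ℕ, k ≤ n → η (k + 2) ≤ (τ + ε - k * (2 - τ - 3 * ε)) * η (k + 1) := by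
    intro k
    induction k with
    | zero =>
      intro _
      have a := (abs_le.1 (hr 0 (by omega))).2
      have b := hp 0 (by omega)
      push_cast
      linarith only [a, b, h1, mul_nonneg_of_nonpos_of_nonpos (Mathlib.Tactic.Linarith.sub_nonpos_of_le h1) (le_of_lt (Mathlib.Tactic.Linarith.sub_neg_of_lt b))]
    | succ k ih =>
      intro hk
      have a := (abs_le.1 (hr (k + 1) (by omega))).2
      have b := ih (by omega)
      have hu := hp (k + 1) (by omega)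
      have hw := hp (k + 1 + 1) (by omega)
      push_cast
      rw [show k + 2 = k + 1 + 1 from rfl] at b
      generalize η (k + 1 + 2) = w at *
      generalize η (k + 1 + 1) = v at *
      generalize η (k + 1) = u at *
      have e : τ + ε - (k + 1) * (2 - τ - 3 * ε) =
          τ + ε - k * (2 - τ - 3 * ε) - (2 - τ - 3 * ε) := by ring
      rw [e]
      generalize τ + ε - k * (2 - τ - 3 * ε) = c at *
      have i1 := mul_le_mul_of_nonneg_right b hw.le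
      have i2 := mul_nonneg (mul_nonneg h0.le (show 0 ≤ 1 - ε by linarith only [h0, h1])) (mul_pos hu hu).le
      have i3 : (2 * (1 - ε) - c) * v * u ≤ (1 - ε) * u * u := by
        linarith only [i1, i2, sq_nonneg ((1 - ε) * u - v), sq_nonneg (((1 : ℝ) - ε) * u - v)]
      have i4 := le_of_mul_le_mul_right i3 hu
      linarith only [a, i4]
  have a := key n le_rfl
  have b := mul_nonpos_of_nonpos_of_nonneg (sub_nonpos.2 hn) (hp (n + 1) (by omega)).le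
  linarith only [a, b, hp, hp (n + 2) le_rfl]

theorem tr_neg (hS : Surf Γ) {F : E × E → ℝ} (hF : Tonelli Γ F) {c : H1 Γ} (hc : Crit F c)
    {x : ℝ → E} (hx : AllCal F c x) {P : ℝ} {σ : Γ} (hσ : Neg σ) (hP : Perd x P σ)
    (hv : deriv x 0 ≠ 0) {τ : ℝ} (hτ : IsTr F x P σ τ) : τ ≤ -2 := by
  by_contra hle
  rw [not_le] at hle
  obtain ⟨d, hd0⟩ := exists_dir (deriv x 0)
  have hd : 0 < X1 d (deriv x 0) := by
    rw [hd0]
    exact norm_pos_iff.2 hv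
  obtain ⟨u, Λ, hu, hΛ, hch⟩ := fwd_chainS hS hF hc hx hP hd
  have hxo := (hx u hu).isOrbit hF.ton0 hu.2
  obtain ⟨n, ε, hε, hseq⟩ := seq_osc (τ := -τ) (by linarith)
  obtain ⟨δ, R, hδ, hrec⟩ := rec3 hS hF hxo hP hd hτ hΛ hε
  obtain ⟨z, tk, -, -, -, hpair, sg, hsg, hs⟩ := hch n δ hδ
  have ex : nxt σ x P = x := by
    have := hP.nxt_self 1
    rwa [zpow_one, Int.cast_one, one_mul] at this
  obtain ⟨y, hy⟩ : ∃ y : ℕ → ℝ → E, ∀ k : ℕ, nxt (σ ^ (k : ℤ)) z (tk k) = y k := ⟨_, fun _ => rfl⟩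
  have ey : ∀ k : ℕ, nxt σ (y k) (tk (k + 1) - tk k) = y (k + 1) := fun k => by
    rw [← hy, ← hy, nxt_nxt, Nat.cast_succ]
  simp only [hy, hσ.chi] at hpair hs
  have h1 : ∀ (k : ℕ) (a : ℝ), |(-1) ^ k * sg * a| = |a| := fun k a => by
    rcases hsg with rfl | rfl <;> simp [abs_mul]
  refine hseq (fun k => (-1) ^ k * sg * ht d x (y k)) hs fun k hk => ?_
  have := hrec (fun _ => 0) contDiff_const (small_zero R hδ.le) x (y k) P
    (tk (k + 1) - tk k) P (tk (k + 1 + 1) - tk (k + 1)) (hpair k (by omega))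
    (by rw [ex, ey]; exact hpair (k + 1) (by omega))
  rw [ex, ex, ey, ey, ← h1 k, ← h1 k (ht d x (y k)), ← h1 (k + 1) (ht d x (y (k + 1))),
    abs_of_pos (hs k (by omega)), abs_of_pos (hs (k + 1) (by omega))] at this
  refine le_trans (le_of_eq ?_) this
  congr 1
  ring

theorem Perd.sq {x : ℝ → E} {P : ℝ} {σ : Γ} (hP : Perd x P σ) : Perd x (P + P) (σ * σ) := by
  exact ⟨add_pos hP.1 hP.1, fun t => by rw [← add_assoc, hP.2, hP.2, mul_smul]⟩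

theorem Tau_sq (hS : Surf Γ) {x : ℝ → E} {P : ℝ} {σ : Γ} (hP : Perd x P σ) (ξ : ℝ → E) :
    Tp x (P + P) (σ * σ) ξ = Tp x P σ (Tp x P σ ξ) := by
  funext t
  simp only [Tp]
  rw [hS.dk_mul, ← hP.2, ← sub_sub, sub_add_cancel]

theorem isTr_sq (hS : Surf Γ) {F : E × E → ℝ} (hF : Tonelli Γ F) {x : ℝ → E} {P : ℝ} {σ : Γ}
    (hx : IsOrbit F x) (hP : Perd x P σ) (hv : deriv x 0 ≠ 0) {τ : ℝ} (hτ : IsTr F x P σ τ) :
    IsTr F x (P + P) (σ * σ) (τ ^ 2 - 2) := by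
  have hτ' := hτ
  obtain ⟨e, φ, he, hφ, h0, hde, hdφ, h1, h2⟩ := hτ'
  have hx' := hx.deriv_jacobi hF.c2 hF.conv
  obtain ⟨k, hk⟩ := cayley hS hF hx hP hv hτ he hde
  obtain ⟨l, hl⟩ := cayley hS hF hx hP hv hτ hφ hdφ
  have e1 := Tr_om hx' (Tp_jacobi hS hF.c2 hF.inv hx hP he) he (k := k) (A := τ) (B := -1)
    (fun t => (hk t).trans (by module)) φ
  have e2 := Tr_om hx' (Tp_jacobi hS hF.c2 hF.inv hx hP hφ) hφ (k := l) (A := τ) (B := -1)
    (fun t => (hl t).trans (by module)) e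
  rw [← den_eq_om hF.c2 hF.conv hx, hdφ, h1] at e1
  rw [← den_eq_om hF.c2 hF.conv hx, hde, om_swap F x φ, h1, om_swap F x (Tp x P σ φ)] at e2
  refine ⟨e, φ, he, hφ, h0, hde, hdφ, h1, ?_⟩
  rw [Tau_sq hS hP, Tau_sq hS hP, e1, om_swap F x e (Tp x P σ (Tp x P σ φ)), e2]
  linear_combination τ * h2

theorem Tau_anti {x ξ : ℝ → E} {P : ℝ} {σ : Γ} :
    Anti x P σ ξ ↔ ∀ t, Tp x P σ ξ t = -ξ t := by
  refine ⟨fun h t => ?_, fun h t => ?_⟩
  · have := h (t - P)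
    rw [sub_add_cancel] at this
    rw [this, neg_neg, Tp]
  · have := h (t + P)
    rw [Tp, add_sub_cancel_right] at this
    rw [this, neg_neg]

theorem Tau_den (hS : Surf Γ) {F : E × E → ℝ} (hF : Tonelli Γ F) {x ξ : ℝ → E} {P : ℝ} {σ : Γ}
    (hx : IsOrbit F x) (hP : Perd x P σ) (hξ : IsJacobi F x ξ) (ha : Anti x P σ ξ) :
    den F x ξ 0 = 0 := by
  have h := den_Tp hS hF hx hP hξ
  have e := Tr_om hξ hξ hξ (k := -1) (A := 0) (B := 0)
    (fun t => (Tau_anti.1 ha t).trans (by module)) (deriv x)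
  rw [den_eq_om hF.c2 hF.conv hx, om_swap, e, om_swap F x ξ, ← den_eq_om hF.c2 hF.conv hx] at h
  linarith only [h]

theorem Tau_ex (hS : Surf Γ) {F : E × E → ℝ} (hF : Tonelli Γ F) {x : ℝ → E} {P : ℝ} {σ : Γ}
    (hx : IsOrbit F x) (hP : Perd x P σ) (hv : deriv x 0 ≠ 0) (hτ : IsTr F x P σ (-2)) :
    ∃ ξ, IsJacobi F x ξ ∧ Anti x P σ ξ ∧ ¬ ∀ t, ξ t = 0 := by
  have hτ' := hτ
  obtain ⟨e, φ, he, hφ, -, hde, hdφ, h1, -⟩ := hτ'
  have hx' := hx.deriv_jacobi hF.c2 hF.conv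
  obtain ⟨k, hk⟩ := cayley hS hF hx hP hv hτ he hde
  have hT := Tp_jacobi hS hF.c2 hF.inv hx hP he
  by_cases c : ∀ t, (-(k / 2)) • deriv x t + (1 : ℝ) • Tp x P σ e t + (1 : ℝ) • e t = 0
  · refine ⟨_, Tr_jac hx' he he (-(k / 4)) 1 0, Tau_anti.2 fun t => ?_, fun h => ?_⟩
    · rw [Tr_T hS hP (fun _ => rfl) t]
      linear_combination (norm := module) c t
    · have e1 := Tr_om hx' he he (k := k / 4) (A := 0) (B := 0) (ξ := e)
        (fun t => by linear_combination (norm := module) h t) φ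
      rw [← den_eq_om hF.c2 hF.conv hx, hdφ, h1] at e1
      linarith only [e1]
  · refine ⟨_, Tr_jac hx' hT he (-(k / 2)) 1 1, Tau_anti.2 fun t => ?_, c⟩
    rw [Tr_T hS hP (fun _ => rfl) t, hk]
    module

theorem Tau_shift {F : E × E → ℝ} {x ξ : ℝ → E} (hξ : IsJacobi F x ξ) (s : ℝ) :
    IsJacobi F (fun t => x (t + s)) (fun t => ξ (t + s)) := by
  simpa only [sub_neg_eq_add] using JacT_shift hξ (-s)

theorem Tau_zero {F : E × E → ℝ} (hF : Tonelli Γ F) {x ξ : ℝ → E} (hx : IsOrbit F x)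
    (hξ : IsJacobi F x ξ) (hd : den F x ξ 0 = 0) (h : ∀ t, det2 (deriv x t) (ξ t) = 0) {s : ℝ}
    (hv : deriv x s ≠ 0) (h0 : ξ s = 0) (t : ℝ) : ξ t = 0 := by
  have h1 := JacT_hd (hx.deriv_contDiff hF.c2 hF.conv) s
  have h2 := JacT_hd hξ.1 s
  have a1 : HasDerivAt (fun r => (deriv x r).1) (deriv (deriv x) s).1 s := h1.fst
  have a2 : HasDerivAt (fun r => (deriv x r).2) (deriv (deriv x) s).2 s := h1.snd
  have b1 : HasDerivAt (fun r => (ξ r).1) (deriv ξ s).1 s := h2.fst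
  have b2 : HasDerivAt (fun r => (ξ r).2) (deriv ξ s).2 s := h2.snd
  have h3 := ((a1.fun_mul b2).fun_sub (a2.fun_mul b1)).unique
    ((hasDerivAt_const s (0 : ℝ)).congr_of_eventuallyEq (Eventually.of_forall h))
  obtain ⟨l, hl⟩ := Tr_par (w := deriv ξ s) hv (by simpa [h0, det2] using h3)
  have h4 : ph ξ s = l • ((0, deriv x s) : E × E) :=
    Prod.ext (h0.trans (smul_zero l).symm) hl
  rw [← den_const hF.c2 hF.conv hx hξ s, den, h0, map_zero, sub_zero, mom, h4, map_smul] at hd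
  have h5 : l * D2 F (ph x s) (0, deriv x s) (0, deriv x s) = 0 := hd
  rw [(mul_eq_zero.1 h5).resolve_right (hF.conv _ _ hv).ne', zero_smul] at h4
  have h6 := jacobi_zero hF.c2 hF.conv (hx.1.comp (contDiff_id.add contDiff_const))
    (Tau_shift hξ s) (by rw [zero_add, h0])
    (by rw [mom, ph_shift ξ, zero_add, h4, map_zero]; rfl) (t - s)
  rwa [sub_add_cancel] at h6

theorem Tau_good (hS : Surf Γ) {F : E × E → ℝ} (hF : Tonelli Γ F) {x ξ : ℝ → E} {P : ℝ} {σ : Γ}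
    (hx : IsOrbit F x) (hP : Perd x P σ) (hv : ∀ t, deriv x t ≠ 0) (hξ : IsJacobi F x ξ)
    (ha : Anti x P σ ξ) (h : ∀ t, det2 (deriv x t) (ξ t) = 0) (t : ℝ) : ξ t = 0 := by
  have c1 := (hx.deriv_contDiff hF.c2 hF.conv).continuous
  have c2 := hξ.1.continuous
  have c3 : Continuous fun t => (ξ t).1 * (deriv x t).1 + (ξ t).2 * (deriv x t).2 := by fun_prop
  obtain ⟨k, hk⟩ := Tr_par (hv 0) (h 0)
  have e1 : ξ (0 + P) = (-k) • deriv x (0 + P) := by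
    have := congrFun (Tp_deriv hS hP) (0 + P)
    rw [Tp, add_sub_cancel_right] at this
    rw [ha, hk, map_smul, this, neg_smul]
  obtain ⟨s, hs⟩ : ∃ s, (ξ s).1 * (deriv x s).1 + (ξ s).2 * (deriv x s).2 = 0 := by
    have p : ∀ (a : ℝ) (v : E), (a • v).1 * v.1 + (a • v).2 * v.2 = a * (v.1 ^ 2 + v.2 ^ 2) :=
      fun a v => by
        simp only [Prod.smul_fst, Prod.smul_snd, smul_eq_mul]
        ring
    rcases le_total 0 k with c | c
    · refine intermediate_value_univ (0 + P) 0 c3 ⟨?_, ?_⟩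
      · rw [e1, p]
        exact mul_nonpos_of_nonpos_of_nonneg (neg_nonpos.2 c) (by positivity)
      · rw [hk, p]
        positivity
    · refine intermediate_value_univ 0 (0 + P) c3 ⟨?_, ?_⟩
      · rw [hk, p]
        exact mul_nonpos_of_nonpos_of_nonneg c (by positivity)
      · rw [e1, p]
        exact mul_nonneg (neg_nonneg.2 c) (by positivity)
  obtain ⟨l, hl⟩ := Tr_par (hv s) (h s)
  have e2 : l * ((deriv x s).1 ^ 2 + (deriv x s).2 ^ 2) = 0 := by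
    rw [hl] at hs
    simp only [Prod.smul_fst, Prod.smul_snd, smul_eq_mul] at hs
    linear_combination hs
  rw [(mul_eq_zero.1 e2).resolve_right (Tr_pos (hv s)), zero_smul] at hl
  exact Tau_zero hF hx hξ (Tau_den hS hF hx hP hξ ha) h (hv s) hl t

theorem deg_of_tr (hS : Surf Γ) {F : E × E → ℝ} (hF : Tonelli Γ F) {c : H1 Γ} (hc : Crit F c)
    {x : ℝ → E} (hx : AllCal F c x) {P : ℝ} {σ : Γ} (hP : Perd x P σ) (hm : MinP Γ x P)
    (hv : deriv x 0 ≠ 0) (hτ : IsTr F x P σ (-2)) : Deg F c := by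
  obtain ⟨u, hu⟩ := exists_inS hS hF hc
  have hxu := hx u hu
  have hxo := hxu.isOrbit hF.ton0 hu.2
  have hv' := hxu.deriv_ne_zero hF.ton0 hu.2 hv
  obtain ⟨ξ, hξ, ha, hn⟩ := Tau_ex hS hF hxo hP hv hτ
  obtain ⟨t0, h0⟩ := not_forall.1 fun h => hn (Tau_good hS hF hxo hP hv' hξ ha h)
  obtain ⟨s, rfl⟩ : ∃ s, t0 = P / 2 + s := ⟨t0 - P / 2, by ring⟩
  refine ⟨fun t => x (t + s), P, σ, fun t => ξ (t + s), fun w hw => (hx w hw).shift s,
    ⟨hP.1, fun t => (congrArg x (add_right_comm t P s)).trans (hP.2 (t + s))⟩,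
    fun t ρ h1 h2 h => hm t ρ h1 h2 ?_, ?_, Tau_shift hξ s, fun t => ?_, ?_⟩
  · have := CalR.uniq hF.ton0 hu.2 (hxu.smul hS hF.invL hu.1 ρ) hxu h (-s)
    rwa [add_neg_cancel_right, add_neg_cancel_right] at this
  · rw [deriv_comp_add_const]
    exact hv' _
  · exact (congrArg ξ (add_right_comm t P s)).trans (ha (t + s))
  · rwa [deriv_comp_add_const]

theorem DegD.tau (hS : Surf Γ) {F : E × E → ℝ} (hF : Tonelli Γ F) {c : H1 Γ} (hc : Crit F c)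
    {x ξ : ℝ → E} {P : ℝ} {σ : Γ} (h : DegD F c x P σ ξ) : IsTr F x P σ (-2) := by
  obtain ⟨u, hu⟩ := exists_inS hS hF hc
  have hx := (h.cal u hu).isOrbit hF.ton0 hu.2
  obtain ⟨τ, hτ⟩ := exists_isTr hF hx h.vel P σ
  obtain ⟨k, hk⟩ := cayley hS hF hx h.per h.vel hτ h.jac (Tau_den hS hF hx h.per h.jac h.anti)
  have h1 := Tau_anti.1 h.anti
  have h2 : Tp x P σ (Tp x P σ ξ) (P / 2) = ξ (P / 2) := by
    rw [Tp, h1, map_neg, ← Tp, h1, neg_neg]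
  have h3 : (τ + 2) • ξ (P / 2) = k • deriv x (P / 2) := by
    have := hk (P / 2)
    rw [h2, h1] at this
    linear_combination (norm := module) this
  have h4 : (τ + 2) * det2 (deriv x (P / 2)) (ξ (P / 2)) = 0 := by
    have a := congrArg Prod.fst h3
    have b := congrArg Prod.snd h3
    simp only [Prod.smul_fst, Prod.smul_snd, smul_eq_mul] at a b
    rw [det2]
    linear_combination (deriv x (P / 2)).1 * b - (deriv x (P / 2)).2 * a
  rwa [eq_neg_of_add_eq_zero_left ((mul_eq_zero.1 h4).resolve_right h.tr)] at hτ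

end Pool.Agent.Work.MP_1ce82a_an
end

-- merged part: Pool.Agent.Work.MP_1ce82a_an.D.Rand
section
-- merged part: Pool.Agent.Work.MP_1ce82a_an.N.HolS
section
/-! The distribution function of the frequency under holonomy with a sign.
PLAN. Copy FrOK.hol and exists_theta of T/Hol. If chi gamma = 1 nothing changes. If chi gamma = -1 the partner relation P is decreasing and exchanges Ioc a b with Ico b' a'; the frequency of Ico b' a' differs from that of Ioc b' a' by the frequencies of two points, which vanish (FrOK.small, or continuity of dist1 at interior points: Ico b' a' is contained in Ioc (b' - e) a', and similarly for a). -/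

open Set Filter Topology MeasureTheory
open scoped ContDiff

namespace Pool.Agent.Work.MP_1ce82a_an

variable {Γ : Grp}

variable {G : Type} [Group G] {Cr : ℝ → ℝ → G → ℝ → Prop} {t0 T0 bl bu : ℝ} {χ : G → ℝ}

/-- Holonomy preserves differences of `θ` up to the sign. -/
def HolInvS (χ : G → ℝ) (bl bu : ℝ) (Cr : ℝ → ℝ → G → ℝ → Prop) (t0 : ℝ) (θ : ℝ → ℝ) : Prop :=
  ∀ Tm η : ℝ, 0 < η → ∃ ρ : ℝ, 0 < ρ ∧ ∀ y1 T1 γ y1' y2 T2 y2', Cr y1 T1 γ y1' →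
    Cr y2 T2 γ y2' → 0 ≤ T1 → T1 ≤ Tm → y1 ∈ Icc (bl + η) (bu - η) →
    y1' ∈ Icc (bl + η) (bu - η) → |y2 - y1| ≤ ρ → |T2 - T1| ≤ t0 / 2 →
      θ y2' - θ y1' = χ γ * (θ y2 - θ y1)

theorem HolS_open {Y : Set ℝ} {f : Equiv.Perm Y} {Fr : Set Y → ℝ} (hm : IsMean f Fr) {c d : ℝ}
    (hcd : c < d) (hs : ∀ η : ℝ, 0 < η → ∃ ρ : ℝ, 0 < ρ ∧ Fr {x | |(x : ℝ) - d| < ρ} ≤ η) :
    dist1 Fr d - dist1 Fr c = Fr {x | c < (x : ℝ) ∧ (x : ℝ) < d} := by
  rw [dist1_sub hm hcd.le]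
  have e : {x : Y | c < (x : ℝ) ∧ (x : ℝ) ≤ d} =
      {x : Y | c < (x : ℝ) ∧ (x : ℝ) < d} ∪ {x : Y | (x : ℝ) = d} := by
    ext x
    simp only [Set.mem_ofPred_eq, Set.mem_union]
    constructor
    · rintro ⟨a, b⟩
      exact b.lt_or_eq.imp (fun e => ⟨a, e⟩) id
    · rintro (⟨a, b⟩ | a)
      · exact ⟨a, b.le⟩
      · exact ⟨by rw [a]; exact hcd, a.le⟩
  have z : Fr {x : Y | (x : ℝ) = d} = 0 := by
    refine le_antisymm (le_of_forall_pos_le_add fun η hη => ?_) (hm.nonneg _)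
    obtain ⟨ρ, hρ, hρ'⟩ := hs η hη
    have := hm.mono (A := {x : Y | (x : ℝ) = d}) (B := {x | |(x : ℝ) - d| < ρ}) fun x hx => by
      have hx' : (x : ℝ) = d := hx
      show |(x : ℝ) - d| < ρ
      rw [hx', sub_self, abs_zero]
      exact hρ
    linarith
  rw [e, hm.add _ _ (Set.disjoint_left.2 fun x hx hx' => hx.2.ne hx'), z, add_zero]

theorem HolS_hol {f : Equiv.Perm (Icc bl bu)} {Fr : Set (Icc bl bu) → ℝ}
    (h : CrW (Icc bl bu) Cr t0 T0) (hx : CrossI bl bu Cr) (hm : CrMoreS χ (Icc bl bu) Cr)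
    (hχ : ∀ γ, χ γ = 1 ∨ χ γ = -1)
    (hf : FrOK (Icc bl bu) Cr t0 T0 f Fr) : HolInvS χ bl bu Cr t0 (dist1 Fr) := by
  intro Tm η hη
  have ht := h.t0_pos
  obtain ⟨C, ρ1, hC, hρ1, H⟩ := hx (Tm + t0) (η / 2) (half_pos hη)
  obtain ⟨ρ3, hρ3, O⟩ := hm.ord (Tm + t0) C
  obtain ⟨r0, r0p, a1, a2, a3, a4, a5⟩ : ∃ r0 : ℝ, 0 < r0 ∧ 2 * r0 ≤ ρ1 ∧ 2 * r0 ≤ ρ3 ∧
      C * r0 ≤ t0 / 4 ∧ C * r0 ≤ η / 2 ∧ r0 ≤ η / 2 := by
    clear * - ρ1 ρ3 C t0 η hρ1 hρ3 ht hη hC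
    refine ⟨min (min (ρ1 / 2) (ρ3 / 2)) (min (t0 / 4) (η / 2) / (C + 1)),
      lt_min (lt_min (by positivity) (by positivity)) (by positivity), ?_, ?_, ?_, ?_, ?_⟩
    · linarith only [(min_le_left _ (min (t0 / 4) (η / 2) / (C + 1))).trans
        (min_le_left (ρ1 / 2) (ρ3 / 2))]
    · linarith only [(min_le_left _ (min (t0 / 4) (η / 2) / (C + 1))).trans
        (min_le_right (ρ1 / 2) (ρ3 / 2))]
    all_goals
      have b1 := min_le_right (min (ρ1 / 2) (ρ3 / 2)) (min (t0 / 4) (η / 2) / (C + 1))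
      have b2 : 0 < min (min (ρ1 / 2) (ρ3 / 2)) (min (t0 / 4) (η / 2) / (C + 1)) :=
        lt_min (lt_min (by positivity) (by positivity)) (by positivity)
      rw [le_div_iff₀ (by positivity)] at b1
      linarith only [b1, b2, hC, min_le_left (t0 / 4) (η / 2), min_le_right (t0 / 4) (η / 2),
        mul_nonneg b2.le hC]
  refine ⟨r0 / (C + 1) ^ 2, by positivity,
    fun y1 T1 γ y1' y2 T2 y2' c1 c2 p1 p2 i1 i1' hd hT => ?_⟩
  set ρ : ℝ := r0 / (C + 1) ^ 2 with hρ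
  have ρp : 0 < ρ := by positivity
  have e0 : ρ * (C + 1) ^ 2 = r0 := by rw [hρ]; field_simp
  have q1 : ρ ≤ r0 := by linarith only [e0, ρp, hC, mul_nonneg hC hC, mul_nonneg ρp.le hC, mul_nonneg_of_nonpos_of_nonpos (Mathlib.Tactic.Linarith.sub_nonpos_of_le (mul_self_nonneg C)) (le_of_lt (Mathlib.Tactic.Linarith.sub_neg_of_lt ρp))]
  have q2 : C * ρ ≤ r0 := by linarith only [r0p, ρp, e0, mul_nonneg hC hC, mul_nonneg ρp.le hC, mul_nonneg_of_nonpos_of_nonpos (Mathlib.Tactic.Linarith.sub_nonpos_of_le (mul_self_nonneg C)) (le_of_lt (Mathlib.Tactic.Linarith.sub_neg_of_lt ρp))]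
  have q3 : C * (C * ρ) ≤ r0 := by linarith only [ρp, e0, hC, mul_nonneg hC hC, mul_nonneg ρp.le hC]
  have aT1 : |T1| ≤ Tm + t0 := by rw [abs_of_nonneg p1]; linarith only [ht, p2]
  -- partners
  let P : ℝ → ℝ → Prop := fun y u => ∃ T, Cr y T γ u ∧ |T - T1| ≤ t0 / 4
  obtain Ex : ∀ y ∈ Icc bl bu, |y - y1| ≤ r0 → ∃ u, P y u ∧ |u - y1'| ≤ C * |y - y1| := by
    intro y hy hr
    obtain ⟨T, u, d1, d2, d3⟩ := H y1 T1 γ y1' y hy c1 aT1
      ⟨by linarith only [r0p, a5, i1', i1'.1], by linarith only [r0p, a5, i1', i1'.2]⟩ (by linarith only [r0p, a1, hr])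
    exact ⟨u, ⟨T, d1, d2.trans ((mul_le_mul_of_nonneg_left hr hC).trans a3)⟩, d3⟩
  obtain Un : ∀ y u u', P y u → P y u' → u' = u := by
    rintro y u u' ⟨T, d1, d2⟩ ⟨T', d3, d4⟩
    rw [abs_le] at d2 d4
    exact (TW_two h d1 d3 (abs_le.2 ⟨by linarith only [ht, d2, d4], by linarith only [ht, d2, d4]⟩)).2.2
  obtain Inj : ∀ y y' u, P y u → P y' u → y = y' := by
    rintro y y' u ⟨T, d1, d2⟩ ⟨T', d3, d4⟩
    rw [abs_le] at d2 d4
    exact (TW_two h (h.symm _ _ _ _ d3) (h.symm _ _ _ _ d1)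
      (abs_le.2 ⟨by linarith only [ht, d2, d4], by linarith only [ht, d2, d4]⟩)).2.2
  obtain Mo : ∀ y y' u u', |y - y1| ≤ r0 → |y' - y1| ≤ r0 → P y u → P y' u' → y < y' →
      0 < χ γ * (u' - u) := by
    clear * - y1 r0 P y1' C χ γ Ex bl bu G Cr t0 T0 h T1 η Un hC a4 r0p ht p1 H Tm p2 i1' ρ1 a1 a3 O
      ρ3 a2
    intro y y' u u' b1 b2 hP hP' hlt
    obtain ⟨u0, hu0, b3⟩ := Ex y (h.mem _ _ _ _ hP.choose_spec.1).1 b1
    rw [Un _ _ _ hP hu0] at b3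
    obtain ⟨T, d1, d2⟩ := hP
    obtain ⟨T', d3, d4⟩ := hP'
    have b4 := abs_le.1 (b3.trans ((mul_le_mul_of_nonneg_left b1 hC).trans a4))
    rw [abs_le] at b1 b2 d2 d4
    have b5 : |y' - y| ≤ 2 * r0 := abs_le.2 ⟨by linarith only [r0p, hlt], by linarith only [b1, b2]⟩
    obtain T0' : 0 ≤ T := by
      rcases h.sep _ _ _ _ d1 with e | e
      · exact e.ge
      · by_contra hn
        push Not at hn
        rw [abs_of_neg hn] at e
        linarith only [ht, p1, d2, e]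
    obtain ⟨T3, u3, d5, d6, -⟩ := H y T γ u y' (h.mem _ _ _ _ d3).1 d1
      (by rw [abs_of_nonneg T0']; linarith only [ht, p2, d2]) ⟨by linarith only [b4, i1', i1'.1], by linarith only [b4, i1', i1'.2]⟩
      (b5.trans a1)
    have b6 : C * |y' - y| ≤ C * (2 * r0) := mul_le_mul_of_nonneg_left b5 hC
    have b7 := abs_le.1 (d6.trans b6)
    have e := (TW_two h d3 d5 (abs_le.2 ⟨by linarith only [a3, d2, d4, b7], by linarith only [a3, d2, d4, b7]⟩)).1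
    rw [e] at d6
    exact O y T γ u y' T' u' d1 d3 T0' (by linarith only [ht, p2, d2]) d6 hlt (by linarith only [a2, b1, b2, le_of_abs_le b5])
  obtain Bk : ∀ u ∈ Icc bl bu, |u - y1'| ≤ C * ρ → ∃ v, |v - y1| ≤ r0 ∧ P v u := by
    clear * - bl bu y1' C ρ Cr G γ T1 y1 r0 P H t0 T0 h c1 Tm aT1 η r0p a5 i1 ρ1 a1 q2 hC q3 a3
    intro u hu hr
    obtain ⟨S, v, d1, d2, d3⟩ := H y1' (-T1) γ⁻¹ y1 u hu (h.symm _ _ _ _ c1) (by rwa [abs_neg])
      ⟨by linarith only [r0p, a5, i1, i1.1], by linarith only [r0p, a5, i1, i1.2]⟩ (by linarith only [r0p, a1, q2, hr])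
    have b1 : C * |u - y1'| ≤ C * (C * ρ) := mul_le_mul_of_nonneg_left hr hC
    have b2 : C * |u - y1'| ≤ C * r0 := mul_le_mul_of_nonneg_left (hr.trans q2) hC
    have d4 := h.symm _ _ _ _ d1
    rw [inv_inv] at d4
    refine ⟨v, by linarith only [q3, d3, b1], -S, d4, ?_⟩
    rw [← abs_neg, neg_sub', neg_neg]
    linarith only [a3, d2, b2]
  obtain key : ∀ a b a' b', |a - y1| ≤ ρ → |b - y1| ≤ ρ → P a a' → P b b' → a < b →
      dist1 Fr b' - dist1 Fr a' = χ γ * (dist1 Fr b - dist1 Fr a) := by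
    intro a b a' b' ha hb Pa Pb hab
    have hab' := Mo a b a' b' (ha.trans q1) (hb.trans q1) Pa Pb hab
    obtain na : |a' - y1'| ≤ C * ρ := by
      obtain ⟨u0, hu0, b3⟩ := Ex a (h.mem _ _ _ _ Pa.choose_spec.1).1 (ha.trans q1)
      rw [Un _ _ _ Pa hu0] at b3
      exact b3.trans (mul_le_mul_of_nonneg_left ha hC)
    obtain nb : |b' - y1'| ≤ C * ρ := by
      obtain ⟨u0, hu0, b3⟩ := Ex b (h.mem _ _ _ _ Pb.choose_spec.1).1 (hb.trans q1)
      rw [Un _ _ _ Pb hu0] at b3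
      exact b3.trans (mul_le_mul_of_nonneg_left hb hC)
    obtain bd : ∀ y u, P y u → ∃ T γ, Cr y T γ u ∧ |T| ≤ Tm + t0 := by
      clear * - P Cr γ T1 t0 G Tm ht p1 p2
      rintro y u ⟨T, d1, d2⟩
      rw [abs_le] at d2
      exact ⟨T, γ, d1, abs_le.2 ⟨by linarith only [ht, p1, p2, d2], by linarith only [ht, p2, d2]⟩⟩
    have ha0 := ha.trans q1
    have hb0 := hb.trans q1
    have q4 : C * ρ ≤ η / 2 := (mul_le_mul_of_nonneg_left q1 hC).trans a4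
    rw [abs_le] at ha hb na nb
    obtain ch : ∀ v u, |v - y1| ≤ r0 → P v u →
        (a < v ∧ v < b ↔ 0 < χ γ * (u - a') ∧ 0 < χ γ * (b' - u)) := by
      intro v u v1 v2
      refine ⟨fun hv => ⟨Mo a v a' u ha0 v1 Pa v2 hv.1, Mo v b u b' v1 hb0 v2 Pb hv.2⟩,
        fun hv => ⟨?_, ?_⟩⟩
      · rcases lt_trichotomy a v with e | e | e
        · exact e
        · rw [← e] at v2
          have e1 := hv.1
          rw [Un _ _ _ Pa v2, sub_self, mul_zero] at e1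
          exact absurd e1 (lt_irrefl _)
        · have e1 := Mo v a u a' v1 ha0 v2 Pa e
          have e2 := hv.1
          linarith only [hv, e1, mul_sub (χ γ) u a', mul_sub (χ γ) a' u]
      · rcases lt_trichotomy v b with e | e | e
        · exact e
        · rw [e] at v2
          have e1 := hv.2
          rw [Un _ _ _ Pb v2, sub_self, mul_zero] at e1
          exact absurd e1 (lt_irrefl _)
        · have e1 := Mo b v b' u hb0 v1 Pb v2 e
          have e2 := hv.2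
          linarith only [hv, e1, mul_sub (χ γ) u b', mul_sub (χ γ) b' u]
    obtain eq1 : Fr {x | 0 < χ γ * ((x : ℝ) - a') ∧ 0 < χ γ * (b' - (x : ℝ))} =
        Fr {x | a < (x : ℝ) ∧ (x : ℝ) < b} := by
      clear * - Fr bl bu χ γ a' b' a b G Cr t0 T0 f h hf P Tm y1' C ρ hχ r0 na nb y1 Bk T1 ch bd Un
        q1 ha hb Ex Inj
      refine le_antisymm ?_ ?_
      · refine hf.le_of_cr h (P := fun u v => P v u) (Tm + t0) ?_ ?_ fun u u' v d1 d2 =>
          (Un _ _ _ d1 d2).symm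
        · rintro u ⟨u1, u2⟩
          obtain u3 : |(u : ℝ) - y1'| ≤ C * ρ := by
            clear * - χ γ bl bu u y1' C ρ hχ a' r0 na u1 b' nb u2
            rcases hχ γ with e | e <;> rw [e] at u1 u2 <;>
              exact abs_le.2 ⟨by linarith only [na, u1, nb, u2], by linarith only [nb, u2, na, u1]⟩
          obtain ⟨v, v1, v2⟩ := Bk u u.2 u3
          exact ⟨⟨v, (h.mem _ _ _ _ v2.choose_spec.1).1⟩, (ch v u v1 v2).2 ⟨u1, u2⟩, v2⟩
        · intro u v d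
          obtain ⟨T, g, d1, d2⟩ := bd _ _ d
          exact ⟨-T, g⁻¹, h.symm _ _ _ _ d1, by rwa [abs_neg]⟩
      · refine hf.le_of_cr h (P := P) (Tm + t0) ?_ bd Inj
        rintro y ⟨u1, u2⟩
        have v1 : |(y : ℝ) - y1| ≤ r0 := abs_le.2 ⟨by linarith only [q1, ha, u1], by linarith only [q1, hb, u2]⟩
        obtain ⟨u, Pu, -⟩ := Ex y y.2 v1
        exact ⟨⟨u, (h.mem _ _ _ _ Pu.choose_spec.1).2⟩, (ch y u v1 Pu).1 ⟨u1, u2⟩, Pu⟩
    have op : ∀ c d : ℝ, c < d → d ∈ Ioo bl bu →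
        dist1 Fr d - dist1 Fr c = Fr {x | c < (x : ℝ) ∧ (x : ℝ) < d} := fun c d hcd hd0 =>
      HolS_open hf.mean hcd fun η hη => hf.small h hx hm hd0 hη
    rw [op a b hab ⟨by linarith only [r0p, a5, q1, ha, hab, i1, i1.1], by linarith only [r0p, a5, q1, hb, i1, i1.2]⟩, ← eq1]
    rcases hχ γ with e | e
    · rw [e] at hab' ⊢
      rw [op a' b' (by linarith only [hab']) ⟨by linarith only [r0p, a5, q2, hab', na, i1', i1'.1], by linarith only [r0p, a5, q2, nb, i1', i1'.2]⟩, one_mul]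
      refine congrArg Fr (Set.ext fun x => ?_)
      simp only [Set.mem_ofPred_eq, one_mul, sub_pos]
    · rw [e] at hab' ⊢
      have e1 := op b' a' (by linarith only [hab']) ⟨by linarith only [r0p, a5, q2, hab', nb, i1', i1'.1], by linarith only [r0p, a5, q2, na, i1', i1'.2]⟩
      obtain e2 : Fr {x | b' < (x : ℝ) ∧ (x : ℝ) < a'} =
          Fr {x | 0 < -1 * ((x : ℝ) - a') ∧ 0 < -1 * (b' - (x : ℝ))} := by
        clear * - bl bu b' a' Fr
        refine congrArg Fr (Set.ext fun x => ?_)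
        exact ⟨fun hx0 => ⟨by linarith only [hx0, hx0.2], by linarith only [hx0, hx0.1]⟩,
          fun hx0 => ⟨by linarith only [hx0, hx0.2], by linarith only [hx0, hx0.1]⟩⟩
      linarith only [e1, e2]
  have P1 : P y1 y1' := ⟨T1, c1, by rw [sub_self, abs_zero]; linarith only [ht]⟩
  obtain P2 : P y2 y2' := by
    obtain ⟨u, ⟨T, d1, d2⟩, -⟩ := Ex y2 (h.mem _ _ _ _ c2).1 (hd.trans q1)
    have d3 := abs_le.1 d2
    rw [abs_le] at hT
    have e := TW_two h c2 d1 (abs_le.2 ⟨by linarith only [ht, hT, d3], by linarith only [ht, hT, d3]⟩)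
    rw [← e.2.2]
    exact ⟨T, d1, d2⟩
  have z1 : |y1 - y1| ≤ ρ := by rw [sub_self, abs_zero]; exact ρp.le
  rcases lt_trichotomy y1 y2 with a | a | a
  · exact key y1 y2 y1' y2' z1 hd P1 P2 a
  · subst a
    rw [Un _ _ _ P1 P2, sub_self, sub_self, mul_zero]
  · have := key y2 y1 y2' y1' hd z1 P2 P1 a
    linarith only [this, mul_sub (χ γ) (dist1 Fr y1) (dist1 Fr y2),
      mul_sub (χ γ) (dist1 Fr y2) (dist1 Fr y1)]

theorem exists_thetaS (h : CrW (Icc bl bu) Cr t0 T0) (hx : CrossI bl bu Cr)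
    (hm : CrMoreS χ (Icc bl bu) Cr) (hχ : ∀ γ, χ γ = 1 ∨ χ γ = -1) (hlu : bl ≤ bu) :
    ∃ θ : ℝ → ℝ, ContinuousOn θ (Ioo bl bu) ∧ StrictMonoOn θ (Icc bl bu) ∧
      HolInvS χ bl bu Cr t0 θ := by
  obtain ⟨f, Fr, hf⟩ := h.exists_fr (Set.nonempty_Icc.2 hlu)
  refine ⟨dist1 Fr, fun y hy => (dist1_contAt hf.mean fun η hη =>
    hf.small h hx hm hy hη).continuousWithinAt, fun a ha b hb hab => hf.strict h hm hab ?_,
    HolS_hol h hx hm hχ hf⟩
  exact ⟨by linarith only [hab, ha, ha.1], by linarith [hb.2]⟩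

end Pool.Agent.Work.MP_1ce82a_an
end

-- merged part: Pool.Agent.Work.MP_1ce82a_an.D.Gron
section
/-! Orbits of two different perturbations.
PLAN. gron2: Y t = (z1 t - z2 t, vpart (fderiv F (ph z1 t)) - vpart (fderiv F (ph z2 t))) (Step_mo gives the derivative). Cls.strong_mono and Cls.lip1 bound the velocity difference by a constant times the norm of Y; Step_liph for h2; norm_le_gronwallBound_of_norm_deriv_right_le and a bound of gronwallBound which is linear in its data.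
duo_ratio: X1 d (s^-1 z_i T_i) = X1 d (z_i 0) by periodicity; as in ratio of J/StepA the function X1 d (s^-1 z2 .) has derivative at least v0/2 near P (shrink delta below P/4). jac_cont_fwd: as jac_cont of J/TrCont on the interval Icc 0 T (repeat TrCont_gron forward in time, or reverse time with revL). -/

open Set Filter Topology MeasureTheory
open scoped ContDiff

namespace Pool.Agent.Work.MP_1ce82a_an

variable {Γ : Grp}

theorem Gron_lin {V : Type} [NormedAddCommGroup V] [NormedSpace ℝ V] {f f' : ℝ → V}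
    {T K δ ε : ℝ} (hK : 0 < K) (hδ : 0 ≤ δ) (hε : 0 ≤ ε)
    (hf : ∀ t ∈ Icc 0 T, HasDerivAt f (f' t) t) (h0 : ‖f 0‖ ≤ δ)
    (hb : ∀ t ∈ Icc 0 T, ‖f' t‖ ≤ K * ‖f t‖ + ε) :
    ∀ t ∈ Icc 0 T, ‖f t‖ ≤ Real.exp (K * T) * (δ + ε / K) := by
  intro t ht
  have key := norm_le_gronwallBound_of_norm_deriv_right_le (f := f) (f' := f') (δ := δ) (K := K)
    (ε := ε) (a := 0) (b := T) (fun s hs => (hf s hs).continuousAt.continuousWithinAt)
    (fun s hs => (hf s (Ico_subset_Icc_self hs)).hasDerivWithinAt) h0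
    (fun s hs => hb s (Ico_subset_Icc_self hs)) t ht
  rw [gronwallBound_of_K_ne_0 hK.ne', sub_zero] at key
  have a1 : Real.exp (K * t) ≤ Real.exp (K * T) :=
    Real.exp_le_exp.2 (mul_le_mul_of_nonneg_left ht.2 hK.le)
  have a2 : 0 ≤ ε / K := div_nonneg hε hK.le
  have a3 := mul_le_mul_of_nonneg_left a1 hδ
  have a4 := mul_le_mul_of_nonneg_left a1 a2
  beta_reduce at key
  linarith only [key, a2, a3, a4]

/-- The phase difference is controlled by the differences of positions and momenta. -/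
theorem Gron_W {m : Md} {R : ℝ} {F : E × E → ℝ} (h : Cls m R F) {a b : E × E} (ha : ‖a‖ ≤ R)
    (hb : ‖b‖ ≤ R) {y : ℝ} (h1 : ‖a.1 - b.1‖ ≤ y)
    (h2 : ‖vpart (fderiv ℝ F a) - vpart (fderiv ℝ F b)‖ ≤ y) :
    ‖a - b‖ ≤ (1 + (1 + m.La R) / m.mu R) * y := by
  obtain ⟨a1, a2⟩ := a
  obtain ⟨b1, b2⟩ := b
  have hμ := m.mu_pos R
  have hL := m.La_nonneg R
  have y0 : 0 ≤ y := (norm_nonneg _).trans h1
  have k1 : ‖a1‖ ≤ R := (norm_fst_le (a1, a2)).trans ha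
  have k2 : ‖a2‖ ≤ R := (norm_snd_le (a1, a2)).trans ha
  have k3 : ‖b1‖ ≤ R := (norm_fst_le (b1, b2)).trans hb
  have k4 : ‖b2‖ ≤ R := (norm_snd_le (b1, b2)).trans hb
  have c1 := h.strong_mono k1 k2 k4
  have c2 := h.lip1 (z := (b1, b2)) (y := (a1, b2)) ⟨k3, k4⟩ ⟨k1, k4⟩
  have c3 : ‖((b1, b2) : E × E) - (a1, b2)‖ ≤ y := by
    rw [Prod.mk_sub_mk, sub_self, Prod.norm_mk, norm_zero, norm_sub_rev]
    exact max_le h1 y0
  have c4 : ‖vpart (fderiv ℝ F (b1, b2)) - vpart (fderiv ℝ F (a1, b2))‖ ≤ m.La R * y := by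
    have := norm_vpart_le (fderiv ℝ F (b1, b2) - fderiv ℝ F (a1, b2))
    rw [vpart, ContinuousLinearMap.sub_comp] at this
    exact this.trans (c2.trans (mul_le_mul_of_nonneg_left c3 hL))
  have c5 := norm_sub_le_norm_sub_add_norm_sub (vpart (fderiv ℝ F (a1, a2)))
    (vpart (fderiv ℝ F (b1, b2))) (vpart (fderiv ℝ F (a1, b2)))
  have c6 : ‖a2 - b2‖ ≤ (1 + m.La R) / m.mu R * y := by
    rw [div_mul_eq_mul_div, le_div_iff₀ hμ]
    linarith only [h2, c1, c4, c5]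
  have c7 : 0 ≤ (1 + m.La R) / m.mu R * y := by positivity
  rw [Prod.mk_sub_mk, Prod.norm_mk]
  exact max_le (by linarith only [h1, c7]) (by linarith only [y0, c6])

theorem Gron_jac0 {K μ M : ℝ} (T : ℝ) (hK : 0 ≤ K) (hμ : 0 < μ) (hM : 0 ≤ M) :
    ∃ C : ℝ, 0 < C ∧ ∀ (B B' : ℝ → E × E →L[ℝ] E × E →L[ℝ] ℝ) (ξ ζ : ℝ → E) (η : ℝ), 0 ≤ η →
      ContDiff ℝ 1 ξ → ContDiff ℝ 1 ζ →
      (∀ t, HasDerivAt (fun s => vpart (B s (ph ξ s))) (xpart (B t (ph ξ t))) t) →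
      (∀ t, HasDerivAt (fun s => vpart (B' s (ph ζ s))) (xpart (B' t (ph ζ t))) t) →
      (∀ t ∈ Icc 0 T, ‖B' t‖ ≤ K ∧ (∀ w : E, μ * ‖w‖ ^ 2 ≤ B' t (0, w) (0, w)) ∧
        ‖B' t - B t‖ ≤ η ∧ ‖ph ξ t‖ ≤ M) →
      ‖ζ 0 - ξ 0‖ ≤ η → ‖vpart (B' 0 (ph ζ 0)) - vpart (B 0 (ph ξ 0))‖ ≤ η →
      ∀ t ∈ Icc 0 T, ‖ph ζ t - ph ξ t‖ ≤ C * η := by
  obtain ⟨c1, hc1⟩ : ∃ c1, c1 = 1 + (1 + K) / μ := ⟨_, rfl⟩
  obtain ⟨c2, hc2⟩ : ∃ c2, c2 = M / μ := ⟨_, rfl⟩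
  have p1 : 0 < c1 := by rw [hc1]; positivity
  have p2 : 0 ≤ c2 := by rw [hc2]; positivity
  refine ⟨c1 * ((1 + ((1 + K) * c2 + M) / ((1 + K) * c1)) * Real.exp ((1 + K) * c1 * T)) + c2,
    by positivity, fun B B' ξ ζ η hη hξ hζ h1 h2 hb i1 i2 => ?_⟩
  let D : ℝ → E × (E →L[ℝ] ℝ) := fun t =>
    (ζ t - ξ t, vpart (B' t (ph ζ t)) - vpart (B t (ph ξ t)))
  let D' : ℝ → E × (E →L[ℝ] ℝ) := fun t =>
    (deriv ζ t - deriv ξ t, xpart (B' t (ph ζ t)) - xpart (B t (ph ξ t)))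
  have hD : ∀ t, HasDerivAt D (D' t) t := fun t =>
    ((hζ.differentiable one_ne_zero t).hasDerivAt.sub
      (hξ.differentiable one_ne_zero t).hasDerivAt).prodMk ((h2 t).sub (h1 t))
  have e : ∀ t, B' t (ph ζ t) - B t (ph ξ t) =
      B' t (ph ζ t - ph ξ t) + (B' t - B t) (ph ξ t) := fun t => by
    rw [map_sub, sub_apply]
    abel
  have hρ : ∀ t ∈ Icc 0 T, ‖(B' t - B t) (ph ξ t)‖ ≤ η * M := fun t ht =>
    (B' t - B t).le_of_opNorm_le_of_le (hb t ht).2.2.1 (hb t ht).2.2.2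
  have hW : ∀ t ∈ Icc 0 T, ‖ph ζ t - ph ξ t‖ ≤ c1 * ‖D t‖ + c2 * η := fun t ht => by
    have a1 : ‖(ph ζ t - ph ξ t).1‖ ≤ ‖D t‖ := norm_fst_le (D t)
    have a2 := TrCont_W (hb t ht).1 (hb t ht).2.1 (hρ t ht) a1 (by
      rw [← e, vpart, ContinuousLinearMap.sub_comp]
      exact norm_snd_le (D t))
    have a3 : ‖(ph ζ t - ph ξ t).2‖ ≤ (1 + K) / μ * ‖D t‖ + c2 * η := by
      refine le_of_mul_le_mul_left (a2.trans_eq ?_) hμ
      rw [hc2]
      field_simp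
    have a4 : 0 ≤ (1 + K) / μ * ‖D t‖ := by positivity
    have a5 := mul_nonneg p2 hη
    have a6 := norm_nonneg (D t)
    rw [Prod.norm_def, hc1]
    exact max_le (by linarith only [a1, a4, a5]) (by linarith only [a3, a6])
  have hD' : ∀ t ∈ Icc 0 T,
      ‖D' t‖ ≤ (1 + K) * c1 * ‖D t‖ + ((1 + K) * c2 + M) * η := fun t ht => by
    have a1 : ‖(D' t).1‖ ≤ ‖ph ζ t - ph ξ t‖ := norm_snd_le (ph ζ t - ph ξ t)
    have a2 : ‖(D' t).2‖ ≤ K * ‖ph ζ t - ph ξ t‖ + η * M := by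
      have : (D' t).2 = xpart (B' t (ph ζ t - ph ξ t) + (B' t - B t) (ph ξ t)) := by
        rw [← e, xpart, ContinuousLinearMap.sub_comp]
        rfl
      rw [this]
      exact (norm_xpart_le _).trans ((norm_add_le _ _).trans
        (add_le_add ((B' t).le_of_opNorm_le (hb t ht).1 _) (hρ t ht)))
    have a3 := mul_le_mul_of_nonneg_left (hW t ht) (add_nonneg zero_le_one hK)
    have a4 := mul_nonneg hK (norm_nonneg (ph ζ t - ph ξ t))
    have a5 := mul_nonneg hη hM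
    have a6 := norm_nonneg (ph ζ t - ph ξ t)
    rw [Prod.norm_def]
    exact max_le (by linarith only [a1, a3, a4, a5]) (by linarith only [a2, a3, a6])
  intro t ht
  have L0 : 0 < (1 + K) * c1 := by positivity
  have key := Gron_lin (f := D) (f' := D') (δ := η) (ε := ((1 + K) * c2 + M) * η) L0 hη
    (by positivity) (fun s _ => hD s) (max_le i1 i2) hD' t ht
  have a5 : ‖D t‖ ≤
      (1 + ((1 + K) * c2 + M) / ((1 + K) * c1)) * Real.exp ((1 + K) * c1 * T) * η := by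
    refine key.trans_eq ?_
    ring
  have a6 := mul_le_mul_of_nonneg_left a5 p1.le
  linarith only [a6, hW, ht, hW t ht]

theorem Gron_jac1 {F : E × E → ℝ} (hF : ContDiff ℝ 2 F) (hc : Cvx F) {x ξ : ℝ → E}
    (hξ : IsJacobi F x ξ) {T R : ℝ} (hR : ∀ t ∈ Icc 0 T, ‖ph x t‖ + 1 ≤ R) {ε : ℝ}
    (hε : 0 < ε) :
    ∃ δ : ℝ, 0 < δ ∧ ∀ h : E → ℝ, ContDiff ℝ 2 h → Small R δ h → ∀ z ζ : ℝ → E,
      (∀ t ∈ Icc 0 T, ‖ph z t - ph x t‖ ≤ δ) → IsJacobi (addPot F h) z ζ →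
      ‖ζ 0 - ξ 0‖ ≤ δ → ‖mom (addPot F h) z ζ 0 - mom F x ξ 0‖ ≤ δ →
      ∀ t ∈ Icc 0 T, ‖ph ζ t - ph ξ t‖ ≤ ε := by
  obtain ⟨μ, hμ, hlo⟩ := TrCont_lo hF hc R
  obtain ⟨K, hK, hbd⟩ := Ton_bd hF R R
  obtain ⟨M, hM⟩ := (isCompact_Icc (a := 0) (b := T)).exists_bound_of_continuousOn
    (TrCont_ph hξ.1).continuousOn
  obtain ⟨C, hC, key⟩ := Gron_jac0 T (add_nonneg hK zero_le_one) hμ (le_max_right M 0)
  have hη : 0 < ε / C := div_pos hε hC
  obtain ⟨δ, hδ, hu⟩ := TrCont_uc (V := E × E →L[ℝ] E × E →L[ℝ] ℝ) (continuous_D2 hF) R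
    (half_pos hη)
  refine ⟨min (min 1 δ) (ε / C / 2), lt_min (lt_min one_pos hδ) (half_pos hη),
    fun h hh hs z ζ hz hζ i1 i2 t ht => ?_⟩
  have m1 : min (min 1 δ) (ε / C / 2) ≤ 1 := (min_le_left _ _).trans (min_le_left _ _)
  have m2 : min (min 1 δ) (ε / C / 2) ≤ δ := (min_le_left _ _).trans (min_le_right _ _)
  have m3 : min (min 1 δ) (ε / C / 2) ≤ ε / C / 2 := min_le_right _ _
  generalize min (min 1 δ) (ε / C / 2) = d at *
  refine (key (fun s => D2 F (ph x s)) (fun s => D2 (addPot F h) (ph z s)) ξ ζ _ hη.le hξ.1 hζ.1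
    hξ.2 hζ.2 (fun s hs' => ?_) (by linarith only [hη, i1, m3]) (i2.trans (by linarith only [hη, m3])) t ht).trans_eq
    (mul_div_cancel₀ _ hC.ne')
  have a1 := TrCont_in (hR s hs') (hz s hs') m1
  have a2 : ‖ph x s‖ ≤ R := by linarith [hR s hs']
  have a3 : ‖D2 (addPot F h) (ph z s) - D2 F (ph z s)‖ ≤ d :=
    (norm_D2_addPot_sub hF hh _).trans (hs _ ((norm_fst_le _).trans a1)).2.2
  have a4 : ‖D2 F (ph z s)‖ ≤ K :=
    (hbd _ _ ((norm_fst_le _).trans a1) ((norm_snd_le _).trans a1)).2.2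
  have a5 := hu _ _ a1 a2 ((hz s hs').trans m2)
  refine ⟨?_, fun w => ?_, ?_, (hM s hs').trans (le_max_left _ _)⟩
  · have := norm_le_insert' (D2 (addPot F h) (ph z s)) (D2 F (ph z s))
    linarith only [m1, a3, a4, this]
  · rw [Ton_vv hF hh]
    exact hlo _ w a1
  · have := norm_sub_le_norm_sub_add_norm_sub (D2 (addPot F h) (ph z s)) (D2 F (ph z s))
      (D2 F (ph x s))
    linarith only [m3, a3, a5, this]

theorem gron2 {F : E × E → ℝ} (hF : Tonelli Γ F) {x : ℝ → E} (hx : ContDiff ℝ 1 x) (T : ℝ) :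
    ∃ R C : ℝ, 1 ≤ C ∧ ∀ (h1 h2 : E → ℝ) (z1 z2 : ℝ → E) (N : ℝ), ContDiff ℝ 2 h1 →
      ContDiff ℝ 2 h2 → Small R 1 h2 → IsOrbit (addPot F h1) z1 → IsOrbit (addPot F h2) z2 →
      (∀ t ∈ Icc 0 T, ‖ph z1 t - ph x t‖ ≤ 1 ∧ ‖ph z2 t - ph x t‖ ≤ 1) → Src h1 h2 z1 T N →
        ∀ t ∈ Icc 0 T, ‖ph z1 t - ph z2 t‖ ≤ C * (‖ph z1 0 - ph z2 0‖ + N) := by
  obtain ⟨M, -, hM⟩ := Step_bd (TrCont_ph hx) 0 T
  obtain ⟨m, hm⟩ := hF.ton0 (M + 1)
  have hW := @Gron_W m (M + 1) F hm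
  have hlip := fun {a b : E × E} (ha : ‖a‖ ≤ M + 1) (hb : ‖b‖ ≤ M + 1) =>
    hm.lip1 (z := a) (y := b) ⟨(norm_fst_le a).trans ha, (norm_snd_le a).trans ha⟩
      ⟨(norm_fst_le b).trans hb, (norm_snd_le b).trans hb⟩
  have hμ := m.mu_pos (M + 1)
  have hL := m.La_nonneg (M + 1)
  have hc : 0 < 1 + (1 + m.La (M + 1)) / m.mu (M + 1) := by positivity
  generalize 1 + (1 + m.La (M + 1)) / m.mu (M + 1) = c at hW hc
  generalize m.La (M + 1) = L at hlip hL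
  have hK : 0 < (L + 1) * c := by positivity
  obtain ⟨G, hG⟩ : ∃ G, G = Real.exp ((L + 1) * c * T) := ⟨_, rfl⟩
  have hG0 : 0 ≤ G := hG ▸ (Real.exp_pos _).le
  obtain ⟨k, hk⟩ : ∃ k, k = 1 / ((L + 1) * c) := ⟨_, rfl⟩
  have hk0 : 0 ≤ k := by rw [hk]; positivity
  have hC : 0 ≤ c * G * (L + 1 + k) := by positivity
  refine ⟨M + 1, 1 + c * G * (L + 1 + k), by linarith,
    fun h1 h2 z1 z2 N d1 d2 hs o1 o2 hn hsrc t ht => ?_⟩
  have I0 : (0 : ℝ) ∈ Icc 0 T := ⟨le_rfl, ht.1.trans ht.2⟩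
  have hN : 0 ≤ N := (abs_nonneg _).trans (hsrc 0 I0).1
  have b1 : ∀ s ∈ Icc 0 T, ‖ph z1 s‖ ≤ M + 1 := fun s hs' =>
    Step_in (hM s hs') (hn s hs').1 le_rfl
  have b2 : ∀ s ∈ Icc 0 T, ‖ph z2 s‖ ≤ M + 1 := fun s hs' =>
    Step_in (hM s hs') (hn s hs').2 le_rfl
  let Y : ℝ → E × (E →L[ℝ] ℝ) := fun s =>
    (z1 s - z2 s, vpart (fderiv ℝ F (ph z1 s)) - vpart (fderiv ℝ F (ph z2 s)))
  let Y' : ℝ → E × (E →L[ℝ] ℝ) := fun s =>
    (deriv z1 s - deriv z2 s, (xpart (fderiv ℝ F (ph z1 s)) + fderiv ℝ h1 (z1 s)) -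
      (xpart (fderiv ℝ F (ph z2 s)) + fderiv ℝ h2 (z2 s)))
  have hY : ∀ s ∈ Icc 0 T, HasDerivAt Y (Y' s) s := fun s hs' =>
    ((JacB_der o1.1 s).sub (JacB_der o2.1 s)).prodMk
      ((Step_mo hF.c2 d1 (o1.orbOn 0 T) hs').sub (Step_mo hF.c2 d2 (o2.orbOn 0 T) hs'))
  have w : ∀ s ∈ Icc 0 T, ‖ph z1 s - ph z2 s‖ ≤ c * ‖Y s‖ := fun s hs' =>
    hW (b1 s hs') (b2 s hs') (norm_fst_le (Y s)) (norm_snd_le (Y s))
  have hY' : ∀ s ∈ Icc 0 T, ‖Y' s‖ ≤ (L + 1) * c * ‖Y s‖ + N := fun s hs' => by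
    clear * - z1 s z2 Y' F L hlip b1 hs' b2 h2 d2 M hs h1 N hsrc c Y w hL hN
    have a0 := norm_nonneg (ph z1 s - ph z2 s)
    have a1 : ‖(Y' s).1‖ ≤ ‖ph z1 s - ph z2 s‖ := norm_snd_le (ph z1 s - ph z2 s)
    have a2 : ‖xpart (fderiv ℝ F (ph z1 s) - fderiv ℝ F (ph z2 s))‖ ≤ L * ‖ph z1 s - ph z2 s‖ :=
      (norm_xpart_le _).trans (hlip (b1 s hs') (b2 s hs'))
    have a3 : ‖fderiv ℝ h2 (z1 s) - fderiv ℝ h2 (z2 s)‖ ≤ 1 * ‖z1 s - z2 s‖ :=
      Step_liph d2 hs ((norm_fst_le (ph z2 s)).trans (b2 s hs'))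
        ((norm_fst_le (ph z1 s)).trans (b1 s hs'))
    have a4 : ‖z1 s - z2 s‖ ≤ ‖ph z1 s - ph z2 s‖ := norm_fst_le (ph z1 s - ph z2 s)
    have a5 : (Y' s).2 = xpart (fderiv ℝ F (ph z1 s) - fderiv ℝ F (ph z2 s)) +
        ((fderiv ℝ h1 (z1 s) - fderiv ℝ h2 (z1 s)) + (fderiv ℝ h2 (z1 s) - fderiv ℝ h2 (z2 s))) := by
      rw [xpart, ContinuousLinearMap.sub_comp]
      show xpart _ + _ - (xpart _ + _) = xpart _ - xpart _ + _
      abel
    have a6 : ‖(Y' s).2‖ ≤ L * ‖ph z1 s - ph z2 s‖ + (N + 1 * ‖z1 s - z2 s‖) := by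
      rw [a5]
      exact (norm_add_le _ _).trans (add_le_add a2
        ((norm_add_le _ _).trans (add_le_add (hsrc s hs').2 a3)))
    have a7 := mul_le_mul_of_nonneg_left (w s hs') (add_nonneg hL zero_le_one)
    have a8 := mul_nonneg hL a0
    rw [Prod.norm_def]
    exact max_le (by linarith only [hN, a1, a7, a8]) (by linarith)
  have n0 := norm_nonneg (ph z1 0 - ph z2 0)
  have hY0 : ‖Y 0‖ ≤ (L + 1) * ‖ph z1 0 - ph z2 0‖ := by
    clear * - Y z1 z2 L F hlip b1 I0 b2 hL n0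
    have a1 : ‖(Y 0).1‖ ≤ ‖ph z1 0 - ph z2 0‖ := norm_fst_le (ph z1 0 - ph z2 0)
    have a2 : ‖(Y 0).2‖ ≤ L * ‖ph z1 0 - ph z2 0‖ := by
      have := norm_vpart_le (fderiv ℝ F (ph z1 0) - fderiv ℝ F (ph z2 0))
      rw [vpart, ContinuousLinearMap.sub_comp] at this
      exact this.trans (hlip (b1 0 I0) (b2 0 I0))
    have a3 := mul_nonneg hL n0
    rw [Prod.norm_def]
    exact max_le (by linarith) (by linarith)
  have key := Gron_lin hK (by positivity) hN hY hY0 hY' t ht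
  rw [← hG, div_eq_mul_one_div N, ← hk] at key
  have a1 := mul_le_mul_of_nonneg_left key hc.le
  have a2 : 0 ≤ c * G * ((L + 1) * N + k * ‖ph z1 0 - ph z2 0‖) := by clear * - c G L N k z1 z2 hc hG0 hL hN hk0; positivity
  have a3 := w t ht
  linarith only [hN, n0, a1, a2, a3]

theorem duo_ratio (hS : Surf Γ) {F : E × E → ℝ} (hF : Tonelli Γ F) {x : ℝ → E} {P : ℝ} {σ : Γ}
    (hx : ContDiff ℝ 1 x) (hP : Perd x P σ) {d : Fin 4} (hd : 0 < X1 d (deriv x 0)) :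
    ∃ δ R C : ℝ, 0 < δ ∧ δ ≤ min (P / 4) 1 ∧ 1 ≤ C ∧
      ∀ (h1 h2 : E → ℝ) (z1 z2 : ℝ → E) (T1 T2 N : ℝ), ContDiff ℝ 2 h1 → ContDiff ℝ 2 h2 →
        Small R δ h2 → Duo F x P σ d δ h1 h2 z1 z2 T1 T2 → Src h1 h2 z1 (P + P / 4) N →
        (∀ t ∈ Icc 0 (P + P / 4), ‖ph z1 t - ph z2 t‖ ≤ C * (‖ph z1 0 - ph z2 0‖ + N)) ∧
          |T1 - T2| ≤ C * (‖ph z1 0 - ph z2 0‖ + N) := by
  have hP0 := hP.1
  have cph : Continuous (ph x) := TrCont_ph hx
  obtain ⟨R, G, hG, hg⟩ := gron2 hF hx (P + P / 4)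
  obtain ⟨M, -, hM⟩ := Step_bd cph 0 (P + P / 4)
  obtain ⟨L, hL, hlip⟩ := hS.lip σ⁻¹ (M + 1)
  have ctl : Continuous (tl σ⁻¹) := (contDiff_tl hS σ⁻¹).continuous
  have e0 : tl σ⁻¹ (ph x P) = ph x 0 := by
    have := hP.ph hS 0
    rw [zero_add] at this
    rw [this]
    simpa using tl_inv hS σ⁻¹ (ph x 0)
  obtain ⟨v, hv⟩ : ∃ v, v = X1 d (deriv x 0) := ⟨_, rfl⟩
  rw [← hv] at hd
  have cφ : Continuous fun w : E × E => X1 d (tl σ⁻¹ w).2 :=
    (X1 d).continuous.comp (continuous_snd.comp ctl)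
  obtain ⟨ρ, hρ, hρ'⟩ := Metric.eventually_nhds_iff.1 ((cφ.tendsto (ph x P)).eventually
    (lt_mem_nhds (show v / 2 < X1 d (tl σ⁻¹ (ph x P)).2 by
      rw [e0]
      exact (half_lt_self hd).trans_eq hv)))
  obtain ⟨δ1, hδ1, hδ1'⟩ := Metric.continuousAt_iff.1 (cph.continuousAt (x := P)) _ (half_pos hρ)
  obtain ⟨δ, hδ, a1, a2, a3, a4⟩ : ∃ δ : ℝ, 0 < δ ∧ δ ≤ P / 4 ∧ δ ≤ 1 ∧ δ ≤ ρ / 2 ∧ δ < δ1 :=
    ⟨min (min (P / 4) 1) (min (ρ / 2) (δ1 / 2)), by positivity,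
      (min_le_left _ _).trans (min_le_left _ _),
      (min_le_left _ _).trans (min_le_right _ _), (min_le_right _ _).trans (min_le_left _ _),
      ((min_le_right _ _).trans (min_le_right _ _)).trans_lt (half_lt_self hδ1)⟩
  obtain ⟨C2, hC2⟩ : ∃ C2, C2 = 2 / v * (L * G) := ⟨_, rfl⟩
  have hC20 : 0 ≤ C2 := by rw [hC2]; positivity
  refine ⟨δ, R, G + C2, hδ, le_min a1 a2, by linarith only [hG, hC20],
    fun h1 h2 z1 z2 T1 T2 N d1 d2 hs hp hsrc => ?_⟩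
  have hN : 0 ≤ N := (abs_nonneg _).trans (hsrc 0 ⟨le_rfl, by linarith only [hδ, a1]⟩).1
  have b2 := hg h1 h2 z1 z2 N d1 d2 (hs.mono le_rfl a2) hp.o1 hp.o2
    (fun t ht => ⟨(hp.n1 t ht).trans a2, (hp.n2 t ht).trans a2⟩) hsrc
  have hN0 : 0 ≤ ‖ph z1 0 - ph z2 0‖ + N := add_nonneg (norm_nonneg _) hN
  generalize ‖ph z1 0 - ph z2 0‖ + N = n at b2 hN0
  have sub : Icc (P - δ) (P + δ) ⊆ Icc 0 (P + P / 4) := Icc_subset_Icc (by linarith only [hδ, a1]) (by linarith only [a1])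
  have t1 : T1 ∈ Icc (P - δ) (P + δ) :=
    ⟨by linarith only [hp, (abs_le.1 hp.t1).1], by linarith only [hp, (abs_le.1 hp.t1).2]⟩
  have t2 : T2 ∈ Icc (P - δ) (P + δ) :=
    ⟨by linarith only [hp, (abs_le.1 hp.t2).1], by linarith only [hp, (abs_le.1 hp.t2).2]⟩
  have inc := incr_of_deriv (f := fun t => X1 d (σ⁻¹ • z2 t))
    (f' := fun t => X1 d (tl σ⁻¹ (ph z2 t)).2) (a := P - δ) (b := P + δ) (v0 := v / 2) fun t ht => by
      refine ⟨(X1 d).hasFDerivAt.comp_hasDerivAt t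
        (hS.hasDerivAt_smul σ⁻¹ (JacB_der hp.o2.1 t)), (hρ' ?_).le⟩
      have c1 := hδ1' (x := t) (by
        rw [Real.dist_eq]
        exact (abs_le.2 ⟨by linarith only [ht, ht.1], by linarith only [ht, ht.2]⟩).trans_lt a4)
      have c2 := hp.n2 t (sub ht)
      rw [← dist_eq_norm] at c2
      linarith only [a3, c1, c2, dist_triangle (ph z2 t) (ph x t) (ph x P)]
  have s1 : σ⁻¹ • z1 T1 = z1 0 := by
    have := hp.p1.2 0
    rw [zero_add] at this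
    rw [this, inv_smul_smul]
  have s2 : σ⁻¹ • z2 T2 = z2 0 := by
    have := hp.p2.2 0
    rw [zero_add] at this
    rw [this, inv_smul_smul]
  have b3 : |X1 d (σ⁻¹ • z2 T2) - X1 d (σ⁻¹ • z2 T1)| ≤ L * (G * n) := by
    rw [s2, ← hp.sec, ← s1, ← map_sub]
    refine (abs_X1_le d _).trans ((hlip _ _
      ((norm_fst_le (ph z1 T1)).trans (Step_in (hM _ (sub t1)) (hp.n1 _ (sub t1)) a2))
      ((norm_fst_le (ph z2 T1)).trans (Step_in (hM _ (sub t1)) (hp.n2 _ (sub t1)) a2))).1.trans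
      (mul_le_mul_of_nonneg_left ?_ hL))
    exact (norm_fst_le (ph z1 T1 - ph z2 T1)).trans (b2 _ (sub t1))
  have b4 : |T2 - T1| ≤ C2 * n := by
    have : v / 2 * |T2 - T1| ≤ L * (G * n) := by
      rcases le_total T1 T2 with hh | hh
      · rw [abs_of_nonneg (sub_nonneg.2 hh)]
        exact (inc _ t1 _ t2 hh).trans (le_of_abs_le b3)
      · rw [abs_sub_comm] at b3
        rw [abs_sub_comm, abs_of_nonneg (sub_nonneg.2 hh)]
        exact (inc _ t2 _ t1 hh).trans (le_of_abs_le b3)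
    refine le_of_mul_le_mul_left (this.trans_eq ?_) (half_pos hd)
    rw [hC2]
    field_simp
  have q1 := mul_nonneg hC20 hN0
  have q2 := mul_nonneg (zero_le_one.trans hG) hN0
  refine ⟨fun t ht => (b2 t ht).trans (by linarith only [q1]), ?_⟩
  rw [abs_sub_comm]
  linarith only [b4, q2]

theorem jac_cont_fwd {F : E × E → ℝ} (hF : ContDiff ℝ 2 F) (hc : Cvx F) {x ξ : ℝ → E}
    (hx : ContDiff ℝ 1 x) (hξ : IsJacobi F x ξ) (T : ℝ) {ε : ℝ} (hε : 0 < ε) :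
    ∃ δ R : ℝ, 0 < δ ∧ ∀ h : E → ℝ, ContDiff ℝ 2 h → Small R δ h → ∀ z ζ : ℝ → E,
      (∀ t ∈ Icc 0 T, ‖ph z t - ph x t‖ ≤ δ) → IsJacobi (addPot F h) z ζ →
      ‖ζ 0 - ξ 0‖ ≤ δ → ‖mom (addPot F h) z ζ 0 - mom F x ξ 0‖ ≤ δ →
      ∀ t ∈ Icc 0 T, ‖ph ζ t - ph ξ t‖ ≤ ε := by
  obtain ⟨M, -, hM⟩ := Step_bd (TrCont_ph hx) 0 T
  obtain ⟨δ, hδ, h⟩ := Gron_jac1 hF hc hξ (R := M + 1)
    (fun t ht => add_le_add_left (hM t ht) 1) hε
  exact ⟨δ, M + 1, hδ, h⟩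

end Pool.Agent.Work.MP_1ce82a_an
end

-- merged part: Pool.Agent.Work.MP_1ce82a_an.D.Step
section
/-! The linearised return map with a source term, and Lipschitz dependence of the periodic orbit.
PLAN. step2: repeat aa_cons, aa_shift and step of J/Step for the pair (z2, z1), with W = norm (ph z1 0 - ph z2 0) + N in place of norm (z2 0 - z1 0) (duo_ratio). The derivative of aa F x zeta t (ph z2 t) (ph z1 t) has the extra term (fderiv h1 (z1 t) - fderiv h2 (z2 t)) (zeta t), at most (N + delta norm (z1 t - z2 t)) M. Shift the time of z2 only (T1 to T2), so that only h2 has to be small.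
By periodicity ph z_i T_i = tl s (ph z_i 0) (Perd.ph). en2: as en_small of J/StepA; energy F (ph z_i 0) = h_i (z_i 0). duo_lip: lin_bound, step2 and en2 with eps = 1/(6 C), then duo_ratio. -/

open Set Filter Topology MeasureTheory
open scoped ContDiff

namespace Pool.Agent.Work.MP_1ce82a_an

variable {Γ : Grp}

theorem Step_e1 {F : E × E → ℝ} (hF : ContDiff ℝ 2 F) {h1 h2 : E → ℝ} (c1 : ContDiff ℝ 2 h1)
    (c2 : ContDiff ℝ 2 h2) {x ζ z1 z2 : ℝ → E} (hζ : IsJacobi F x ζ)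
    (o1 : IsOrbit (addPot F h1) z1) (o2 : IsOrbit (addPot F h2) z2) (t : ℝ) :
    HasDerivAt (fun s => aa F x ζ s (ph z1 s) (ph z2 s))
      ((fderiv ℝ F (ph z2 t) - fderiv ℝ F (ph z1 t) - D2 F (ph x t) (ph z2 t - ph z1 t)) (ph ζ t)
        + (fderiv ℝ h2 (z2 t) - fderiv ℝ h1 (z1 t)) (ζ t)) t := by
  have ht : t ∈ Icc t t := left_mem_Icc.2 le_rfl
  have k0 : HasDerivAt ζ (deriv ζ t) t := (hζ.1.differentiable one_ne_zero t).hasDerivAt
  have k1 := ((Step_mo hF c2 (o2.orbOn t t) ht).fun_sub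
    (Step_mo hF c1 (o1.orbOn t t) ht)).clm_apply k0
  have k2 := (hζ.2 t).clm_apply ((o2.hasDerivAt t).fun_sub (o1.hasDerivAt t))
  refine (k1.fun_sub k2).congr_deriv ?_
  have e1 := clm_split (fderiv ℝ F (ph z2 t)) (ζ t) (deriv ζ t)
  have e2 := clm_split (fderiv ℝ F (ph z1 t)) (ζ t) (deriv ζ t)
  have e3 := clm_split (D2 F (ph x t) (ph ζ t)) (z2 t - z1 t) (deriv z2 t - deriv z1 t)
  have e4 : D2 F (ph x t) (ph z2 t - ph z1 t) (ph ζ t) =
      D2 F (ph x t) (ph ζ t) (z2 t - z1 t, deriv z2 t - deriv z1 t) := D2_symm hF _ _ _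
  have e5 : fderiv ℝ F (ph z2 t) (ph ζ t) = fderiv ℝ F (ph z2 t) (ζ t, deriv ζ t) := rfl
  have e6 : fderiv ℝ F (ph z1 t) (ph ζ t) = fderiv ℝ F (ph z1 t) (ζ t, deriv ζ t) := rfl
  simp only [_root_.sub_apply, _root_.add_apply]
  rw [e4, e5, e6, e1, e2, e3]
  ring

theorem Step_mem2 {P δ T : ℝ} (hδ : δ ≤ min (P / 4) 1) (hT : |T - P| ≤ δ) :
    T ∈ Icc 0 (P + P / 4) := by
  have h1 := abs_le.1 hT
  have h2 := le_min_iff.1 hδ
  have h3 := (abs_nonneg _).trans hT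
  constructor <;> linarith only [h1, h2, h1.1, h1.2, h2.1, h2.2]

theorem Step_N {h1 h2 : E → ℝ} {z : ℝ → E} {P N : ℝ} (hP : 0 < P)
    (h : Src h1 h2 z (P + P / 4) N) : 0 ≤ N :=
  (abs_nonneg _).trans (h 0 (left_mem_Icc.2 (by linarith only [hP]))).1

theorem Step_cons (hS : Surf Γ) {F : E × E → ℝ} (hF : Tonelli Γ F) {x : ℝ → E} {P : ℝ} {σ : Γ}
    (hx : IsOrbit F x) (hP : Perd x P σ) {d : Fin 4} (hd : 0 < X1 d (deriv x 0)) {ζ : ℝ → E}
    (hζ : IsJacobi F x ζ) {ε : ℝ} (hε : 0 < ε) :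
    ∃ δ R K : ℝ, 0 < δ ∧ 0 ≤ K ∧ ∀ (h1 h2 : E → ℝ) (z1 z2 : ℝ → E) (T1 T2 N : ℝ),
      ContDiff ℝ 2 h1 → ContDiff ℝ 2 h2 → Small R δ h2 → Duo F x P σ d δ h1 h2 z1 z2 T1 T2 →
      Src h1 h2 z1 (P + P / 4) N → ∀ t ∈ Icc 0 (P + P / 4),
        |aa F x ζ t (ph z1 t) (ph z2 t) - aa F x ζ 0 (ph z1 0) (ph z2 0)| ≤
          ε * (‖ph z1 0 - ph z2 0‖ + N) + K * N := by
  obtain ⟨δ0, R0, C, d0, d1, hC, hr⟩ := duo_ratio hS hF hx.1 hP hd
  obtain ⟨M, hM, bM⟩ := Step_bd hζ.continuous.1 0 (P + P / 4)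
  obtain ⟨R, -, bR⟩ := Step_bd hx.continuous_ph 0 (P + P / 4)
  obtain ⟨η, hη, eη⟩ := exists_pos_mul_lt hε (2 * M * C * (P + P / 4))
  obtain ⟨δ1, d2, hu⟩ := Step_unif (ClsB_c1 hF.c2)
    ((isCompact_Icc (a := 0) (b := P + P / 4)).image hx.continuous_ph) hη
  have P0 : 0 < P + P / 4 := by linarith only [hP, hP.1]
  refine ⟨min δ0 (min δ1 η), max R0 (R + 1), M * (P + P / 4), lt_min d0 (lt_min d2 hη),
    by positivity, fun h1 h2 z1 z2 T1 T2 N c1 c2 hs hp hN t ht => ?_⟩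
  have l0 : min δ0 (min δ1 η) ≤ δ0 := min_le_left _ _
  have l1 : min δ0 (min δ1 η) ≤ δ1 := (min_le_right _ _).trans (min_le_left _ _)
  have l2 : min δ0 (min δ1 η) ≤ η := (min_le_right _ _).trans (min_le_right _ _)
  have l3 : min δ0 (min δ1 η) ≤ 1 := l0.trans (d1.trans (min_le_right _ _))
  have r1 := (hr h1 h2 z1 z2 T1 T2 N c1 c2 (hs.mono (le_max_left _ _) l0) (hp.mono l0) hN).1
  have N0 := Step_N hP.1 hN
  obtain ⟨W, hW⟩ : ∃ W, W = ‖ph z1 0 - ph z2 0‖ + N := ⟨_, rfl⟩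
  rw [← hW] at r1 ⊢
  have n0 : 0 ≤ W := hW ▸ add_nonneg (norm_nonneg _) N0
  have key := (convex_Icc 0 (P + P / 4)).norm_image_sub_le_of_norm_hasDerivWithin_le
    (C := 2 * η * (C * W) * M + N * M)
    (fun s _ => (Step_e1 hF.c2 c1 c2 hζ hp.o1 hp.o2 s).hasDerivWithinAt)
    (fun s hs => ?_) (left_mem_Icc.2 P0.le) ht
  · rw [sub_zero, Real.norm_eq_abs, Real.norm_of_nonneg ht.1] at key
    refine key.trans ((mul_le_mul_of_nonneg_left ht.2 (by positivity)).trans ?_)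
    linarith only [eη, n0, mul_le_mul_of_nonneg_right eη.le n0]
  have r2 := r1 s hs
  rw [norm_sub_rev] at r2
  have b1 := hu (ph x s) (mem_image_of_mem _ hs) (ph z1 s) (ph z2 s) ((hp.n1 s hs).trans l1)
    ((hp.n2 s hs).trans l1)
  have b2 : ‖fderiv ℝ h2 (z2 s) - fderiv ℝ h2 (z1 s)‖ ≤ η * ‖z2 s - z1 s‖ :=
    Step_liph c2 (‹Small _ _ h2›.mono (le_max_right _ _) l2)
      ((norm_fst_le (ph z1 s)).trans (Step_in (bR s hs) (hp.n1 s hs) l3))
      ((norm_fst_le (ph z2 s)).trans (Step_in (bR s hs) (hp.n2 s hs) l3))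
  have b3 : ‖z2 s - z1 s‖ ≤ C * W := (norm_fst_le (ph z2 s - ph z1 s)).trans r2
  have b4 : ‖ζ s‖ ≤ M := (norm_fst_le (ph ζ s)).trans (bM s hs)
  have b5 := ContinuousLinearMap.le_of_opNorm_le_of_le _
    (b1.trans (mul_le_mul_of_nonneg_left r2 hη.le)) (bM s hs)
  have b7 : ‖fderiv ℝ h2 (z2 s) - fderiv ℝ h1 (z1 s)‖ ≤ η * (C * W) + N :=
    (norm_sub_le_norm_sub_add_norm_sub _ (fderiv ℝ h2 (z1 s)) _).trans (add_le_add
      (b2.trans (mul_le_mul_of_nonneg_left b3 hη.le)) ((norm_sub_rev _ _).trans_le (hN s hs).2))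
  have b6 := ContinuousLinearMap.le_of_opNorm_le_of_le _ b7 b4
  refine (norm_add_le _ _).trans ((add_le_add b5 b6).trans (le_of_eq ?_))
  ring

theorem Step_shift (hS : Surf Γ) {F : E × E → ℝ} (hF : Tonelli Γ F) {x : ℝ → E} {P : ℝ} {σ : Γ}
    (hx : IsOrbit F x) (hP : Perd x P σ) {d : Fin 4} (hd : 0 < X1 d (deriv x 0)) {ζ : ℝ → E}
    (hζ : IsJacobi F x ζ) (h0 : den F x ζ P = 0) {ε : ℝ} (hε : 0 < ε) :
    ∃ δ R : ℝ, 0 < δ ∧ δ ≤ min (P / 4) 1 ∧ ∀ (h1 h2 : E → ℝ) (z1 z2 : ℝ → E) (T1 T2 N : ℝ),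
      ContDiff ℝ 2 h1 → ContDiff ℝ 2 h2 → Small R δ h2 → Duo F x P σ d δ h1 h2 z1 z2 T1 T2 →
      Src h1 h2 z1 (P + P / 4) N →
        |aa F x ζ P (ph z1 T1) (ph z2 T2) - aa F x ζ T1 (ph z1 T1) (ph z2 T1)| ≤
          ε * (‖ph z1 0 - ph z2 0‖ + N) := by
  obtain ⟨δ0, R0, C, d0, d1, hC, hr⟩ := duo_ratio hS hF hx.1 hP hd
  obtain ⟨R, -, bR⟩ := Step_bd hx.continuous_ph 0 (P + P / 4)
  obtain ⟨L, hL, bL⟩ := Step_lipF hF.c2 (R + 1)
  obtain ⟨η, hη, eη⟩ := exists_pos_mul_lt hε ((L + 2 + ‖ζ P‖) * C)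
  obtain ⟨δ1, d2, c1⟩ := Step_ct hζ.1.continuous P hη
  obtain ⟨δ2, d3, c2⟩ := Step_ct hζ.continuous.2 P hη
  have hφ : Continuous fun Z : E × E => xpart (fderiv ℝ F Z) (ζ P) - mom F x ζ P Z.2 := by
    have := hF.c2.continuous_fderiv two_ne_zero
    simp only [xpart_apply]
    fun_prop
  obtain ⟨δ3, d4, c3⟩ := Step_ct hφ (ph x P) hη
  obtain ⟨δ4, d5, c4⟩ := Step_near hx.continuous_ph P d4
  obtain ⟨δ, hδ, l0, l1, l2, l4, l5⟩ : ∃ δ : ℝ, 0 < δ ∧ δ ≤ δ0 ∧ δ ≤ δ1 ∧ δ ≤ δ2 ∧ δ ≤ δ4 ∧ δ ≤ η :=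
    ⟨min δ0 (min δ1 (min δ2 (min δ4 η))), by positivity, by simp, by simp, by simp, by simp,
      by simp⟩
  have l6 : δ ≤ min (P / 4) 1 := l0.trans d1
  refine ⟨δ, max R0 (R + 1), hδ, l6, fun h1 h2 z1 z2 T1 T2 N k1 hh hs hp hN => ?_⟩
  have l3 : δ ≤ 1 := l6.trans (min_le_right _ _)
  obtain ⟨r1, r2⟩ := hr h1 h2 z1 z2 T1 T2 N k1 hh (hs.mono (le_max_left _ _) l0) (hp.mono l0) hN
  have N0 := Step_N hP.1 hN
  obtain ⟨W, hW⟩ : ∃ W, W = ‖ph z1 0 - ph z2 0‖ + N := ⟨_, rfl⟩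
  rw [← hW] at r1 r2 ⊢
  have n0 : 0 ≤ W := hW ▸ add_nonneg (norm_nonneg _) N0
  have m1 := Step_mem2 l6 hp.t1
  have r3 := r1 T1 m1
  rw [norm_sub_rev] at r3
  rw [abs_sub_comm] at r2
  have e0 : xpart (fderiv ℝ F (ph x P)) (ζ P) - mom F x ζ P (ph x P).2 = 0 := by
    rw [← neg_eq_zero, neg_sub]
    exact h0
  have hm : ∀ s ∈ Metric.closedBall P δ, |s - P| ≤ δ := fun s hs => hs
  have key := (convex_closedBall P δ).norm_image_sub_le_of_norm_hasDerivWithin_le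
    (C := η + η * ‖ζ P‖) (x := T1) (y := T2)
    (fun s _ => (Step_d2 hF.c2 hh x ζ P (ph z1 T1) (hp.o2.orbOn s s)
      (left_mem_Icc.2 le_rfl)).hasDerivWithinAt)
    (fun s ks => by
      have m2 := Step_mem2 l6 (hm s ks)
      have a1 := c3 (ph z2 s) (c4 s _ ((hm s ks).trans l4) ((hp.n2 s m2).trans l4))
      rw [e0, sub_zero] at a1
      have a2 := (hs (z2 s) (((norm_fst_le (ph z2 s)).trans
        (Step_in (bR s m2) (hp.n2 s m2) l3)).trans (le_max_right _ _))).2.1.trans l5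
      exact (norm_add_le _ _).trans (add_le_add a1
        (ContinuousLinearMap.le_of_opNorm_le_of_le _ a2 le_rfl))) hp.t1 hp.t2
  have k1 : |aa F x ζ P (ph z1 T1) (ph z2 T2) - aa F x ζ P (ph z1 T1) (ph z2 T1)| ≤
      (η + η * ‖ζ P‖) * (C * W) :=
    key.trans (mul_le_mul_of_nonneg_left r2 (by positivity))
  have e1 : aa F x ζ T1 (ph z1 T1) (ph z2 T1) - aa F x ζ P (ph z1 T1) (ph z2 T1) =
      vpart (fderiv ℝ F (ph z2 T1) - fderiv ℝ F (ph z1 T1)) (ζ T1 - ζ P) -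
        (mom F x ζ T1 - mom F x ζ P) (ph z2 T1 - ph z1 T1).1 := by
    simp only [aa, vpart_apply, _root_.sub_apply, Prod.fst_sub, map_sub]
    ring
  have b1 := ContinuousLinearMap.le_of_opNorm_le_of_le _ ((norm_vpart_le _).trans
    ((bL _ _ (Step_in (bR T1 m1) (hp.n1 T1 m1) l3)
      (Step_in (bR T1 m1) (hp.n2 T1 m1) l3)).trans
      (mul_le_mul_of_nonneg_left r3 hL.le))) (c1 T1 (hp.t1.trans l1))
  have b2 := ContinuousLinearMap.le_of_opNorm_le_of_le _ (c2 T1 (hp.t1.trans l2))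
    ((norm_fst_le (ph z2 T1 - ph z1 T1)).trans r3)
  have k2 := (norm_sub_le _ _).trans (add_le_add b1 b2)
  rw [← e1, Real.norm_eq_abs, abs_sub_comm] at k2
  refine (abs_sub_le _ _ _).trans ((add_le_add k1 k2).trans ?_)
  linarith only [eη, n0, mul_le_mul_of_nonneg_right eη.le n0]

theorem Step_pr (F : E × E → ℝ) (x ζ : ℝ → E) (t : ℝ) (a b : E × E) :
    pr F x ζ t (a - b) = -pr F x ζ t (b - a) := by
  simp only [pr, map_sub, _root_.sub_apply, Prod.fst_sub]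
  ring

theorem step2 (hS : Surf Γ) {F : E × E → ℝ} (hF : Tonelli Γ F) {x : ℝ → E} {P : ℝ} {σ : Γ}
    (hx : IsOrbit F x) (hP : Perd x P σ) {d : Fin 4} (hd : 0 < X1 d (deriv x 0)) {ξ : ℝ → E}
    (hξ : IsJacobi F x ξ) (h0 : den F x ξ 0 = 0) {ε : ℝ} (hε : 0 < ε) :
    ∃ δ R C : ℝ, 0 < δ ∧ 0 ≤ C ∧ ∀ (h1 h2 : E → ℝ) (z1 z2 : ℝ → E) (T1 T2 N : ℝ),
      ContDiff ℝ 2 h1 → ContDiff ℝ 2 h2 → Small R δ h2 → Duo F x P σ d δ h1 h2 z1 z2 T1 T2 →
      Src h1 h2 z1 (P + P / 4) N →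
        |pr F x ξ 0 (ph z1 0 - ph z2 0) - pr F x (Tp x P σ ξ) 0 (ph z1 0 - ph z2 0)| ≤
          ε * ‖ph z1 0 - ph z2 0‖ + C * N := by
  have hζ := Tp_jacobi hS hF.c2 hF.invL hx hP hξ
  have hz0 : den F x (Tp x P σ ξ) P = 0 := by
    rw [den_const hF.c2 hF.conv hx hζ, den_Tp hS hF hx hP hξ, h0]
  have hT := pr_Tp hS hF.c2 hF.invL hx.1 hP hξ.1 0
  rw [zero_add] at hT
  generalize Tp x P σ ξ = ζ at *
  obtain ⟨l, hl⟩ : ∃ l : E × E →L[ℝ] ℝ, ∀ w, pr F x ζ P w = l w :=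
    ⟨(D2 F (ph x P)).flip (0, ζ P) - (mom F x ζ P).comp (ContinuousLinearMap.fst ℝ E E),
      fun _ => rfl⟩
  obtain ⟨η0, hη0, eη0⟩ := exists_pos_mul_lt hε (‖l‖ + ‖fderiv ℝ (tl σ) (ph x 0)‖ + 4)
  obtain ⟨η, hη, η1, eη⟩ : ∃ η : ℝ, 0 < η ∧ η ≤ 1 ∧
      (‖l‖ + ‖fderiv ℝ (tl σ) (ph x 0)‖ + 4) * η ≤ ε :=
    ⟨min η0 1, lt_min hη0 one_pos, min_le_right _ _,
      (mul_le_mul_of_nonneg_left (min_le_left _ _) (by positivity)).trans eη0.le⟩
  obtain ⟨δ1, R1, K, d2, hK, c1⟩ := Step_cons hS hF hx hP hd hζ hη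
  obtain ⟨δ2, R2, d3, d1, c2⟩ := Step_shift hS hF hx hP hd hζ hz0 hη
  obtain ⟨δ3, d4, c3⟩ := aa_lin hF.c2 hx.1 hζ.1.continuous P hη
  obtain ⟨δ4, d5, c4⟩ := Step_unif ((contDiff_tl hS σ).of_le (by exact_mod_cast le_top))
    (isCompact_singleton (x := ph x 0)) hη
  obtain ⟨δ6, d7, c6⟩ := Step_near hx.continuous_ph P d4
  obtain ⟨δ, hδ, l1, l2, l3, l4, l6⟩ : ∃ δ : ℝ, 0 < δ ∧ δ ≤ δ1 ∧ δ ≤ δ2 ∧ δ ≤ δ3 ∧ δ ≤ δ4 ∧ δ ≤ δ6 :=
    ⟨min δ1 (min δ2 (min δ3 (min δ4 δ6))), by positivity, by simp, by simp, by simp, by simp,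
      by simp⟩
  refine ⟨δ, max R1 R2, K + 2, hδ, by linarith only [hK], fun h1 h2 z1 z2 T1 T2 N k1 k2 hs hp hN => ?_⟩
  have l7 : δ ≤ min (P / 4) 1 := l2.trans d1
  have N0 := Step_N hP.1 hN
  have m0 : (0 : ℝ) ∈ Icc 0 (P + P / 4) := left_mem_Icc.2 (by linarith only [hP, hP.1])
  have m1 := Step_mem2 l7 hp.t1
  have m2 := Step_mem2 l7 hp.t2
  have y1 := c6 T1 _ (hp.t1.trans l6) ((hp.n1 T1 m1).trans l6)
  have y2 := c6 T2 _ (hp.t2.trans l6) ((hp.n2 T2 m2).trans l6)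
  have e1 := hp.p1.ph hS 0
  have e2 := hp.p2.ph hS 0
  rw [zero_add] at e1 e2
  have a0 := c4 _ rfl _ _ ((hp.n1 0 m0).trans l4) ((hp.n2 0 m0).trans l4)
  rw [← e1, ← e2] at a0
  have a1 := l.le_of_opNorm_le_of_le le_rfl a0
  rw [map_sub, ← hl, ← hl, hT, Real.norm_eq_abs] at a1
  have r3 : ‖ph z2 T2 - ph z1 T1‖ ≤
      (‖fderiv ℝ (tl σ) (ph x 0)‖ + 1) * ‖ph z2 0 - ph z1 0‖ := by
    have b1 := norm_le_norm_add_norm_sub' (ph z2 T2 - ph z1 T1)
      (fderiv ℝ (tl σ) (ph x 0) (ph z2 0 - ph z1 0))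
    have b2 := (fderiv ℝ (tl σ) (ph x 0)).le_opNorm (ph z2 0 - ph z1 0)
    have b3 := mul_le_of_le_one_left (norm_nonneg (ph z2 0 - ph z1 0)) η1
    linarith only [a0, b1, b2, b3]
  have a2 := (c3 P (right_mem_Icc.2 hP.1.le) _ _ y1 y2).trans
    (mul_le_mul_of_nonneg_left r3 hη.le)
  have a3 := c2 h1 h2 z1 z2 T1 T2 N k1 k2 (hs.mono (le_max_right _ _) l2) (hp.mono l2) hN
  have a4 := c1 h1 h2 z1 z2 T1 T2 N k1 k2 (hs.mono (le_max_left _ _) l1) (hp.mono l1) hN T1 m1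
  have a5 := c3 0 (left_mem_Icc.2 hP.1.le) _ _ ((hp.n1 0 m0).trans l3) ((hp.n2 0 m0).trans l3)
  rw [Step_pr F x ξ, Step_pr F x ζ]
  rw [norm_sub_rev (ph z1 0)] at a3 a4 ⊢
  have a6 := mul_le_mul_of_nonneg_right eη (norm_nonneg (ph z2 0 - ph z1 0))
  have a7 := mul_le_of_le_one_left N0 η1
  rw [abs_le] at a1 a2 a3 a4 a5 ⊢
  constructor <;> linarith only [a1, a2, a3, a4, a5, a6, a7, a1.1, a1.2, a2.1, a2.2, a3.1, a3.2, a4.1, a4.2, a5.1, a5.2]

theorem en2 {F : E × E → ℝ} (hF : Tonelli Γ F) {x : ℝ → E} {P : ℝ} {σ : Γ}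
    (hx : IsOrbit F x) (hP : Perd x P σ) (d : Fin 4) {ε : ℝ} (hε : 0 < ε) :
    ∃ δ R : ℝ, 0 < δ ∧ ∀ (h1 h2 : E → ℝ) (z1 z2 : ℝ → E) (T1 T2 N : ℝ),
      ContDiff ℝ 2 h1 → ContDiff ℝ 2 h2 → Small R δ h2 → Duo F x P σ d δ h1 h2 z1 z2 T1 T2 →
      Src h1 h2 z1 (P + P / 4) N →
        |pr F x (deriv x) 0 (ph z1 0 - ph z2 0)| ≤ ε * ‖ph z1 0 - ph z2 0‖ + N := by
  obtain ⟨δ, hδ, H⟩ := StepA_mv (contDiff_energy hF.c2) (isCompact_singleton (x := ph x 0))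
    (half_pos hε)
  refine ⟨min δ (ε / 2), ‖x 0‖ + δ, lt_min hδ (half_pos hε),
    fun h1 h2 z1 z2 T1 T2 N k1 k2 hs hp hN => ?_⟩
  have h0 : (0 : ℝ) ∈ Icc 0 (P + P / 4) := ⟨le_rfl, by linarith only [hP, hP.1]⟩
  have n1 := (hp.n1 0 h0).trans (min_le_left _ _)
  have n2 := (hp.n2 0 h0).trans (min_le_left _ _)
  have a1 := H _ rfl _ _ n2 n1
  have e1 := hp.e1
  have e2 := hp.e2
  rw [energy_addPot hF.c2 k1, sub_eq_zero] at e1
  rw [energy_addPot hF.c2 k2, sub_eq_zero] at e2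
  have m : ∀ z : ℝ → E, ‖ph z 0 - ph x 0‖ ≤ δ → z 0 ∈ Metric.closedBall (0 : E) (‖x 0‖ + δ) :=
    fun z hz => mem_closedBall_zero_iff.2 ((norm_le_norm_add_norm_sub' (z 0) (x 0)).trans
      (add_le_add le_rfl ((norm_fst_le (ph z 0 - ph x 0)).trans hz)))
  have a3 : ‖h2 (z1 0) - h2 (z2 0)‖ ≤ ε / 2 * ‖z1 0 - z2 0‖ :=
    (convex_closedBall (0 : E) (‖x 0‖ + δ)).norm_image_sub_le_of_norm_fderiv_le
      (fun y _ => k2.differentiable two_ne_zero y)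
      (fun y hy => (hs y (mem_closedBall_zero_iff.1 hy)).2.1.trans (min_le_right _ _))
      (m z2 n2) (m z1 n1)
  have a4 : ε / 2 * ‖z1 0 - z2 0‖ ≤ ε / 2 * ‖ph z1 0 - ph z2 0‖ :=
    mul_le_mul_of_nonneg_left (norm_fst_le (ph z1 0 - ph z2 0)) (half_pos hε).le
  rw [e1, e2, Real.norm_eq_abs] at a1
  rw [Real.norm_eq_abs] at a3
  rw [pr_deriv hF.c2 hF.conv hx]
  have b1 := abs_le.1 a1
  have b3 := abs_le.1 (a3.trans a4)
  have b4 := abs_le.1 (hN 0 h0).1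
  have f1 : h1 (ph z1 0).1 = h1 (z1 0) := rfl
  have f2 : h2 (ph z2 0).1 = h2 (z2 0) := rfl
  exact abs_le.2 ⟨by linarith only [b1, b3, b4, f1, f2, b1.1, b1.2, b3.1, b3.2, b4.1, b4.2],
    by linarith only [b1, b3, b4, f1, f2, b1.1, b1.2, b3.1, b3.2, b4.1, b4.2]⟩

theorem duo_lip (hS : Surf Γ) {F : E × E → ℝ} (hF : Tonelli Γ F) {x : ℝ → E} {P : ℝ} {σ : Γ}
    (hx : IsOrbit F x) (hP : Perd x P σ) {d : Fin 4} (hd : 0 < X1 d (deriv x 0)) {τ : ℝ}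
    (hτ : IsTr F x P σ τ) (h2 : τ ≠ 2) :
    ∃ δ R C : ℝ, 0 < δ ∧ δ ≤ min (P / 4) 1 ∧ 0 ≤ C ∧
      ∀ (h1 h2 : E → ℝ) (z1 z2 : ℝ → E) (T1 T2 N : ℝ), ContDiff ℝ 2 h1 → ContDiff ℝ 2 h2 →
        Small R δ h2 → Duo F x P σ d δ h1 h2 z1 z2 T1 T2 → Src h1 h2 z1 (P + P / 4) N →
        (∀ t ∈ Icc 0 (P + P / 4), ‖ph z1 t - ph z2 t‖ ≤ C * N) ∧ |T1 - T2| ≤ C * N := by
  obtain ⟨C, ξ1, ξ2, hC, j1, j2, n1, n2, hb⟩ := lin_bound hS hF hx hP hd hτ h2
  have hε : 0 < 1 / (6 * C) := by positivity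
  obtain ⟨δ0, R0, C0, d0, d1, hC0, hr⟩ := duo_ratio hS hF hx.1 hP hd
  obtain ⟨δ1, R1, C1, d2, hC1, s1⟩ := step2 hS hF hx hP hd j1 n1 hε
  obtain ⟨δ2, R2, C2, d3, hC2, s2⟩ := step2 hS hF hx hP hd j2 n2 hε
  obtain ⟨δ3, R3, d4, s3⟩ := en2 hF hx hP d hε
  obtain ⟨δ, hδ, l0, l1, l2, l3⟩ : ∃ δ : ℝ, 0 < δ ∧ δ ≤ δ0 ∧ δ ≤ δ1 ∧ δ ≤ δ2 ∧ δ ≤ δ3 :=
    ⟨min δ0 (min δ1 (min δ2 δ3)), by positivity, by simp, by simp, by simp, by simp⟩
  refine ⟨δ, max (max R0 R1) (max R2 R3), C0 * (2 * C * (1 + C1 + C2) + 1), hδ, l0.trans d1,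
    by positivity, fun h1 h2 z1 z2 T1 T2 N k1 k2 hs hp hN => ?_⟩
  have N0 := Step_N hP.1 hN
  have a0 := hr h1 h2 z1 z2 T1 T2 N k1 k2 (hs.mono (by simp) l0) (hp.mono l0) hN
  have a1 := s1 h1 h2 z1 z2 T1 T2 N k1 k2 (hs.mono (by simp) l1) (hp.mono l1) hN
  have a2 := s2 h1 h2 z1 z2 T1 T2 N k1 k2 (hs.mono (by simp) l2) (hp.mono l2) hN
  have a3 := s3 h1 h2 z1 z2 T1 T2 N k1 k2 (hs.mono (by simp) l3) (hp.mono l3) hN
  have a4 := hb (ph z1 0 - ph z2 0)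
  have e : X1 d (ph z1 0 - ph z2 0).1 = 0 := by
    rw [Prod.fst_sub, map_sub]
    exact sub_eq_zero.2 hp.sec
  rw [e, abs_zero, zero_add] at a4
  have a5 := a4.trans (mul_le_mul_of_nonneg_left (add_le_add (add_le_add a3 a1) a2) hC.le)
  have e2 : C * (1 / (6 * C) * ‖ph z1 0 - ph z2 0‖) = ‖ph z1 0 - ph z2 0‖ / 6 := by
    field_simp
  have a6 : C0 * (‖ph z1 0 - ph z2 0‖ + N) ≤ C0 * (2 * C * (1 + C1 + C2) + 1) * N := by
    rw [mul_assoc]
    refine mul_le_mul_of_nonneg_left ?_ (by linarith only [hC0])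
    linarith only [a5, e2]
  exact ⟨fun t ht => (a0.1 t ht).trans a6, a0.2.trans a6⟩

end Pool.Agent.Work.MP_1ce82a_an
end

-- merged part: Pool.Agent.Work.MP_1ce82a_an.D.GQb
section
/-! The invariant potential adapted to a periodic curve.
PLAN. p = x (P/2), V = deriv x (P/2), d from exists_dir, theta from gq_local. eta <= min r (P/8) with norm (deriv x t - V) <= theta/2 and norm (x t - p) <= re/4 on the window (re from Surf.embedded). K = image under x of the compact set Icc 0 (P + P/4) minus the open window; no translate of a point of K is p (MinP.int applied to the shifted curve, which is again of minimal period by hu: a relation rho x t = x (P/2) forces t - P/2 to be a multiple of P);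
Pass_far gives d1. rho = min d1 re/2. Near z t with t outside the window per (gq q) vanishes identically (exists_of_per_ne_zero); near z t with t in the window it agrees with gq q (per_eq_of_unique). Split the integral over [0, T] at the ends of the window. -/

open Set Filter Topology MeasureTheory
open scoped ContDiff

namespace Pool.Agent.Work.MP_1ce82a_an

variable {Γ : Grp}

theorem GQb_zero {q : Bx × ℚ × ℚ} {y : E} (h : q.1.f0 y = 0) : gq q y = 0 := by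
  rw [gq, h, mul_zero]

theorem GQb_far {q : Bx × ℚ × ℚ} {p w : E} {ρ a : ℝ} (ha : 0 < a)
    (hq : ∀ y, q.1.f0 y ≠ 0 → ‖y - p‖ < ρ)
    (h : ∀ y' : E, ‖y' - w‖ ≤ a → ∀ γ : Γ, ¬ ‖γ • y' - p‖ ≤ ρ) :
    per Γ (gq q) =ᶠ[𝓝 w] fun _ => 0 := by
  filter_upwards [Metric.closedBall_mem_nhds w ha] with y hy
  by_contra hne
  obtain ⟨γ, hγ⟩ := exists_of_per_ne_zero hne
  exact h y (mem_closedBall_iff_norm.1 hy) γ (hq _ fun e => hγ (GQb_zero e)).le

theorem GQb_near {q : Bx × ℚ × ℚ} {p w : E} {ρ re : ℝ} (hre : 0 < re) (hρ : ρ ≤ re)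
    (hq : ∀ y, q.1.f0 y ≠ 0 → ‖y - p‖ < ρ)
    (h : ∀ (γ : Γ) (y : E), ‖y - p‖ ≤ re → ‖γ • y - p‖ ≤ re → γ = 1) (hw : ‖w - p‖ ≤ re / 2) :
    per Γ (gq q) =ᶠ[𝓝 w] gq q := by
  filter_upwards [Metric.closedBall_mem_nhds w (half_pos hre)] with y hy
  refine per_eq_of_unique fun γ hγ => GQb_zero (by_contra fun e => hγ (h γ y ?_ ?_))
  · have h1 := mem_closedBall_iff_norm.1 hy
    have h2 := norm_sub_le_norm_sub_add_norm_sub y w p
    linarith only [hw, h1, h2]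
  · exact (hq _ e).le.trans hρ

theorem exists_gq (hS : Surf Γ) {x : ℝ → E} (hx : ContDiff ℝ 1 x) {P : ℝ} {σ : Γ}
    (hP : Perd x P σ) (hu : ∀ (ρ : Γ) (t : ℝ), ρ • x t = x (P / 2) → ∃ k : ℤ, t = P / 2 + k * P)
    (hv : deriv x (P / 2) ≠ 0) {m0 M0 r ε : ℝ} (hm : 0 < m0) (hM : 0 < M0) (hr : 0 < r)
    (hε : 0 < ε) : ∃ (q : Bx × ℚ × ℚ) (κ δ : ℝ), 0 < κ ∧ 0 < δ ∧ ∀ (z : ℝ → E) (T : ℝ),
      ContDiff ℝ 1 z → (∀ t ∈ Icc 0 (P + P / 4), ‖ph z t - ph x t‖ ≤ δ) → |T - P| ≤ P / 4 →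
      (∀ t ∈ Icc 0 (P + P / 4), |per Γ (gq q) (z t)| ≤ ε * κ ∧
        ‖fderiv ℝ (per Γ (gq q)) (z t)‖ ≤ ε * κ) ∧
      ∀ ζ : ℝ → E, Continuous ζ → (∀ t ∈ Icc 0 (P + P / 4), ‖ζ t‖ ≤ M0) →
        (∀ t, |t - P / 2| ≤ r → t ∈ Icc 0 (P + P / 4) → m0 ≤ |det2 (deriv x (P / 2)) (ζ t)|) →
        κ ≤ ∫ t in (0 : ℝ)..T, fderiv ℝ (fderiv ℝ (per Γ (gq q))) (z t) (ζ t) (ζ t) := by
  have hc : Continuous (ph x) := hx.continuous.prodMk (hx.continuous_deriv le_rfl)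
  have P0 := hP.1
  obtain ⟨d, hd⟩ := exists_dir (deriv x (P / 2))
  obtain ⟨θ, θ0, hθ⟩ := gq_local d (x (P / 2)) (deriv x (P / 2)) hd hv hm hM hε
  obtain ⟨re, re0, hre⟩ := hS.embedded (x (P / 2))
  have e0 : ∀ᶠ Z in 𝓝 (ph x (P / 2)),
      ‖Z.2 - deriv x (P / 2)‖ ≤ θ ∧ ‖Z.1 - x (P / 2)‖ ≤ re / 2 :=
    (((continuous_snd.sub continuous_const).norm.continuousAt.eventually_lt
      (f := fun Z : E × E => ‖Z.2 - deriv x (P / 2)‖) continuousAt_const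
      (by simpa only [ph, sub_self, norm_zero] using θ0)).mono fun _ => le_of_lt).and
    (((continuous_fst.sub continuous_const).norm.continuousAt.eventually_lt
      (f := fun Z : E × E => ‖Z.1 - x (P / 2)‖) continuousAt_const
      (by simpa only [ph, sub_self, norm_zero] using half_pos re0)).mono fun _ => le_of_lt)
  obtain ⟨η1, p1, q1⟩ := Pass_ev hc (P / 2) e0
  obtain ⟨η, η0, l1, l2, l3⟩ : ∃ η : ℝ, 0 < η ∧ η ≤ η1 ∧ η ≤ r ∧ η ≤ P / 8 :=
    ⟨min η1 (min r (P / 8)), by positivity, min_le_left _ _,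
      (min_le_right _ _).trans (min_le_left _ _), (min_le_right _ _).trans (min_le_right _ _)⟩
  have hK : IsCompact (x '' (Icc 0 (P + P / 4) ∩ {t | η ≤ |t - P / 2|})) :=
    (isCompact_Icc.inter_right (isClosed_le continuous_const (by fun_prop))).image hx.continuous
  obtain ⟨d1, d0, hd1⟩ := Pass_far hS hK (p := x (P / 2)) (by
    rintro _ ⟨t, ⟨⟨t1, t2⟩, t3⟩, rfl⟩ γ e
    obtain ⟨k, hk⟩ := hu γ t e
    have k1 : (-1 : ℝ) < k := by
      by_contra hn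
      have := mul_le_mul_of_nonneg_right (not_lt.1 hn) P0.le
      linarith only [η0, l3, t1, hk, this]
    have k2 : (k : ℝ) < 1 := by
      by_contra hn
      have := mul_le_mul_of_nonneg_right (not_lt.1 hn) P0.le
      linarith only [η0, l3, t2, hk, this]
    have k3 : k = 0 := by
      have a : (-1 : ℤ) < k := by exact_mod_cast k1
      have b : k < 1 := by exact_mod_cast k2
      omega
    rw [k3, Int.cast_zero, zero_mul, add_zero] at hk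
    have t4 : η ≤ |t - P / 2| := t3
    rw [hk, sub_self, abs_zero] at t4
    exact t4.not_gt η0)
  obtain ⟨q, κ, δ0, κ0, δ00, hq, hz⟩ := hθ η (min d1 re) η0 (lt_min d0 re0)
  obtain ⟨δ, δp, m1, m2, m3⟩ : ∃ δ : ℝ, 0 < δ ∧ δ ≤ δ0 ∧ δ ≤ η1 ∧ δ ≤ d1 / 2 :=
    ⟨min δ0 (min η1 (d1 / 2)), by positivity, min_le_left _ _,
      (min_le_right _ _).trans (min_le_left _ _), (min_le_right _ _).trans (min_le_right _ _)⟩
  refine ⟨q, κ, δ, κ0, δp, fun z T hzc hn hT => ?_⟩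
  have hn1 : ∀ t ∈ Icc 0 (P + P / 4), ‖z t - x t‖ ≤ δ := fun t ht =>
    (norm_fst_le (ph z t - ph x t)).trans (hn t ht)
  have win : ∀ t ∈ Icc (P / 2 - η) (P / 2 + η), |t - P / 2| ≤ η ∧ t ∈ Icc 0 (P + P / 4) :=
    fun t ht => ⟨abs_le.2 ⟨by linarith only [ht, ht.1], by linarith only [ht, ht.2]⟩,
      by linarith only [η0, l3, ht, ht.1], by linarith only [η0, l3, ht, ht.2]⟩
  have hin : ∀ t ∈ Icc (P / 2 - η) (P / 2 + η),
      ‖deriv z t - deriv x (P / 2)‖ ≤ θ ∧ ‖z t - x (P / 2)‖ ≤ re / 2 := fun t ht =>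
    q1 t (ph z t) ((win t ht).1.trans l1) ((hn t (win t ht).2).trans m2)
  have far : ∀ t ∈ Icc 0 (P + P / 4), η ≤ |t - P / 2| →
      per Γ (gq q) =ᶠ[𝓝 (z t)] fun _ => 0 := fun t ht h =>
    GQb_far (half_pos d0) hq fun y hy γ e => hd1 (x t) ⟨t, ⟨ht, h⟩, rfl⟩ y (by
      have h1 := hn1 t ht
      have h2 := norm_sub_le_norm_sub_add_norm_sub y (z t) (x t)
      linarith only [m3, hy, h1, h2]) γ (e.trans (min_le_left _ _))
  have near : ∀ t ∈ Icc (P / 2 - η) (P / 2 + η), per Γ (gq q) =ᶠ[𝓝 (z t)] gq q := fun t ht =>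
    GQb_near re0 (min_le_right _ _) hq hre (hin t ht).2
  obtain ⟨hA, hB⟩ := hz z (P / 2) hzc
    ((hn1 (P / 2) ⟨by linarith only [η0, l3], by linarith only [η0, l3]⟩).trans m1) fun t ht => (hin t ht).1
  have εκ : 0 ≤ ε * κ := by positivity
  refine ⟨fun t ht => ?_, fun ζ hζ hζM hζm => ?_⟩
  · rcases le_total η |t - P / 2| with h | h
    · rw [(far t ht h).eq_of_nhds, (far t ht h).fderiv_eq]
      simpa using εκ
    · have h' : t ∈ Icc (P / 2 - η) (P / 2 + η) :=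
        ⟨by linarith only [h, (abs_le.1 h).1], by linarith only [h, (abs_le.1 h).2]⟩
      rw [(near t h').eq_of_nhds, (near t h').fderiv_eq]
      exact hA t h'
  · have hs : ContDiff ℝ ∞ (per Γ (gq q)) := per_contDiff hS (gq_contDiff q) (gq_cpt q)
    have h2 : Continuous (fderiv ℝ (fderiv ℝ (per Γ (gq q)))) :=
      ((contDiff_infty_iff_fderiv.1 hs).2).continuous_fderiv (by simp)
    have hG : Continuous fun t => fderiv ℝ (fderiv ℝ (per Γ (gq q))) (z t) (ζ t) (ζ t) :=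
      ((h2.comp hzc.continuous).clm_apply hζ).clm_apply hζ
    have hT' := abs_le.1 hT
    have z0 : ∀ a b : ℝ, a ≤ b → (∀ t ∈ Icc a b, t ∈ Icc 0 (P + P / 4) ∧ η ≤ |t - P / 2|) →
        ∫ t in a..b, fderiv ℝ (fderiv ℝ (per Γ (gq q))) (z t) (ζ t) (ζ t) = 0 := by
      intro a b hab h
      rw [intervalIntegral.integral_congr (g := fun _ => (0 : ℝ)), intervalIntegral.integral_zero]
      intro t ht
      rw [uIcc_of_le hab] at ht
      have e := ((far t (h t ht).1 (h t ht).2).fderiv (𝕜 := ℝ)).fderiv_eq (𝕜 := ℝ)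
      simp only [e, fderiv_fun_const, Pi.zero_def, zero_apply]
    rw [← intervalIntegral.integral_add_adjacent_intervals (b := P / 2 - η)
        (hG.intervalIntegrable _ _) (hG.intervalIntegrable _ _),
      ← intervalIntegral.integral_add_adjacent_intervals (a := P / 2 - η) (b := P / 2 + η)
        (hG.intervalIntegrable _ _) (hG.intervalIntegrable _ _),
      z0 0 (P / 2 - η) (by linarith only [η0, l3]) fun t ht => ⟨⟨ht.1, by linarith only [η0, l3, ht, ht.2]⟩,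
        le_abs.2 (Or.inr (by linarith only [ht, ht.2]))⟩,
      z0 (P / 2 + η) T (by linarith only [η0, l3, hT', hT'.1]) fun t ht => ⟨⟨by linarith only [η0, l3, ht, ht.1],
        by linarith only [hT', ht, ht.2, hT'.2]⟩, le_abs.2 (Or.inl (by linarith only [ht, ht.1]))⟩,
      zero_add, add_zero,
      intervalIntegral.integral_congr
        (g := fun t => fderiv ℝ (fderiv ℝ (gq q)) (z t) (ζ t) (ζ t)) fun t ht => by
          rw [uIcc_of_le (by linarith only [η0])] at ht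
          simp only [((near t ht).fderiv (𝕜 := ℝ)).fderiv_eq (𝕜 := ℝ)]]
    exact hB ζ hζ fun t ht => ⟨hζM t (win t ht).2, hζm t ((win t ht).1.trans l2) (win t ht).2⟩

/-- Returns to the point at half period happen only after whole periods. -/
theorem DegD.half (hS : Surf Γ) {F : E × E → ℝ} (hF : Tonelli Γ F) {c : H1 Γ} (hc : Crit F c)
    {x ξ : ℝ → E} {P : ℝ} {σ : Γ} (h : DegD F c x P σ ξ) (ρ : Γ) (t : ℝ)
    (e : ρ • x t = x (P / 2)) : ∃ k : ℤ, t = P / 2 + k * P := by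
  obtain ⟨u, hu⟩ := exists_inS hS hF hc
  have hx := h.cal u hu
  have e1 : ρ • x (t + -(P / 2)) = x (P / 2 + -(P / 2)) :=
    CalR.uniq hF.ton0 hu.2 (hx.smul hS hF.invL hu.1 ρ) hx (s1 := t) (s2 := P / 2) e (-(P / 2))
  rw [add_neg_cancel] at e1
  obtain ⟨k, hk, -⟩ := h.min.int hS h.per e1
  exact ⟨k, by linarith only [hk]⟩

end Pool.Agent.Work.MP_1ce82a_an
end

-- merged part: Pool.Agent.Work.MP_1ce82a_an.D.Key
section
/-! The cone condition at a degenerate orbit.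
PLAN. d from exists_dir at deriv x 0; duo_lip with tau = -2 (DegD.tau) gives d0, R1, C0. R0 bounds ph x + 1 and M0 bounds ph xi + 1 on I = Icc 0 (P + P/4); m0 = |det2|/2 and r from continuity of xi at P/2 (with margin e1 such that every field within e1 of xi still has |det2| >= m0 on the window). jac_cont_fwd gives R2 (its R may depend on the tolerance: fix the tolerance min 1 (e1/2) first). R = max of the radii.
Given M: C1 from sv_cmp, eps = 1/(8 (C1 C0 + 1)), q, kappa, dg from exists_gq with 2 M0. two_near: cc_R for x1 and x2 (exists_inS, Adm) and a small time shift of x1 (cross_time) give a Duo at any tolerance. kbound: the loops z1 and x2 have zero excess for their own pairs (CalR.act_eq) and nonnegative excess for the other pair (Crit), act_addPot, abs_pot_le.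
N = 2 s eps kappa + 2 eta + 4 |dc|/P bounds the source. D = min (C0 N) (2 delta). With zeta = xi2 + t k: 0 <= SVq (F + p1) z1 zeta (sv_nonneg) = SVq (F + p2) z1 zeta + integral of D^2 (p1 - p2) (sv_addPot, addPot_addPot) <= 0 + C1 C0 N - s kappa + eta (2 M0)^2 2 P (sv_zero). -/

open Set Filter Topology MeasureTheory
open scoped ContDiff

namespace Pool.Agent.Work.MP_1ce82a_an

variable {Γ : Grp}

theorem two_near (hS : Surf Γ) {F : E × E → ℝ} (hF : Tonelli Γ F) {c : H1 Γ} (hc : Crit F c)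
    {x : ℝ → E} (hx : AllCal F c x) {P : ℝ} {σ : Γ} (hP : Perd x P σ) {d : Fin 4}
    (hd : 0 < X1 d (deriv x 0)) {ε : ℝ} (hε : 0 < ε) : ∃ δ : ℝ, 0 < δ ∧ δ ≤ ε ∧
      ∃ 𝒩 ∈ nb F c, ∀ p1 ∈ 𝒩, ∀ p2 ∈ 𝒩, ∀ (x1 x2 : ℝ → E) (T1 T2 : ℝ),
        AllCal (addPot F p1.1) p1.2 x1 → Perd x1 T1 σ → ‖x1 0 - x 0‖ ≤ δ → |T1 - P| ≤ δ →
        AllCal (addPot F p2.1) p2.2 x2 → Perd x2 T2 σ → ‖x2 0 - x 0‖ ≤ δ → |T2 - P| ≤ δ →
        ∃ z1 : ℝ → E, AllCal (addPot F p1.1) p1.2 z1 ∧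
          Duo F x P σ d ε p1.1 p2.1 z1 x2 T1 T2 := by
  obtain ⟨u, hu⟩ := exists_inS hS hF hc
  have ho := (hx u hu).isOrbit hF.ton0 hu.2
  have hP0 := hP.1
  obtain ⟨v, hv, hv2⟩ : ∃ v, 0 < v ∧ X1 d (deriv x 0) = 2 * v := ⟨_, half_pos hd, by ring⟩
  obtain ⟨η0, hη0, h1⟩ := Metric.uniformContinuousOn_iff_le.1
    ((isCompact_Icc (a := -(P + P / 4 + 1)) (b := P + P / 4 + 1)).uniformContinuousOn_of_continuous
      ho.continuous_ph.continuousOn) (min (ε / 2) (v / 2)) (by positivity)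
  obtain ⟨η, n0, n1, n2⟩ : ∃ η, 0 < η ∧ η ≤ η0 ∧ η ≤ 1 :=
    ⟨min η0 1, by positivity, min_le_left _ _, min_le_right _ _⟩
  obtain ⟨e, e0, e1, e2, e3⟩ : ∃ e, 0 < e ∧ e ≤ ε / 2 ∧ e ≤ v / 2 ∧ e ≤ v * η / 2 :=
    ⟨min (ε / 2) (min (v / 2) (v * η / 2)), by positivity, min_le_left _ _,
      (min_le_right _ _).trans (min_le_left _ _), (min_le_right _ _).trans (min_le_right _ _)⟩
  obtain ⟨δ0, hδ0, h2⟩ := cc_R hS hF hx 0 (P + P / 4 + 1) e0
  refine ⟨min δ0 ε, by positivity, min_le_right _ _, _, (nb_adm F c).and h2, ?_⟩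
  rintro p1 ⟨a1, b1⟩ p2 ⟨a2, b2⟩ x1 x2 T1 T2 c1 q1 s1 t1 c2 q2 s2 t2
  have F1 := hF.addPot a1.1 a1.2.1
  have F2 := hF.addPot a2.1 a2.2.1
  obtain ⟨u1, hu1⟩ := exists_inS hS F1 a1.2.2
  obtain ⟨u2, hu2⟩ := exists_inS hS F2 a2.2.2
  have k1 := b1 u1 hu1 x1 (c1 u1 hu1) 0 abs_zero.le (s1.trans (min_le_left _ _))
  have k2 := b2 u2 hu2 x2 (c2 u2 hu2) 0 abs_zero.le (s2.trans (min_le_left _ _))
  simp only [zero_add] at k1 k2
  have o1 := (c1 u1 hu1).isOrbit F1.ton0 hu1.2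
  have m0 : (0 : ℝ) ∈ Icc (-(P + P / 4 + 1)) (P + P / 4 + 1) := ⟨by linarith only [hP0], by linarith only [hP0]⟩
  have k3 : ∀ t ∈ Icc 0 (P + P / 4), ∀ τ, |τ| ≤ η →
      ‖ph x1 (t + τ) - ph x t‖ ≤ e + min (ε / 2) (v / 2) := fun t ht τ hτ => by
    have m1 : t + τ ∈ Icc (-(P + P / 4 + 1)) (P + P / 4 + 1) :=
      ⟨by linarith only [hP0, n2, ht, hτ, ht.1, (abs_le.1 hτ).1], by linarith only [n2, ht, hτ, ht.2, (abs_le.1 hτ).2]⟩
    have m2 := h1 (t + τ) m1 t ⟨by linarith only [hP0, ht, ht.1], by linarith only [ht, ht.2]⟩ (by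
      rw [Real.dist_eq, add_sub_cancel_left]; exact hτ.trans n1)
    rw [dist_eq_norm] at m2
    exact (norm_sub_le_norm_sub_add_norm_sub _ _ _).trans (add_le_add (k1 _ m1) m2)
  have k4 : |X1 d (x1 0) - X1 d (x2 0)| ≤ v * η := by
    rw [← map_sub]
    have m1 : ‖x1 0 - x 0‖ ≤ e := (norm_fst_le (ph x1 0 - ph x 0)).trans (k1 0 m0)
    have m2 : ‖x2 0 - x 0‖ ≤ e := (norm_fst_le (ph x2 0 - ph x 0)).trans (k2 0 m0)
    rw [norm_sub_rev] at m2
    linarith only [e3, m1, m2, abs_X1_le d (x1 0 - x2 0), norm_sub_le_norm_sub_add_norm_sub (x1 0) (x 0) (x2 0)]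
  obtain ⟨τ, τ1, τ2⟩ := cross_time (f := fun t => X1 d (x1 t)) (f' := fun t => X1 d (deriv x1 t))
    (t0 := 0) (r := η) hv (fun t ht => ⟨(X1 d).hasFDerivAt.comp_hasDerivAt t (o1.hasDerivAt t), by
      have m1 := k3 0 ⟨le_rfl, by linarith only [hP0]⟩ t (abs_le.2 ⟨by linarith only [ht, ht.1], by linarith only [ht, ht.2]⟩)
      rw [zero_add] at m1
      have m2 : ‖deriv x1 t - deriv x 0‖ ≤ _ := (norm_snd_le (ph x1 t - ph x 0)).trans m1
      have m3 := (abs_le.1 ((abs_X1_le d _).trans m2)).1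
      rw [map_sub] at m3
      linarith only [hv2, e2, m3, min_le_right (ε / 2) (v / 2)]⟩) k4
  have τ3 : |τ| ≤ η := by
    rw [sub_zero] at τ1
    exact τ1.trans ((div_le_iff₀' hv).2 k4)
  have c3 : AllCal (addPot F p1.1) p1.2 fun r => x1 (r + τ) := fun w hw => (c1 w hw).shift τ
  refine ⟨_, c3, (c3 u1 hu1).isOrbit F1.ton0 hu1.2, (c2 u2 hu2).isOrbit F2.ton0 hu2.2,
    ⟨q1.1, fun t => ?_⟩, q2, fun t ht => ?_, fun t ht => ?_, t1.trans (min_le_right _ _),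
    t2.trans (min_le_right _ _), ?_, (c3 u1 hu1).energy F1.ton0 hu1.2 0,
    (c2 u2 hu2).energy F2.ton0 hu2.2 0⟩
  · show x1 (t + T1 + τ) = σ • x1 (t + τ)
    rw [add_right_comm, q1.2]
  · rw [ph_shift]
    linarith only [e1, k3, ht, τ3, k3 t ht τ τ3, min_le_left (ε / 2) (v / 2)]
  · linarith only [e0, e1, k2, hP0, ht, k2 t ⟨by linarith [ht.1], by linarith [ht.2]⟩]
  · show X1 d (x1 (0 + τ)) = _
    rw [zero_add]
    exact τ2

theorem Key_act {F : E × E → ℝ} (hF : Continuous F) {h1 h2 : E → ℝ} (c1 : Continuous h1)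
    (c2 : Continuous h2) {z : ℝ → E} {T : ℝ} (hz : IsPath z 0 T) (k : ℝ) :
    act (addPot F h1) z 0 T =
      act (addPot F h2) z 0 T + pot (fun y => h1 y - h2 y - k) z 0 T + k * T := by
  have e : addPot F h1 = addPot (addPot (addPot F h2) fun y => h1 y - h2 y - k) fun _ => k := by
    funext w
    simp only [addPot]
    ring
  have c3 : Continuous (addPot F h2) := hF.add (c2.comp continuous_fst)
  have c4 : Continuous fun y => h1 y - h2 y - k := (c1.sub c2).sub continuous_const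
  have c5 : Continuous (addPot (addPot F h2) fun y => h1 y - h2 y - k) :=
    c3.add (c4.comp continuous_fst)
  rw [e, act_addPot c5 continuous_const hz, act_addPot c3 c4 hz, pot_const, sub_zero]

theorem kbound (hS : Surf Γ) {F : E × E → ℝ} (hF : Tonelli Γ F) {p1 p2 : Par Γ} (h1 : Adm F p1)
    (h2 : Adm F p2) {z1 z2 : ℝ → E} {T1 T2 P : ℝ} {σ : Γ} (hP : 0 < P)
    (c1 : AllCal (addPot F p1.1) p1.2 z1) (c2 : AllCal (addPot F p2.1) p2.2 z2)
    (q1 : Perd z1 T1 σ) (q2 : Perd z2 T2 σ) (t1 : |T1 - P| ≤ P / 4) (t2 : |T2 - P| ≤ P / 4)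
    {k B : ℝ} (hb : ∀ t ∈ Icc 0 (P + P / 4), |p1.1 (z1 t) - p2.1 (z1 t) - k| ≤ B ∧
      |p1.1 (z2 t) - p2.1 (z2 t) - k| ≤ B) : |k| ≤ B + 2 / P * |p1.2.1 σ - p2.2.1 σ| := by
  have F1 := hF.addPot h1.1 h1.2.1
  have F2 := hF.addPot h2.1 h2.2.1
  obtain ⟨u1, hu1⟩ := exists_inS hS F1 h1.2.2
  obtain ⟨u2, hu2⟩ := exists_inS hS F2 h2.2.2
  obtain ⟨l1, a1⟩ := (c1 u1 hu1).act_eq hu1 q1
  obtain ⟨l2, a2⟩ := (c2 u2 hu2).act_eq hu2 q2
  have b1 := h2.2.2.1 z1 T1 σ l1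
  have b2 := h1.2.2.1 z2 T2 σ l2
  rw [Key_act hF.c2.continuous h1.1.continuous h2.1.continuous l1.2.1 k] at a1
  rw [Key_act hF.c2.continuous h1.1.continuous h2.1.continuous l2.2.1 k] at b2
  obtain ⟨t11, t12⟩ := abs_le.1 t1
  obtain ⟨t21, t22⟩ := abs_le.1 t2
  have d1 := abs_le.1 (abs_pot_le (g := fun y => p1.1 y - p2.1 y - k) q1.1.le
    fun t ht => (hb t ⟨ht.1, by linarith only [t12, ht, ht.2]⟩).1)
  have d2 := abs_le.1 (abs_pot_le (g := fun y => p1.1 y - p2.1 y - k) q2.1.le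
    fun t ht => (hb t ⟨ht.1, by linarith only [t22, ht, ht.2]⟩).2)
  have key : ∀ a T : ℝ, P / 2 ≤ T → a * T ≤ B * T + |p1.2.1 σ - p2.2.1 σ| →
      a ≤ B + 2 / P * |p1.2.1 σ - p2.2.1 σ| := fun a T hT h => by
    have T0 : 0 < T := by linarith only [hP, hT]
    have e : 1 ≤ 2 / P * T := by
      rw [div_mul_eq_mul_div, le_div_iff₀ hP]; linarith only [hT]
    have e' := mul_le_mul_of_nonneg_right e (abs_nonneg (p1.2.1 σ - p2.2.1 σ))
    refine le_of_mul_le_mul_right ?_ T0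
    linarith only [h, e']
  refine abs_le.2 ⟨neg_le.1 (key (-k) T2 (by linarith only [hP, t21]) ?_), key k T1 (by linarith only [hP, t11]) ?_⟩
  · linarith only [a2, b2, d2, neg_abs_le (p1.2.1 σ - p2.2.1 σ), d2.2]
  · linarith only [a1, b1, d1, le_abs_self (p1.2.1 σ - p2.2.1 σ), d1.1]

theorem Key_bd {x : ℝ → E} (hx : ContDiff ℝ 1 x) {P : ℝ} (_ : 0 < P) :
    ∃ R : ℝ, ∀ t ∈ Icc 0 (P + P / 4), ‖ph x t‖ + 1 ≤ R := by
  have h : Continuous (ph x) := hx.continuous.prodMk (hx.continuous_deriv le_rfl)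
  obtain ⟨C, hC⟩ := (isCompact_Icc (a := 0) (b := P + P / 4)).exists_bound_of_continuousOn
    h.continuousOn
  exact ⟨C + 1, fun t ht => by linarith [hC t ht]⟩

theorem Key_win {ξ : ℝ → E} (hξ : Continuous ξ) {V : E} {s : ℝ} (h : det2 V (ξ s) ≠ 0) :
    ∃ m e r : ℝ, 0 < m ∧ 0 < e ∧ e ≤ 1 ∧ 0 < r ∧ ∀ t, |t - s| ≤ r → ∀ w : E,
      ‖w - ξ t‖ ≤ 2 * e → m ≤ |det2 V w| := by
  have h0 := abs_pos.2 h
  have hc : Continuous fun w : E => |det2 V w| := by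
    unfold det2
    fun_prop
  obtain ⟨e, e0, h1⟩ := Metric.nhds_basis_closedBall.eventually_iff.1
    ((hc.tendsto (ξ s)).eventually_const_le (half_lt_self h0))
  obtain ⟨r, r0, h2⟩ := Metric.nhds_basis_closedBall.eventually_iff.1
    ((hξ.tendsto s).eventually (Metric.closedBall_mem_nhds _ (by positivity : 0 < e / 3)))
  refine ⟨_, min (e / 3) 1, r, half_pos h0, by positivity, min_le_right _ _, r0,
    fun t ht w hw => h1 ?_⟩
  have h3 := mem_closedBall_iff_norm.1 (h2 (mem_closedBall_iff_norm.2 ht))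
  rw [mem_closedBall_iff_norm]
  linarith only [hw, h3, norm_sub_le_norm_sub_add_norm_sub w (ξ t) (ξ s), min_le_left (e / 3) 1]

theorem Key_src {h1 h2 G ρ : E → ℝ} (c2 : ContDiff ℝ 2 h2) (hG : ContDiff ℝ 2 G)
    (hρ : ContDiff ℝ 2 ρ) {s k a η : ℝ} (hs : 0 ≤ s) (he : ∀ y, h1 y = h2 y - s * G y + ρ y + k)
    {y : E} (b1 : |G y| ≤ a ∧ ‖fderiv ℝ G y‖ ≤ a)
    (b2 : |ρ y| ≤ η ∧ ‖fderiv ℝ ρ y‖ ≤ η ∧ ‖fderiv ℝ (fderiv ℝ ρ) y‖ ≤ η) :
    |h1 y - h2 y - k| ≤ s * a + η ∧ ‖fderiv ℝ h1 y - fderiv ℝ h2 y‖ ≤ s * a + η := by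
  constructor
  · rw [he, show h2 y - s * G y + ρ y + k - h2 y - k = ρ y - s * G y by ring]
    have := abs_sub (ρ y) (s * G y)
    rw [abs_mul, abs_of_nonneg hs] at this
    linarith only [b2, this, b1, hs, mul_le_mul_of_nonneg_left b1.1 hs, b2.1]
  · have d : HasFDerivAt h1 (fderiv ℝ h2 y - s • fderiv ℝ G y + fderiv ℝ ρ y) y := by
      rw [funext he]
      exact (((c2.differentiable two_ne_zero y).hasFDerivAt.sub
        ((hG.differentiable two_ne_zero y).hasFDerivAt.const_mul s)).add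
        (hρ.differentiable two_ne_zero y).hasFDerivAt).add_const k
    rw [d.fderiv, show fderiv ℝ h2 y - s • fderiv ℝ G y + fderiv ℝ ρ y - fderiv ℝ h2 y =
      fderiv ℝ ρ y - s • fderiv ℝ G y by abel]
    have := norm_sub_le (fderiv ℝ ρ y) (s • fderiv ℝ G y)
    rw [norm_smul, Real.norm_of_nonneg hs] at this
    linarith only [b2, this, b1, hs, mul_le_mul_of_nonneg_left b1.2 hs, b2.2.1]

theorem Key_sv {F : E × E → ℝ} (hF : ContDiff ℝ 2 F) {h1 h2 G ρ : E → ℝ} (c1 : ContDiff ℝ 2 h1)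
    (c2 : ContDiff ℝ 2 h2) (hG : ContDiff ℝ 2 G) (hρ : ContDiff ℝ 2 ρ) {s k : ℝ}
    (he : ∀ y, h1 y = h2 y - s * G y + ρ y + k) {z ζ : ℝ → E} (hz : ContDiff ℝ 1 z)
    (hζ : ContDiff ℝ 1 ζ) (T : ℝ) (σ : Γ) :
    SVq (addPot F h1) z T σ ζ + s * ∫ t in (0 : ℝ)..T, fderiv ℝ (fderiv ℝ G) (z t) (ζ t) (ζ t) =
      SVq (addPot F h2) z T σ ζ +
        ∫ t in (0 : ℝ)..T, fderiv ℝ (fderiv ℝ ρ) (z t) (ζ t) (ζ t) := by
  have e : addPot (addPot F h1) (fun y => s * G y) = addPot (addPot F h2) fun y => ρ y + k := by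
    funext w
    simp only [addPot, he]
    ring
  have f1 : ContDiff ℝ 2 (addPot F h1) := hF.add (c1.comp contDiff_fst)
  have f2 : ContDiff ℝ 2 (addPot F h2) := hF.add (c2.comp contDiff_fst)
  have k1 := sv_addPot f1 (h := fun y => s * G y) (contDiff_const.mul hG) hz hζ T σ
  have k2 := sv_addPot f2 (h := fun y => ρ y + k) (hρ.add contDiff_const) hz hζ T σ
  have d1 : fderiv ℝ (fun y => s * G y) = fun y => s • fderiv ℝ G y :=
    funext fun y => fderiv_const_mul (hG.differentiable two_ne_zero y) s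
  have d2 : fderiv ℝ (fun y => ρ y + k) = fderiv ℝ ρ := funext fun y => fderiv_add_const k
  have d3 : ∀ y, fderiv ℝ (fun y => s • fderiv ℝ G y) y = s • fderiv ℝ (fderiv ℝ G) y := fun y =>
    fderiv_fun_const_smul
      ((hG.fderiv_right (m := 1) (by norm_num)).differentiable one_ne_zero y) s
  rw [e, k2, d1] at k1
  rw [d2] at k1
  simp only [d3, smul_apply, smul_eq_mul,
    intervalIntegral.integral_const_mul] at k1
  exact k1.symm

theorem key_cone (hS : Surf Γ) {F : E × E → ℝ} (hF : Tonelli Γ F) (h3 : ContDiff ℝ 3 F)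
    {c : H1 Γ} (hc : Crit F c) {x ξ : ℝ → E} {P : ℝ} {σ : Γ} (hD : DegD F c x P σ ξ) :
    ∃ R : ℝ, ∀ M : ℝ, ∃ (q : Bx × ℚ × ℚ) (δ C : ℝ), 0 < δ ∧ 0 ≤ C ∧
      ∃ 𝒩 ∈ nb F c, ∀ p1 ∈ 𝒩, ∀ p2 ∈ 𝒩, ∀ (x1 x2 ξ2 : ℝ → E) (T1 T2 : ℝ),
        AllCal (addPot F p1.1) p1.2 x1 → Perd x1 T1 σ → ‖x1 0 - x 0‖ ≤ δ → |T1 - P| ≤ δ →
        DegD (addPot F p2.1) p2.2 x2 T2 σ ξ2 → ‖x2 0 - x 0‖ ≤ δ → |T2 - P| ≤ δ →
        ‖ξ2 0 - ξ 0‖ ≤ δ → ‖mom (addPot F p2.1) x2 ξ2 0 - mom F x ξ 0‖ ≤ δ → LipD2 R M p2.1 →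
        ∀ (s η k : ℝ) (ρ : E → ℝ), 0 ≤ s → ContDiff ℝ 2 ρ → Small R η ρ →
          (∀ y, p1.1 y = p2.1 y - s * per Γ (gq q) y + ρ y + k) →
          s ≤ C * (η + |p1.2.1 σ - p2.2.1 σ|) := by
  obtain ⟨u, hu⟩ := exists_inS hS hF hc
  have ho := (hD.cal u hu).isOrbit hF.ton0 hu.2
  have hP := hD.per.1
  obtain ⟨d, hd⟩ := exists_dir (deriv x 0)
  have hd0 : 0 < X1 d (deriv x 0) := hd ▸ norm_pos_iff.2 hD.vel
  obtain ⟨δ0, R1, C0, hδ0, hδ1, hC0, HL⟩ :=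
    duo_lip hS hF ho hD.per hd0 (hD.tau hS hF hc) (by norm_num)
  obtain ⟨R0, hR0⟩ := Key_bd ho.1 hP
  obtain ⟨M0, hM0⟩ := Key_bd hD.jac.1 hP
  have M1 : 1 ≤ M0 := by linarith only [hM0, hP, hM0 0 ⟨le_rfl, by linarith⟩, norm_nonneg (ph ξ 0)]
  obtain ⟨m0, e, r, m1, e0, e1, r0, hw⟩ := Key_win hD.jac.1.continuous hD.tr
  obtain ⟨δj, R2, hδj, HJ⟩ := jac_cont_fwd hF.c2 hF.conv ho.1 hD.jac (P + P / 4) e0
  refine ⟨max R0 (max R1 R2), fun M => ?_⟩
  obtain ⟨C1, hC1, HC⟩ := sv_cmp hS σ h3 R0 M0 M hP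
  obtain ⟨ε, ε0, ε1⟩ : ∃ ε, 0 < ε ∧ C1 * C0 * ε ≤ 1 / 4 := by
    refine ⟨1 / (4 * (C1 * C0 + 1)), by positivity, ?_⟩
    rw [mul_one_div, div_le_iff₀ (by positivity)]
    linarith only []
  obtain ⟨q, κ, dg, κ0, hdg, HG⟩ := exists_gq hS ho.1 hD.per (hD.half hS hF hc)
    ((hD.cal u hu).deriv_ne_zero hF.ton0 hu.2 hD.vel _) m1 (M0 := 2 * M0) (by linarith only [M1]) r0 ε0
  obtain ⟨a, a0, a1, a2, a3, a4, a5⟩ : ∃ a, 0 < a ∧ a ≤ δ0 ∧ a ≤ δj ∧ a ≤ dg ∧ a ≤ 1 / 2 ∧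
      (P + P / 4) * (C1 * (2 * a)) ≤ e := by
    clear * - δ0 δj dg P C1 e hδ0 hδj hdg e0 hP hC1
    refine ⟨min (min δ0 δj) (min (min dg (1 / 2)) (e / ((P + P / 4) * (C1 + 1) * 2))),
      by positivity, (min_le_left _ _).trans (min_le_left _ _),
      (min_le_left _ _).trans (min_le_right _ _),
      (min_le_right _ _).trans ((min_le_left _ _).trans (min_le_left _ _)),
      (min_le_right _ _).trans ((min_le_left _ _).trans (min_le_right _ _)), ?_⟩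
    generalize hb : min (min δ0 δj)
      (min (min dg (1 / 2)) (e / ((P + P / 4) * (C1 + 1) * 2))) = b
    have b0 : 0 < b := by rw [← hb]; positivity
    have b1 : b ≤ e / ((P + P / 4) * (C1 + 1) * 2) :=
      hb ▸ (min_le_right _ _).trans (min_le_right _ _)
    rw [le_div_iff₀ (by positivity)] at b1
    have b2 : 0 ≤ (P + P / 4) * b := by positivity
    linarith only [b1, b2]
  obtain ⟨δ, δ0', δ1, 𝒩, h𝒩, HN⟩ := two_near hS hF hc hD.cal hD.per hd0 a0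
  refine ⟨q, δ, 2 / κ * (C1 * C0 * (2 + 2 / P) + (2 * M0) ^ 2 * (2 * P)), δ0', by positivity, _,
    inter_mem h𝒩 ((nb_adm F c).and (nb_small F c (max R0 (max R1 R2)) a0)), ?_⟩
  rintro p1 ⟨n1, A1, -⟩ p2 ⟨n2, A2, S2⟩ x1 x2 ξ2 T1 T2 c1 q1 s1 t1 D2 s2 t2 i1 i2 hL s η k ρ hs hρ
    Sρ he
  obtain ⟨z1, c3, U⟩ := HN p1 n1 p2 n2 x1 x2 T1 T2 c1 q1 s1 t1 D2.cal D2.per s2 t2
  have F1 := hF.addPot A1.1 A1.2.1
  have F2 := hF.addPot A2.1 A2.2.1
  obtain ⟨u1, hu1⟩ := exists_inS hS F1 A1.2.2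
  have aP : a ≤ P / 4 := a1.trans (hδ1.trans (min_le_left _ _))
  have t3 := U.t1.trans aP
  have t4 := U.t2.trans aP
  have hG : ContDiff ℝ 2 (per Γ (gq q)) :=
    contDiff_infty.1 (per_contDiff hS (gq_contDiff q) (gq_cpt q)) 2
  obtain ⟨G1, G2⟩ := HG z1 T1 U.o1.1 (fun t ht => (U.n1 t ht).trans a3) t3
  obtain ⟨G3, -⟩ := HG x2 T2 U.o2.1 (fun t ht => (U.n2 t ht).trans a3) t4
  have B0 : ∀ {z : ℝ → E}, (∀ t ∈ Icc 0 (P + P / 4), ‖ph z t - ph x t‖ ≤ a) →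
      ∀ t ∈ Icc 0 (P + P / 4), ‖ph z t‖ ≤ R0 := fun {z} h t ht => by
    linarith only [a0, a4, h, ht, hR0, h t ht, hR0 t ht, norm_le_norm_add_norm_sub' (ph z t) (ph x t)]
  have B1 := B0 U.n1
  have B2 := B0 U.n2
  have B3 : ∀ {z : ℝ → E} {t : ℝ}, ‖ph z t‖ ≤ R0 → ‖z t‖ ≤ max R0 (max R1 R2) := fun h =>
    ((norm_fst_le _).trans h).trans (le_max_left _ _)
  have η0 : 0 ≤ η := (abs_nonneg _).trans (Sρ _ (B3 (B1 0 ⟨le_rfl, by linarith only [a0, aP]⟩))).1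
  have K1 := fun t ht => Key_src A2.1 hG hρ hs he (G1 t ht) (Sρ _ (B3 (B1 t ht)))
  have K2 := fun t ht => Key_src A2.1 hG hρ hs he (G3 t ht) (Sρ _ (B3 (B2 t ht)))
  have K3 := kbound hS hF A1 A2 hP c3 D2.cal U.p1 U.p2 t3 t4 fun t ht => ⟨(K1 t ht).1, (K2 t ht).1⟩
  have w0 := abs_nonneg (p1.2.1 σ - p2.2.1 σ)
  generalize |p1.2.1 σ - p2.2.1 σ| = w at K3 w0 ⊢
  have w1 : 0 ≤ 2 / P * w := by positivity
  have w2 : 0 ≤ s * (ε * κ) := by positivity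
  obtain ⟨L1, L2⟩ := HL p1.1 p2.1 z1 x2 T1 T2 (2 * (s * (ε * κ) + η) + 2 / P * w) A1.1 A2.1
    (S2.mono ((le_max_left _ _).trans (le_max_right _ _)) a1) (U.mono a1) fun t ht =>
      ⟨by linarith only [K3, K1, ht, (K1 t ht).1, abs_sub_abs_le_abs_sub (p1.1 (z1 t) - p2.1 (z1 t)) k],
        by linarith only [η0, w1, w2, K1, ht, (K1 t ht).2]⟩
  have J := HJ p2.1 A2.1 (S2.mono ((le_max_right _ _).trans (le_max_right _ _)) a2) x2 ξ2
    (fun t ht => (U.n2 t ht).trans a2) D2.jac (i1.trans (δ1.trans a2)) (i2.trans (δ1.trans a2))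
  have an := D2.anti 0
  rw [zero_add] at an
  obtain ⟨v, v1, v2, v3⟩ := HC p2.1 z1 x2 ξ2 T1 T2
    (min (C0 * (2 * (s * (ε * κ) + η) + 2 / P * w)) (2 * a)) A2.1
    (S2.mono (le_max_left _ _) (by linarith only [a0, a4]))
    (fun y y' h h' => hL y y' (h.trans (le_max_left _ _)) (h'.trans (le_max_left _ _)))
    U.o1.1 U.o2.1 D2.jac.1 U.p1 U.p2 t3 t4 an ((min_le_right _ _).trans (by linarith only [a4]))
    (le_min L2 (by linarith only [δ1, t1, t2, U.t1, U.t2, abs_sub_le T1 P T2, abs_sub_comm P T2]))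
    fun t ht => ⟨B1 t ht, B2 t ht,
      by linarith only [e1, J, ht, hM0, J t ht, hM0 t ht, norm_le_norm_add_norm_sub' (ph ξ2 t) (ph ξ t)],
      le_min (L1 t ht) (by
        linarith only [U, ht, U.n1 t ht, U.n2 t ht, norm_sub_rev (ph x t) (ph x2 t),
          norm_sub_le_norm_sub_add_norm_sub (ph z1 t) (ph x t) (ph x2 t)])⟩
  have hζ : ContDiff ℝ 1 fun t : ℝ => ξ2 t + t • v := D2.jac.1.add (contDiff_id.smul contDiff_const)
  have Z1 : ∀ t ∈ Icc 0 (P + P / 4), ‖ξ2 t + t • v - ξ t‖ ≤ 2 * e := fun t ht => by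
    have m2 : ‖ξ2 t - ξ t‖ ≤ e := (norm_fst_le (ph ξ2 t - ph ξ t)).trans (J t ht)
    have m3 : ‖t • v‖ ≤ e := by
      rw [norm_smul, Real.norm_of_nonneg ht.1]
      exact (mul_le_mul ht.2 (v1.trans (mul_le_mul_of_nonneg_left (min_le_right _ _) hC1))
        (norm_nonneg _) (by linarith only [a0, aP])).trans a5
    rw [add_sub_right_comm]
    linarith only [m2, m3, norm_add_le (ξ2 t - ξ t) (t • v)]
  have Z2 : ∀ t ∈ Icc 0 (P + P / 4), ‖ξ2 t + t • v‖ ≤ 2 * M0 := fun t ht => by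
    have m2 : ‖ξ t‖ ≤ ‖ph ξ t‖ := norm_fst_le (ph ξ t)
    linarith only [M1, e1, m2, Z1, ht, hM0, Z1 t ht, hM0 t ht, norm_le_norm_add_norm_sub' (ξ2 t + t • v) (ξ t)]
  have Z3 := G2 _ hζ.continuous Z2 fun t h ht => hw t h _ (Z1 t ht)
  have Z4 := sv_nonneg hS F1 hu1 (c3 u1 hu1) U.p1 hζ (by
    simp only [zero_smul, add_zero]
    exact v2)
  have Z5 := Key_sv hF.c2 A1.1 A2.1 hG hρ he U.o1.1 hζ T1 σ
  rw [sv_zero hS F2 U.o2 U.p2 D2.jac D2.anti, zero_add] at v3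
  have T0 := U.p1.1
  obtain ⟨t5, t6⟩ := abs_le.1 t3
  have Z6 := intervalIntegral.norm_integral_le_of_norm_le_const (a := 0) (b := T1)
    (C := η * (2 * M0) * (2 * M0))
    (f := fun t => fderiv ℝ (fderiv ℝ ρ) (z1 t) (ξ2 t + t • v) (ξ2 t + t • v)) fun t ht => by
      rw [uIoc_of_le T0.le] at ht
      have m2 : t ∈ Icc 0 (P + P / 4) := ⟨ht.1.le, by linarith only [t6, ht, ht.2]⟩
      exact ContinuousLinearMap.le_of_opNorm₂_le_of_le _ (Sρ _ (B3 (B1 t m2))).2.2 (Z2 t m2)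
        (Z2 t m2)
  rw [sub_zero, abs_of_pos T0] at Z6
  have Z7 := (le_abs_self _).trans (Z6.trans (mul_le_mul_of_nonneg_left
    (by linarith only [a0, aP, t6] : T1 ≤ 2 * P) (by positivity)))
  have Z8 := mul_le_mul_of_nonneg_left Z3 hs
  have Z9 := mul_le_mul_of_nonneg_left (min_le_left
    (C0 * (2 * (s * (ε * κ) + η) + 2 / P * w)) (2 * a)) hC1
  have Y1 := mul_le_mul_of_nonneg_right ε1 (mul_nonneg hs κ0.le)
  have Y2 : 0 ≤ C1 * C0 * (2 / P) * η := by clear * - C1 C0 P η hC1 hC0 hP η0; positivity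
  have Y3 : 0 ≤ C1 * C0 * w := by clear * - C1 C0 w hC1 hC0 w0; positivity
  have Y4 : 0 ≤ M0 ^ 2 * P * w := by positivity
  rw [mul_assoc, div_mul_eq_mul_div, le_div_iff₀ κ0]
  linarith only [v3, Z4, Z5, Z7, Z8, Z9, Y1, Y2, Y3, Y4]

end Pool.Agent.Work.MP_1ce82a_an
end

-- merged part: Pool.Agent.Work.MP_1ce82a_an.D.Cover
section
/-! The degenerate parameters are covered by countably many closed sets which meet the lines of one coordinate direction in null sets.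
PLAN. cone_null: the inequality passes to the closure (both sides are continuous in the pair), so two points of the closure on the line have the same clamped coordinate; hence the set of s in Ioo 0 1 is a subsingleton.
deg_cover: fix s in the countable group. W = X x E x R x E x (E ->L R); the set of data ((c, t), x 0, P, xi 0, mom xi 0) of all DegD (nl L (f t) (e c)) (e c) x P s xi. At a datum apply key_cone to F0 = nl L (f t0) (e c0) (C^3), M from Fam.lip (par differs from f t - f t0 by a constant), i with g i = per (gq q); U = preimage of the neighbourhood under par (tendsto_par, Fam.cont) times balls of radius delta.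
For two data in U, ordered so that cl (t i) <= cl (t' i), take p1 = par at (c, t), p2 = par at (c', t') (par_eq), s = (cl (t' i) - cl (t i)) a i, rho from Fam.dec. Countably many U cover the data set (TopologicalSpace.countable_cover_nhdsWithin); Z = closure of the projection of U inter data.
ae_sd2: copy ae_sd of Q/AE, adding AE_sec and ae_ae_comm for the complements of the closed sets (ae_ball_iff). -/

open Set Filter Topology MeasureTheory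
open scoped ContDiff

namespace Pool.Agent.Work.MP_1ce82a_an

variable {Γ : Grp}

theorem cone_null {b : ℕ} {S : Set ((Fin b → ℝ) × (ℕ → ℝ))} {i : ℕ}
    {D : ((Fin b → ℝ) × (ℕ → ℝ)) × ((Fin b → ℝ) × (ℕ → ℝ)) → ℝ} (hD : Continuous D)
    (h0 : ∀ c t s s', D ((c, Function.update t i s), (c, Function.update t i s')) = 0)
    (hS : ∀ p ∈ S, ∀ p' ∈ S, |Rand_cl (p.2 i) - Rand_cl (p'.2 i)| ≤ D (p, p')) (c : Fin b → ℝ)
    (t : ℕ → ℝ) :
    ∀ᵐ s ∂(volume.restrict (Ioo (0 : ℝ) 1)), (c, Function.update t i s) ∉ closure S := by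
  have hc : ∀ p ∈ closure S, ∀ p' ∈ closure S,
      |Rand_cl (p.2 i) - Rand_cl (p'.2 i)| ≤ D (p, p') := fun p hp p' hp' => by
    have k : (p, p') ∈ closure (S ×ˢ S) := by
      rw [closure_prod_eq]
      exact ⟨hp, hp'⟩
    exact closure_minimal (t := {q | |Rand_cl (q.1.2 i) - Rand_cl (q.2.2 i)| ≤ D q})
      (fun q hq => hS _ hq.1 _ hq.2) (isClosed_le
        (by have := Rand_cl_cont; fun_prop) hD) k
  have hB : {s ∈ Ioo (0 : ℝ) 1 | (c, Function.update t i s) ∈ closure S}.Subsingleton := by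
    intro s hs s' hs'
    have := hc _ hs.2 _ hs'.2
    rw [h0] at this
    simp only [Function.update_self] at this
    rw [Rand_cl_eq hs.1.1.le hs.1.2.le, Rand_cl_eq hs'.1.1.le hs'.1.2.le] at this
    exact sub_eq_zero.1 (abs_nonpos_iff.1 this)
  exact (ae_restrict_iff' measurableSet_Ioo).2
    ((hB.countable.ae_notMem volume).mono fun s hs h1 h2 => hs ⟨h1, h2⟩)

/-- The data of the degenerate orbits with a given deck transformation. -/
def Cover_dat {b : ℕ} (L : E × E → ℝ) (e : (Fin b → ℝ) ≃ₗ[ℝ] H1 Γ) (f : (ℕ → ℝ) → Cinf Γ)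
    (σ : Γ) : Set (((Fin b → ℝ) × (ℕ → ℝ)) × E × ℝ × E × (E →L[ℝ] ℝ)) :=
  {w | ∃ c t x P ξ, DegD (nl L (f t) (e c)) (e c) x P σ ξ ∧
    w = ((c, t), x 0, P, ξ 0, mom (nl L (f t) (e c)) x ξ 0)}

theorem Cover_loc (hS : Surf Γ) {L : E × E → ℝ} (hL : Tonelli Γ L) (h3 : ContDiff ℝ 3 L) {b : ℕ}
    (e : (Fin b → ℝ) ≃ₗ[ℝ] H1 Γ) {g : ℕ → E → ℝ} {f : (ℕ → ℝ) → Cinf Γ} {a : ℕ → ℝ}
    (hf : Fam g f a) (hg : ∀ q, ∃ i, g i = per Γ (gq q)) (σ : Γ) :
    ∀ w ∈ Cover_dat L e f σ, ∃ U i, U ∈ 𝓝 w ∧ ∀ c t, ∀ᵐ s ∂(volume.restrict (Ioo (0 : ℝ) 1)),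
      (c, Function.update t i s) ∉ closure (Prod.fst '' (U ∩ Cover_dat L e f σ)) := by
  rintro _ ⟨c0, t0, x, P, ξ, hD, rfl⟩
  have c3 : ContDiff ℝ 3 (nl L (f t0) (e c0)) :=
    (h3.add (((f t0).2.1.of_le (Cmp_le 3)).comp contDiff_fst)).add contDiff_const
  obtain ⟨R, hR⟩ := key_cone hS (nl_tonelli hL _ _) c3 (nl_crit hS hL _ _) hD
  obtain ⟨M, hM⟩ := hf.lip R
  obtain ⟨q, δ, C, hδ, hC, 𝒩, hN, key⟩ := hR M
  obtain ⟨i, hi⟩ := hg q
  obtain ⟨D, d1, d2, d3⟩ := hf.dec R i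
  have a0 := hf.pos i
  have ce : Continuous fun c => (e c).1 σ :=
    ((LinearMap.proj σ).comp ((H1 Γ).subtype.comp e.toLinearMap)).continuous_of_finiteDimensional
  refine ⟨({p | par L (f t0) (e c0) (f p.2) (e p.1) ∈ 𝒩}) ×ˢ Metric.closedBall (x 0) δ ×ˢ
    Metric.closedBall P δ ×ˢ Metric.closedBall (ξ 0) δ ×ˢ Metric.closedBall _ δ, i,
    prod_mem_nhds ?_ (prod_mem_nhds (Metric.closedBall_mem_nhds _ hδ)
      (prod_mem_nhds (Metric.closedBall_mem_nhds _ hδ) (prod_mem_nhds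
        (Metric.closedBall_mem_nhds _ hδ) (Metric.closedBall_mem_nhds _ hδ)))),
    cone_null (D := fun p => C / a i * (|D (p.1.2, p.2.2)| + |D (p.2.2, p.1.2)| +
      |(e p.1.1).1 σ - (e p.2.1).1 σ|)) (by fun_prop) (fun c t s s' => by simp [d2]) ?_⟩
  · exact ((tendsto_par hS hL e c0 (f t0)).comp
      ((continuous_fst.prodMk (hf.cont.comp continuous_snd)).tendsto (c0, t0))) hN
  have half : ∀ p ∈ Prod.fst '' ((({p | par L (f t0) (e c0) (f p.2) (e p.1) ∈ 𝒩}) ×ˢ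
      Metric.closedBall (x 0) δ ×ˢ Metric.closedBall P δ ×ˢ Metric.closedBall (ξ 0) δ ×ˢ
        Metric.closedBall (mom (nl L (f t0) (e c0)) x ξ 0) δ) ∩ Cover_dat L e f σ),
      ∀ p' ∈ Prod.fst '' ((({p | par L (f t0) (e c0) (f p.2) (e p.1) ∈ 𝒩}) ×ˢ
      Metric.closedBall (x 0) δ ×ˢ Metric.closedBall P δ ×ˢ Metric.closedBall (ξ 0) δ ×ˢ
        Metric.closedBall (mom (nl L (f t0) (e c0)) x ξ 0) δ) ∩ Cover_dat L e f σ),
      Rand_cl (p'.2 i) - Rand_cl (p.2 i) ≤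
        C / a i * (|D (p.2, p'.2)| + |(e p.1).1 σ - (e p'.1).1 σ|) := by
    rintro _ ⟨_, ⟨⟨n1, n2, n3, -⟩, c1, t1, x1, P1, ξ1, k1, rfl⟩, rfl⟩
      _ ⟨_, ⟨⟨m1, m2, m3, m4, m5⟩, c2, t2, x2, P2, ξ2, k2, rfl⟩, rfl⟩
    dsimp only
    rcases le_total (Rand_cl (t2 i)) (Rand_cl (t1 i)) with o | o
    · exact (sub_nonpos.2 o).trans (by positivity)
    obtain ⟨ρ, r1, r2, r3⟩ := d3 t1 t2
    have h5 : fderiv ℝ (par L (f t0) (e c0) (f t2) (e c2)).1 =
        fderiv ℝ fun y => (f t2).1 y - (f t0).1 y := funext fun y => fderiv_add_const _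
    have := key _ n1 _ m1 x1 x2 ξ2 P1 P2 (by rw [par_eq]; exact k1.cal) k1.per
      (mem_closedBall_iff_norm.1 n2) n3 (by rw [par_eq]; exact k2)
      (mem_closedBall_iff_norm.1 m2) m3 (mem_closedBall_iff_norm.1 m4)
      (by rw [par_eq]; exact mem_closedBall_iff_norm.1 m5)
      (by unfold LipD2; rw [h5]; exact hM t2 t0) ((Rand_cl (t2 i) - Rand_cl (t1 i)) * a i) _
      (alc (addPot L (f t1).1) (e c1) - alc (addPot L (f t2).1) (e c2)) ρ
      (mul_nonneg (sub_nonneg.2 o) a0.le) r1 r2 fun y => by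
        simp only [par]
        rw [r3 y, hi]
        ring
    rw [div_mul_eq_mul_div, le_div_iff₀ a0]
    exact this.trans (mul_le_mul_of_nonneg_left (add_le_add (le_abs_self _) le_rfl) hC)
  intro p hp p' hp'
  have k1 := half p hp p' hp'
  have k2 := half p' hp' p hp
  rw [abs_sub_comm] at k2
  have k3 := mul_nonneg (div_nonneg hC a0.le) (abs_nonneg (D (p.2, p'.2)))
  have k4 := mul_nonneg (div_nonneg hC a0.le) (abs_nonneg (D (p'.2, p.2)))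
  exact abs_le.2 ⟨by linarith only [k1, k4], by linarith only [k2, k3]⟩

theorem deg_cover (hS : Surf Γ) {L : E × E → ℝ} (hL : Tonelli Γ L) (h3 : ContDiff ℝ 3 L) {b : ℕ}
    (e : (Fin b → ℝ) ≃ₗ[ℝ] H1 Γ) {g : ℕ → E → ℝ} {f : (ℕ → ℝ) → Cinf Γ} {a : ℕ → ℝ}
    (hf : Fam g f a) (hg : ∀ q, ∃ i, g i = per Γ (gq q)) :
    ∃ T : Set (Set ((Fin b → ℝ) × (ℕ → ℝ)) × ℕ), T.Countable ∧
      (∀ Z ∈ T, IsClosed Z.1 ∧ ∀ c t,
        ∀ᵐ s ∂(volume.restrict (Ioo (0 : ℝ) 1)), (c, Function.update t Z.2 s) ∉ Z.1) ∧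
      ∀ c t, Deg (nl L (f t) (e c)) (e c) → ∃ Z ∈ T, (c, t) ∈ Z.1 := by
  have := hS.countable
  choose! U i h1 h2 using fun σ => Cover_loc hS hL h3 e hf hg σ
  choose s s1 s2 s3 using fun σ => TopologicalSpace.countable_cover_nhdsWithin
    (f := fun w => U σ w ∩ Cover_dat L e f σ) fun w hw => by
      rw [inter_comm]
      exact inter_mem_nhdsWithin _ (h1 σ w hw)
  refine ⟨⋃ σ, (fun w => (closure (Prod.fst '' (U σ w ∩ Cover_dat L e f σ)), i σ w)) '' s σ,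
    countable_iUnion fun σ => (s2 σ).image _, fun Z hZ => ?_, fun c t ⟨x, P, σ, ξ, hD⟩ => ?_⟩
  · obtain ⟨σ, w, hw, rfl⟩ := mem_iUnion.1 hZ
    exact ⟨isClosed_closure, h2 σ w (s1 σ hw)⟩
  · obtain ⟨w, hw, k⟩ := mem_iUnion₂.1 (s3 σ ⟨c, t, x, P, ξ, hD, rfl⟩)
    exact ⟨_, mem_iUnion.2 ⟨σ, w, hw, rfl⟩, subset_closure ⟨_, k, rfl⟩⟩

theorem ae_sd2 {b : ℕ} {A : (Fin b → ℝ) → (ℕ → ℝ) → ℝ}
    (hA : Continuous (fun q : (Fin b → ℝ) × (ℕ → ℝ) => A q.1 q.2))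
    (h1 : ∀ c t i, ConvexOn ℝ (Ioo 0 1) (fun s : ℝ => A c (Function.update t i s)))
    (h2 : ∀ c t j, ConvexOn ℝ univ (fun s : ℝ => A (c + s • Pi.single j 1) t))
    {T : Set (Set ((Fin b → ℝ) × (ℕ → ℝ)) × ℕ)} (hT : T.Countable)
    (hZ : ∀ Z ∈ T, IsClosed Z.1 ∧ ∀ c t,
      ∀ᵐ s ∂(volume.restrict (Ioo (0 : ℝ) 1)), (c, Function.update t Z.2 s) ∉ Z.1) :
    ∃ t : ℕ → ℝ, (∀ i, t i ∈ Ioo (0 : ℝ) 1) ∧ ∀ᵐ c : Fin b → ℝ,
      ((∀ i, SD (fun s => A c (Function.update t i (t i + s)))) ∧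
        ∀ j, SD (fun s => A (c + s • Pi.single j 1) t)) ∧ ∀ Z ∈ T, (c, t) ∉ Z.1 := by
  let ν : Measure ℝ := volume.restrict (Ioo 0 1)
  have : IsProbabilityMeasure ν := ⟨by simp [ν]⟩
  let μ : Measure (ℕ → ℝ) := Measure.infinitePi fun _ => ν
  have m1 : ∀ i, MeasurableSet {q : (Fin b → ℝ) × (ℕ → ℝ) |
      SD (fun s => A q.1 (Function.update q.2 i (q.2 i + s)))} := fun i =>
    sd_measurable (A := fun (q : (Fin b → ℝ) × (ℕ → ℝ)) s => A q.1 (Function.update q.2 i (q.2 i + s)))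
      (hA.comp (continuous_fst.fst.prodMk (continuous_fst.snd.update i
        (((continuous_apply i).comp continuous_fst.snd).add continuous_snd))))
  have m2 : ∀ j t, MeasurableSet {c : Fin b → ℝ | SD (fun s => A (c + s • Pi.single j 1) t)} :=
    fun j t => sd_measurable (A := fun (c : Fin b → ℝ) s => A (c + s • Pi.single j 1) t)
      (hA.comp ((continuous_fst.add (continuous_snd.smul continuous_const)).prodMk continuous_const))
  have a0 : ∀ᵐ t ∂μ, ∀ i, t i ∈ Ioo (0 : ℝ) 1 := ae_all_iff.2 fun i =>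
    (measurePreserving_eval_infinitePi (fun _ : ℕ => ν) i).quasiMeasurePreserving.ae
      (ae_restrict_mem measurableSet_Ioo)
  have a1 : ∀ᵐ t ∂μ, ∀ i, ∀ᵐ c : Fin b → ℝ, SD (fun s => A c (Function.update t i (t i + s))) :=
    ae_all_iff.2 fun i => (Measure.ae_ae_comm (m1 i)).1 (.of_forall fun c =>
      AE_sec ν i (measurable_prodMk_left (m1 i)) fun t => by
        refine (ae_restrict_iff' measurableSet_Ioo).2 ((sd_ae (h1 c t i)).mono fun s hs h => ?_)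
        simpa using hs h)
  have a2 : ∀ᵐ t ∂μ, ∀ Z ∈ T, ∀ᵐ c : Fin b → ℝ, (c, t) ∉ Z.1 :=
    (ae_ball_iff hT).2 fun Z k => by
      have m3 : MeasurableSet {q : (Fin b → ℝ) × (ℕ → ℝ) | (q.1, q.2) ∉ Z.1} :=
        (hZ Z k).1.measurableSet.compl
      exact (Measure.ae_ae_comm (p := fun c t => (c, t) ∉ Z.1) m3).1 (.of_forall fun c =>
        AE_sec ν Z.2 (measurable_prodMk_left m3) ((hZ Z k).2 c))
  obtain ⟨t, ⟨ht0, ht1⟩, ht2⟩ := ((a0.and a1).and a2).exists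
  refine ⟨t, ht0, ((ae_all_iff.2 ht1).and (ae_all_iff.2 fun j => ?_)).and ((ae_ball_iff hT).2 ht2)⟩
  refine AE_dir (Pi.single j 1) (m2 j t) fun c => (sd_ae_univ (h2 c t j)).mono fun s hs => ?_
  simpa [add_smul, add_assoc] using hs

end Pool.Agent.Work.MP_1ce82a_an
end

-- merged part: Pool.Agent.Work.MP_1ce82a_an.D.Ser
section
/-! Random series with bounds for all derivatives.
PLAN. series2: copy series of Q/Cmp; for a natural number R' >= R take w i = a i * (sum over k <= k0 of B R' k i), and refine s2 to |t i| a i B. exists_fam: f t = f0 + sum cl (t i) a i g i as in Rand_main; differences by Rand_sub, with coefficients of absolute value at most 1 (cl takes values in [0,1]); cont by Cmp_tendsto and continuity of t -> sum |cl (t i) - cl (t0 i)| w i (continuous_tsum);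
dec: rho = the series with coefficients update (cl t - cl t') i 0, D = sum over j of the absolute values of these coefficients times w j; norm_iteratedFDeriv_zero, norm_iteratedFDeriv_fderiv; lip: mean value inequality with the bound for k = 3. -/

open Set Filter Topology MeasureTheory
open scoped ContDiff

namespace Pool.Agent.Work.MP_1ce82a_an

variable {Γ : Grp}

theorem Ser_le {w t : ℕ → ℝ} (w0 : ∀ i, 0 ≤ w i) (ht : ∀ i, |t i| ≤ 1) (i : ℕ) :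
    ‖|t i| * w i‖ ≤ w i := by
  rw [Real.norm_of_nonneg (mul_nonneg (abs_nonneg _) (w0 i))]
  exact mul_le_of_le_one_left (w0 i) (ht i)

theorem Ser_sum {w t : ℕ → ℝ} (w0 : ∀ i, 0 ≤ w i) (w1 : Summable w) (ht : ∀ i, |t i| ≤ 1) :
    Summable fun i => |t i| * w i := w1.of_norm_bounded (Ser_le w0 ht)

theorem Ser_cl (s s' : ℝ) : |Rand_cl s - Rand_cl s'| ≤ 1 := by
  have h : ∀ s, 0 ≤ Rand_cl s := fun s => le_max_left _ _
  have k : ∀ s, Rand_cl s ≤ 1 := fun s => (le_abs_self _).trans (Rand_cl_le s)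
  exact abs_le.2 ⟨by linarith [h s, k s'], by linarith [k s, h s']⟩

theorem Ser_n1 (h : E → ℝ) (x : E) : ‖fderiv ℝ h x‖ = ‖iteratedFDeriv ℝ 1 h x‖ := by
  rw [← norm_iteratedFDeriv_fderiv (n := 0), norm_iteratedFDeriv_zero]

theorem Ser_n2 (h : E → ℝ) (x : E) :
    ‖fderiv ℝ (fderiv ℝ h) x‖ = ‖iteratedFDeriv ℝ 2 h x‖ := by
  rw [← norm_iteratedFDeriv_fderiv (n := 1), ← norm_iteratedFDeriv_fderiv (n := 0),
    norm_iteratedFDeriv_zero]

theorem Ser_mv {F : Type} [NormedAddCommGroup F] [NormedSpace ℝ F] {φ : E → F}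
    (h : Differentiable ℝ φ) {R M : ℝ} (hM : ∀ x : E, ‖x‖ ≤ R → ‖iteratedFDeriv ℝ 1 φ x‖ ≤ M)
    {a b : E} (ha : ‖a‖ ≤ R) (hb : ‖b‖ ≤ R) : ‖φ a - φ b‖ ≤ M * ‖a - b‖ :=
  (convex_closedBall (0 : E) R).norm_image_sub_le_of_norm_fderiv_le (𝕜 := ℝ) (fun x _ => h x)
    (fun x hx => by
      have := hM x (mem_closedBall_zero_iff.1 hx)
      rwa [← norm_iteratedFDeriv_fderiv (n := 0), norm_iteratedFDeriv_zero] at this)
    (mem_closedBall_zero_iff.2 hb) (mem_closedBall_zero_iff.2 ha)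

theorem Ser_lip {h : E → ℝ} (hh : ContDiff ℝ ∞ h) {R M : ℝ}
    (hM : ∀ x : E, ‖x‖ ≤ R → ‖iteratedFDeriv ℝ 3 h x‖ ≤ M) : LipD2 R M h := fun a b ha hb => by
  have h1 : ContDiff ℝ 2 (fderiv ℝ h) := hh.fderiv_right (m := 2) (by exact_mod_cast Cmp_le 3)
  have h2 : ContDiff ℝ 1 (fderiv ℝ (fderiv ℝ h)) := h1.fderiv_right (m := 1) (by norm_num)
  refine Ser_mv (h2.differentiable one_ne_zero) (fun x hx => ?_) ha hb
  rw [norm_iteratedFDeriv_fderiv, norm_iteratedFDeriv_fderiv]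
  exact hM x hx

theorem series2 {g : ℕ → E → ℝ} (hg : ∀ i, ContDiff ℝ ∞ (g i)) (hb : ∀ i, ∃ M, ∀ x, |g i x| ≤ M)
    (n : ℕ) {ε : ℝ} (hε : 0 < ε) : ∃ a : ℕ → ℝ, (∀ i, 0 < a i) ∧
      (∀ i x, |a i * g i x| ≤ (1 / 2) ^ i) ∧ (∀ t : ℕ → ℝ, (∀ i, |t i| ≤ 1) →
        ContDiff ℝ ∞ (fun x => ∑' i, t i * (a i * g i x)) ∧ ∀ k ≤ n, ∀ x : E, ‖x‖ ≤ n →
          ‖iteratedFDeriv ℝ k (fun x => ∑' i, t i * (a i * g i x)) x‖ ≤ ε) ∧
      ∀ (R : ℝ) (k0 : ℕ), ∃ w : ℕ → ℝ, (∀ i, 0 ≤ w i) ∧ Summable w ∧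
        ∀ t : ℕ → ℝ, (∀ i, |t i| ≤ 1) → ∀ k ≤ k0, ∀ x : E, ‖x‖ ≤ R →
          ‖iteratedFDeriv ℝ k (fun x => ∑' i, t i * (a i * g i x)) x‖ ≤ ∑' i, |t i| * w i := by
  choose χ c1 c2 c3 using Cmp_cut
  choose M hM using hb
  have c4 : ∀ R i, ContDiff ℝ ∞ fun x => χ R x * g i x := fun R i => (c1 R).mul (hg i)
  choose B hB using fun R k i =>
    ((c4 R i).continuous_iteratedFDeriv (Cmp_le k)).bounded_above_of_compact_support
      (HasCompactSupport.iteratedFDeriv (c2 R).mul_right k)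
  have B0 : ∀ R k i, 0 ≤ B R k i := fun R k i => (norm_nonneg _).trans (hB R k i 0)
  have M0 : ∀ i, 0 ≤ M i := fun i => (abs_nonneg _).trans (hM i 0)
  have h1 : ∀ i, ∃ a : ℝ, 0 < a ∧ a * M i ≤ min ε 1 / 2 / 2 ^ i ∧
      ∀ R ≤ max i n, ∀ k ≤ max i n, a * B R k i ≤ min ε 1 / 2 / 2 ^ i := fun i => by
    set S := ∑ R ∈ Finset.range (max i n + 1), ∑ k ∈ Finset.range (max i n + 1), B R k i with hS
    have S0 : 0 ≤ S := Finset.sum_nonneg fun R _ => Finset.sum_nonneg fun k _ => B0 R k i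
    have := M0 i
    have d0 : 0 < min ε 1 / 2 / 2 ^ i := by positivity
    have key : ∀ y, y ≤ S + M i + 1 →
        min ε 1 / 2 / 2 ^ i / (S + M i + 1) * y ≤ min ε 1 / 2 / 2 ^ i := fun y hy => by
      rw [div_mul_eq_mul_div, div_le_iff₀ (by positivity)]
      exact mul_le_mul_of_nonneg_left hy d0.le
    refine ⟨min ε 1 / 2 / 2 ^ i / (S + M i + 1), by positivity, key _ (by linarith only [S0]),
      fun R hR k hk => key _ ?_⟩
    have : B R k i ≤ S :=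
      (Finset.single_le_sum (f := fun k => B R k i) (fun k _ => B0 R k i)
        (Finset.mem_range.2 (Nat.lt_succ_of_le hk))).trans
      (Finset.single_le_sum (f := fun R => ∑ k ∈ Finset.range (max i n + 1), B R k i)
        (fun R _ => Finset.sum_nonneg fun k _ => B0 R k i)
        (Finset.mem_range.2 (Nat.lt_succ_of_le hR)))
    linarith
  choose a a0 a1 a2 using h1
  have s1 : ∀ (t : ℕ → ℝ) R i, ContDiff ℝ ∞ fun x => t i * a i * (χ R x * g i x) :=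
    fun t R i => contDiff_const.mul (c4 R i)
  have s0 : ∀ (t : ℕ → ℝ) R k i x,
      ‖iteratedFDeriv ℝ k (fun x => t i * a i * (χ R x * g i x)) x‖ ≤
        |t i| * (a i * B R k i) := fun t R k i x => by
    rw [Cmp_smul (c4 R i), abs_mul, abs_of_pos (a0 i), mul_assoc]
    exact mul_le_mul_of_nonneg_left (mul_le_mul_of_nonneg_left (hB R k i x) (a0 i).le)
      (abs_nonneg _)
  have s2 : ∀ (t : ℕ → ℝ), (∀ i, |t i| ≤ 1) → ∀ R k i x,
      ‖iteratedFDeriv ℝ k (fun x => t i * a i * (χ R x * g i x)) x‖ ≤ a i * B R k i :=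
    fun t ht R k i x => (s0 t R k i x).trans
      (mul_le_of_le_one_left (mul_nonneg (a0 i).le (B0 R k i)) (ht i))
  have s3 : ∀ R k, Summable fun i => a i * B R k i := fun R k => by
    refine Summable.of_norm_bounded_eventually_nat (hasSum_geometric_two' (min ε 1)).summable ?_
    filter_upwards [eventually_ge_atTop R, eventually_ge_atTop k] with i b1 b2
    rw [Real.norm_of_nonneg (mul_nonneg (a0 i).le (B0 R k i))]
    exact a2 i R (le_max_of_le_left b1) k (le_max_of_le_left b2)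
  have s4 : ∀ (t : ℕ → ℝ) (R : ℕ) (x : E), ‖x‖ ≤ R →
      (fun x => ∑' i, t i * (a i * g i x)) =ᶠ[𝓝 x]
      fun x => ∑' i, t i * a i * (χ R x * g i x) := fun t R x hx => by
    filter_upwards [continuous_norm.continuousAt.eventually
      (gt_mem_nhds (show ‖x‖ < R + 1 by linarith))] with y hy
    simp only [c3 R y hy, one_mul, mul_assoc]
  have s5 : ∀ (t : ℕ → ℝ), (∀ i, |t i| ≤ 1) → ∀ (R k : ℕ) (x : E), ‖x‖ ≤ R →
      iteratedFDeriv ℝ k (fun x => ∑' i, t i * (a i * g i x)) x =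
        ∑' i, iteratedFDeriv ℝ k (fun x => t i * a i * (χ R x * g i x)) x :=
    fun t ht R k x hx => by
      rw [((s4 t R x hx).iteratedFDeriv ℝ k).self_of_nhds, iteratedFDeriv_tsum_apply (N := ⊤)
        (s1 t R) (fun k _ => s3 R k) (fun k i x _ => s2 t ht R k i x) le_top]
  refine ⟨a, a0, fun i x => ?_, fun t ht => ⟨contDiff_iff_contDiffAt.2 fun x => ?_,
    fun k hk x hx => ?_⟩, fun R k0 => ?_⟩
  · rw [abs_mul, abs_of_pos (a0 i), one_div, inv_pow, ← one_div]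
    refine (mul_le_mul_of_nonneg_left (hM i x) (a0 i).le).trans ((a1 i).trans ?_)
    have := min_le_right ε 1
    gcongr
    linarith only [this]
  · obtain ⟨R, hR⟩ := exists_nat_ge ‖x‖
    exact (contDiff_tsum (N := ⊤) (s1 t R) (fun k _ => s3 R k)
      fun k i x _ => s2 t ht R k i x).contDiffAt.congr_of_eventuallyEq (s4 t R x hR)
  · rw [s5 t ht n k x hx]
    exact (tsum_of_norm_bounded (hasSum_geometric_two' (min ε 1)) fun i => (s2 t ht n k i x).trans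
      (a2 i n (le_max_right _ _) k (le_max_of_le_right hk))).trans (min_le_left _ _)
  · obtain ⟨R', hR⟩ := exists_nat_ge R
    have w0 : ∀ i, 0 ≤ ∑ k ∈ Finset.range (k0 + 1), a i * B R' k i := fun i =>
      Finset.sum_nonneg fun k _ => mul_nonneg (a0 i).le (B0 R' k i)
    have w1 : Summable fun i => ∑ k ∈ Finset.range (k0 + 1), a i * B R' k i :=
      summable_sum fun k _ => s3 R' k
    refine ⟨_, w0, w1, fun t ht k hk x hx => ?_⟩
    rw [s5 t ht R' k x (hx.trans hR)]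
    refine tsum_of_norm_bounded (Ser_sum w0 w1 ht).hasSum fun i => (s0 t R' k i x).trans ?_
    exact mul_le_mul_of_nonneg_left (Finset.single_le_sum (f := fun k => a i * B R' k i)
      (fun k _ => mul_nonneg (a0 i).le (B0 R' k i)) (Finset.mem_range.2 (Nat.lt_succ_of_le hk)))
      (abs_nonneg _)

theorem exists_fam (hS : Surf Γ) (f0 : Cinf Γ) {N : Set (Cinf Γ)} (hN : N ∈ 𝓝 f0)
    {g : ℕ → E → ℝ} (hg : ∀ i, ContDiff ℝ ∞ (g i)) (hi : ∀ i, Inv Γ (g i)) :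
    ∃ (f : (ℕ → ℝ) → Cinf Γ) (a : ℕ → ℝ), Fam g f a ∧ ∀ t, f t ∈ N := by
  obtain ⟨n, ε, hε, hn⟩ := cinf_basis f0 hN
  obtain ⟨a, ha, hb, hs, hw⟩ := series2 hg
    (fun i => (hS.bdd_inv (hg i).continuous (hi i)).imp fun M h => h.2) n hε
  let f : (ℕ → ℝ) → Cinf Γ := fun t => ⟨fun x => f0.1 x + ∑' i, Rand_cl (t i) * (a i * g i x),
    f0.2.1.add (hs _ fun i => Rand_cl_le _).1, fun γ x => by simp only [f0.inv γ x, hi _ γ x]⟩
  have hd : ∀ t t' x, (f t').1 x - (f t).1 x =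
      ∑' i, (Rand_cl (t' i) - Rand_cl (t i)) * (a i * g i x) := fun t t' x =>
    (add_sub_add_left_eq_sub _ _ _).trans (Rand_sub (fun i => hb i x) t t')
  have hd' : ∀ t t', (fun x => (f t').1 x - (f t).1 x) =
      fun x => ∑' i, (Rand_cl (t' i) - Rand_cl (t i)) * (a i * g i x) :=
    fun t t' => funext (hd t t')
  refine ⟨f, a, ⟨ha, continuous_iff_continuousAt.2 fun t0 => Cmp_tendsto.2 fun k K hK δ hδ => ?_,
    fun t t' y => ?_, fun t i s y => ?_, fun R i => ?_, fun R => ?_⟩,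
    fun t => hn _ fun k hk x hx => ?_⟩
  · obtain ⟨R, hR⟩ := hK.isBounded.exists_norm_le
    obtain ⟨w, w0, w1, w2⟩ := hw R k
    have c1 : Continuous fun t : ℕ → ℝ => ∑' i, |Rand_cl (t i) - Rand_cl (t0 i)| * w i :=
      continuous_tsum (fun i => (((Rand_cl_cont.comp (continuous_apply i)).sub
        continuous_const).abs).mul continuous_const) w1
          fun i t => Ser_le w0 (fun i => Ser_cl (t i) (t0 i)) i
    filter_upwards [(c1.tendsto t0).eventually (gt_mem_nhds (a := δ) (by simpa using hδ))]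
      with t ht x hx
    rw [hd']
    exact (w2 _ (fun i => Ser_cl (t i) (t0 i)) k le_rfl x (hR x hx)).trans_lt ht
  · rw [hd, ← Real.norm_eq_abs]
    refine tsum_of_norm_bounded (Summable.of_norm_bounded (summable_geometric_two.mul_left 2)
      fun i => Rand_bd _ _ i).hasSum fun i => ?_
    rw [Real.norm_eq_abs, abs_mul]
    exact mul_le_mul_of_nonneg_left (hb i y) (abs_nonneg _)
  · refine eq_add_of_sub_eq' ?_
    rw [hd, tsum_eq_single i fun j hj => by rw [Function.update_of_ne hj, sub_self, zero_mul],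
      Function.update_self]
  · obtain ⟨w, w0, w1, w2⟩ := hw R 2
    have c0 : ∀ (t t' : ℕ → ℝ) j,
        |if j = i then 0 else Rand_cl (t j) - Rand_cl (t' j)| ≤ 1 := fun t t' j => by
      split_ifs
      exacts [abs_zero.trans_le zero_le_one, Ser_cl _ _]
    refine ⟨fun p => ∑' j, |if j = i then 0 else Rand_cl (p.1 j) - Rand_cl (p.2 j)| * w j,
      continuous_tsum (fun j => (Continuous.abs ?_).mul continuous_const) w1
        fun j p => Ser_le w0 (c0 p.1 p.2) j, fun t s s' => ?_, fun t t' =>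
      ⟨fun y => ∑' j, (if j = i then 0 else Rand_cl (t j) - Rand_cl (t' j)) * (a j * g j y),
        (hs _ (c0 t t')).1.of_le (Cmp_le 2), fun x hx => ⟨?_, ?_, ?_⟩, fun y => ?_⟩⟩
    · split_ifs
      exacts [continuous_const, (Rand_cl_cont.comp ((continuous_apply j).comp continuous_fst)).sub
        (Rand_cl_cont.comp ((continuous_apply j).comp continuous_snd))]
    · refine (tsum_congr fun j => ?_).trans tsum_zero
      by_cases hj : j = i
      · rw [if_pos hj, abs_zero, zero_mul]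
      · simp only [if_neg hj, Function.update_of_ne hj, sub_self, abs_zero, zero_mul]
    · have := w2 _ (c0 t t') 0 (by norm_num) x hx
      rwa [norm_iteratedFDeriv_zero] at this
    · exact (Ser_n1 _ x).trans_le (w2 _ (c0 t t') 1 (by norm_num) x hx)
    · exact (Ser_n2 _ x).trans_le (w2 _ (c0 t t') 2 le_rfl x hx)
    · have h1 : Summable fun j => (Rand_cl (t j) - Rand_cl (t' j)) * (a j * g j y) :=
        summable_geometric_two.of_norm_bounded fun j => by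
          rw [Real.norm_eq_abs, abs_mul]
          exact (mul_le_of_le_one_left (abs_nonneg _) (Ser_cl _ _)).trans (hb j y)
      rw [add_assoc]
      refine eq_add_of_sub_eq' ?_
      rw [hd, h1.tsum_eq_add_tsum_ite i]
      simp only [ite_mul, zero_mul]
  · obtain ⟨w, w0, w1, w2⟩ := hw R 3
    refine ⟨∑' i, w i, fun t t' => ?_⟩
    have c0 : ∀ i, |Rand_cl (t i) - Rand_cl (t' i)| ≤ 1 := fun i => Ser_cl _ _
    rw [hd']
    exact Ser_lip (hs _ c0).1 fun x hx => (w2 _ c0 3 le_rfl x hx).trans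
      ((Ser_sum w0 w1 c0).tsum_le_tsum (fun i => mul_le_of_le_one_left (w0 i) (c0 i)) w1)
  · simpa only [f, add_sub_cancel_left] using (hs _ fun i => Rand_cl_le (t i)).2 k hk x hx

end Pool.Agent.Work.MP_1ce82a_an
end

-- merged part: Pool.Agent.Work.MP_1ce82a_an.D.Rand
section
/-! Random potentials: quadratic growth and no degenerate orbit for almost every class.
PLAN. Enumerate the sum of Bx x Bool and Bx x Q x Q by the naturals; g i = per f0, per f1 or per (gq q). exists_fam, deg_cover, ae_sd2; then copy the end of Rand_main and rand_qg of Q/Rand (Fam.sup, Fam.upd replace hd and hu). -/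

open Set Filter Topology MeasureTheory
open scoped ContDiff

namespace Pool.Agent.Work.MP_1ce82a_an

variable {Γ : Grp}

theorem Rand_main2 (hS : Surf Γ) {L : E × E → ℝ} (hL : Tonelli Γ L) (h3 : ContDiff ℝ 3 L) {b : ℕ}
    (e : (Fin b → ℝ) ≃ₗ[ℝ] H1 Γ) (f0 : Cinf Γ) {N : Set (Cinf Γ)} (hN : N ∈ 𝓝 f0)
    {g : ℕ → E → ℝ} (hg : ∀ i, ContDiff ℝ ∞ (g i)) (hi : ∀ i, Inv Γ (g i))
    (hq : ∀ q, ∃ i, g i = per Γ (gq q)) :
    ∃ f ∈ N, ∀ᵐ t : Fin b → ℝ,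
      ((∀ c', ∃ m, QG (nl L f (e t)) (e t) c' (fun _ => 0) m) ∧
        ∀ i, ∃ m, QG (nl L f (e t)) (e t) 0 (g i) m) ∧ ¬ Deg (nl L f (e t)) (e t) := by
  obtain ⟨f, a, hf, hn⟩ := exists_fam hS f0 hN hg hi
  obtain ⟨T, T1, T2, T3⟩ := deg_cover hS hL h3 e hf hq
  have hT : ∀ t, Tonelli Γ (addPot L (f t).1) := fun t => hL.addPot (f t).c2 (f t).inv
  have hG : ∀ i, ContDiff ℝ 2 fun x => a i * g i x := fun i =>
    contDiff_const.mul ((hg i).of_le ENat.LEInfty.out)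
  have hI : ∀ i, Inv Γ fun x => a i * g i x := fun i γ x => by simp only [hi i γ x]
  have hu : ∀ t i s, addPot L (f (Function.update t i s)).1 = addPot (addPot L (f t).1)
      fun x => (Rand_cl s - Rand_cl (t i)) * (a i * g i x) := fun t i s => by
    rw [addPot_addPot]
    exact congrArg _ (funext fun x => hf.upd t i s x)
  obtain ⟨t, ht, h⟩ := ae_sd2 (A := fun c t => alc (addPot L (f t).1) (e c))
    (Rand_cont (D := fun t' t => ∑' i, |Rand_cl (t' i) - Rand_cl (t i)| * (1 / 2) ^ i)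
      (fun t => alc_cont hS (hT t) e)
      (fun t => continuous_tsum (fun i => (((Rand_cl_cont.comp (continuous_apply i)).sub
        continuous_const).abs).mul continuous_const) (summable_geometric_two.mul_left 2)
          fun i t' => Rand_bd _ _ i)
      (fun t => by simp) fun c t t' => alc_lip hS hL _ (f t').c2 (f t').inv (f t).c2 (f t).inv
        fun x => hf.sup t t' x)
    (fun c t i => ((alc_convex_pot hS (hT (Function.update t i 0)) (e c) (hG i) (hI i)).subset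
      (subset_univ _) (convex_Ioo 0 1)).congr fun s hs => by
        have k := hu (Function.update t i 0) i s
        rw [Function.update_idem, Function.update_self, Rand_cl_eq hs.1.le hs.2.le,
          Rand_cl_eq le_rfl zero_le_one, sub_zero] at k
        exact congrArg (alc · (e c)) k.symm)
    (fun c t j => ((alc_convex_cls hS (hT t)).comp_affineMap
      (AffineMap.lineMap (e c) (e c + e (Pi.single j 1)))).congr fun s _ => by
        simp [AffineMap.lineMap_apply, add_comm]) T1 T2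
  refine ⟨f t, hn t, h.mono fun c hc => ⟨⟨qg_all_cls (crit_alc hS (hT t) _) e
    fun j => qg_of_sd_cls hS (hT t) _ _ (by simpa using hc.1.2 j), fun i => ?_⟩, fun k => ?_⟩⟩
  · obtain ⟨h0, h1⟩ := ht i
    obtain ⟨m, hm⟩ := qg_of_sd_pot hS (hT t) (e c) (hG i) (hI i)
      ((hc.1.1 i).congr (lt_min h0 (sub_pos.2 h1)) fun s hs => by
        obtain ⟨k1, k2⟩ := abs_le.1 (hs.trans (min_le_left _ _))
        obtain ⟨k3, k4⟩ := abs_le.1 (hs.trans (min_le_right _ _))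
        rw [hu, Rand_cl_eq (by linarith) (by linarith), Rand_cl_eq h0.le h1.le,
          add_sub_cancel_left])
    exact ⟨_, by simpa [(hf.pos i).ne', nl] using hm.smul (a i)⁻¹⟩
  · obtain ⟨Z, hZ, k1⟩ := T3 c t k
    exact hc.2 Z hZ k1

theorem rand_qg2 (hS : Surf Γ) {L : E × E → ℝ} (hL : Tonelli Γ L) (h3 : ContDiff ℝ 3 L) {b : ℕ}
    (e : (Fin b → ℝ) ≃ₗ[ℝ] H1 Γ) (f0 : Cinf Γ) {N : Set (Cinf Γ)} (hN : N ∈ 𝓝 f0) :
    ∃ f ∈ N, ∀ᵐ t : Fin b → ℝ, QGall (nl L f (e t)) (e t) ∧ ¬ Deg (nl L f (e t)) (e t) := by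
  obtain ⟨β, hβ⟩ := exists_surjective_nat ((Bx × Bool) ⊕ (Bx × ℚ × ℚ))
  obtain ⟨f, hf, h⟩ := Rand_main2 hS hL h3 e f0 hN
    (g := fun i => per Γ ((β i).elim (fun p => cond p.2 p.1.f0 p.1.f1) gq))
    (fun i => by
      rcases β i with ⟨B, _ | _⟩ | q
      exacts [per_contDiff hS B.f1_contDiff B.f1_cpt, per_contDiff hS B.f0_contDiff B.f0_cpt,
        per_contDiff hS (gq_contDiff q) (gq_cpt q)]) (fun i => per_inv _) fun q => by
      obtain ⟨i, hi⟩ := hβ (Sum.inr q)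
      exact ⟨i, by rw [hi, Sum.elim_inr]⟩
  refine ⟨f, hf, h.mono fun c hc => ⟨⟨hc.1.1, fun B => ⟨?_, ?_⟩⟩, hc.2⟩⟩
  · obtain ⟨i, hi⟩ := hβ (Sum.inl (B, true))
    simpa only [hi, Sum.elim_inl, cond_true] using hc.1.2 i
  · obtain ⟨i, hi⟩ := hβ (Sum.inl (B, false))
    simpa only [hi, Sum.elim_inl, cond_false] using hc.1.2 i

end Pool.Agent.Work.MP_1ce82a_an
end
end
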